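import Pool.Agent.BIP.Defs

/-!
# From arrays of vectors of `ℝ⁴` to arrays of points of space
-/

open scoped BigOperators

namespace Pool.Agent.BIP

/-- Homogeneous coordinates of a point of space. -/
noncomputable def lift4 (q : EuclideanSpace ℝ (Fin 3)) : V4 := ![1, q 0, q 1, q 2]

theorem ker_line4 (f g : V4 →ₗ[ℝ] ℝ) (h : LinearIndependent ℝ ![f, g]) :
    ∃ x d : EuclideanSpace ℝ (Fin 3), d ≠ 0 ∧
      ∀ q, f (lift4 q) = 0 → g (lift4 q) = 0 → ∃ r : ℝ, x + r • d = q := by
  obtain ⟨φ, hφ⟩ : ∃ φ : Fin 4 → ℝ, ∀ v : V4, f v =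
      φ 0 * v 0 + φ 1 * v 1 + φ 2 * v 2 + φ 3 * v 3 := by
    refine ⟨fun k => f (Pi.single k 1), fun v => ?_⟩
    have hv : v = ∑ k, v k • (Pi.single k 1 : V4) := by
      funext j
      simp [Finset.sum_apply, Pi.single_apply]
    conv_lhs => rw [hv]
    rw [map_sum]
    simp only [map_smul, smul_eq_mul, Fin.sum_univ_four]
    ring
  obtain ⟨ψ, hψ⟩ : ∃ ψ : Fin 4 → ℝ, ∀ v : V4, g v =
      ψ 0 * v 0 + ψ 1 * v 1 + ψ 2 * v 2 + ψ 3 * v 3 := by
    refine ⟨fun k => g (Pi.single k 1), fun v => ?_⟩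
    have hv : v = ∑ k, v k • (Pi.single k 1 : V4) := by
      funext j
      simp [Finset.sum_apply, Pi.single_apply]
    conv_lhs => rw [hv]
    rw [map_sum]
    simp only [map_smul, smul_eq_mul, Fin.sum_univ_four]
    ring
  have hcomb : ∀ a b : ℝ, (∀ k, a * φ k + b * ψ k = 0) → a = 0 ∧ b = 0 := by
    intro a b hab
    rw [LinearIndependent.pair_iff] at h
    refine h a b ?_
    ext v
    simp only [LinearMap.comp_apply, LinearMap.add_apply, LinearMap.smul_apply, smul_eq_mul,
      LinearMap.zero_apply, hφ, hψ]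
    linear_combination (LinearMap.single ℝ (fun _ : Fin 4 => ℝ) v 1) 0 * hab 0 +
      (LinearMap.single ℝ (fun _ : Fin 4 => ℝ) v 1) 1 * hab 1 +
      (LinearMap.single ℝ (fun _ : Fin 4 => ℝ) v 1) 2 * hab 2 +
      (LinearMap.single ℝ (fun _ : Fin 4 => ℝ) v 1) 3 * hab 3
  have hf : ∀ q : EuclideanSpace ℝ (Fin 3), f (lift4 q) =
      φ 0 + φ 1 * q 0 + φ 2 * q 1 + φ 3 * q 2 := by
    intro q; rw [hφ]; simp [lift4]
  have hg : ∀ q : EuclideanSpace ℝ (Fin 3), g (lift4 q) =
      ψ 0 + ψ 1 * q 0 + ψ 2 * q 1 + ψ 3 * q 2 := by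
    intro q; rw [hψ]; simp [lift4]
  by_cases hx : ∃ x : EuclideanSpace ℝ (Fin 3), f (lift4 x) = 0 ∧ g (lift4 x) = 0
  · obtain ⟨x, h1, h2⟩ := hx
    rw [hf] at h1
    rw [hg] at h2
    set d1 : ℝ := φ 2 * ψ 3 - φ 3 * ψ 2 with hd1
    set d2 : ℝ := φ 3 * ψ 1 - φ 1 * ψ 3 with hd2
    set d3 : ℝ := φ 1 * ψ 2 - φ 2 * ψ 1 with hd3
    have hne : ¬ (d1 = 0 ∧ d2 = 0 ∧ d3 = 0) := by
      rintro ⟨e1, e2, e3⟩
      rw [hd1] at e1
      rw [hd2] at e2
      rw [hd3] at e3
      have k1 : φ 1 = 0 := by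
        have := (hcomb (ψ 1) (-φ 1) (by
          intro k
          fin_cases k
          · simp
            linear_combination (ψ 1) * h1 - (φ 1) * h2 + (x 1) * e3 - (x 2) * e2
          · simp
            ring
          · simp
            linear_combination -e3
          · simp
            linear_combination e2)).2
        linarith
      have k2 : φ 2 = 0 := by
        have := (hcomb (ψ 2) (-φ 2) (by
          intro k
          fin_cases k
          · simp
            linear_combination (ψ 2) * h1 - (φ 2) * h2 - (x 0) * e3 + (x 2) * e1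
          · simp
            linear_combination e3
          · simp
            ring
          · simp
            linear_combination -e1)).2
        linarith
      have k3 : φ 3 = 0 := by
        have := (hcomb (ψ 3) (-φ 3) (by
          intro k
          fin_cases k
          · simp
            linear_combination (ψ 3) * h1 - (φ 3) * h2 + (x 0) * e2 - (x 1) * e1
          · simp
            linear_combination -e2
          · simp
            linear_combination e1
          · simp
            ring)).2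
        linarith
      have k0 : φ 0 = 0 := by rw [k1, k2, k3] at h1; linarith
      exact one_ne_zero (hcomb 1 0 (by
        intro k
        fin_cases k <;> simp [k0, k1, k2, k3])).1
    refine ⟨x, !₂[d1, d2, d3], ?_, ?_⟩
    · intro hd
      apply hne
      have a0 := congrFun (congrArg WithLp.ofLp hd) 0
      have a1 := congrFun (congrArg WithLp.ofLp hd) 1
      have a2 := congrFun (congrArg WithLp.ofLp hd) 2
      simp at a0 a1 a2
      exact ⟨a0, a1, a2⟩
    · intro q h3 h4
      rw [hf] at h3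
      rw [hg] at h4
      set u0 : ℝ := q 0 - x 0 with hu0
      set u1 : ℝ := q 1 - x 1 with hu1
      set u2 : ℝ := q 2 - x 2 with hu2
      have o1 : φ 1 * u0 + φ 2 * u1 + φ 3 * u2 = 0 := by rw [hu0, hu1, hu2]; linarith
      have o2 : ψ 1 * u0 + ψ 2 * u1 + ψ 3 * u2 = 0 := by rw [hu0, hu1, hu2]; linarith
      have c1 : u1 * d3 - u2 * d2 = 0 := by
        rw [hd3, hd2]; linear_combination (φ 1) * o2 - (ψ 1) * o1
      have c2 : u2 * d1 - u0 * d3 = 0 := by
        rw [hd1, hd3]; linear_combination (φ 2) * o2 - (ψ 2) * o1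
      have c3 : u0 * d2 - u1 * d1 = 0 := by
        rw [hd1, hd2]; linear_combination (φ 3) * o2 - (ψ 3) * o1
      have hpos : d1 ^ 2 + d2 ^ 2 + d3 ^ 2 ≠ 0 := by
        intro h0
        apply hne
        have p1 := sq_nonneg d1
        have p2 := sq_nonneg d2
        have p3 := sq_nonneg d3
        refine ⟨?_, ?_, ?_⟩ <;> refine pow_eq_zero_iff (two_ne_zero) |>.1 ?_ <;> linarith
      refine ⟨(u0 * d1 + u1 * d2 + u2 * d3) / (d1 ^ 2 + d2 ^ 2 + d3 ^ 2), ?_⟩
      symm
      ext k
      fin_cases k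
      · simp
        have : q 0 = x 0 + u0 := by rw [hu0]; ring
        rw [this]
        field_simp
        linear_combination d2 * c3 - d3 * c2
      · simp
        have : q 1 = x 1 + u1 := by rw [hu1]; ring
        rw [this]
        field_simp
        linear_combination d3 * c1 - d1 * c3
      · simp
        have : q 2 = x 2 + u2 := by rw [hu2]; ring
        rw [this]
        field_simp
        linear_combination d1 * c2 - d2 * c1
  · refine ⟨0, !₂[1, 0, 0], ?_, ?_⟩
    · intro hd
      have a0 := congrFun (congrArg WithLp.ofLp hd) 0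
      simp at a0
    · intro q h1 h2
      exact absurd ⟨q, h1, h2⟩ hx

/-- A line (two independent forms) meets the cone of the lifted points: then it meets their
convex hull. -/
theorem met_hull {n : ℕ} (f g : V4 →ₗ[ℝ] ℝ) (p : Fin n → EuclideanSpace ℝ (Fin 3))
    (h : Met f g (fun j => lift4 (p j))) :
    ∃ q ∈ convexHull ℝ (Set.range p), f (lift4 q) = 0 ∧ g (lift4 q) = 0 := by
  obtain ⟨l, hl0, ⟨j0, hj0⟩, hf, hg⟩ := h
  have hΛ : 0 < ∑ j, l j := Finset.sum_pos' (fun j _ => hl0 j) ⟨j0, Finset.mem_univ _, hj0⟩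
  refine ⟨(∑ j, l j)⁻¹ • ∑ j, l j • p j, ?_, ?_, ?_⟩
  · have := Finset.centerMass_mem_convexHull (R := ℝ) (t := Finset.univ) (w := l) (z := p)
      (s := Set.range p) (fun j _ => hl0 j) hΛ (fun j _ => Set.mem_range_self j)
    simpa [Finset.centerMass] using this
  all_goals
    have e : lift4 ((∑ j, l j)⁻¹ • ∑ j, l j • p j) =
        (∑ j, l j)⁻¹ • ∑ j, l j • lift4 (p j) := by
      funext k
      fin_cases k
      · simp [lift4, Finset.sum_apply]
        field_simp
      · simp [lift4, Finset.sum_apply]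
      · simp [lift4, Finset.sum_apply]
      · simp [lift4, Finset.sum_apply]
    rw [e, map_smul]
    first
      | rw [hf, smul_zero]
      | rw [hg, smul_zero]

theorem hitRows_points {m n : ℕ} (p : Fin m → Fin n → EuclideanSpace ℝ (Fin 3)) (N : ℕ)
    (h : HitRows (fun i j => lift4 (p i j)) N) :
    ∃ x d : EuclideanSpace ℝ (Fin 3), d ≠ 0 ∧
      N ≤ Nat.card {i : Fin m // ∃ t : ℝ, x + t • d ∈ convexHull ℝ (Set.range (p i))} := by
  classical
  obtain ⟨f, g, hfg, S, hS, hmet⟩ := h
  obtain ⟨x, d, hd, hline⟩ := ker_line4 f g hfg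
  refine ⟨x, d, hd, hS.trans ?_⟩
  rw [Nat.card_eq_fintype_card, Fintype.card_subtype]
  refine Finset.card_le_card fun i hi => ?_
  rw [Finset.mem_filter]
  obtain ⟨q, hq, h1, h2⟩ := met_hull f g (p i) (hmet i hi)
  obtain ⟨r, hr⟩ := hline q h1 h2
  exact ⟨Finset.mem_univ _, r, by rw [hr]; exact hq⟩

/-- The input of `two_of_arrays` from hitting of arrays of vectors. -/
theorem points_of_hit {R : ℕ} (N : ℕ) (p : Fin R → Fin R → EuclideanSpace ℝ (Fin 3))
    (h : Hit (fun i j => lift4 (p i j)) N) :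
    ∃ x d : EuclideanSpace ℝ (Fin 3), d ≠ 0 ∧
      (N ≤ Nat.card {i : Fin R // ∃ t : ℝ, x + t • d ∈ convexHull ℝ (Set.range (p i))} ∨
        N ≤ Nat.card {j : Fin R // ∃ t : ℝ,
          x + t • d ∈ convexHull ℝ (Set.range fun i => p i j)}) := by
  rcases h with h | h
  · obtain ⟨x, d, hd, hx⟩ := hitRows_points p N h
    exact ⟨x, d, hd, Or.inl hx⟩
  · obtain ⟨x, d, hd, hx⟩ := hitRows_points (fun j i => p i j) N h
    exact ⟨x, d, hd, Or.inr hx⟩

end Pool.Agent.BIP
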