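import Mathlib

/-! Two families: the existence of a line which meets many hulls is a closed condition on the array, and
arrays in general position are dense. -/

set_option autoImplicit false

open scoped BigOperators

namespace Pool.Agent.BIP

/-- some line meets at least `N` row hulls or at least `N` column hulls -/
def HitE (R N : ℕ) (p : Fin R → Fin R → EuclideanSpace ℝ (Fin 3)) : Prop :=
  ∃ x d : EuclideanSpace ℝ (Fin 3), d ≠ 0 ∧
    (N ≤ Nat.card {i : Fin R // ∃ t : ℝ, x + t • d ∈ convexHull ℝ (Set.range (p i))} ∨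
      N ≤ Nat.card {j : Fin R // ∃ t : ℝ, x + t • d ∈ convexHull ℝ (Set.range fun i => p i j)})

/-- the row `(1, x)` -/
def hrow (x : EuclideanSpace ℝ (Fin 3)) : Fin 4 → ℝ := ![1, x 0, x 1, x 2]

/-- four distinct cells are never coplanar -/
def GenPosE (R : ℕ) (p : Fin R → Fin R → EuclideanSpace ℝ (Fin 3)) : Prop :=
  ∀ a : Fin 4 → Fin R × Fin R, Function.Injective a →
    (Matrix.of fun s => hrow (p (a s).1 (a s).2)).det ≠ 0

theorem clo_mem_hull {J : Type} [Fintype J] (v : J → EuclideanSpace ℝ (Fin 3))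
    (x : EuclideanSpace ℝ (Fin 3)) :
    x ∈ convexHull ℝ (Set.range v) ↔ ∃ w ∈ stdSimplex ℝ J, ∑ j, w j • v j = x := by
  classical
  constructor
  · intro hx
    have hconv : Convex ℝ {y : EuclideanSpace ℝ (Fin 3) | ∃ w ∈ stdSimplex ℝ J, ∑ j, w j • v j = y} := by
      rintro y ⟨w, hw, rfl⟩ z ⟨w', hw', rfl⟩ a b ha hb hab
      refine ⟨a • w + b • w', convex_stdSimplex ℝ J hw hw' ha hb hab, ?_⟩
      simp only [Pi.add_apply, Pi.smul_apply, smul_eq_mul, add_smul, mul_smul,
        Finset.sum_add_distrib, Finset.smul_sum]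
    refine convexHull_min ?_ hconv hx
    rintro _ ⟨j, rfl⟩
    refine ⟨Pi.single j 1, single_mem_stdSimplex ℝ j, ?_⟩
    rw [Finset.sum_eq_single j]
    · simp
    · intro b _ hb
      simp [hb]
    · simp
  · rintro ⟨w, hw, rfl⟩
    exact (convex_convexHull ℝ _).sum_mem (fun j _ => hw.1 j) hw.2
      (fun j _ => subset_convexHull ℝ _ ⟨j, rfl⟩)

theorem clo_closed {K J : Type} [Fintype K] [Fintype J] (S : Finset K) :
    IsClosed {p : K → J → EuclideanSpace ℝ (Fin 3) | ∃ x d : EuclideanSpace ℝ (Fin 3), d ≠ 0 ∧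
      ∀ k ∈ S, ∃ t : ℝ, x + t • d ∈ convexHull ℝ (Set.range (p k))} := by
  classical
  rcases S.eq_empty_or_nonempty with rfl | ⟨k0, hk0⟩
  · have : {p : K → J → EuclideanSpace ℝ (Fin 3) | ∃ x d : EuclideanSpace ℝ (Fin 3), d ≠ 0 ∧
      ∀ k ∈ (∅ : Finset K), ∃ t : ℝ, x + t • d ∈ convexHull ℝ (Set.range (p k))} = Set.univ := by
      refine Set.eq_univ_of_forall fun p => ?_
      obtain ⟨d, hd⟩ := exists_ne (0 : EuclideanSpace ℝ (Fin 3))
      exact ⟨0, d, hd, fun k hk => absurd hk (Finset.notMem_empty k)⟩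
    rw [this]
    exact isClosed_univ
  rcases isEmpty_or_nonempty J with hJ | hJ
  · have : {p : K → J → EuclideanSpace ℝ (Fin 3) | ∃ x d : EuclideanSpace ℝ (Fin 3), d ≠ 0 ∧
      ∀ k ∈ S, ∃ t : ℝ, x + t • d ∈ convexHull ℝ (Set.range (p k))} = ∅ := by
      refine Set.eq_empty_iff_forall_notMem.2 ?_
      rintro p ⟨x, d, -, h⟩
      obtain ⟨t, ht⟩ := h k0 hk0
      rw [Set.range_eq_empty, convexHull_empty] at ht
      exact ht
    rw [this]
    exact isClosed_empty
  refine IsSeqClosed.isClosed ?_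
  intro p q hp hpq
  obtain ⟨M, hM⟩ : ∃ M : ℝ, ∀ n k j, ‖p n k j‖ ≤ M := by
    obtain ⟨M, hM⟩ := (Metric.isBounded_range_of_tendsto p hpq).exists_norm_le
    exact ⟨M, fun n k j => ((norm_le_pi_norm (p n k) j).trans (norm_le_pi_norm (p n) k)).trans
      (hM _ ⟨n, rfl⟩)⟩
  have hw0 : ∃ w0 : J → ℝ, w0 ∈ stdSimplex ℝ J :=
    ⟨Pi.single (Classical.arbitrary J) 1, single_mem_stdSimplex ℝ _⟩
  obtain ⟨w0, hw0⟩ := hw0
  have hnorm : ∀ n k (w : J → ℝ), w ∈ stdSimplex ℝ J → ‖∑ j, w j • p n k j‖ ≤ M := by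
    intro n k w hw
    calc ‖∑ j, w j • p n k j‖ ≤ ∑ j, ‖w j • p n k j‖ := norm_sum_le _ _
      _ ≤ ∑ j, w j * M := by
          refine Finset.sum_le_sum fun j _ => ?_
          rw [norm_smul, Real.norm_of_nonneg (hw.1 j)]
          exact mul_le_mul_of_nonneg_left (hM n k j) (hw.1 j)
      _ = M := by rw [← Finset.sum_mul, hw.2, one_mul]
  have key : ∀ n, ∃ z : (K → J → ℝ) × EuclideanSpace ℝ (Fin 3) × (K → ℝ),
      (∀ k, z.1 k ∈ stdSimplex ℝ J) ∧ ‖z.2.1‖ = 1 ∧ (∀ k, |z.2.2 k| ≤ 2 * M) ∧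
      ∀ k ∈ S, ∑ j, z.1 k j • p n k j = ∑ j, z.1 k0 j • p n k0 j + z.2.2 k • z.2.1 := by
    intro n
    obtain ⟨x, d, hd, h⟩ := hp n
    have h' : ∀ k, ∃ (t : ℝ) (w : J → ℝ), w ∈ stdSimplex ℝ J ∧
        (k ∈ S → ∑ j, w j • p n k j = x + t • d) := by
      intro k
      by_cases hk : k ∈ S
      · obtain ⟨t, ht⟩ := h k hk
        obtain ⟨w, hw, hw'⟩ := (clo_mem_hull _ _).1 ht
        exact ⟨t, w, hw, fun _ => hw'⟩
      · exact ⟨0, w0, hw0, fun h => absurd h hk⟩
    choose t w hw hwt using h'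
    have hd' : 0 < ‖d‖ := norm_pos_iff.2 hd
    refine ⟨(w, ‖d‖⁻¹ • d, fun k => if k ∈ S then (t k - t k0) * ‖d‖ else 0), hw, ?_, ?_, ?_⟩
    · simp only [norm_smul, norm_inv, norm_norm]
      field_simp
    · intro k
      have hM0 : 0 ≤ M := (norm_nonneg _).trans (hM n k (Classical.arbitrary J))
      by_cases hk : k ∈ S
      · simp only [hk, if_true]
        have e1 : (t k - t k0) • d = ∑ j, w k j • p n k j - ∑ j, w k0 j • p n k0 j := by
          rw [hwt k hk, hwt k0 hk0, sub_smul]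
          abel
        have e2 : ‖(t k - t k0) • d‖ ≤ 2 * M := by
          rw [e1]
          refine (norm_sub_le _ _).trans ?_
          have := hnorm n k (w k) (hw k)
          have := hnorm n k0 (w k0) (hw k0)
          linarith
        rw [norm_smul, Real.norm_eq_abs] at e2
        rwa [abs_mul, abs_of_pos hd']
      · simp only [hk, if_false, abs_zero]
        positivity
    · intro k hk
      simp only [hk, if_true]
      rw [hwt k hk, hwt k0 hk0, smul_smul]
      have : (t k - t k0) * ‖d‖ * ‖d‖⁻¹ = t k - t k0 := by field_simp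
      rw [this, sub_smul]
      abel
  choose z hz1 hz2 hz3 hz4 using key
  -- the compact set
  set C : Set ((K → J → ℝ) × EuclideanSpace ℝ (Fin 3) × (K → ℝ)) :=
    (Set.pi Set.univ fun _ : K => stdSimplex ℝ J) ×ˢ
      (Metric.sphere (0 : EuclideanSpace ℝ (Fin 3)) 1 ×ˢ
        (Set.pi Set.univ fun _ : K => Set.Icc (-(2 * M)) (2 * M))) with hC
  have hCc : IsCompact C := by
    refine IsCompact.prod (isCompact_univ_pi fun _ => isCompact_stdSimplex ℝ J) ?_
    exact IsCompact.prod (isCompact_sphere _ _) (isCompact_univ_pi fun _ => isCompact_Icc)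
  have hzC : ∀ n, z n ∈ C := by
    intro n
    refine ⟨fun k _ => hz1 n k, ?_, fun k _ => ?_⟩
    · simpa using hz2 n
    · exact abs_le.1 (hz3 n k)
  obtain ⟨z', hz'C, φ, hφ, hlim⟩ := hCc.tendsto_subseq hzC
  have hpl : Filter.Tendsto (p ∘ φ) Filter.atTop (nhds q) := hpq.comp hφ.tendsto_atTop
  have hd' : z'.2.1 ≠ 0 := by
    intro h0
    have := hz'C.2.1
    rw [h0] at this
    simp at this
  refine ⟨∑ j, z'.1 k0 j • q k0 j, z'.2.1, hd', fun k hk => ⟨z'.2.2 k, ?_⟩⟩
  have hL : ∀ k, Filter.Tendsto (fun n => ∑ j, (z (φ n)).1 k j • p (φ n) k j) Filter.atTop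
      (nhds (∑ j, z'.1 k j • q k j)) := by
    intro k
    refine tendsto_finsetSum _ fun j _ => ?_
    refine Filter.Tendsto.smul ?_ ?_
    · exact ((continuous_apply j).comp ((continuous_apply k).comp continuous_fst)).tendsto z' |>.comp hlim
    · exact ((continuous_apply j).comp (continuous_apply k)).tendsto q |>.comp hpl
  have hR : Filter.Tendsto (fun n => (z (φ n)).2.2 k • (z (φ n)).2.1) Filter.atTop
      (nhds (z'.2.2 k • z'.2.1)) := by
    refine Filter.Tendsto.smul ?_ ?_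
    · exact ((continuous_apply k).comp (continuous_snd.comp continuous_snd)).tendsto z' |>.comp hlim
    · exact (continuous_fst.comp continuous_snd).tendsto z' |>.comp hlim
  have heq : ∑ j, z'.1 k j • q k j = ∑ j, z'.1 k0 j • q k0 j + z'.2.2 k • z'.2.1 := by
    refine tendsto_nhds_unique (hL k) ?_
    refine ((hL k0).add hR).congr fun n => ?_
    exact (hz4 (φ n) k hk).symm
  rw [← heq, clo_mem_hull]
  exact ⟨z'.1 k, hz'C.1 k (Set.mem_univ k), rfl⟩

theorem clo_card {K : Type} [Fintype K] (N : ℕ) (P : K → Prop) :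
    N ≤ Nat.card {k : K // P k} ↔ ∃ S : Finset K, N ≤ S.card ∧ ∀ k ∈ S, P k := by
  classical
  constructor
  · intro h
    refine ⟨Finset.univ.filter P, ?_, fun k hk => (Finset.mem_filter.1 hk).2⟩
    rwa [Nat.card_eq_fintype_card, Fintype.card_subtype] at h
  · rintro ⟨S, hS, h⟩
    rw [Nat.card_eq_fintype_card, Fintype.card_subtype]
    refine hS.trans (Finset.card_le_card fun k hk => ?_)
    simp [h k hk]

theorem clo_hit_closed (R N : ℕ) : IsClosed {p | HitE R N p} := by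
  classical
  have e : {p | HitE R N p} =
      (⋃ S : {S : Finset (Fin R) // N ≤ S.card},
        {p : Fin R → Fin R → EuclideanSpace ℝ (Fin 3) | ∃ x d : EuclideanSpace ℝ (Fin 3), d ≠ 0 ∧
          ∀ k ∈ S.1, ∃ t : ℝ, x + t • d ∈ convexHull ℝ (Set.range (p k))}) ∪
      (⋃ S : {S : Finset (Fin R) // N ≤ S.card},
        (fun (p : Fin R → Fin R → EuclideanSpace ℝ (Fin 3)) (j i : Fin R) => p i j) ⁻¹'
        {p : Fin R → Fin R → EuclideanSpace ℝ (Fin 3) | ∃ x d : EuclideanSpace ℝ (Fin 3), d ≠ 0 ∧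
          ∀ k ∈ S.1, ∃ t : ℝ, x + t • d ∈ convexHull ℝ (Set.range (p k))}) := by
    ext p
    simp only [Set.mem_ofPred_eq, Set.mem_union, Set.mem_iUnion, Set.mem_preimage, HitE, clo_card]
    constructor
    · rintro ⟨x, d, hd, ⟨S, hS, h⟩ | ⟨S, hS, h⟩⟩
      · exact Or.inl ⟨⟨S, hS⟩, x, d, hd, h⟩
      · exact Or.inr ⟨⟨S, hS⟩, x, d, hd, h⟩
    · rintro (⟨⟨S, hS⟩, x, d, hd, h⟩ | ⟨⟨S, hS⟩, x, d, hd, h⟩)
      · exact ⟨x, d, hd, Or.inl ⟨S, hS, h⟩⟩
      · exact ⟨x, d, hd, Or.inr ⟨S, hS, h⟩⟩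
  rw [e]
  refine IsClosed.union (isClosed_iUnion_of_finite fun S => clo_closed S.1)
    (isClosed_iUnion_of_finite fun S => (clo_closed S.1).preimage ?_)
  exact continuous_pi fun j => continuous_pi fun i => (continuous_apply j).comp (continuous_apply i)

theorem clo_dense (R : ℕ) : Dense {p | GenPosE R p} := by
  classical
  intro p
  -- the moment curve array
  set c : Fin R → Fin R → ℝ := fun i j => ((finProdFinEquiv (i, j) : Fin (R * R)) : ℕ) with hc
  set q : Fin R → Fin R → EuclideanSpace ℝ (Fin 3) := fun i j => !₂[c i j, c i j ^ 2, c i j ^ 3]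
    with hq
  set r : ℝ → Fin R → Fin R → EuclideanSpace ℝ (Fin 3) := fun t i j => p i j + t • (q i j - p i j)
    with hr
  have hcont : Continuous r := by
    refine continuous_pi fun i => continuous_pi fun j => ?_
    simp only [hr]
    fun_prop
  set A : {a : Fin 4 → Fin R × Fin R // Function.Injective a} → Polynomial ℝ := fun a =>
    (Matrix.of fun s m => Polynomial.C (hrow (p (a.1 s).1 (a.1 s).2) m) +
      Polynomial.X * Polynomial.C (hrow (q (a.1 s).1 (a.1 s).2) m - hrow (p (a.1 s).1 (a.1 s).2) m)).det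
    with hA
  have hev : ∀ a t, (A a).eval t = (Matrix.of fun s => hrow (r t (a.1 s).1 (a.1 s).2)).det := by
    intro a t
    have h1 : (A a).eval t = Polynomial.evalRingHom t (A a) := rfl
    rw [h1, hA, RingHom.map_det]
    congr 1
    ext s m
    simp only [RingHom.mapMatrix_apply, Matrix.map_apply, Matrix.of_apply, hr, hrow]
    fin_cases m <;> simp
  have hne : ∀ a, A a ≠ 0 := by
    intro a h0
    have h1 : (A a).eval 1 = 0 := by rw [h0]; simp
    rw [hev] at h1
    have h2 : (Matrix.of fun s => hrow (r 1 (a.1 s).1 (a.1 s).2)) =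
        Matrix.vandermonde fun s => c (a.1 s).1 (a.1 s).2 := by
      ext s m
      simp only [hr, Matrix.of_apply, Matrix.vandermonde_apply, hrow, one_smul, add_sub_cancel]
      fin_cases m <;> simp [hq]
    rw [h2, Matrix.det_vandermonde_eq_zero_iff] at h1
    obtain ⟨s, s', h3, h4⟩ := h1
    apply h4
    apply a.2
    have h5 : (finProdFinEquiv (a.1 s) : Fin (R * R)) = finProdFinEquiv (a.1 s') := by
      apply Fin.ext
      have h6 : (((finProdFinEquiv (a.1 s) : Fin (R * R)) : ℕ) : ℝ) =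
          (((finProdFinEquiv (a.1 s') : Fin (R * R)) : ℕ) : ℝ) := h3
      exact_mod_cast h6
    exact finProdFinEquiv.injective h5
  have hfin : {t : ℝ | ∃ a, (A a).eval t = 0}.Finite := by
    have : {t : ℝ | ∃ a, (A a).eval t = 0} ⊆ ⋃ a, {t | (A a).IsRoot t} := by
      rintro t ⟨a, ha⟩
      exact Set.mem_iUnion.2 ⟨a, ha⟩
    exact (Set.finite_iUnion fun a => (Polynomial.finite_setOfPred_isRoot (hne a))).subset this
  have h0 : (0 : ℝ) ∈ closure {t : ℝ | ∃ a, (A a).eval t = 0}ᶜ := by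
    have : Dense {t : ℝ | ∃ a, (A a).eval t = 0}ᶜ := hfin.countable.dense_compl ℝ
    exact this 0
  have hm := map_mem_closure (t := {p | GenPosE R p}) hcont h0 (by
    intro t ht a ha h
    exact ht ⟨⟨a, ha⟩, by rw [hev]; exact h⟩)
  have e : r 0 = p := by
    funext i j
    simp [hr]
  rwa [e] at hm

theorem close_generic (R N : ℕ) (H : ∀ p, GenPosE R p → HitE R N p)
    (p : Fin R → Fin R → EuclideanSpace ℝ (Fin 3)) : HitE R N p := by
  have h1 : closure {p | GenPosE R p} ⊆ {p | HitE R N p} :=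
    closure_minimal (fun p hp => H p hp) (clo_hit_closed R N)
  exact h1 (clo_dense R p)

end Pool.Agent.BIP
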