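import Pool.Agent.BIP.Bridge
import Pool.Agent.BIP.Clo

/-!
# From generic arrays of vectors to all arrays of points
-/

namespace Pool.Agent.BIP

theorem generic_lift {R : ℕ} (p : Fin R → Fin R → EuclideanSpace ℝ (Fin 3))
    (hp : GenPosE R p) : Generic (fun i j => lift4 (p i j)) := by
  intro a b c d hab hac had hbc hbd hcd
  have h := hp ![a, b, c, d] (by
    intro s t hst
    fin_cases s <;> fin_cases t <;> first | rfl | (exfalso; simp at hst; first
      | exact hab hst | exact hac hst | exact had hst | exact hbc hst | exact hbd hst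
      | exact hcd hst | exact hab hst.symm | exact hac hst.symm | exact had hst.symm
      | exact hbc hst.symm | exact hbd hst.symm | exact hcd hst.symm))
  have e : (Matrix.of fun s => hrow (p ((![a, b, c, d] : Fin 4 → Fin R × Fin R) s).1
      ((![a, b, c, d] : Fin 4 → Fin R × Fin R) s).2)) =
      Matrix.of ![lift4 (p a.1 a.2), lift4 (p b.1 b.2), lift4 (p c.1 c.2), lift4 (p d.1 d.2)] := by
    funext s
    fin_cases s <;> rfl
  rw [e] at h
  exact h

/-- If every generic array of vectors is hit, then every array of points is. -/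
theorem points_of_generic {R : ℕ} (N : ℕ) (H : ∀ v : Fin R → Fin R → V4, Generic v → Hit v N)
    (p : Fin R → Fin R → EuclideanSpace ℝ (Fin 3)) :
    ∃ x d : EuclideanSpace ℝ (Fin 3), d ≠ 0 ∧
      (N ≤ Nat.card {i : Fin R // ∃ t : ℝ, x + t • d ∈ convexHull ℝ (Set.range (p i))} ∨
        N ≤ Nat.card {j : Fin R // ∃ t : ℝ,
          x + t • d ∈ convexHull ℝ (Set.range fun i => p i j)}) :=
  close_generic R N (fun q hq => points_of_hit N q (H _ (generic_lift q hq))) p

/-- The same with any dense set of arrays of points. -/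
theorem points_of_dense {R : ℕ} (N : ℕ) (G : Set (Fin R → Fin R → EuclideanSpace ℝ (Fin 3)))
    (hG : Dense G) (H : ∀ p ∈ G, Hit (fun i j => lift4 (p i j)) N)
    (p : Fin R → Fin R → EuclideanSpace ℝ (Fin 3)) :
    ∃ x d : EuclideanSpace ℝ (Fin 3), d ≠ 0 ∧
      (N ≤ Nat.card {i : Fin R // ∃ t : ℝ, x + t • d ∈ convexHull ℝ (Set.range (p i))} ∨
        N ≤ Nat.card {j : Fin R // ∃ t : ℝ,
          x + t • d ∈ convexHull ℝ (Set.range fun i => p i j)}) := by
  have h1 : closure G ⊆ {p | HitE R N p} :=
    closure_minimal (fun q hq => points_of_hit N q (H q hq)) (clo_hit_closed R N)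
  rw [hG.closure_eq] at h1
  exact h1 (Set.mem_univ p)

end Pool.Agent.BIP
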