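import Mathlib

/-!
# Two families, definitions

Arrays of vectors of `ℝ⁴` (homogeneous coordinates of the cells), lines given by two
independent linear forms, rows and columns met by a line, domination of scalar arrays.
-/

namespace Pool.Agent.BIP

/-- Vectors of `ℝ⁴`. -/
abbrev V4 : Type := Fin 4 → ℝ

/-- Determinant of four vectors. -/
noncomputable def D4 (a b c d : V4) : ℝ := Matrix.det (Matrix.of ![a, b, c, d])

/-- The line `f = g = 0` meets the cone of the finite family `w`. -/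
def Met {ι : Type} [Fintype ι] (f g : V4 →ₗ[ℝ] ℝ) (w : ι → V4) : Prop :=
  ∃ l : ι → ℝ, (∀ j, 0 ≤ l j) ∧ (∃ j, 0 < l j) ∧
    f (∑ j, l j • w j) = 0 ∧ g (∑ j, l j • w j) = 0

/-- Some line meets at least `N` rows. -/
def HitRows {m n : ℕ} (v : Fin m → Fin n → V4) (N : ℕ) : Prop :=
  ∃ f g : V4 →ₗ[ℝ] ℝ, LinearIndependent ℝ ![f, g] ∧
    ∃ S : Finset (Fin m), N ≤ S.card ∧ ∀ i ∈ S, Met f g (v i)

/-- Some line meets at least `N` columns. -/
def HitCols {m n : ℕ} (v : Fin m → Fin n → V4) (N : ℕ) : Prop :=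
  HitRows (fun j i => v i j) N

/-- Some line meets at least `N` rows or at least `N` columns. -/
def Hit {m n : ℕ} (v : Fin m → Fin n → V4) (N : ℕ) : Prop := HitRows v N ∨ HitCols v N

/-- Any four distinct cells are independent. -/
def Generic {m n : ℕ} (v : Fin m → Fin n → V4) : Prop :=
  ∀ a b c d : Fin m × Fin n, a ≠ b → a ≠ c → a ≠ d → b ≠ c → b ≠ d → c ≠ d →
    D4 (v a.1 a.2) (v b.1 b.2) (v c.1 c.2) (v d.1 d.2) ≠ 0

/-- Growth with the rows, whatever the columns. -/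
def RowDom {m n : ℕ} (T : ℝ) (r : Fin m → Fin n → ℝ) : Prop :=
  ∀ i i' j j', i < i' → T * r i j ≤ r i' j'

/-- Growth with the columns, whatever the rows. -/
def ColDom {m n : ℕ} (T : ℝ) (r : Fin m → Fin n → ℝ) : Prop :=
  ∀ i i' j j', j < j' → T * r i j ≤ r i' j'

/-- Growth along chains. -/
def ChainDom {m n : ℕ} (T : ℝ) (r : Fin m → Fin n → ℝ) : Prop :=
  ∀ i i' j j', i < i' → j < j' → T * r i j ≤ r i' j'

/-- Segre type: `x₁/x₀`, `x₃/x₂` grow with the columns, the four cross ratios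
`x₂/x₀, x₃/x₀, x₂/x₁, x₃/x₁` with the rows. -/
def Segre {m n : ℕ} (T : ℝ) (x : Fin 4 → Fin m → Fin n → ℝ) : Prop :=
  ColDom T (fun i j => x 1 i j / x 0 i j) ∧ ColDom T (fun i j => x 3 i j / x 2 i j) ∧
  RowDom T (fun i j => x 2 i j / x 0 i j) ∧ RowDom T (fun i j => x 3 i j / x 0 i j) ∧
  RowDom T (fun i j => x 2 i j / x 1 i j) ∧ RowDom T (fun i j => x 3 i j / x 1 i j)

/-- A predicate on `h × k` sub-arrays. -/
structure GPred where
  h : ℕ
  k : ℕ
  P : (Fin h → Fin k → V4) → Prop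

/-- The truth of the predicate does not depend on the sub-array. -/
def GPred.Homog {m n : ℕ} (p : GPred) (v : Fin m → Fin n → V4) : Prop :=
  ∀ a a' : Fin p.h → Fin m, StrictMono a → StrictMono a' →
    ∀ b b' : Fin p.k → Fin n, StrictMono b → StrictMono b' →
      (p.P (fun s t => v (a s) (b t)) ↔ p.P (fun s t => v (a' s) (b' t)))

end Pool.Agent.BIP
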