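import Mathlib

/-!
# From one line to a system of lines (duality)
-/

open scoped BigOperators Classical

namespace Pool.Agent.BIP.Dual

/-- Three-space. -/
abbrev E3 : Type := EuclideanSpace ℝ (Fin 3)

/-- The line `x + ℝ d` meets `S`. -/
def Hits (l : E3 × E3) (S : Set E3) : Prop := ∃ t : ℝ, l.1 + t • l.2 ∈ S

/-- The density statement for complete pairs and arbitrary finite index types. -/
def Full (c : ℝ) : Prop := ∀ (ι κ : Type) [Fintype ι] [Fintype κ] [Nonempty ι] [Nonempty κ]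
  (A : ι → Set E3) (B : κ → Set E3), (∀ i, Convex ℝ (A i)) → (∀ j, Convex ℝ (B j)) →
  (∀ i j, (A i ∩ B j).Nonempty) →
  (∃ l : E3 × E3, l.2 ≠ 0 ∧
    c * (Fintype.card ι : ℝ) ≤ ((Finset.univ.filter fun i => Hits l (A i)).card : ℝ)) ∨
  (∃ l : E3 × E3, l.2 ≠ 0 ∧
    c * (Fintype.card κ : ℝ) ≤ ((Finset.univ.filter fun j => Hits l (B j)).card : ℝ))

/-- Blow-up by multiplicities. -/
theorem blow {m : ℕ} (p : Fin m → ℝ) (hp : ∀ i, 0 ≤ p i) (hp1 : ∑ i, p i = 1) (c : ℝ)
    (hc : 0 < c) :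
    ∃ a : Fin m → ℕ, (0 < ∑ i, a i) ∧ ∀ P : Fin m → Prop,
      c * (∑ i, (a i : ℝ)) ≤ (∑ i, if P i then (a i : ℝ) else 0) →
      c / 2 ≤ ∑ i, if P i then p i else 0 := by
  obtain ⟨M, hM⟩ := exists_nat_gt (2 * m / c)
  have hM0 : (0:ℝ) < M := lt_of_le_of_lt (by positivity) hM
  refine ⟨fun i => ⌈(M : ℝ) * p i⌉₊, ?_, ?_⟩
  · have h1 : (0:ℝ) < ∑ i, (⌈(M : ℝ) * p i⌉₊ : ℝ) := by
      calc (0:ℝ) < M * ∑ i, p i := by rw [hp1, mul_one]; exact hM0
        _ = ∑ i, M * p i := Finset.mul_sum _ _ _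
        _ ≤ _ := Finset.sum_le_sum fun i _ => Nat.le_ceil _
    exact_mod_cast h1
  · intro P hP
    have h1 : (M : ℝ) ≤ ∑ i, (⌈(M : ℝ) * p i⌉₊ : ℝ) := by
      calc (M : ℝ) = M * ∑ i, p i := by rw [hp1, mul_one]
        _ = ∑ i, M * p i := Finset.mul_sum _ _ _
        _ ≤ _ := Finset.sum_le_sum fun i _ => Nat.le_ceil _
    have h2 : (∑ i, if P i then (⌈(M : ℝ) * p i⌉₊ : ℝ) else 0) ≤
        M * (∑ i, if P i then p i else 0) + m := by
      calc (∑ i, if P i then (⌈(M : ℝ) * p i⌉₊ : ℝ) else 0) ≤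
          ∑ i, (M * (if P i then p i else 0) + 1) := by
            refine Finset.sum_le_sum fun i _ => ?_
            split_ifs
            · exact (Nat.ceil_lt_add_one (mul_nonneg hM0.le (hp i))).le
            · simp
        _ = _ := by
            rw [Finset.sum_add_distrib, ← Finset.mul_sum]
            simp
    have h3 : c * M ≤ M * (∑ i, if P i then p i else 0) + m :=
      (mul_le_mul_of_nonneg_left h1 hc.le).trans (hP.trans h2)
    have h4 : 2 * (m : ℝ) < M * c := by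
      rwa [div_lt_iff₀ hc] at hM
    by_contra hcon
    push Not at hcon
    nlinarith

theorem card_blow {m : ℕ} (a : Fin m → ℕ) (P : Fin m → Prop) :
    ((Finset.univ.filter fun x : Σ i : Fin m, Fin (a i) => P x.1).card : ℝ) =
      ∑ i, if P i then (a i : ℝ) else 0 := by
  rw [Finset.card_filter, Fintype.sum_sigma]
  push_cast
  refine Finset.sum_congr rfl fun i _ => ?_
  split_ifs <;> simp

/-- The weighted form. -/
theorem weighted (c : ℝ) (hc : 0 < c) (H : Full c) {m n : ℕ} (A : Fin m → Set E3)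
    (B : Fin n → Set E3) (hA : ∀ i, Convex ℝ (A i)) (hB : ∀ j, Convex ℝ (B j))
    (hAB : ∀ i j, (A i ∩ B j).Nonempty) (p : Fin m → ℝ) (hp : ∀ i, 0 ≤ p i)
    (hp1 : ∑ i, p i = 1) (q : Fin n → ℝ) (hq : ∀ i, 0 ≤ q i) (hq1 : ∑ i, q i = 1) :
    (∃ l : E3 × E3, l.2 ≠ 0 ∧ c / 2 ≤ ∑ i, if Hits l (A i) then p i else 0) ∨
    (∃ l : E3 × E3, l.2 ≠ 0 ∧ c / 2 ≤ ∑ j, if Hits l (B j) then q j else 0) := by
  obtain ⟨a, ha, ha'⟩ := blow p hp hp1 c hc
  obtain ⟨b, hb, hb'⟩ := blow q hq hq1 c hc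
  have hna : Nonempty (Σ i : Fin m, Fin (a i)) := by
    rw [← Fintype.card_pos_iff, Fintype.card_sigma]
    simpa using ha
  have hnb : Nonempty (Σ i : Fin n, Fin (b i)) := by
    rw [← Fintype.card_pos_iff, Fintype.card_sigma]
    simpa using hb
  rcases H (Σ i : Fin m, Fin (a i)) (Σ i : Fin n, Fin (b i)) (fun x => A x.1) (fun y => B y.1)
    (fun x => hA x.1) (fun y => hB y.1) (fun x y => hAB x.1 y.1) with ⟨l, hl, h⟩ | ⟨l, hl, h⟩
  · refine Or.inl ⟨l, hl, ha' (fun i => Hits l (A i)) ?_⟩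
    rw [card_blow a (fun i => Hits l (A i)), Fintype.card_sigma] at h
    push_cast at h
    simpa using h
  · refine Or.inr ⟨l, hl, hb' (fun i => Hits l (B i)) ?_⟩
    rw [card_blow b (fun i => Hits l (B i)), Fintype.card_sigma] at h
    push_cast at h
    simpa using h

/-- Duality for finitely many sets. -/
theorem minimax {m : ℕ} (c : ℝ) (hc : 0 < c) (L : Set (Fin m → Prop))
    (hL : ∀ p : Fin m → ℝ, (∀ i, 0 ≤ p i) → ∑ i, p i = 1 → ∃ P ∈ L,
      c ≤ ∑ i, if P i then p i else 0) (hm : 0 < m) :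
    ∃ (k : ℕ) (Q : Fin k → Fin m → Prop) (w : Fin k → ℝ), (∀ l, Q l ∈ L) ∧ (∀ l, 0 ≤ w l) ∧
      ∑ l, w l = 1 ∧ ∀ i, c ≤ ∑ l, if Q l i then w l else 0 := by
  let u : (Fin m → Prop) → (Fin m → ℝ) := fun P i => if P i then 1 else 0
  let S : Set (Fin m → ℝ) := u '' L
  have hfin : S.Finite := by
    refine Set.Finite.subset (Set.Finite.pi' (fun _ : Fin m => Set.toFinite ({0, 1} : Set ℝ))) ?_
    rintro _ ⟨P, _, rfl⟩ i
    simp only [u]
    split_ifs <;> simp
  let C : Set (Fin m → ℝ) := {x | ∀ i, c ≤ x i}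
  have hCconv : Convex ℝ C := by
    intro x hx y hy a b ha hb hab i
    have h1 := hx i
    have h2 := hy i
    simp only [Pi.add_apply, Pi.smul_apply, smul_eq_mul]
    nlinarith
  have hCclosed : IsClosed C := by
    have : C = ⋂ i, {x : Fin m → ℝ | c ≤ x i} := by
      ext x; simp [C]
    rw [this]
    exact isClosed_iInter fun i => isClosed_le continuous_const (continuous_apply i)
  have hK : IsCompact (convexHull ℝ S) := hfin.isCompact_convexHull ℝ
  by_cases hdisj : Disjoint (convexHull ℝ S) C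
  · exfalso
    obtain ⟨f, a, b, hfa, hab, hfb⟩ := geometric_hahn_banach_compact_closed
      (convex_convexHull ℝ S) hK hCconv hCclosed hdisj
    let g : Fin m → ℝ := fun i => f (Pi.single i 1)
    have hf : ∀ x : Fin m → ℝ, f x = ∑ i, g i * x i := by
      intro x
      have h1 : x = ∑ i, x i • (Pi.single i (1:ℝ) : Fin m → ℝ) := by
        funext j
        simp [Finset.sum_apply, Pi.single_apply]
      conv_lhs => rw [h1]
      rw [map_sum]
      refine Finset.sum_congr rfl fun i _ => ?_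
      rw [map_smul, smul_eq_mul, mul_comm]
    have hg : ∀ i, 0 ≤ g i := by
      intro i
      by_contra hneg
      push Not at hneg
      -- go far in the direction `i`
      obtain ⟨N, hN⟩ := exists_nat_gt ((f (fun _ => c) - b) / (-g i))
      have hmem : (fun j => c + (N:ℝ) * (Pi.single i (1:ℝ) : Fin m → ℝ) j) ∈ C := by
        intro j
        have : (0:ℝ) ≤ (N:ℝ) * (Pi.single i (1:ℝ) : Fin m → ℝ) j := by
          by_cases hji : j = i
          · subst hji; simp
          · simp [hji]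
        simpa using this
      have h1 := hfb _ hmem
      rw [hf] at h1
      have h2 : ∑ j, g j * (c + (N:ℝ) * (Pi.single i (1:ℝ) : Fin m → ℝ) j) =
          f (fun _ => c) + N * g i := by
        rw [hf]
        simp only [mul_add, Finset.sum_add_distrib]
        congr 1
        rw [Finset.sum_eq_single i]
        · simp; ring
        · intro j _ hj; simp [hj]
        · simp
      rw [h2] at h1
      rw [div_lt_iff₀ (by linarith)] at hN
      nlinarith
    have hcm : (fun _ : Fin m => c) ∈ C := fun i => le_refl _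
    have h3 := hfb _ hcm
    rw [hf] at h3
    -- the sum of `g`
    have hLne : ∃ P, P ∈ L := by
      obtain ⟨P, hP, _⟩ := hL (fun i => 1 / m) (fun i => by positivity) (by
        rw [Finset.sum_const]; simp; field_simp)
      exact ⟨P, hP⟩
    obtain ⟨P0, hP0⟩ := hLne
    have h4 := hfa (u P0) (subset_convexHull ℝ S ⟨P0, hP0, rfl⟩)
    have hG : 0 < ∑ i, g i := by
      have h5 : 0 ≤ f (u P0) := by
        rw [hf]
        refine Finset.sum_nonneg fun i _ => mul_nonneg (hg i) ?_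
        simp only [u]; split_ifs <;> norm_num
      have h6 : 0 < ∑ i, g i * c := by linarith
      rw [← Finset.sum_mul] at h6
      exact (pos_iff_pos_of_mul_pos h6).2 hc
    obtain ⟨P, hP, h7⟩ := hL (fun i => g i / ∑ i, g i) (fun i => div_nonneg (hg i) hG.le) (by
      rw [← Finset.sum_div]; exact div_self hG.ne')
    have h8 := hfa (u P) (subset_convexHull ℝ S ⟨P, hP, rfl⟩)
    rw [hf] at h8
    have h9 : (∑ i, if P i then g i / ∑ i, g i else 0) = (∑ i, g i * u P i) / ∑ i, g i := by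
      rw [Finset.sum_div]
      refine Finset.sum_congr rfl fun i _ => ?_
      simp only [u]
      split_ifs <;> simp
    rw [h9, le_div_iff₀ hG] at h7
    rw [← Finset.sum_mul] at h3
    linarith
  · rw [Set.not_disjoint_iff] at hdisj
    obtain ⟨x, hx, hxC⟩ := hdisj
    rw [mem_convexHull_iff_exists_fintype] at hx
    obtain ⟨ι, hι, w, z, hw0, hw1, hz, hxe⟩ := hx
    choose P hPL hPz using hz
    let e := Fintype.equivFin ι
    refine ⟨Fintype.card ι, fun l => P (e.symm l), fun l => w (e.symm l), fun l => hPL _,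
      fun l => hw0 _, ?_, ?_⟩
    · rw [← hw1]
      exact Equiv.sum_comp e.symm w
    · intro i
      have h1 := hxC i
      rw [← hxe] at h1
      simp only [Finset.sum_apply, Pi.smul_apply, smul_eq_mul] at h1
      refine h1.trans (le_of_eq ?_)
      rw [← Equiv.sum_comp e.symm]
      refine Finset.sum_congr rfl fun l _ => ?_
      rw [← hPz]
      simp only [u]
      split_ifs <;> simp

/-- Real weights on finitely many lines replaced by repetitions. -/
theorem repeat_lines {m k : ℕ} (c : ℝ) (hc : 0 < c) (l : Fin k → E3 × E3) (hl : ∀ s, (l s).2 ≠ 0)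
    (A : Fin m → Set E3) (w : Fin k → ℝ) (hw : ∀ s, 0 ≤ w s) (hw1 : ∑ s, w s = 1)
    (h : ∀ i, c ≤ ∑ s, if Hits (l s) (A i) then w s else 0) :
    ∃ (N : ℕ) (L : Fin N → E3 × E3), 0 < N ∧ (∀ s, (L s).2 ≠ 0) ∧
      ∀ i, c / 2 * (N : ℝ) ≤ ((Finset.univ.filter fun s => Hits (L s) (A i)).card : ℝ) := by
  have hk : (0:ℝ) < k + 1 := by positivity
  let a : Fin k → ℕ := fun s => ⌈((k:ℝ) + 1) * w s⌉₊
  let e := Fintype.equivFin (Σ s : Fin k, Fin (a s))
  have hcard : (Fintype.card (Σ s : Fin k, Fin (a s)) : ℝ) = ∑ s, (a s : ℝ) := by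
    rw [Fintype.card_sigma]; push_cast; simp
  have h1 : ((k:ℝ) + 1) ≤ ∑ s, (a s : ℝ) := by
    calc ((k:ℝ) + 1) = ((k:ℝ) + 1) * ∑ s, w s := by rw [hw1, mul_one]
      _ = ∑ s, ((k:ℝ) + 1) * w s := Finset.mul_sum _ _ _
      _ ≤ _ := Finset.sum_le_sum fun s _ => Nat.le_ceil _
  have h2 : ∑ s, (a s : ℝ) ≤ 2 * ((k:ℝ) + 1) := by
    calc ∑ s, (a s : ℝ) ≤ ∑ s, (((k:ℝ) + 1) * w s + 1) :=
          Finset.sum_le_sum fun s _ => (Nat.ceil_lt_add_one (mul_nonneg hk.le (hw s))).le
      _ = ((k:ℝ) + 1) + k := by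
          rw [Finset.sum_add_distrib, ← Finset.mul_sum, hw1]; simp
      _ ≤ _ := by linarith
  refine ⟨_, fun s => l (e.symm s).1, ?_, fun s => hl _, ?_⟩
  · have : (0:ℝ) < (Fintype.card (Σ s : Fin k, Fin (a s)) : ℝ) := by rw [hcard]; linarith
    exact_mod_cast this
  · intro i
    have h3 : ((Finset.univ.filter fun s => Hits (l (e.symm s).1) (A i)).card : ℝ) =
        ((Finset.univ.filter fun x : Σ s : Fin k, Fin (a s) => Hits (l x.1) (A i)).card : ℝ) := by
      congr 1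
      refine Finset.card_bij' (fun s _ => e.symm s) (fun x _ => e x) ?_ ?_ ?_ ?_
      · intro s hs
        rw [Finset.mem_filter] at hs ⊢
        exact ⟨Finset.mem_univ _, hs.2⟩
      · intro x hx
        rw [Finset.mem_filter] at hx ⊢
        refine ⟨Finset.mem_univ _, ?_⟩
        rw [e.symm_apply_apply]
        exact hx.2
      · intro s _; exact e.apply_symm_apply s
      · intro x _; exact e.symm_apply_apply x
    rw [h3, card_blow a (fun s => Hits (l s) (A i)), hcard]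
    have h4 : ((k:ℝ) + 1) * c ≤ ∑ s, if Hits (l s) (A i) then (a s : ℝ) else 0 := by
      calc ((k:ℝ) + 1) * c ≤ ((k:ℝ) + 1) * ∑ s, (if Hits (l s) (A i) then w s else 0) :=
            mul_le_mul_of_nonneg_left (h i) hk.le
        _ = ∑ s, ((k:ℝ) + 1) * (if Hits (l s) (A i) then w s else 0) := Finset.mul_sum _ _ _
        _ ≤ _ := by
            refine Finset.sum_le_sum fun s _ => ?_
            split_ifs
            · exact Nat.le_ceil _
            · simp
    nlinarith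

/-- A positive fraction for one family becomes: every member of one family meets a positive
fraction of finitely many lines. -/
theorem dual (c : ℝ) (hc : 0 < c) (H : Full c) {m n : ℕ} (hm : 1 ≤ m) (hn : 1 ≤ n)
    (A : Fin m → Set E3)
    (B : Fin n → Set E3) (hA : ∀ i, Convex ℝ (A i)) (hB : ∀ j, Convex ℝ (B j))
    (hAB : ∀ i j, (A i ∩ B j).Nonempty) :
    ∃ (N : ℕ) (L : Fin N → E3 × E3), 0 < N ∧ (∀ s, (L s).2 ≠ 0) ∧
      ((∀ i, c / 4 * (N : ℝ) ≤ ((Finset.univ.filter fun s => Hits (L s) (A i)).card : ℝ)) ∨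
       (∀ j, c / 4 * (N : ℝ) ≤ ((Finset.univ.filter fun s => Hits (L s) (B j)).card : ℝ))) := by
  have key : ∀ {r : ℕ} (hr : 0 < r) (S : Fin r → Set E3)
      (hS : ∀ p : Fin r → ℝ, (∀ i, 0 ≤ p i) → ∑ i, p i = 1 →
        ∃ l : E3 × E3, l.2 ≠ 0 ∧ c / 2 ≤ ∑ i, if Hits l (S i) then p i else 0),
      ∃ (N : ℕ) (L : Fin N → E3 × E3), 0 < N ∧ (∀ s, (L s).2 ≠ 0) ∧
        (∀ i, c / 4 * (N : ℝ) ≤ ((Finset.univ.filter fun s => Hits (L s) (S i)).card : ℝ)) := by
    intro r hr S hS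
    obtain ⟨k, Q, w, hQ, hw0, hw1, hcov⟩ := minimax (c / 2) (by linarith)
      {P : Fin r → Prop | ∃ l : E3 × E3, l.2 ≠ 0 ∧ P = fun i => Hits l (S i)} (by
        intro p hp hp1
        obtain ⟨l, hl, hle⟩ := hS p hp hp1
        exact ⟨_, ⟨l, hl, rfl⟩, hle⟩) hr
    choose l hl hQl using hQ
    obtain ⟨N, L, hN, hL, h⟩ := repeat_lines (c / 2) (by linarith) l hl S w hw0 hw1 (by
      intro i
      refine (hcov i).trans (le_of_eq ?_)
      refine Finset.sum_congr rfl fun s _ => ?_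
      rw [hQl s])
    exact ⟨N, L, hN, hL, fun i => by
      have := h i
      rwa [show c / 2 / 2 = c / 4 by ring] at this⟩
  by_cases hcase : ∀ p : Fin m → ℝ, (∀ i, 0 ≤ p i) → ∑ i, p i = 1 →
        ∃ l : E3 × E3, l.2 ≠ 0 ∧ c / 2 ≤ ∑ i, if Hits l (A i) then p i else 0
  · obtain ⟨N, L, hN, hL, h⟩ := key hm A hcase
    exact ⟨N, L, hN, hL, Or.inl h⟩
  · push Not at hcase
    obtain ⟨p, hp, hp1, hbad⟩ := hcase
    obtain ⟨N, L, hN, hL, h⟩ := key hn B (by
      intro q hq hq1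
      rcases weighted c hc H A B hA hB hAB p hp hp1 q hq hq1 with ⟨l, hl, h⟩ | h
      · exact absurd h (not_le.2 (hbad l hl))
      · exact h)
    exact ⟨N, L, hN, hL, Or.inr h⟩

/-- From `Fin` families to arbitrary finite index types. -/
theorem full_of_fin (c : ℝ)
    (H : ∀ (m n : ℕ), 1 ≤ m → 1 ≤ n → ∀ (A : Fin m → Set E3) (B : Fin n → Set E3),
      (∀ i, Convex ℝ (A i)) → (∀ j, Convex ℝ (B j)) → (∀ i j, (A i ∩ B j).Nonempty) →
      (∃ x d : E3, d ≠ 0 ∧
        c * (m : ℝ) ≤ (Nat.card {i : Fin m // ∃ t : ℝ, x + t • d ∈ A i} : ℝ)) ∨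
      (∃ x d : E3, d ≠ 0 ∧
        c * (n : ℝ) ≤ (Nat.card {j : Fin n // ∃ t : ℝ, x + t • d ∈ B j} : ℝ))) : Full c := by
  intro ι κ _ _ _ _ A B hA hB hAB
  let e := Fintype.equivFin ι
  let f := Fintype.equivFin κ
  have hcount : ∀ {τ : Type} [Fintype τ] (S : τ → Set E3) (x d : E3),
      (Nat.card {i : Fin (Fintype.card τ) // ∃ t : ℝ, x + t • d ∈ S ((Fintype.equivFin τ).symm i)} : ℝ)
        = ((Finset.univ.filter fun i => Hits (x, d) (S i)).card : ℝ) := by
    intro τ _ S x d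
    congr 1
    refine (Nat.card_congr (Equiv.subtypeEquiv (q := fun i => Hits (x, d) (S i))
      (Fintype.equivFin τ).symm fun i => Iff.rfl)).trans ?_
    rw [Nat.card_eq_fintype_card, Fintype.card_subtype]
  rcases H (Fintype.card ι) (Fintype.card κ) Fintype.card_pos Fintype.card_pos
    (fun i => A (e.symm i)) (fun j => B (f.symm j)) (fun i => hA _) (fun j => hB _)
    (fun i j => hAB _ _) with ⟨x, d, hd, h⟩ | ⟨x, d, hd, h⟩
  · refine Or.inl ⟨(x, d), hd, ?_⟩
    rw [hcount A x d] at h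
    exact h
  · refine Or.inr ⟨(x, d), hd, ?_⟩
    rw [hcount B x d] at h
    exact h

end Pool.Agent.BIP.Dual
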