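import Pool.Agent.BIP.Defs

/-!
The failure principle: a line built from the cells outside row `r` of a sub-array misses row `r`,
otherwise it meets `N` rows. The same for columns.
-/

open scoped BigOperators Classical

namespace Pool.Agent.BIP.FX

open Pool.Agent.BIP

/-- a sub-array -/
def Sub {m n h k : ℕ} (v : Fin m → Fin n → V4) (a : Fin h → Fin m) (b : Fin k → Fin n) :
    Fin h → Fin k → V4 := fun s t => v (a s) (b t)

/-- meeting a subfamily is enough -/
theorem met_of_sub {ι κ : Type} [Fintype ι] [Fintype κ] {f g : V4 →ₗ[ℝ] ℝ} {w : ι → V4}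
    (b : κ → ι) (hb : Function.Injective b) (h : Met f g fun t => w (b t)) : Met f g w := by
  obtain ⟨l, hl, ⟨j, hj⟩, hf, hg⟩ := h
  have e : ∑ i, (Function.extend b l 0 i) • w i = ∑ t, l t • w (b t) := by
    rw [← Finset.sum_subset (Finset.subset_univ (Finset.univ.image b))]
    · rw [Finset.sum_image fun x _ y _ hxy => hb hxy]
      exact Finset.sum_congr rfl fun t _ => by rw [hb.extend_apply]
    · intro i _ hi
      rw [Function.extend_apply', Pi.zero_apply, zero_smul]
      rintro ⟨t, rfl⟩
      exact hi (Finset.mem_image_of_mem _ (Finset.mem_univ _))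
  refine ⟨Function.extend b l 0, fun i => ?_, ⟨b j, ?_⟩, ?_, ?_⟩
  · by_cases hi : ∃ t, b t = i
    · obtain ⟨t, rfl⟩ := hi
      rw [hb.extend_apply]
      exact hl t
    · rw [Function.extend_apply' _ _ _ hi]
      exact le_rfl
  · rw [hb.extend_apply]
    exact hj
  · rw [e, hf]
  · rw [e, hg]

/-- the rows of a sub-array with `N` choices for the row `r` -/
def gapRow {h m N : ℕ} (hm : h + N ≤ m) (r : Fin h) (t : Fin N) (s : Fin h) : Fin m :=
  if s < r then ⟨s.1, by omega⟩ else if s = r then ⟨r.1 + t.1, by omega⟩ else ⟨s.1 + N, by omega⟩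

lemma gapRow_strictMono {h m N : ℕ} (hm : h + N ≤ m) (r : Fin h) (t : Fin N) :
    StrictMono (gapRow hm r t) := by
  intro s s' hs
  rw [Fin.lt_def] at hs ⊢
  unfold gapRow
  simp only [Fin.lt_def, Fin.ext_iff]
  split_ifs <;> simp only [] <;> omega

lemma gapRow_self {h m N : ℕ} (hm : h + N ≤ m) (r : Fin h) (t : Fin N) :
    (gapRow hm r t r).1 = r.1 + t.1 := by
  simp [gapRow]

lemma gapRow_of_ne {h m N : ℕ} (hm : h + N ≤ m) (r : Fin h) (t t' : Fin N) (s : Fin h)
    (hs : s ≠ r) : gapRow hm r t s = gapRow hm r t' s := by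
  simp only [gapRow, hs, if_false]

/-- ROW S1, rows. `f`, `g` (two forms) are read off the sub-array without looking at its row `r`;
if `p.P` holds for a sub-array, then the line meets its row `r`. In a homogeneous array without
`N` rows on a line `p.P` is false everywhere. -/
theorem failRows {m n N : ℕ} (v : Fin m → Fin n → V4) (p : GPred) (hom : p.Homog v)
    (hm : p.h + N ≤ m) (r : Fin p.h) (f g : (Fin p.h → Fin p.k → V4) → (V4 →ₗ[ℝ] ℝ))
    (hdep : ∀ w w' : Fin p.h → Fin p.k → V4, (∀ s, s ≠ r → w s = w' s) →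
      f w = f w' ∧ g w = g w')
    (hmet : ∀ a b, StrictMono a → StrictMono b → p.P (Sub v a b) →
      LinearIndependent ℝ ![f (Sub v a b), g (Sub v a b)] ∧
      Met (f (Sub v a b)) (g (Sub v a b)) (Sub v a b r))
    (hv : ¬ HitRows v N) (hN : 1 ≤ N) :
    ∀ a b, StrictMono a → StrictMono b → ¬ p.P (Sub v a b) := by
  intro a b ha hb hP
  apply hv
  have hall : ∀ t : Fin N, p.P (Sub v (gapRow hm r t) b) := fun t =>
    (hom a (gapRow hm r t) ha (gapRow_strictMono hm r t) b b hb hb).mp hP
  let t0 : Fin N := ⟨0, hN⟩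
  have h0 := hmet _ b (gapRow_strictMono hm r t0) hb (hall t0)
  refine ⟨_, _, h0.1, Finset.univ.image fun t : Fin N => gapRow hm r t r, ?_, ?_⟩
  · rw [Finset.card_image_of_injective, Finset.card_univ, Fintype.card_fin]
    intro t t' h
    have h1 := congrArg Fin.val h
    simp only [gapRow_self] at h1
    exact Fin.ext (by omega)
  · intro i hi
    rw [Finset.mem_image] at hi
    obtain ⟨t, -, rfl⟩ := hi
    have h1 := hmet _ b (gapRow_strictMono hm r t) hb (hall t)
    have h2 := hdep (Sub v (gapRow hm r t0) b) (Sub v (gapRow hm r t) b) (by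
      intro s hs
      funext j
      simp only [Sub, gapRow_of_ne hm r t0 t s hs])
    rw [h2.1, h2.2]
    exact met_of_sub b hb.injective h1.2

/-- the transposed predicate -/
def trS (p : GPred) : GPred := ⟨p.k, p.h, fun w => p.P fun s t => w t s⟩

/-- ROW S1, columns. -/
theorem failCols {m n N : ℕ} (v : Fin m → Fin n → V4) (p : GPred) (hom : p.Homog v)
    (hn : p.k + N ≤ n) (r : Fin p.k) (f g : (Fin p.h → Fin p.k → V4) → (V4 →ₗ[ℝ] ℝ))
    (hdep : ∀ w w' : Fin p.h → Fin p.k → V4, (∀ s t, t ≠ r → w s t = w' s t) →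
      f w = f w' ∧ g w = g w')
    (hmet : ∀ a b, StrictMono a → StrictMono b → p.P (Sub v a b) →
      LinearIndependent ℝ ![f (Sub v a b), g (Sub v a b)] ∧
      Met (f (Sub v a b)) (g (Sub v a b)) fun s => Sub v a b s r)
    (hv : ¬ HitCols v N) (hN : 1 ≤ N) :
    ∀ a b, StrictMono a → StrictMono b → ¬ p.P (Sub v a b) := by
  intro a b ha hb hP
  refine failRows (fun j i => v i j) (trS p)
    (fun a a' ha ha' b b' hb hb' => hom b b' hb hb' a a' ha ha') hn r (fun w => f fun s t => w t s)
    (fun w => g fun s t => w t s) ?_ ?_ hv hN b a hb ha hP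
  · intro w w' h
    exact hdep _ _ fun s t ht => congrFun (h t ht) s
  · intro b' a' hb' ha' h
    exact hmet a' b' ha' hb' h

end Pool.Agent.BIP.FX
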