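import Pool.Agent.BIP.JDefs

/-!
# JIT19, rows J0: line criterion, normalization, transposition
-/

namespace Pool.Agent.BIP

theorem hitRows_map {m n : ℕ} (φ : V4 →ₗ[ℝ] V4) (hφ : Function.Surjective φ)
    (w : Fin m → Fin n → V4) (N : ℕ) (h : HitRows (fun i j => φ (w i j)) N) : HitRows w N := by
  obtain ⟨f, g, hfg, S, hS, hM⟩ := h
  refine ⟨f.comp φ, g.comp φ, ?_, S, hS, fun i hi => ?_⟩
  · rw [LinearIndependent.pair_iff] at hfg ⊢
    intro s t hst
    apply hfg s t
    refine LinearMap.ext fun a => ?_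
    obtain ⟨b, hb⟩ := hφ a
    have := congrArg (fun F : V4 →ₗ[ℝ] ℝ => F b) hst
    simpa [hb] using this
  · obtain ⟨l, h0, h1, h2, h3⟩ := hM i hi
    refine ⟨l, h0, h1, ?_, ?_⟩
    · simpa only [LinearMap.comp_apply, map_sum, map_smul] using h2
    · simpa only [LinearMap.comp_apply, map_sum, map_smul] using h3

theorem hitRows_scale {m n : ℕ} (c : Fin m → Fin n → ℝ) (hc : ∀ i j, 0 < c i j)
    (w : Fin m → Fin n → V4) (N : ℕ) (h : HitRows (fun i j => c i j • w i j) N) :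
    HitRows w N := by
  obtain ⟨f, g, hfg, S, hS, hM⟩ := h
  refine ⟨f, g, hfg, S, hS, fun i hi => ?_⟩
  obtain ⟨l, h0, ⟨j, h1⟩, h2, h3⟩ := hM i hi
  refine ⟨fun j => l j * c i j, fun j => mul_nonneg (h0 j) (hc i j).le, ⟨j, mul_pos h1 (hc i j)⟩,
    ?_, ?_⟩
  · simpa only [smul_smul] using h2
  · simpa only [smul_smul] using h3

/-- ROW J0a. The line `x = A, z = D y` (forms `w ↦ w 1 - A w 0`, `w ↦ w 3 - D w 2`). -/
theorem rowJ0a {m n : ℕ} (x y z : Fin m → Fin n → ℝ) (A D : ℝ) (N : ℕ) (S : Finset (Fin m))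
    (hS : N ≤ S.card) (h : ∀ i ∈ S, RMet (x i) (y i) (z i) A D) : HitRows (Nrm x y z) N := by
  refine ⟨LinearMap.proj 1 - A • LinearMap.proj 0, LinearMap.proj 3 - D • LinearMap.proj 2,
    ?_, S, hS, fun i hi => ?_⟩
  · rw [LinearIndependent.pair_iff]
    intro s t hst
    have h1 := congrArg (fun F : V4 →ₗ[ℝ] ℝ => F (Pi.single 1 1)) hst
    have h3 := congrArg (fun F : V4 →ₗ[ℝ] ℝ => F (Pi.single 3 1)) hst
    simp at h1 h3
    exact ⟨h1, h3⟩
  · obtain ⟨l, h0, h1, h2, h3⟩ := h i hi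
    refine ⟨l, h0, h1, ?_, ?_⟩
    · simp only [LinearMap.sub_apply, LinearMap.smul_apply, LinearMap.proj_apply,
        Finset.sum_apply, Pi.smul_apply, smul_eq_mul, Nrm]
      simp only [Matrix.cons_val_one, Matrix.cons_val_zero, mul_one]
      linarith
    · simp only [LinearMap.sub_apply, LinearMap.smul_apply, LinearMap.proj_apply,
        Finset.sum_apply, Pi.smul_apply, smul_eq_mul, Nrm]
      have e3 : ∀ j, (![1, x i j, y i j, z i j] : Fin 4 → ℝ) 3 = z i j := fun j => rfl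
      have e2 : ∀ j, (![1, x i j, y i j, z i j] : Fin 4 → ℝ) 2 = y i j := fun j => rfl
      simp only [e3, e2]
      linarith

theorem surj_pi (L : Fin 4 → (V4 →ₗ[ℝ] ℝ)) (hL : LinearIndependent ℝ L) :
    Function.Surjective (LinearMap.pi L : V4 →ₗ[ℝ] V4) := by
  have hspan : Submodule.span ℝ (Set.range L) = ⊤ := by
    apply hL.span_eq_top_of_card_eq_finrank
    have : Module.finrank ℝ (Module.Dual ℝ V4) = Module.finrank ℝ V4 :=
      Subspace.dual_finrank_eq
    rw [show Module.finrank ℝ (V4 →ₗ[ℝ] ℝ) = Module.finrank ℝ (Module.Dual ℝ V4) from rfl, this]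
    simp
  have hinj : Function.Injective (LinearMap.pi L : V4 →ₗ[ℝ] V4) := by
    rw [injective_iff_map_eq_zero]
    intro a ha
    have hk : ∀ k, L k a = 0 := fun k => by
      have := congrFun ha k
      simpa using this
    rw [← Module.forall_dual_apply_eq_zero_iff ℝ a]
    intro φ
    have hφ : φ ∈ Submodule.span ℝ (Set.range L) := by rw [hspan]; trivial
    induction hφ using Submodule.span_induction with
    | mem F hF => obtain ⟨k, rfl⟩ := hF; exact hk k
    | zero => rfl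
    | add F G _ _ hF hG => rw [LinearMap.add_apply, hF, hG, add_zero]
    | smul c F _ hF => rw [LinearMap.smul_apply, hF, smul_zero]
  exact LinearMap.injective_iff_surjective.1 hinj

theorem nrm_eq {m n : ℕ} (v : Fin m → Fin n → V4) (L : Fin 4 → (V4 →ₗ[ℝ] ℝ))
    (hpos : ∀ k i j, 0 < L k (v i j)) (i : Fin m) (j : Fin n) :
    Nrm (fun i j => L 1 (v i j) / L 0 (v i j)) (fun i j => L 2 (v i j) / L 0 (v i j))
      (fun i j => L 3 (v i j) / L 0 (v i j)) i j =
    (L 0 (v i j))⁻¹ • (LinearMap.pi L : V4 →ₗ[ℝ] V4) (v i j) := by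
  have h0 := (hpos 0 i j).ne'
  funext k
  fin_cases k
  · show (1 : ℝ) = (L 0 (v i j))⁻¹ * L 0 (v i j)
    rw [inv_mul_cancel₀ h0]
  · show L 1 (v i j) / L 0 (v i j) = (L 0 (v i j))⁻¹ * L 1 (v i j)
    rw [div_eq_inv_mul]
  · show L 2 (v i j) / L 0 (v i j) = (L 0 (v i j))⁻¹ * L 2 (v i j)
    rw [div_eq_inv_mul]
  · show L 3 (v i j) / L 0 (v i j) = (L 0 (v i j))⁻¹ * L 3 (v i j)
    rw [div_eq_inv_mul]

/-- ROW J0b. Normalization. -/
theorem rowNrm {m n : ℕ} (v : Fin m → Fin n → V4) (L : Fin 4 → (V4 →ₗ[ℝ] ℝ))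
    (hL : LinearIndependent ℝ L) (hpos : ∀ k i j, 0 < L k (v i j)) (N : ℕ)
    (h : Hit (Nrm (fun i j => L 1 (v i j) / L 0 (v i j)) (fun i j => L 2 (v i j) / L 0 (v i j))
      (fun i j => L 3 (v i j) / L 0 (v i j))) N) : Hit v N := by
  have he : Nrm (fun i j => L 1 (v i j) / L 0 (v i j)) (fun i j => L 2 (v i j) / L 0 (v i j))
      (fun i j => L 3 (v i j) / L 0 (v i j)) =
      fun i j => (L 0 (v i j))⁻¹ • (LinearMap.pi L : V4 →ₗ[ℝ] V4) (v i j) := by
    funext i j
    exact nrm_eq v L hpos i j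
  rw [he] at h
  have hs := surj_pi L hL
  rcases h with h | h
  · exact Or.inl (hitRows_map _ hs v N (hitRows_scale (fun i j => (L 0 (v i j))⁻¹)
      (fun i j => inv_pos.2 (hpos 0 i j)) (fun i j => (LinearMap.pi L : V4 →ₗ[ℝ] V4) (v i j)) N h))
  · exact Or.inr (hitRows_map _ hs (fun j i => v i j) N
      (hitRows_scale (fun j i => (L 0 (v i j))⁻¹)
      (fun j i => inv_pos.2 (hpos 0 i j)) (fun j i => (LinearMap.pi L : V4 →ₗ[ℝ] V4) (v i j)) N h))

/-- ROW J0b', Segre type of the normalized array. -/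
theorem rowSegNrm {m n : ℕ} (T : ℝ) (v : Fin m → Fin n → V4) (L : Fin 4 → (V4 →ₗ[ℝ] ℝ))
    (hpos : ∀ k i j, 0 < L k (v i j)) (hS : Segre T (fun k i j => L k (v i j))) :
    Seg T (fun i j => L 1 (v i j) / L 0 (v i j)) (fun i j => L 2 (v i j) / L 0 (v i j))
      (fun i j => L 3 (v i j) / L 0 (v i j)) := by
  obtain ⟨s1, s2, s3, s4, s5, s6⟩ := hS
  refine ⟨fun i j => div_pos (hpos 1 i j) (hpos 0 i j), fun i j => div_pos (hpos 2 i j) (hpos 0 i j),
    fun i j => div_pos (hpos 3 i j) (hpos 0 i j), s1, ?_, s3, ?_⟩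
  · intro i i' j j' hj
    have := s2 i i' j j' hj
    simp only [div_div_div_cancel_right₀ (hpos 0 _ _).ne']
    exact this
  · intro i i' j j' hi
    have := s6 i i' j j' hi
    simp only [div_div_div_cancel_right₀ (hpos 0 _ _).ne']
    exact this

/-- The exchange of the coordinates 1 and 2, as a linear map. -/
def swL : V4 →ₗ[ℝ] V4 where
  toFun := sw
  map_add' a b := by
    funext k
    fin_cases k <;> rfl
  map_smul' c a := by
    funext k
    fin_cases k <;> rfl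

theorem sw_sw (a : V4) : sw (sw a) = a := by
  funext k
  fin_cases k <;> rfl

theorem sw_nrm {m n : ℕ} (x y z : Fin m → Fin n → ℝ) (i : Fin m) (j : Fin n) :
    sw (Nrm x y z i j) = Nrm (fun j i => y i j) (fun j i => x i j) (fun j i => z i j) j i := by
  funext k
  fin_cases k <;> rfl

/-- ROW J0c. Transposition. -/
theorem rowTr {m n : ℕ} (x y z : Fin m → Fin n → ℝ) (N : ℕ)
    (h : HitRows (Nrm (fun j i => y i j) (fun j i => x i j) (fun j i => z i j)) N) :
    HitCols (Nrm x y z) N := by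
  have he : Nrm (fun j i => y i j) (fun j i => x i j) (fun j i => z i j) =
      fun j i => swL (Nrm x y z i j) := by
    funext j i
    exact (sw_nrm x y z i j).symm
  rw [he] at h
  exact hitRows_map swL (fun a => ⟨sw a, sw_sw a⟩) (fun j i => Nrm x y z i j) N h

theorem rowTrH {m n : ℕ} (p : GPred) (x y z : Fin m → Fin n → ℝ)
    (h : (GPred.tr p).Homog (Nrm x y z)) :
    p.Homog (Nrm (fun j i => y i j) (fun j i => x i j) (fun j i => z i j)) := by
  intro a a' ha ha' b b' hb hb'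
  have := h b b' hb hb' a a' ha ha'
  simp only [GPred.tr, sw_nrm] at this
  exact this

theorem rowTrSeg {m n : ℕ} (T : ℝ) (x y z : Fin m → Fin n → ℝ) (h : Seg T x y z) :
    Seg T (fun j i => y i j) (fun j i => x i j) (fun j i => z i j) :=
  ⟨fun j i => h.hy i j, fun j i => h.hx i j, fun j i => h.hz i j,
    fun _ _ j j' hj => h.ry j j' _ _ hj, fun _ _ j j' hj => h.rw j j' _ _ hj,
    fun j j' _ _ hj => h.cx _ _ j j' hj, fun j j' _ _ hj => h.cq _ _ j j' hj⟩

end Pool.Agent.BIP
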