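import Pool.Agent.BIP.JDefs

/-!
# JIT19, row J1: three cells of one row, two chords of one row
-/

namespace Pool.Agent.BIP

/-- Two nonnegative combinations at `x = A`, one above and one below the line. -/
theorem RMet_of_two {n : ℕ} {x y z : Fin n → ℝ} {A D : ℝ} (l m : Fin n → ℝ)
    (hl : ∀ j, 0 ≤ l j) (hl' : ∃ j, 0 < l j) (hm : ∀ j, 0 ≤ m j) (hm' : ∃ j, 0 < m j)
    (hlx : ∑ j, l j * x j = A * ∑ j, l j) (hmx : ∑ j, m j * x j = A * ∑ j, m j)
    (hlz : D * ∑ j, l j * y j ≤ ∑ j, l j * z j)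
    (hmz : ∑ j, m j * z j ≤ D * ∑ j, m j * y j) : RMet x y z A D := by
  obtain ⟨a, ha⟩ : ∃ a, a = ∑ j, l j * z j - D * ∑ j, l j * y j := ⟨_, rfl⟩
  obtain ⟨b, hb⟩ : ∃ b, b = D * ∑ j, m j * y j - ∑ j, m j * z j := ⟨_, rfl⟩
  have ha0 : 0 ≤ a := by rw [ha]; linarith
  have hb0 : 0 ≤ b := by rw [hb]; linarith
  rcases ha0.eq_or_lt with h | h
  · exact ⟨l, hl, hl', hlx, by linarith⟩
  · refine ⟨fun j => b * l j + a * m j, fun j => ?_, ?_, ?_, ?_⟩
    · exact add_nonneg (mul_nonneg hb0 (hl j)) (mul_nonneg ha0 (hm j))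
    · obtain ⟨j, hj⟩ := hm'
      exact ⟨j, add_pos_of_nonneg_of_pos (mul_nonneg hb0 (hl j)) (mul_pos h hj)⟩
    · have e1 : ∑ j, (b * l j + a * m j) * x j = b * ∑ j, l j * x j + a * ∑ j, m j * x j := by
        rw [Finset.mul_sum, Finset.mul_sum, ← Finset.sum_add_distrib]
        exact Finset.sum_congr rfl fun j _ => by ring
      have e2 : ∑ j, (b * l j + a * m j) = b * ∑ j, l j + a * ∑ j, m j := by
        rw [Finset.mul_sum, Finset.mul_sum, ← Finset.sum_add_distrib]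
      rw [e1, e2, hlx, hmx]; ring
    · have e1 : ∑ j, (b * l j + a * m j) * z j = b * ∑ j, l j * z j + a * ∑ j, m j * z j := by
        rw [Finset.mul_sum, Finset.mul_sum, ← Finset.sum_add_distrib]
        exact Finset.sum_congr rfl fun j _ => by ring
      have e2 : ∑ j, (b * l j + a * m j) * y j = b * ∑ j, l j * y j + a * ∑ j, m j * y j := by
        rw [Finset.mul_sum, Finset.mul_sum, ← Finset.sum_add_distrib]
        exact Finset.sum_congr rfl fun j _ => by ring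
      rw [e1, e2]
      have e3 : ∑ j, l j * z j = a + D * ∑ j, l j * y j := by rw [ha]; ring
      have e4 : ∑ j, m j * z j = D * ∑ j, m j * y j - b := by rw [hb]; ring
      rw [e3, e4]; ring

/-- the weights of a chord -/
def chw {n : ℕ} (p s : Fin n) (a b : ℝ) : Fin n → ℝ :=
  fun j => (if j = p then a else 0) + (if j = s then b else 0)

theorem chw_sum {n : ℕ} (p s : Fin n) (a b : ℝ) : ∑ j, chw p s a b j = a + b := by
  simp [chw, Finset.sum_add_distrib]

theorem chw_sum_mul {n : ℕ} (p s : Fin n) (a b : ℝ) (f : Fin n → ℝ) :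
    ∑ j, chw p s a b j * f j = a * f p + b * f s := by
  simp [chw, Finset.sum_add_distrib, add_mul, ite_mul]

theorem chw_nonneg {n : ℕ} (p s : Fin n) {a b : ℝ} (ha : 0 ≤ a) (hb : 0 ≤ b) (j : Fin n) :
    0 ≤ chw p s a b j := by
  unfold chw
  split_ifs <;> linarith

theorem chw_pos {n : ℕ} (p s : Fin n) {a b : ℝ} (ha : 0 ≤ a) (hb : 0 < b) :
    ∃ j, 0 < chw p s a b j := by
  refine ⟨s, ?_⟩
  unfold chw
  split_ifs <;> simp_all <;> linarith

/-- Two chords, one above and one below the line. -/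
theorem RMet_of_chords {n : ℕ} {x y z : Fin n → ℝ} {A D : ℝ} (a b c d : Fin n)
    (h1 : x a < A) (h2 : A ≤ x b) (h3 : x c ≤ A) (h4 : A < x d)
    (h5 : Ch x y z a b A D ≤ 0) (h6 : 0 ≤ Ch x y z c d A D) : RMet x y z A D := by
  unfold Ch at h5 h6
  refine RMet_of_two (chw d c (A - x c) (x d - A)) (chw a b (x b - A) (A - x a))
    (chw_nonneg _ _ (by linarith) (by linarith)) (chw_pos _ _ (by linarith) (by linarith))
    (chw_nonneg _ _ (by linarith) (by linarith)) (chw_pos _ _ (by linarith) (by linarith))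
    ?_ ?_ ?_ ?_
  · rw [chw_sum, chw_sum_mul]; ring
  · rw [chw_sum, chw_sum_mul]; ring
  · rw [chw_sum_mul, chw_sum_mul]; nlinarith
  · rw [chw_sum_mul, chw_sum_mul]; nlinarith

/-- ROW J1. Three cells of one row. -/
theorem rowJ1a {n : ℕ} (x y z : Fin n → ℝ) (p q s : Fin n) (A D : ℝ) (hpq : p ≠ q) (hqs : q ≠ s)
    (hps : p ≠ s) (h1 : x p < A) (h2 : A ≤ x q) (h3 : A < x s) (h4 : z p ≤ D * y p)
    (h5 : z q ≤ D * y q) (h6 : 0 ≤ Ch x y z p s A D) : RMet x y z A D := by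
  refine RMet_of_chords p q p s h1 h2 h1.le h3 ?_ h6
  unfold Ch
  have e1 : (A - x p) * (z q - D * y q) ≤ 0 :=
    mul_nonpos_of_nonneg_of_nonpos (by linarith) (by linarith)
  have e2 : (x q - A) * (z p - D * y p) ≤ 0 :=
    mul_nonpos_of_nonneg_of_nonpos (by linarith) (by linarith)
  linarith

theorem rowJ1b {n : ℕ} (x y z : Fin n → ℝ) (p q s : Fin n) (A D : ℝ) (hpq : p ≠ q) (hqs : q ≠ s)
    (hps : p ≠ s) (h1 : x p < A) (h2 : x q ≤ A) (h3 : A < x s) (h4 : D * y s ≤ z s)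
    (h5 : D * y q ≤ z q) (h6 : Ch x y z p s A D ≤ 0) : RMet x y z A D := by
  refine RMet_of_chords p s q s h1 h3.le h2 h3 h6 ?_
  unfold Ch
  have e1 : 0 ≤ (A - x q) * (z s - D * y s) := mul_nonneg (by linarith) (by linarith)
  have e2 : 0 ≤ (x s - A) * (z q - D * y q) := mul_nonneg (by linarith) (by linarith)
  linarith

/-- two chords: values `V ≤ D ≤ V'` give a hit. -/
theorem rowJ1c {n : ℕ} (x y z : Fin n → ℝ) (hy : ∀ j, 0 < y j) (a b c d : Fin n) (A D : ℝ)
    (hab : a ≠ b) (hcd : c ≠ d) (h1 : x a < A) (h2 : A < x b) (h3 : x c < A) (h4 : A < x d)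
    (h5 : Vc x y z a b A ≤ D) (h6 : D ≤ Vc x y z c d A) : RMet x y z A D := by
  have p1 : 0 < (A - x a) * y b + (x b - A) * y a :=
    add_pos (mul_pos (by linarith) (hy b)) (mul_pos (by linarith) (hy a))
  have p2 : 0 < (A - x c) * y d + (x d - A) * y c :=
    add_pos (mul_pos (by linarith) (hy d)) (mul_pos (by linarith) (hy c))
  unfold Vc at h5 h6
  rw [div_le_iff₀ p1] at h5
  rw [le_div_iff₀ p2] at h6
  refine RMet_of_chords a b c d h1 h2.le h3.le h4 ?_ ?_
  · unfold Ch; nlinarith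
  · unfold Ch; nlinarith

end Pool.Agent.BIP
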