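import Pool.Agent.BIP.JDefs

namespace Pool.Agent.BIP

theorem tau_eq (T : ℝ) (hT : 4 ≤ T) : 2 * tau T = - Real.log ((1 - 1 / T) ^ 2) := by
  rw [Real.log_pow]; unfold tau; push_cast; ring

/-- ROW J2. (LB), (UB). -/
theorem rowJ2a (T A D xp xs yp ys zp zs : ℝ) (hT : 4 ≤ T) (hA : 0 < A) (hD : 0 < D)
    (hxp : 0 < xp) (hxs : 0 < xs) (hyp : 0 < yp) (hys : 0 < ys) (hzp : 0 < zp) (hzs : 0 < zs)
    (h1 : T * xp ≤ A) (h2 : T * A ≤ xs) (h3 : T * D ≤ zs / ys)
    (h : (A - xp) * (zs - D * ys) + (xs - A) * (zp - D * yp) ≤ 0) :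
    Real.log (zs / xs) - Real.log yp ≤ Real.log D - Real.log A + 2 * tau T := by
  have hT0 : 0 < T := by linarith
  have hc : 0 < 1 - 1 / T := by
    have : 1 / T ≤ 1 / 4 := one_div_le_one_div_of_le (by norm_num) hT
    linarith
  have hxpA : xp ≤ A / T := by rw [le_div_iff₀ hT0]; linarith
  have hDys : D * ys ≤ zs / T := by
    rw [le_div_iff₀ hys] at h3
    rw [le_div_iff₀ hT0]; linarith
  have h4 : A * (1 - 1 / T) ≤ A - xp := by
    have : A * (1 - 1 / T) = A - A / T := by ring
    linarith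
  have h5 : zs * (1 - 1 / T) ≤ zs - D * ys := by
    have : zs * (1 - 1 / T) = zs - zs / T := by ring
    linarith
  have h6 : A * (1 - 1 / T) * (zs * (1 - 1 / T)) ≤ (A - xp) * (zs - D * ys) :=
    mul_le_mul h4 h5 (by positivity) (by
      have : 0 < A * (1 - 1 / T) := by positivity
      linarith)
  have hAxs : A < xs := by nlinarith
  have h7 : (xs - A) * (D * yp - zp) ≤ xs * (D * yp) := by
    have h71 : (xs - A) * (D * yp - zp) ≤ (xs - A) * (D * yp) :=
      mul_le_mul_of_nonneg_left (by linarith) (by linarith)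
    have h72 : (xs - A) * (D * yp) ≤ xs * (D * yp) :=
      mul_le_mul_of_nonneg_right (by linarith) (by positivity)
    linarith
  have h8 : A * zs * (1 - 1 / T) ^ 2 ≤ xs * (D * yp) := by nlinarith
  have h9 : (1 - 1 / T) ^ 2 * (A * (zs / xs)) ≤ D * yp := by
    have : (1 - 1 / T) ^ 2 * (A * (zs / xs)) = A * zs * (1 - 1 / T) ^ 2 / xs := by ring
    rw [this, div_le_iff₀ hxs]; linarith
  have h10 := Real.log_le_log (by positivity) h9
  rw [Real.log_mul (by positivity) (by positivity), Real.log_mul (by positivity) (by positivity),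
    Real.log_mul (by positivity) (by positivity)] at h10
  rw [tau_eq T hT]
  linarith

theorem rowJ2b (T A D xp xs yp ys zp zs : ℝ) (hT : 4 ≤ T) (hA : 0 < A) (hD : 0 < D)
    (hxp : 0 < xp) (hxs : 0 < xs) (hyp : 0 < yp) (hys : 0 < ys) (hzp : 0 < zp) (hzs : 0 < zs)
    (h1 : T * xp ≤ A) (h2 : T * A ≤ xs) (h3 : T * (zp / yp) ≤ D)
    (h : 0 ≤ (A - xp) * (zs - D * ys) + (xs - A) * (zp - D * yp)) :
    Real.log D - Real.log A - 2 * tau T ≤ Real.log (zs / xs) - Real.log yp := by
  have hT0 : 0 < T := by linarith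
  have hc : 0 < 1 - 1 / T := by
    have : 1 / T ≤ 1 / 4 := one_div_le_one_div_of_le (by norm_num) hT
    linarith
  have hAxs : A ≤ xs / T := by rw [le_div_iff₀ hT0]; linarith
  have hzp' : zp ≤ D * yp / T := by
    rw [le_div_iff₀ hT0]
    have : T * (zp / yp) * yp ≤ D * yp := mul_le_mul_of_nonneg_right h3 hyp.le
    have e : T * (zp / yp) * yp = zp * T := by field_simp
    linarith
  have h4 : xs * (1 - 1 / T) ≤ xs - A := by
    have : xs * (1 - 1 / T) = xs - xs / T := by ring
    linarith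
  have h5 : D * yp * (1 - 1 / T) ≤ D * yp - zp := by
    have : D * yp * (1 - 1 / T) = D * yp - D * yp / T := by ring
    linarith
  have h6 : xs * (1 - 1 / T) * (D * yp * (1 - 1 / T)) ≤ (xs - A) * (D * yp - zp) :=
    mul_le_mul h4 h5 (by positivity) (by
      have : 0 < xs * (1 - 1 / T) := by positivity
      linarith)
  have hxpA : xp < A := by nlinarith
  have h7 : (A - xp) * (zs - D * ys) ≤ A * zs := by
    have h71 : (A - xp) * (zs - D * ys) ≤ (A - xp) * zs :=
      mul_le_mul_of_nonneg_left (by have := mul_pos hD hys; linarith) (by linarith)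
    have h72 : (A - xp) * zs ≤ A * zs :=
      mul_le_mul_of_nonneg_right (by linarith) hzs.le
    linarith
  have h8 : xs * (D * yp) * (1 - 1 / T) ^ 2 ≤ A * zs := by nlinarith
  have h9 : (1 - 1 / T) ^ 2 * (D * yp) ≤ A * (zs / xs) := by
    have : A * (zs / xs) = A * zs / xs := by ring
    rw [this, le_div_iff₀ hxs]; linarith
  have h10 := Real.log_le_log (by positivity) h9
  rw [Real.log_mul (by positivity) (by positivity), Real.log_mul (by positivity) (by positivity),
    Real.log_mul (by positivity) (by positivity)] at h10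
  rw [tau_eq T hT]
  linarith

end Pool.Agent.BIP
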