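import Pool.Agent.BIP.J0
import Pool.Agent.BIP.J1
import Pool.Agent.BIP.J2

/-!
# JIT19, rows (R), (R-)
-/

namespace Pool.Agent.BIP

variable {N M : ℕ} {T : ℝ} {x y z : Fin M → Fin M → ℝ}

theorem jr_iff {h : ℕ} (i b i' : Fin h) (a : Fin h → Fin M) (c : Fin 3 → Fin M) :
    badR i b i' (fun s t => Nrm x y z (a s) (c t)) ↔
      (x (a i) (c 1) ≤ x (a b) (c 1) ∧
        z (a b) (c 1) / y (a b) (c 1) ≤ z (a i') (c 1) / y (a i') (c 1) ∧
        0 ≤ Ch (x (a b)) (y (a b)) (z (a b)) (c 0) (c 2) (x (a i) (c 1))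
          (z (a i') (c 1) / y (a i') (c 1))) := Iff.rfl

theorem jrm_iff {h : ℕ} (i b i' : Fin h) (a : Fin h → Fin M) (c : Fin 3 → Fin M) :
    badRm i b i' (fun s t => Nrm x y z (a s) (c t)) ↔
      (x (a b) (c 1) ≤ x (a i) (c 1) ∧
        z (a i') (c 1) / y (a i') (c 1) ≤ z (a b) (c 1) / y (a b) (c 1) ∧
        Ch (x (a b)) (y (a b)) (z (a b)) (c 0) (c 2) (x (a i) (c 1))
          (z (a i') (c 1) / y (a i') (c 1)) ≤ 0) := Iff.rfl

/-- strict growth with the columns -/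
theorem Seg.xlt (hT : 4 ≤ T) (hS : Seg T x y z) {i i' j j' : Fin M} (h : j < j') :
    x i j < x i' j' := by
  have h1 := hS.cx i i' j j' h
  have h2 := hS.hx i j
  nlinarith

theorem Seg.qlt (hT : 4 ≤ T) (hS : Seg T x y z) {i i' j j' : Fin M} (h : j < j') :
    z i j / y i j < z i' j' / y i' j' := by
  have h1 := hS.cq i i' j j' h
  have h2 : 0 < z i j / y i j := div_pos (hS.hz i j) (hS.hy i j)
  simp only at h1
  nlinarith

theorem jr_not (hT : 4 ≤ T) (hS : Seg T x y z) (hN : ¬ HitRows (Nrm x y z) N) {h : ℕ}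
    (i b i' : Fin h) (hib : i ≠ b) (hib' : i' ≠ b)
    (hH : (⟨h, 3, badR i b i'⟩ : GPred).Homog (Nrm x y z)) (a0 : Fin h → Fin M)
    (S : Finset (Fin M)) (hcard : N ≤ S.card) (ha0 : ∀ t ∈ S, StrictMono (Function.update a0 b t))
    (a : Fin h → Fin M) (c : Fin 3 → Fin M) (ha : StrictMono a) (hc : StrictMono c) :
    ¬ badR i b i' (fun s t => Nrm x y z (a s) (c t)) := by
  intro hbad
  apply hN
  have c01 : c 0 < c 1 := hc (by decide)
  have c12 : c 1 < c 2 := hc (by decide)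
  refine rowJ0a x y z (x (a0 i) (c 1)) (z (a0 i') (c 1) / y (a0 i') (c 1)) N S hcard ?_
  intro t ht
  have h1 := (hH a (Function.update a0 b t) ha (ha0 t ht) c c hc hc).1 hbad
  have h2 := (jr_iff (x := x) (y := y) (z := z) i b i' (Function.update a0 b t) c).1 h1
  rw [Function.update_self, Function.update_of_ne hib, Function.update_of_ne hib'] at h2
  obtain ⟨e1, e2, e3⟩ := h2
  refine rowJ1a (x t) (y t) (z t) (c 0) (c 1) (c 2) _ _ c01.ne c12.ne (c01.trans c12).ne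
    (hS.xlt hT c01) e1 (hS.xlt hT c12) ?_ ?_ e3
  · exact ((div_lt_iff₀ (hS.hy _ _)).1 (hS.qlt hT c01)).le
  · exact (div_le_iff₀ (hS.hy _ _)).1 e2

theorem jrm_not (hT : 4 ≤ T) (hS : Seg T x y z) (hN : ¬ HitRows (Nrm x y z) N) {h : ℕ}
    (i b i' : Fin h) (hib : i ≠ b) (hib' : i' ≠ b)
    (hH : (⟨h, 3, badRm i b i'⟩ : GPred).Homog (Nrm x y z)) (a0 : Fin h → Fin M)
    (S : Finset (Fin M)) (hcard : N ≤ S.card) (ha0 : ∀ t ∈ S, StrictMono (Function.update a0 b t))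
    (a : Fin h → Fin M) (c : Fin 3 → Fin M) (ha : StrictMono a) (hc : StrictMono c) :
    ¬ badRm i b i' (fun s t => Nrm x y z (a s) (c t)) := by
  intro hbad
  apply hN
  have c01 : c 0 < c 1 := hc (by decide)
  have c12 : c 1 < c 2 := hc (by decide)
  refine rowJ0a x y z (x (a0 i) (c 1)) (z (a0 i') (c 1) / y (a0 i') (c 1)) N S hcard ?_
  intro t ht
  have h1 := (hH a (Function.update a0 b t) ha (ha0 t ht) c c hc hc).1 hbad
  have h2 := (jrm_iff (x := x) (y := y) (z := z) i b i' (Function.update a0 b t) c).1 h1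
  rw [Function.update_self, Function.update_of_ne hib, Function.update_of_ne hib'] at h2
  obtain ⟨e1, e2, e3⟩ := h2
  refine rowJ1b (x t) (y t) (z t) (c 0) (c 1) (c 2) _ _ c01.ne c12.ne (c01.trans c12).ne
    (hS.xlt hT c01) e1 (hS.xlt hT c12) ?_ ?_ e3
  · exact ((lt_div_iff₀ (hS.hy _ _)).1 (hS.qlt hT c12)).le
  · exact (le_div_iff₀ (hS.hy _ _)).1 e2

theorem jr_mono2 {u v : Fin M} (h : u < v) : StrictMono ![u, v] := by
  intro s t hst
  fin_cases s <;> fin_cases t <;> simp_all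

theorem jr_mono3 {u v w : Fin M} (h : u < v) (h' : v < w) : StrictMono ![u, v, w] := by
  have := h.trans h'
  intro s t hst
  fin_cases s <;> fin_cases t <;> simp_all

/-- The four types of rows, for a family of predicates. -/
theorem jr_types (hM : N + 8 ≤ M) (bad : ∀ {h : ℕ}, Fin h → Fin h → Fin h →
      (Fin h → Fin 3 → V4) → Prop)
    (hnot : ∀ {h : ℕ} (i b i' : Fin h) (_ : i ≠ b) (_ : i' ≠ b)
      (_ : (⟨h, 3, bad i b i'⟩ : GPred).Homog (Nrm x y z)) (a0 : Fin h → Fin M)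
      (S : Finset (Fin M)) (_ : N ≤ S.card)
      (_ : ∀ t ∈ S, StrictMono (Function.update a0 b t))
      (a : Fin h → Fin M) (c : Fin 3 → Fin M) (_ : StrictMono a) (_ : StrictMono c),
      ¬ bad i b i' (fun s t => Nrm x y z (a s) (c t)))
    (H1 : (⟨3, 3, bad 0 1 2⟩ : GPred).Homog (Nrm x y z))
    (H2 : (⟨3, 3, bad 2 1 0⟩ : GPred).Homog (Nrm x y z))
    (H3 : (⟨2, 3, bad 0 1 0⟩ : GPred).Homog (Nrm x y z))
    (H4 : (⟨2, 3, bad 1 0 1⟩ : GPred).Homog (Nrm x y z))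
    (b i i' : Fin M) (c : Fin 3 → Fin M) (hc : StrictMono c)
    (ht : (i < b ∧ b < i') ∨ (i' < b ∧ b < i) ∨ (i = i' ∧ i ≠ b)) :
    (i < b ∧ b < i' ∧ ¬ bad 0 1 2 (fun s t => Nrm x y z (![i, b, i'] s) (c t))) ∨
    (i' < b ∧ b < i ∧ ¬ bad 2 1 0 (fun s t => Nrm x y z (![i', b, i] s) (c t))) ∨
    (i = i' ∧ i < b ∧ ¬ bad 0 1 0 (fun s t => Nrm x y z (![i, b] s) (c t))) ∨
    (i = i' ∧ b < i ∧ ¬ bad 1 0 1 (fun s t => Nrm x y z (![b, i] s) (c t))) := by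
  have hM0 : 0 < M := by omega
  have hM1 : M - 1 < M := by omega
  have u3 : ∀ t ∈ Finset.Ioo (⟨0, hM0⟩ : Fin M) ⟨M - 1, hM1⟩,
      StrictMono (Function.update ![(⟨0, hM0⟩ : Fin M), ⟨0, hM0⟩, ⟨M - 1, hM1⟩] 1 t) := by
    intro t ht
    rw [Finset.mem_Ioo] at ht
    have : Function.update ![(⟨0, hM0⟩ : Fin M), ⟨0, hM0⟩, ⟨M - 1, hM1⟩] 1 t =
        ![(⟨0, hM0⟩ : Fin M), t, ⟨M - 1, hM1⟩] := by
      funext s; fin_cases s <;> rfl
    rw [this]
    exact jr_mono3 ht.1 ht.2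
  have u2 : ∀ t ∈ Finset.Ioi (⟨0, hM0⟩ : Fin M),
      StrictMono (Function.update ![(⟨0, hM0⟩ : Fin M), ⟨0, hM0⟩] 1 t) := by
    intro t ht
    rw [Finset.mem_Ioi] at ht
    have : Function.update ![(⟨0, hM0⟩ : Fin M), ⟨0, hM0⟩] 1 t = ![(⟨0, hM0⟩ : Fin M), t] := by
      funext s; fin_cases s <;> rfl
    rw [this]
    exact jr_mono2 ht
  have v2 : ∀ t ∈ Finset.Iio (⟨M - 1, hM1⟩ : Fin M),
      StrictMono (Function.update ![(⟨M - 1, hM1⟩ : Fin M), ⟨M - 1, hM1⟩] 0 t) := by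
    intro t ht
    rw [Finset.mem_Iio] at ht
    have : Function.update ![(⟨M - 1, hM1⟩ : Fin M), ⟨M - 1, hM1⟩] 0 t =
        ![t, (⟨M - 1, hM1⟩ : Fin M)] := by
      funext s; fin_cases s <;> rfl
    rw [this]
    exact jr_mono2 ht
  rcases ht with ⟨h1, h2⟩ | ⟨h1, h2⟩ | ⟨h1, h2⟩
  · refine Or.inl ⟨h1, h2, ?_⟩
    exact hnot 0 1 2 (by decide) (by decide) H1 _ _ (by rw [Fin.card_Ioo]; simp only; omega) u3 _ c
      (jr_mono3 h1 h2) hc
  · refine Or.inr (Or.inl ⟨h1, h2, ?_⟩)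
    exact hnot 2 1 0 (by decide) (by decide) H2 _ _ (by rw [Fin.card_Ioo]; simp only; omega) u3 _ c
      (jr_mono3 h1 h2) hc
  · rcases lt_or_gt_of_ne h2 with h3 | h3
    · refine Or.inr (Or.inr (Or.inl ⟨h1, h3, ?_⟩))
      exact hnot 0 1 0 (by decide) (by decide) H3 _ _ (by rw [Fin.card_Ioi]; simp only; omega) u2 _ c
        (jr_mono2 h3) hc
    · refine Or.inr (Or.inr (Or.inr ⟨h1, h3, ?_⟩))
      exact hnot 1 0 1 (by decide) (by decide) H4 _ _ (by rw [Fin.card_Iio]; simp only; omega) v2 _ c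
        (jr_mono2 h3) hc

/-- ROW J3. (R). -/
theorem rowJR (N M : ℕ) (hM : N + 8 ≤ M) (T : ℝ) (hT : 4 ≤ T) (x y z : Fin M → Fin M → ℝ)
    (hS : Seg T x y z) (hU : ∀ p ∈ JBase, p.Homog (Nrm x y z))
    (hN : ¬ HitRows (Nrm x y z) N) (b i i' p q s : Fin M)
    (ht : (i < b ∧ b < i') ∨ (i' < b ∧ b < i) ∨ (i = i' ∧ i ≠ b)) (hpq : p < q) (hqs : q < s)
    (h1 : x i q ≤ x b q) (h2 : z b q / y b q ≤ z i' q / y i' q) :
    Real.log (z b s / x b s) - Real.log (y b p) ≤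
      Real.log (z i' q / y i' q) - Real.log (x i q) + 2 * tau T := by
  have hch : Ch (x b) (y b) (z b) p s (x i q) (z i' q / y i' q) < 0 := by
    by_contra hcon
    push Not at hcon
    rcases jr_types (x := x) (y := y) (z := z) hM (bad := fun {h} => badR)
      (fun {h} i b i' hb hb' hH a0 S hc ha a c hma hmc =>
        jr_not hT hS hN i b i' hb hb' hH a0 S hc ha a c hma hmc)
      (hU _ (by simp [JBase])) (hU _ (by simp [JBase])) (hU _ (by simp [JBase]))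
      (hU _ (by simp [JBase])) b i i' ![p, q, s] (jr_mono3 hpq hqs) ht with
      ⟨_, _, h⟩ | ⟨_, _, h⟩ | ⟨he, _, h⟩ | ⟨he, _, h⟩
    · exact h ⟨h1, h2, hcon⟩
    · exact h ⟨h1, h2, hcon⟩
    · subst he; exact h ⟨h1, h2, hcon⟩
    · subst he; exact h ⟨h1, h2, hcon⟩
  exact rowJ2a T (x i q) (z i' q / y i' q) (x b p) (x b s) (y b p) (y b s) (z b p) (z b s) hT
    (hS.hx _ _) (div_pos (hS.hz _ _) (hS.hy _ _)) (hS.hx _ _) (hS.hx _ _) (hS.hy _ _) (hS.hy _ _)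
    (hS.hz _ _) (hS.hz _ _) (hS.cx _ _ _ _ hpq) (hS.cx _ _ _ _ hqs) (hS.cq _ _ _ _ hqs)
    hch.le

/-- ROW J3. (R-). -/
theorem rowJRm (N M : ℕ) (hM : N + 8 ≤ M) (T : ℝ) (hT : 4 ≤ T) (x y z : Fin M → Fin M → ℝ)
    (hS : Seg T x y z) (hU : ∀ p ∈ JBase, p.Homog (Nrm x y z))
    (hN : ¬ HitRows (Nrm x y z) N) (b i i' p q s : Fin M)
    (ht : (i < b ∧ b < i') ∨ (i' < b ∧ b < i) ∨ (i = i' ∧ i ≠ b)) (hpq : p < q) (hqs : q < s)
    (h1 : x b q ≤ x i q) (h2 : z i' q / y i' q ≤ z b q / y b q) :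
    Real.log (z i' q / y i' q) - Real.log (x i q) - 2 * tau T ≤
      Real.log (z b s / x b s) - Real.log (y b p) := by
  have hch : 0 < Ch (x b) (y b) (z b) p s (x i q) (z i' q / y i' q) := by
    by_contra hcon
    push Not at hcon
    rcases jr_types (x := x) (y := y) (z := z) hM (bad := fun {h} => badRm)
      (fun {h} i b i' hb hb' hH a0 S hc ha a c hma hmc =>
        jrm_not hT hS hN i b i' hb hb' hH a0 S hc ha a c hma hmc)
      (hU _ (by simp [JBase])) (hU _ (by simp [JBase])) (hU _ (by simp [JBase]))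
      (hU _ (by simp [JBase])) b i i' ![p, q, s] (jr_mono3 hpq hqs) ht with
      ⟨_, _, h⟩ | ⟨_, _, h⟩ | ⟨he, _, h⟩ | ⟨he, _, h⟩
    · exact h ⟨h1, h2, hcon⟩
    · exact h ⟨h1, h2, hcon⟩
    · subst he; exact h ⟨h1, h2, hcon⟩
    · subst he; exact h ⟨h1, h2, hcon⟩
  exact rowJ2b T (x i q) (z i' q / y i' q) (x b p) (x b s) (y b p) (y b s) (z b p) (z b s) hT
    (hS.hx _ _) (div_pos (hS.hz _ _) (hS.hy _ _)) (hS.hx _ _) (hS.hx _ _) (hS.hy _ _) (hS.hy _ _)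
    (hS.hz _ _) (hS.hz _ _) (hS.cx _ _ _ _ hpq) (hS.cx _ _ _ _ hqs) (hS.cq _ _ _ _ hpq)
    hch.le

end Pool.Agent.BIP
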