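import Pool.Agent.BIP.JDefs
import Pool.Agent.BIP.J0
import Pool.Agent.BIP.J1

/-! JIT19, row J4: the values of a chord against the column values. -/

set_option autoImplicit false

namespace Pool.Agent.BIP

theorem j4_mono2 {M : ℕ} {i k : Fin M} (h : i < k) : StrictMono (![i, k] : Fin 2 → Fin M) := by
  rw [Fin.strictMono_iff_lt_succ]
  intro t
  fin_cases t
  exact h

theorem j4_mono4 {M : ℕ} {p l m s : Fin M} (h1 : p < l) (h2 : l < m) (h3 : m < s) :
    StrictMono (![p, l, m, s] : Fin 4 → Fin M) := by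
  rw [Fin.strictMono_iff_lt_succ]
  intro t
  fin_cases t
  · exact h1
  · exact h2
  · exact h3

/-- rows above the lowest one -/
theorem j4_card (N M : ℕ) (hM : N + 8 ≤ M) :
    N ≤ (Finset.univ.filter fun k : Fin M => (⟨0, by omega⟩ : Fin M) < k).card := by
  classical
  have h1 : (Finset.univ.filter fun k : Fin M => (⟨0, by omega⟩ : Fin M) < k) =
      Finset.univ.erase (⟨0, by omega⟩ : Fin M) := by
    ext k
    simp only [Finset.mem_filter, Finset.mem_univ, true_and, Finset.mem_erase, and_true]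
    constructor
    · intro h
      exact ne_of_gt h
    · intro h
      rw [Fin.lt_def]
      have : k.1 ≠ 0 := fun h0 => h (Fin.ext h0)
      simp only
      omega
  rw [h1, Finset.card_erase_of_mem (Finset.mem_univ _), Finset.card_univ, Fintype.card_fin]
  omega

theorem rowJS1 (N M : ℕ) (hM : N + 8 ≤ M) (T : ℝ) (hT : 4 ≤ T) (x y z : Fin M → Fin M → ℝ)
    (hS : Seg T x y z) (hU : ∀ p ∈ JBase, p.Homog (Nrm x y z))
    (hN : ¬ HitRows (Nrm x y z) N) (i k p l m s : Fin M) (hik : i < k) (hpl : p < l)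
    (hlm : l < m) (hms : m < s) :
    z k l / y k l ≤ Vc (x k) (y k) (z k) p s (x i m) := by
  by_contra hcon
  rw [not_le] at hcon
  have hH := hU ⟨2, 4, badS1⟩ (by simp [JBase])
  have hall : ∀ (i' k' p' l' m' s' : Fin M), i' < k' → p' < l' → l' < m' → m' < s' →
      Vc (x k') (y k') (z k') p' s' (x i' m') < z k' l' / y k' l' := by
    intro i' k' p' l' m' s' h1 h2 h3 h4
    exact (hH ![i, k] ![i', k'] (j4_mono2 hik) (j4_mono2 h1) ![p, l, m, s] ![p', l', m', s']
      (j4_mono4 hpl hlm hms) (j4_mono4 h2 h3 h4)).1 hcon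
  set r0 : Fin M := ⟨0, by omega⟩ with hr0
  set r1 : Fin M := ⟨1, by omega⟩ with hr1
  set r2 : Fin M := ⟨2, by omega⟩ with hr2
  set r3 : Fin M := ⟨3, by omega⟩ with hr3
  set r4 : Fin M := ⟨4, by omega⟩ with hr4
  set r5 : Fin M := ⟨5, by omega⟩ with hr5
  have h01 : r0 < r1 := by simp [hr0, hr1]
  have h12 : r1 < r2 := by simp [hr1, hr2]
  have h23 : r2 < r3 := by simp [hr2, hr3]
  have h34 : r3 < r4 := by simp [hr3, hr4]
  have h45 : r4 < r5 := by simp [hr4, hr5]
  apply hN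
  refine rowJ0a x y z (x r0 r4) (z r0 r2 / y r0 r2) N _ (j4_card N M hM) ?_
  intro k' hk'
  have hk0 : r0 < k' := (Finset.mem_filter.1 hk').2
  have hT1 : (1 : ℝ) ≤ T := by linarith
  have hx := hS.hx
  have hy := hS.hy
  have hz := hS.hz
  have hq : ∀ a b, 0 < z a b / y a b := fun a b => div_pos (hz a b) (hy a b)
  have tx : ∀ a b, x a b < T * x a b ∨ T = 1 := fun a b => by
    left
    nlinarith [hx a b]
  have cx : ∀ a a' c c', c < c' → x a c < x a' c' := by
    intro a a' c c' h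
    have := hS.cx a a' c c' h
    nlinarith [hx a c]
  have cq : ∀ a a' c c', c < c' → z a c / y a c < z a' c' / y a' c' := by
    intro a a' c c' h
    have := hS.cq a a' c c' h
    simp only at this
    nlinarith [hq a c]
  set A := x r0 r4 with hA
  set D := z r0 r2 / y r0 r2 with hD
  have hV : Vc (x k') (y k') (z k') r0 r5 A < D :=
    (hall r0 k' r0 r1 r4 r5 hk0 h01 (h12.trans (h23.trans h34)) h45).trans (cq k' r0 r1 r2 h12)
  have e0 : x k' r0 < A := cx _ _ _ _ (h01.trans (h12.trans (h23.trans h34)))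
  have e3 : x k' r3 < A := cx _ _ _ _ h34
  have e5 : A < x k' r5 := cx _ _ _ _ h45
  refine rowJ1b (x k') (y k') (z k') r0 r3 r5 A D ?_ ?_ ?_ e0 e3.le e5 ?_ ?_ ?_
  · exact ((h01.trans h12).trans h23).ne
  · exact (h34.trans h45).ne
  · exact ((h01.trans h12).trans (h23.trans (h34.trans h45))).ne
  · have := cq r0 k' r2 r5 (h23.trans (h34.trans h45))
    exact (le_div_iff₀ (hy _ _)).1 this.le
  · have := cq r0 k' r2 r3 h23
    exact (le_div_iff₀ (hy _ _)).1 this.le
  · unfold Vc at hV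
    have hden : 0 < (A - x k' r0) * y k' r5 + (x k' r5 - A) * y k' r0 :=
      add_pos (mul_pos (sub_pos.2 e0) (hy _ _)) (mul_pos (sub_pos.2 e5) (hy _ _))
    rw [div_lt_iff₀ hden] at hV
    unfold Ch
    linarith

theorem rowJS2 (N M : ℕ) (hM : N + 8 ≤ M) (T : ℝ) (hT : 4 ≤ T) (x y z : Fin M → Fin M → ℝ)
    (hS : Seg T x y z) (hU : ∀ p ∈ JBase, p.Homog (Nrm x y z))
    (hN : ¬ HitRows (Nrm x y z) N) (i k p l m s : Fin M) (hik : i < k) (hpm : p < m)
    (hml : m < l) (hls : l < s) :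
    Vc (x k) (y k) (z k) p s (x i m) ≤ z k l / y k l := by
  by_contra hcon
  rw [not_le] at hcon
  have hH := hU ⟨2, 4, badS2⟩ (by simp [JBase])
  have hall : ∀ (i' k' p' l' m' s' : Fin M), i' < k' → p' < m' → m' < l' → l' < s' →
      z k' l' / y k' l' < Vc (x k') (y k') (z k') p' s' (x i' m') := by
    intro i' k' p' l' m' s' h1 h2 h3 h4
    exact (hH ![i, k] ![i', k'] (j4_mono2 hik) (j4_mono2 h1) ![p, m, l, s] ![p', m', l', s']
      (j4_mono4 hpm hml hls) (j4_mono4 h2 h3 h4)).1 hcon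
  set r0 : Fin M := ⟨0, by omega⟩ with hr0
  set r1 : Fin M := ⟨1, by omega⟩ with hr1
  set r2 : Fin M := ⟨2, by omega⟩ with hr2
  set r3 : Fin M := ⟨3, by omega⟩ with hr3
  set r4 : Fin M := ⟨4, by omega⟩ with hr4
  set r5 : Fin M := ⟨5, by omega⟩ with hr5
  have h01 : r0 < r1 := by simp [hr0, hr1]
  have h12 : r1 < r2 := by simp [hr1, hr2]
  have h23 : r2 < r3 := by simp [hr2, hr3]
  have h34 : r3 < r4 := by simp [hr3, hr4]
  have h45 : r4 < r5 := by simp [hr4, hr5]
  apply hN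
  refine rowJ0a x y z (x r0 r1) (z r0 r3 / y r0 r3) N _ (j4_card N M hM) ?_
  intro k' hk'
  have hk0 : r0 < k' := (Finset.mem_filter.1 hk').2
  have hT1 : (1 : ℝ) ≤ T := by linarith
  have hx := hS.hx
  have hy := hS.hy
  have hz := hS.hz
  have hq : ∀ a b, 0 < z a b / y a b := fun a b => div_pos (hz a b) (hy a b)
  have cx : ∀ a a' c c', c < c' → x a c < x a' c' := by
    intro a a' c c' h
    have := hS.cx a a' c c' h
    nlinarith [hx a c]
  have cq : ∀ a a' c c', c < c' → z a c / y a c < z a' c' / y a' c' := by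
    intro a a' c c' h
    have := hS.cq a a' c c' h
    simp only at this
    nlinarith [hq a c]
  set A := x r0 r1 with hA
  set D := z r0 r3 / y r0 r3 with hD
  have hV : D < Vc (x k') (y k') (z k') r0 r5 A :=
    (cq r0 k' r3 r4 h34).trans (hall r0 k' r0 r4 r1 r5 hk0 h01 (h12.trans (h23.trans h34)) h45)
  have e0 : x k' r0 < A := cx _ _ _ _ h01
  have e2 : A < x k' r2 := cx _ _ _ _ h12
  have e5 : A < x k' r5 := cx _ _ _ _ (h12.trans (h23.trans (h34.trans h45)))
  refine rowJ1a (x k') (y k') (z k') r0 r2 r5 A D ?_ ?_ ?_ e0 e2.le e5 ?_ ?_ ?_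
  · exact (h01.trans h12).ne
  · exact (h23.trans (h34.trans h45)).ne
  · exact ((h01.trans h12).trans (h23.trans (h34.trans h45))).ne
  · have := cq k' r0 r0 r3 ((h01.trans h12).trans h23)
    exact (div_le_iff₀ (hy _ _)).1 this.le
  · have := cq k' r0 r2 r3 h23
    exact (div_le_iff₀ (hy _ _)).1 this.le
  · unfold Vc at hV
    have hden : 0 < (A - x k' r0) * y k' r5 + (x k' r5 - A) * y k' r0 :=
      add_pos (mul_pos (sub_pos.2 e0) (hy _ _)) (mul_pos (sub_pos.2 e5) (hy _ _))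
    rw [lt_div_iff₀ hden] at hV
    unfold Ch
    linarith

end Pool.Agent.BIP
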