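import Pool.Agent.BIP.JDefs

namespace Pool.Agent.BIP

/-- ROW J5. (CH) for one row (pure): from the two bounds on `V = Vc`. -/
theorem rowJCH (T A V xp xs yp ys zp zs : ℝ) (hT : 4 ≤ T) (hA : 0 < A)
    (hxp : 0 < xp) (hxs : 0 < xs) (hyp : 0 < yp) (hys : 0 < ys) (hzp : 0 < zp) (hzs : 0 < zs)
    (h1 : T * xp ≤ A) (h2 : T * A ≤ xs)
    (hV : V = ((A - xp) * zs + (xs - A) * zp) / ((A - xp) * ys + (xs - A) * yp))
    (h3 : T * (zp / yp) ≤ V) (h4 : T * V ≤ zs / ys) :
    |Real.log V - Real.log A - (Real.log (zs / xs) - Real.log yp)| ≤ 2 * tau T := by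
  have hT0 : 0 < T := by linarith
  obtain ⟨δ, hδ⟩ : ∃ δ : ℝ, δ = 1 - 1 / T := ⟨_, rfl⟩
  have hδT : δ * T = T - 1 := by rw [hδ]; field_simp
  have hδ0 : 0 < δ := by
    have h5 : 1 / T < 1 := by
      rw [div_lt_one hT0]
      linarith
    rw [hδ]
    linarith
  have hxA : xp < A := by nlinarith
  have hAx : A < xs := by nlinarith
  have hV0 : 0 < V := by
    have : 0 < T * (zp / yp) := by positivity
    linarith
  have hden : 0 < (A - xp) * ys + (xs - A) * yp :=
    add_pos (mul_pos (by linarith) hys) (mul_pos (by linarith) hyp)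
  have hVe : V * ((A - xp) * ys + (xs - A) * yp) = (A - xp) * zs + (xs - A) * zp := by
    rw [hV]
    exact div_mul_cancel₀ _ hden.ne'
  have hid : (xs - A) * (V * yp - zp) = (A - xp) * (zs - V * ys) := by linarith
  have h3' : T * zp ≤ V * yp := by
    have := mul_le_mul_of_nonneg_right h3 hyp.le
    rwa [mul_assoc, div_mul_cancel₀ _ hyp.ne'] at this
  have h4' : T * V * ys ≤ zs := by
    have := mul_le_mul_of_nonneg_right h4 hys.le
    rwa [div_mul_cancel₀ _ hys.ne'] at this
  -- the four factors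
  have dlt : ∀ a b : ℝ, T * a ≤ b → δ * b ≤ b - a := by
    intro a b h
    have h5 : T * (δ * b) ≤ T * (b - a) := by
      calc T * (δ * b) = (δ * T) * b := by ring
        _ = T * b - b := by rw [hδT]; ring
        _ ≤ T * (b - a) := by linarith
    exact le_of_mul_le_mul_left h5 hT0
  have a1 : δ * xs ≤ xs - A := dlt _ _ h2
  have a2 : δ * (V * yp) ≤ V * yp - zp := dlt _ _ h3'
  have a3 : δ * A ≤ A - xp := dlt _ _ h1
  have a4 : δ * zs ≤ zs - V * ys := dlt _ _ (by linarith)
  have hVy : 0 < V * yp := mul_pos hV0 hyp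
  have hVs : 0 < V * ys := mul_pos hV0 hys
  have k1 : δ ^ 2 * (V * yp * xs) ≤ A * zs := by
    calc δ ^ 2 * (V * yp * xs) = (δ * xs) * (δ * (V * yp)) := by ring
      _ ≤ (xs - A) * (V * yp - zp) :=
        mul_le_mul a1 a2 (by positivity) (by linarith)
      _ = (A - xp) * (zs - V * ys) := hid
      _ ≤ A * zs := mul_le_mul (by linarith) (by linarith) (by
          have : 0 < δ * zs := mul_pos hδ0 hzs
          linarith) hA.le
  have k2 : δ ^ 2 * (A * zs) ≤ V * yp * xs := by
    calc δ ^ 2 * (A * zs) = (δ * A) * (δ * zs) := by ring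
      _ ≤ (A - xp) * (zs - V * ys) :=
        mul_le_mul a3 a4 (by positivity) (by linarith)
      _ = (xs - A) * (V * yp - zp) := hid.symm
      _ ≤ xs * (V * yp) := mul_le_mul (by linarith) (by linarith) (by
          have : 0 < δ * (V * yp) := mul_pos hδ0 hVy
          linarith) hxs.le
      _ = V * yp * xs := by ring
  have hτ : tau T = - Real.log δ := by rw [hδ]; rfl
  have hδ2 : (0:ℝ) < δ ^ 2 := by positivity
  have l1 := Real.log_le_log (by positivity) k1
  have l2 := Real.log_le_log (by positivity) k2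
  rw [Real.log_mul hδ2.ne' (by positivity), Real.log_pow, Real.log_mul hVy.ne' hxs.ne',
    Real.log_mul hV0.ne' hyp.ne', Real.log_mul hA.ne' hzs.ne'] at l1
  rw [Real.log_mul hδ2.ne' (by positivity), Real.log_pow, Real.log_mul hA.ne' hzs.ne',
    Real.log_mul hVy.ne' hxs.ne', Real.log_mul hV0.ne' hyp.ne'] at l2
  rw [hτ, Real.log_div hzs.ne' hxs.ne', abs_le]
  push_cast at l1 l2
  constructor <;> linarith

/-- (T3) -/
theorem rowJT3 (A V xp xs yp ys zp zs : ℝ) (hA : 0 < A)
    (hxp : 0 < xp) (hxs : 0 < xs) (hyp : 0 < yp) (hys : 0 < ys) (hzp : 0 < zp) (hzs : 0 < zs)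
    (h1 : xp < A) (h2 : A < xs)
    (hV : V = ((A - xp) * zs + (xs - A) * zp) / ((A - xp) * ys + (xs - A) * yp)) :
    min (Real.log (zp / xp)) (Real.log (zs / xs)) - max (Real.log yp) (Real.log ys) ≤
        Real.log V - Real.log A ∧
      Real.log V - Real.log A ≤
        max (Real.log (zp / xp)) (Real.log (zs / xs)) - min (Real.log yp) (Real.log ys) := by
  have hα : 0 < A - xp := by linarith
  have hβ : 0 < xs - A := by linarith
  have hden : 0 < (A - xp) * ys + (xs - A) * yp := by positivity
  have hnum : 0 < (A - xp) * zs + (xs - A) * zp := by positivity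
  have hV0 : 0 < V := by rw [hV]; positivity
  have hVe : V * ((A - xp) * ys + (xs - A) * yp) = (A - xp) * zs + (xs - A) * zp := by
    rw [hV]
    exact div_mul_cancel₀ _ hden.ne'
  have hs : 0 < xs - xp := by linarith
  -- lower bound: constants `c ≤ z/x` and `y ≤ d`
  have low : ∀ c d : ℝ, 0 < c → 0 < d → c ≤ zp / xp → c ≤ zs / xs → yp ≤ d → ys ≤ d →
      Real.log c - Real.log d ≤ Real.log V - Real.log A := by
    intro c d hc hd g1 g2 g3 g4
    rw [le_div_iff₀ hxp] at g1
    rw [le_div_iff₀ hxs] at g2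
    have k : c * A ≤ V * d := by
      have k1 : (xs - xp) * (c * A) ≤ (xs - xp) * (V * d) := by
        calc (xs - xp) * (c * A) = (A - xp) * (c * xs) + (xs - A) * (c * xp) := by ring
          _ ≤ (A - xp) * zs + (xs - A) * zp :=
            add_le_add (mul_le_mul_of_nonneg_left g2 hα.le) (mul_le_mul_of_nonneg_left g1 hβ.le)
          _ = V * ((A - xp) * ys + (xs - A) * yp) := hVe.symm
          _ ≤ V * ((A - xp) * d + (xs - A) * d) :=
            mul_le_mul_of_nonneg_left (add_le_add (mul_le_mul_of_nonneg_left g4 hα.le)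
              (mul_le_mul_of_nonneg_left g3 hβ.le)) hV0.le
          _ = (xs - xp) * (V * d) := by ring
      exact le_of_mul_le_mul_left k1 hs
    have l := Real.log_le_log (by positivity) k
    rw [Real.log_mul hc.ne' hA.ne', Real.log_mul hV0.ne' hd.ne'] at l
    linarith
  have upp : ∀ c d : ℝ, 0 < c → 0 < d → zp / xp ≤ c → zs / xs ≤ c → d ≤ yp → d ≤ ys →
      Real.log V - Real.log A ≤ Real.log c - Real.log d := by
    intro c d hc hd g1 g2 g3 g4
    rw [div_le_iff₀ hxp] at g1
    rw [div_le_iff₀ hxs] at g2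
    have k : V * d ≤ c * A := by
      have k1 : (xs - xp) * (V * d) ≤ (xs - xp) * (c * A) := by
        calc (xs - xp) * (V * d) = V * ((A - xp) * d + (xs - A) * d) := by ring
          _ ≤ V * ((A - xp) * ys + (xs - A) * yp) :=
            mul_le_mul_of_nonneg_left (add_le_add (mul_le_mul_of_nonneg_left g4 hα.le)
              (mul_le_mul_of_nonneg_left g3 hβ.le)) hV0.le
          _ = (A - xp) * zs + (xs - A) * zp := hVe
          _ ≤ (A - xp) * (c * xs) + (xs - A) * (c * xp) :=
            add_le_add (mul_le_mul_of_nonneg_left g2 hα.le) (mul_le_mul_of_nonneg_left g1 hβ.le)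
          _ = (xs - xp) * (c * A) := by ring
      exact le_of_mul_le_mul_left k1 hs
    have l := Real.log_le_log (by positivity) k
    rw [Real.log_mul hc.ne' hA.ne', Real.log_mul hV0.ne' hd.ne'] at l
    linarith
  have hrp : 0 < zp / xp := by positivity
  have hrs : 0 < zs / xs := by positivity
  have mlog : ∀ a b : ℝ, 0 < a → 0 < b → min (Real.log a) (Real.log b) = Real.log (min a b) := by
    intro a b ha hb
    rcases le_total a b with h | h
    · rw [min_eq_left h, min_eq_left (Real.log_le_log ha h)]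
    · rw [min_eq_right h, min_eq_right (Real.log_le_log hb h)]
  have Mlog : ∀ a b : ℝ, 0 < a → 0 < b → max (Real.log a) (Real.log b) = Real.log (max a b) := by
    intro a b ha hb
    rcases le_total a b with h | h
    · rw [max_eq_right h, max_eq_right (Real.log_le_log ha h)]
    · rw [max_eq_left h, max_eq_left (Real.log_le_log hb h)]
  constructor
  · rw [mlog _ _ hrp hrs, Mlog _ _ hyp hys]
    exact low _ _ (lt_min hrp hrs) (lt_max_of_lt_left hyp) (min_le_left _ _) (min_le_right _ _)
      (le_max_left _ _) (le_max_right _ _)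
  · rw [Mlog _ _ hrp hrs, mlog _ _ hyp hys]
    exact upp _ _ (lt_max_of_lt_left hrp) (lt_min hyp hys) (le_max_left _ _) (le_max_right _ _)
      (min_le_left _ _) (min_le_right _ _)

end Pool.Agent.BIP
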