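import Pool.Agent.BIP.J0
import Pool.Agent.BIP.J1

/-!
# Row J6: the order of the rows (Helly's theorem on the line)
-/

namespace Pool.Agent.BIP

open Finset

/-- The left ends and the right ends of the chords in a block of five columns. -/
def j6L : Finset (Fin 5) := {0, 1}
def j6R : Finset (Fin 5) := {3, 4}

/-- The comparison of two chord values. -/
def j6E {M : ℕ} (x y z : Fin M → Fin M → ℝ) (a1 a2 b1 b2 : Fin 5) (α : Fin 3 → Fin M)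
    (β : Fin 5 → Fin M) : Prop :=
  Vc (x (α 1)) (y (α 1)) (z (α 1)) (β a1) (β a2) (x (α 0) (β 2)) <
    Vc (x (α 2)) (y (α 2)) (z (α 2)) (β b1) (β b2) (x (α 0) (β 2))

theorem j6_mem {a1 a2 b1 b2 : Fin 5} (h1 : a1 ∈ j6L) (h2 : a2 ∈ j6R) (h3 : b1 ∈ j6L)
    (h4 : b2 ∈ j6R) : (⟨3, 5, cmpF a1 a2 b1 b2⟩ : GPred) ∈ JBase := by
  have e1 : a1 = 0 ∨ a1 = 1 := by simpa [j6L] using h1
  have e2 : a2 = 3 ∨ a2 = 4 := by simpa [j6R] using h2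
  have e3 : b1 = 0 ∨ b1 = 1 := by simpa [j6L] using h3
  have e4 : b2 = 3 ∨ b2 = 4 := by simpa [j6R] using h4
  unfold JBase
  simp only [List.mem_cons]
  rcases e1 with rfl | rfl <;> rcases e2 with rfl | rfl <;> rcases e3 with rfl | rfl <;>
    rcases e4 with rfl | rfl <;> tauto

theorem j6_homog {M : ℕ} {x y z : Fin M → Fin M → ℝ} (hU : ∀ p ∈ JBase, p.Homog (Nrm x y z))
    {a1 a2 b1 b2 : Fin 5} (h1 : a1 ∈ j6L) (h2 : a2 ∈ j6R) (h3 : b1 ∈ j6L)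
    (h4 : b2 ∈ j6R) {α α' : Fin 3 → Fin M} {β β' : Fin 5 → Fin M} (hα : StrictMono α)
    (hα' : StrictMono α') (hβ : StrictMono β) (hβ' : StrictMono β') :
    j6E x y z a1 a2 b1 b2 α β ↔ j6E x y z a1 a2 b1 b2 α' β' :=
  hU _ (j6_mem h1 h2 h3 h4) α α' hα hα' β β' hβ hβ'

theorem j6_mono3 {M : ℕ} {i k k' : Fin M} (h1 : i < k) (h2 : k < k') :
    StrictMono ![i, k, k'] := by
  intro a b hab
  fin_cases a <;> fin_cases b <;> simp_all <;> omega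

theorem j6_mono5 {M : ℕ} {c1 c2 m c4 c5 : Fin M} (h1 : c1 < c2) (h2 : c2 < m) (h3 : m < c4)
    (h4 : c4 < c5) : StrictMono ![c1, c2, m, c4, c5] := by
  rw [Fin.strictMono_iff_lt_succ]
  intro i
  fin_cases i
  · exact h1
  · exact h2
  · exact h3
  · exact h4

/-- ROW J6. (F1): all comparisons are true or all are false. -/
theorem rowJF (N M : ℕ) (hM : N + 8 ≤ M) (T : ℝ) (hT : 4 ≤ T) (x y z : Fin M → Fin M → ℝ)
    (hS : Seg T x y z) (hU : ∀ p ∈ JBase, p.Homog (Nrm x y z))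
    (hN : ¬ HitRows (Nrm x y z) N) :
    (∀ i k k' c1 c2 m c4 c5 a1 a2 b1 b2 : Fin M, i < k → k < k' → c1 < c2 → c2 < m → m < c4 →
      c4 < c5 → (a1 = c1 ∨ a1 = c2) → (a2 = c4 ∨ a2 = c5) → (b1 = c1 ∨ b1 = c2) →
      (b2 = c4 ∨ b2 = c5) →
      Vc (x k) (y k) (z k) a1 a2 (x i m) ≤ Vc (x k') (y k') (z k') b1 b2 (x i m)) ∨
    (∀ i k k' c1 c2 m c4 c5 a1 a2 b1 b2 : Fin M, i < k → k < k' → c1 < c2 → c2 < m → m < c4 →
      c4 < c5 → (a1 = c1 ∨ a1 = c2) → (a2 = c4 ∨ a2 = c5) → (b1 = c1 ∨ b1 = c2) →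
      (b2 = c4 ∨ b2 = c5) →
      Vc (x k') (y k') (z k') b1 b2 (x i m) ≤ Vc (x k) (y k) (z k) a1 a2 (x i m)) := by
  classical
  obtain ⟨r0, hr0⟩ : ∃ r0 : Fin M, r0.1 = 0 := ⟨⟨0, by omega⟩, rfl⟩
  obtain ⟨r1, hr1⟩ : ∃ r1 : Fin M, r1.1 = 1 := ⟨⟨1, by omega⟩, rfl⟩
  obtain ⟨r2, hr2⟩ : ∃ r2 : Fin M, r2.1 = 2 := ⟨⟨2, by omega⟩, rfl⟩
  obtain ⟨r3, hr3⟩ : ∃ r3 : Fin M, r3.1 = 3 := ⟨⟨3, by omega⟩, rfl⟩
  obtain ⟨r4, hr4⟩ : ∃ r4 : Fin M, r4.1 = 4 := ⟨⟨4, by omega⟩, rfl⟩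
  have h01 : r0 < r1 := by rw [Fin.lt_def]; omega
  have h12 : r1 < r2 := by rw [Fin.lt_def]; omega
  have h23 : r2 < r3 := by rw [Fin.lt_def]; omega
  have h34 : r3 < r4 := by rw [Fin.lt_def]; omega
  obtain ⟨α0, hα0⟩ : ∃ α0 : Fin 3 → Fin M, α0 = ![r0, r1, r2] := ⟨_, rfl⟩
  have hα : StrictMono α0 := by rw [hα0]; exact j6_mono3 h01 h12
  obtain ⟨β0, hβ0⟩ : ∃ β0 : Fin 5 → Fin M, β0 = ![r0, r1, r2, r3, r4] := ⟨_, rfl⟩
  have hβ : StrictMono β0 := by rw [hβ0]; exact j6_mono5 h01 h12 h23 h34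
  -- reading the general comparisons off the blocks
  have hrd : ∀ c1 c2 m c4 c5 a1 a2 : Fin M, (a1 = c1 ∨ a1 = c2) → (a2 = c4 ∨ a2 = c5) →
      ∃ s ∈ j6L, ∃ t ∈ j6R, a1 = (![c1, c2, m, c4, c5] : Fin 5 → Fin M) s ∧
        a2 = (![c1, c2, m, c4, c5] : Fin 5 → Fin M) t := by
    intro c1 c2 m c4 c5 a1 a2 h1 h2
    rcases h1 with rfl | rfl <;> rcases h2 with rfl | rfl
    · exact ⟨0, by simp [j6L], 3, by simp [j6R], rfl, rfl⟩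
    · exact ⟨0, by simp [j6L], 4, by simp [j6R], rfl, rfl⟩
    · exact ⟨1, by simp [j6L], 3, by simp [j6R], rfl, rfl⟩
    · exact ⟨1, by simp [j6L], 4, by simp [j6R], rfl, rfl⟩
  by_cases hA : ∀ a1 ∈ j6L, ∀ a2 ∈ j6R, ∀ b1 ∈ j6L, ∀ b2 ∈ j6R, j6E x y z a1 a2 b1 b2 α0 β0
  · left
    intro i k k' c1 c2 m c4 c5 a1 a2 b1 b2 hik hkk h1 h2 h3 h4 g1 g2 g3 g4
    obtain ⟨s, hs, t, ht, rfl, rfl⟩ := hrd c1 c2 m c4 c5 a1 a2 g1 g2
    obtain ⟨s', hs', t', ht', rfl, rfl⟩ := hrd c1 c2 m c4 c5 b1 b2 g3 g4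
    exact ((j6_homog hU hs ht hs' ht' hα (j6_mono3 hik hkk) hβ (j6_mono5 h1 h2 h3 h4)).1
      (hA s hs t ht s' hs' t' ht')).le
  by_cases hB : ∀ a1 ∈ j6L, ∀ a2 ∈ j6R, ∀ b1 ∈ j6L, ∀ b2 ∈ j6R, ¬ j6E x y z a1 a2 b1 b2 α0 β0
  · right
    intro i k k' c1 c2 m c4 c5 a1 a2 b1 b2 hik hkk h1 h2 h3 h4 g1 g2 g3 g4
    obtain ⟨s, hs, t, ht, rfl, rfl⟩ := hrd c1 c2 m c4 c5 a1 a2 g1 g2
    obtain ⟨s', hs', t', ht', rfl, rfl⟩ := hrd c1 c2 m c4 c5 b1 b2 g3 g4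
    exact not_lt.1 fun h => hB s hs t ht s' hs' t' ht'
      ((j6_homog hU hs ht hs' ht' hα (j6_mono3 hik hkk) hβ (j6_mono5 h1 h2 h3 h4)).2 h)
  exfalso
  push Not at hA hB
  obtain ⟨p1, hp1, p2, hp2, q1, hq1, q2, hq2, hf⟩ := hA
  obtain ⟨u1, hu1, u2, hu2, w1, hw1, w2, hw2, ht⟩ := hB
  obtain ⟨A, hAd⟩ : ∃ A : ℝ, A = x r0 r2 := ⟨_, rfl⟩
  obtain ⟨V, hV⟩ : ∃ V : Fin M → Fin 5 × Fin 5 → ℝ,
      V = fun k c => Vc (x k) (y k) (z k) (β0 c.1) (β0 c.2) A := ⟨_, rfl⟩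
  obtain ⟨S, hSd⟩ : ∃ S : Finset (Fin M), S = univ.filter fun k => r0 < k := ⟨_, rfl⟩
  have hSm : ∀ k, k ∈ S ↔ r0 < k := fun k => by rw [hSd]; simp
  have hSc : N ≤ S.card := by
    have h1 : (univ.filter fun k : Fin M => k ≤ r0).card ≤ 1 := by
      refine card_le_one.2 fun a ha b hb => ?_
      rw [mem_filter] at ha hb
      have h2 := Fin.le_def.1 ha.2
      have h3 := Fin.le_def.1 hb.2
      apply Fin.ext
      omega
    have h2 : (univ.filter fun k : Fin M => r0 < k).card +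
        (univ.filter fun k : Fin M => ¬ r0 < k).card = M := by
      rw [card_filter_add_card_filter_not, card_univ, Fintype.card_fin]
    have h3 : (univ.filter fun k : Fin M => ¬ r0 < k) = univ.filter fun k : Fin M => k ≤ r0 :=
      filter_congr fun k _ => not_lt
    rw [h3] at h2
    rw [hSd]
    omega
  have hne : (j6L ×ˢ j6R).Nonempty := ⟨(0, 3), by decide⟩
  have hSne : S.Nonempty := ⟨r1, (hSm r1).2 h01⟩
  obtain ⟨lo, hlo⟩ : ∃ lo : Fin M → ℝ, lo = fun k => (j6L ×ˢ j6R).inf' hne (V k) := ⟨_, rfl⟩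
  obtain ⟨D, hD⟩ : ∃ D : ℝ, D = S.sup' hSne lo := ⟨_, rfl⟩
  obtain ⟨ks, hks, hDs⟩ := exists_mem_eq_sup' hSne lo
  rw [← hD] at hDs
  -- the two comparisons for rows of `S`
  have hT1 : ∀ k k', r0 < k → k < k' → V k (u1, u2) < V k' (w1, w2) := by
    intro k k' hk hkk
    have h1 := (j6_homog hU hu1 hu2 hw1 hw2 hα (j6_mono3 hk hkk) hβ hβ).1 ht
    have h2 : β0 2 = r2 := by rw [hβ0]; rfl
    unfold j6E at h1
    rw [h2] at h1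
    rw [hV, hAd]
    exact h1
  have hT2 : ∀ k k', r0 < k → k < k' → V k' (q1, q2) ≤ V k (p1, p2) := by
    intro k k' hk hkk
    have h1 : ¬ j6E x y z p1 p2 q1 q2 ![r0, k, k'] β0 := fun h =>
      hf ((j6_homog hU hp1 hp2 hq1 hq2 hα (j6_mono3 hk hkk) hβ hβ).2 h)
    have h2 : β0 2 = r2 := by rw [hβ0]; rfl
    unfold j6E at h1
    rw [h2] at h1
    rw [hV, hAd]
    exact not_lt.1 h1
  have hloV : ∀ k c, c ∈ j6L ×ˢ j6R → lo k ≤ V k c := fun k c hc => by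
    rw [hlo]
    exact inf'_le _ hc
  have hlow : ∀ k ∈ S, ∃ c ∈ j6L ×ˢ j6R, V k c ≤ D := by
    intro k hk
    obtain ⟨c, hc, hcV⟩ := exists_mem_eq_inf' hne (V k)
    refine ⟨c, hc, ?_⟩
    have h1 : lo k ≤ D := by rw [hD]; exact le_sup' lo hk
    have h2 : lo k = V k c := by rw [hlo]; exact hcV
    rw [← h2]
    exact h1
  have hhigh : ∀ k ∈ S, ∃ c ∈ j6L ×ˢ j6R, D ≤ V k c := by
    intro k hk
    have hk0 := (hSm k).1 hk
    have hks0 := (hSm ks).1 hks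
    rcases lt_trichotomy ks k with h | h | h
    · refine ⟨(w1, w2), mem_product.2 ⟨hw1, hw2⟩, ?_⟩
      rw [hDs]
      exact (hloV ks (u1, u2) (mem_product.2 ⟨hu1, hu2⟩)).trans (hT1 ks k hks0 h).le
    · obtain ⟨c, hc⟩ := hne
      refine ⟨c, hc, ?_⟩
      rw [hDs, h]
      exact hloV k c hc
    · refine ⟨(p1, p2), mem_product.2 ⟨hp1, hp2⟩, ?_⟩
      rw [hDs]
      exact (hloV ks (q1, q2) (mem_product.2 ⟨hq1, hq2⟩)).trans (hT2 k ks hk0 h)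
  have hleft : ∀ k, ∀ s ∈ j6L, x k (β0 s) < A := by
    intro k s hs
    have h1 : β0 s < r2 := by
      have h2 : s = 0 ∨ s = 1 := by simpa [j6L] using hs
      rw [hβ0]
      rcases h2 with rfl | rfl
      · exact h01.trans h12
      · exact h12
    have h3 := hS.cx k r0 (β0 s) r2 h1
    have h4 := hS.hx k (β0 s)
    rw [hAd]
    nlinarith
  have hright : ∀ k, ∀ t ∈ j6R, A < x k (β0 t) := by
    intro k t ht
    have h1 : r2 < β0 t := by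
      have h2 : t = 3 ∨ t = 4 := by simpa [j6R] using ht
      rw [hβ0]
      rcases h2 with rfl | rfl
      · exact h23
      · exact h23.trans h34
    have h3 := hS.cx r0 k r2 (β0 t) h1
    have h4 := hS.hx r0 r2
    rw [hAd]
    nlinarith
  refine hN (rowJ0a x y z A D N S hSc fun k hk => ?_)
  obtain ⟨c, hc, hc'⟩ := hlow k hk
  obtain ⟨d, hd, hd'⟩ := hhigh k hk
  rw [mem_product] at hc hd
  have hne2 : ∀ s ∈ j6L, ∀ t ∈ j6R, β0 s ≠ β0 t := by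
    intro s hs t ht h
    have h1 := hleft k s hs
    have h2 := hright k t ht
    rw [h] at h1
    linarith
  rw [hV] at hc' hd'
  exact rowJ1c (x k) (y k) (z k) (hS.hy k) (β0 c.1) (β0 c.2) (β0 d.1) (β0 d.2) A D
    (hne2 _ hc.1 _ hc.2) (hne2 _ hd.1 _ hd.2) (hleft k _ hc.1) (hright k _ hc.2)
    (hleft k _ hd.1) (hright k _ hd.2) hc' hd'

end Pool.Agent.BIP
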