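import Pool.Agent.BIP.J3
import Pool.Agent.BIP.J4
import Pool.Agent.BIP.J5
import Pool.Agent.BIP.J6

namespace Pool.Agent.BIP

/-- the subgrid `4 j + 3` -/
def fsub (m M : ℕ) (h : 4 * m + 8 ≤ M) (j : Fin m) : Fin M := ⟨4 * j.1 + 3, by omega⟩

/-- Assembly of the half system on the subgrid. -/
theorem rowJHalf (N m M : ℕ) (hM : N + 8 ≤ M) (hm : 4 * m + 8 ≤ M) (T : ℝ) (hT : 4 ≤ T)
    (x y z : Fin M → Fin M → ℝ) (hS : Seg T x y z) (hU : ∀ p ∈ JBase, p.Homog (Nrm x y z))
    (hN : ¬ HitRows (Nrm x y z) N) :
    JHalf (tau T) (fun i j : Fin m => Real.log (x (fsub m M hm i) (fsub m M hm j)))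
      (fun i j => Real.log (z (fsub m M hm i) (fsub m M hm j) / y (fsub m M hm i) (fsub m M hm j)))
      (fun i j => Real.log (y (fsub m M hm i) (fsub m M hm j)))
      (fun i j => Real.log (z (fsub m M hm i) (fsub m M hm j) / x (fsub m M hm i) (fsub m M hm j))) := by
  have hmono : ∀ i j : Fin m, i < j → fsub m M hm i < fsub m M hm j := by
    intro i j h
    simp only [fsub, Fin.mk_lt_mk]
    have : i.1 < j.1 := h
    omega
  have hT0 : (0:ℝ) < T := by linarith
  have hx := hS.hx
  have hy := hS.hy
  have hz := hS.hz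
  have hq : ∀ i j, 0 < z i j / y i j := fun i j => div_pos (hz i j) (hy i j)
  -- levels
  have key : ∀ (i k : Fin M) (p l c l' s : Fin M), i < k → p < l → l < c → c < l' → l' < s →
      Lv (2 * tau T) (fun j => Real.log (z k j / x k j)) (fun j => Real.log (y k j)) p s
        (Real.log (Vc (x k) (y k) (z k) p s (x i c)) - Real.log (x i c)) := by
    intro i k p l c l' s hik hpl hlc hcl' hl's
    have hS1 := rowJS1 N M hM T hT x y z hS hU hN i k p l c s hik hpl hlc (hcl'.trans hl's)
    have hS2 := rowJS2 N M hM T hT x y z hS hU hN i k p l' c s hik (hpl.trans hlc) hcl' hl's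
    have h1 : T * x k p ≤ x i c := hS.cx k i p c (hpl.trans hlc)
    have h2 : T * x i c ≤ x k s := hS.cx i k c s (hcl'.trans hl's)
    have h3 : T * (z k p / y k p) ≤ z k l / y k l := hS.cq k k p l hpl
    have h4 : T * (z k l' / y k l') ≤ z k s / y k s := hS.cq k k l' s hl's
    have h1' : x k p < x i c := by nlinarith [hx k p]
    have h2' : x i c < x k s := by nlinarith [hx i c]
    refine ⟨?_, ?_⟩
    · exact rowJCH T (x i c) _ (x k p) (x k s) (y k p) (y k s) (z k p) (z k s) hT (hx i c)
        (hx k p) (hx k s) (hy k p) (hy k s) (hz k p) (hz k s) h1 h2 rfl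
        (h3.trans hS1) ((mul_le_mul_of_nonneg_left hS2 hT0.le).trans h4)
    · exact rowJT3 (x i c) _ (x k p) (x k s) (y k p) (y k s) (z k p) (z k s) (hx i c)
        (hx k p) (hx k s) (hy k p) (hy k s) (hz k p) (hz k s) h1' h2' rfl
  have types : ∀ b i i' : Fin m, ((i < b ∧ b < i') ∨ (i' < b ∧ b < i) ∨ (i = i' ∧ i ≠ b)) →
      ((fsub m M hm i < fsub m M hm b ∧ fsub m M hm b < fsub m M hm i') ∨
        (fsub m M hm i' < fsub m M hm b ∧ fsub m M hm b < fsub m M hm i) ∨
        (fsub m M hm i = fsub m M hm i' ∧ fsub m M hm i ≠ fsub m M hm b)) := by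
    rintro b i i' (⟨h1, h2⟩ | ⟨h1, h2⟩ | ⟨h1, h2⟩)
    · exact Or.inl ⟨hmono _ _ h1, hmono _ _ h2⟩
    · exact Or.inr (Or.inl ⟨hmono _ _ h1, hmono _ _ h2⟩)
    · refine Or.inr (Or.inr ⟨by rw [h1], ?_⟩)
      rcases lt_or_gt_of_ne h2 with h | h
      · exact (hmono _ _ h).ne
      · exact (hmono _ _ h).ne'
  refine ⟨?_, ?_, ?_⟩
  · intro b i i' p q s ht hpq hqs h1 h2
    exact rowJR N M hM T hT x y z hS hU hN _ _ _ _ _ _ (types b i i' ht) (hmono _ _ hpq)
      (hmono _ _ hqs) ((Real.log_le_log_iff (hx _ _) (hx _ _)).1 h1)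
      ((Real.log_le_log_iff (hq _ _) (hq _ _)).1 h2)
  · intro b i i' p q s ht hpq hqs h1 h2
    exact rowJRm N M hM T hT x y z hS hU hN _ _ _ _ _ _ (types b i i' ht) (hmono _ _ hpq)
      (hmono _ _ hqs) ((Real.log_le_log_iff (hx _ _) (hx _ _)).1 h1)
      ((Real.log_le_log_iff (hq _ _) (hq _ _)).1 h2)
  · -- windows
    have h0 : 0 < M := by omega
    -- choice of columns
    have choice : ∀ a1 a2 b1 b2 : Fin m, a1 < a2 → b1 < b2 → a1 < b2 → b1 < a2 →
        ∃ c1 c2 l c l' c4 c5 : Fin M, c1 < c2 ∧ c2 < c ∧ c < c4 ∧ c4 < c5 ∧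
          (fsub m M hm a1 = c1 ∨ fsub m M hm a1 = c2) ∧ (fsub m M hm a2 = c4 ∨ fsub m M hm a2 = c5) ∧
          (fsub m M hm b1 = c1 ∨ fsub m M hm b1 = c2) ∧ (fsub m M hm b2 = c4 ∨ fsub m M hm b2 = c5) ∧
          fsub m M hm a1 < l ∧ fsub m M hm b1 < l ∧ l < c ∧ c < l' ∧
          l' < fsub m M hm a2 ∧ l' < fsub m M hm b2 := by
      intro a1 a2 b1 b2 ha hb hab hba
      have ha' : a1.1 < a2.1 := ha
      have hb' : b1.1 < b2.1 := hb
      have hab' : a1.1 < b2.1 := hab
      have hba' : b1.1 < a2.1 := hba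
      have hm2 := a2.2
      have hm2' := b2.2
      -- cut after the max of the left ends
      have hM2 : 4 * m + 8 ≤ M := hm
      rcases lt_trichotomy a1.1 b1.1 with hL | hL | hL <;>
        rcases lt_trichotomy a2.1 b2.1 with hR | hR | hR
      · exact ⟨⟨4 * a1.1 + 3, by omega⟩, ⟨4 * b1.1 + 3, by omega⟩, ⟨4 * b1.1 + 4, by omega⟩,
          ⟨4 * b1.1 + 5, by omega⟩, ⟨4 * b1.1 + 6, by omega⟩, ⟨4 * a2.1 + 3, by omega⟩,
          ⟨4 * b2.1 + 3, by omega⟩, by first | (simp only [fsub, Fin.lt_def, Fin.ext_iff, true_or, or_true]; done) | (simp only [fsub, Fin.lt_def, Fin.ext_iff]; omega),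
          by first | (simp only [fsub, Fin.lt_def, Fin.ext_iff, true_or, or_true]; done) | (simp only [fsub, Fin.lt_def, Fin.ext_iff]; omega),
          by first | (simp only [fsub, Fin.lt_def, Fin.ext_iff, true_or, or_true]; done) | (simp only [fsub, Fin.lt_def, Fin.ext_iff]; omega),
          by first | (simp only [fsub, Fin.lt_def, Fin.ext_iff, true_or, or_true]; done) | (simp only [fsub, Fin.lt_def, Fin.ext_iff]; omega),
          by first | (simp only [fsub, Fin.lt_def, Fin.ext_iff, true_or, or_true]; done) | (simp only [fsub, Fin.lt_def, Fin.ext_iff]; omega),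
          by first | (simp only [fsub, Fin.lt_def, Fin.ext_iff, true_or, or_true]; done) | (simp only [fsub, Fin.lt_def, Fin.ext_iff]; omega),
          by first | (simp only [fsub, Fin.lt_def, Fin.ext_iff, true_or, or_true]; done) | (simp only [fsub, Fin.lt_def, Fin.ext_iff]; omega),
          by first | (simp only [fsub, Fin.lt_def, Fin.ext_iff, true_or, or_true]; done) | (simp only [fsub, Fin.lt_def, Fin.ext_iff]; omega),
          by first | (simp only [fsub, Fin.lt_def, Fin.ext_iff, true_or, or_true]; done) | (simp only [fsub, Fin.lt_def, Fin.ext_iff]; omega),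
          by first | (simp only [fsub, Fin.lt_def, Fin.ext_iff, true_or, or_true]; done) | (simp only [fsub, Fin.lt_def, Fin.ext_iff]; omega),
          by first | (simp only [fsub, Fin.lt_def, Fin.ext_iff, true_or, or_true]; done) | (simp only [fsub, Fin.lt_def, Fin.ext_iff]; omega),
          by first | (simp only [fsub, Fin.lt_def, Fin.ext_iff, true_or, or_true]; done) | (simp only [fsub, Fin.lt_def, Fin.ext_iff]; omega),
          by first | (simp only [fsub, Fin.lt_def, Fin.ext_iff, true_or, or_true]; done) | (simp only [fsub, Fin.lt_def, Fin.ext_iff]; omega),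
          by first | (simp only [fsub, Fin.lt_def, Fin.ext_iff, true_or, or_true]; done) | (simp only [fsub, Fin.lt_def, Fin.ext_iff]; omega)⟩
      · exact ⟨⟨4 * a1.1 + 3, by omega⟩, ⟨4 * b1.1 + 3, by omega⟩, ⟨4 * b1.1 + 4, by omega⟩,
          ⟨4 * b1.1 + 5, by omega⟩, ⟨4 * b1.1 + 6, by omega⟩, ⟨4 * a2.1 + 3, by omega⟩,
          ⟨4 * a2.1 + 4, by omega⟩, by first | (simp only [fsub, Fin.lt_def, Fin.ext_iff, true_or, or_true]; done) | (simp only [fsub, Fin.lt_def, Fin.ext_iff]; omega),
          by first | (simp only [fsub, Fin.lt_def, Fin.ext_iff, true_or, or_true]; done) | (simp only [fsub, Fin.lt_def, Fin.ext_iff]; omega),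
          by first | (simp only [fsub, Fin.lt_def, Fin.ext_iff, true_or, or_true]; done) | (simp only [fsub, Fin.lt_def, Fin.ext_iff]; omega),
          by first | (simp only [fsub, Fin.lt_def, Fin.ext_iff, true_or, or_true]; done) | (simp only [fsub, Fin.lt_def, Fin.ext_iff]; omega),
          by first | (simp only [fsub, Fin.lt_def, Fin.ext_iff, true_or, or_true]; done) | (simp only [fsub, Fin.lt_def, Fin.ext_iff]; omega),
          by first | (simp only [fsub, Fin.lt_def, Fin.ext_iff, true_or, or_true]; done) | (simp only [fsub, Fin.lt_def, Fin.ext_iff]; omega),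
          by first | (simp only [fsub, Fin.lt_def, Fin.ext_iff, true_or, or_true]; done) | (simp only [fsub, Fin.lt_def, Fin.ext_iff]; omega),
          by first | (simp only [fsub, Fin.lt_def, Fin.ext_iff, true_or, or_true]; done) | (simp only [fsub, Fin.lt_def, Fin.ext_iff]; omega),
          by first | (simp only [fsub, Fin.lt_def, Fin.ext_iff, true_or, or_true]; done) | (simp only [fsub, Fin.lt_def, Fin.ext_iff]; omega),
          by first | (simp only [fsub, Fin.lt_def, Fin.ext_iff, true_or, or_true]; done) | (simp only [fsub, Fin.lt_def, Fin.ext_iff]; omega),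
          by first | (simp only [fsub, Fin.lt_def, Fin.ext_iff, true_or, or_true]; done) | (simp only [fsub, Fin.lt_def, Fin.ext_iff]; omega),
          by first | (simp only [fsub, Fin.lt_def, Fin.ext_iff, true_or, or_true]; done) | (simp only [fsub, Fin.lt_def, Fin.ext_iff]; omega),
          by first | (simp only [fsub, Fin.lt_def, Fin.ext_iff, true_or, or_true]; done) | (simp only [fsub, Fin.lt_def, Fin.ext_iff]; omega),
          by first | (simp only [fsub, Fin.lt_def, Fin.ext_iff, true_or, or_true]; done) | (simp only [fsub, Fin.lt_def, Fin.ext_iff]; omega)⟩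
      · exact ⟨⟨4 * a1.1 + 3, by omega⟩, ⟨4 * b1.1 + 3, by omega⟩, ⟨4 * b1.1 + 4, by omega⟩,
          ⟨4 * b1.1 + 5, by omega⟩, ⟨4 * b1.1 + 6, by omega⟩, ⟨4 * b2.1 + 3, by omega⟩,
          ⟨4 * a2.1 + 3, by omega⟩, by first | (simp only [fsub, Fin.lt_def, Fin.ext_iff, true_or, or_true]; done) | (simp only [fsub, Fin.lt_def, Fin.ext_iff]; omega),
          by first | (simp only [fsub, Fin.lt_def, Fin.ext_iff, true_or, or_true]; done) | (simp only [fsub, Fin.lt_def, Fin.ext_iff]; omega),
          by first | (simp only [fsub, Fin.lt_def, Fin.ext_iff, true_or, or_true]; done) | (simp only [fsub, Fin.lt_def, Fin.ext_iff]; omega),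
          by first | (simp only [fsub, Fin.lt_def, Fin.ext_iff, true_or, or_true]; done) | (simp only [fsub, Fin.lt_def, Fin.ext_iff]; omega),
          by first | (simp only [fsub, Fin.lt_def, Fin.ext_iff, true_or, or_true]; done) | (simp only [fsub, Fin.lt_def, Fin.ext_iff]; omega),
          by first | (simp only [fsub, Fin.lt_def, Fin.ext_iff, true_or, or_true]; done) | (simp only [fsub, Fin.lt_def, Fin.ext_iff]; omega),
          by first | (simp only [fsub, Fin.lt_def, Fin.ext_iff, true_or, or_true]; done) | (simp only [fsub, Fin.lt_def, Fin.ext_iff]; omega),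
          by first | (simp only [fsub, Fin.lt_def, Fin.ext_iff, true_or, or_true]; done) | (simp only [fsub, Fin.lt_def, Fin.ext_iff]; omega),
          by first | (simp only [fsub, Fin.lt_def, Fin.ext_iff, true_or, or_true]; done) | (simp only [fsub, Fin.lt_def, Fin.ext_iff]; omega),
          by first | (simp only [fsub, Fin.lt_def, Fin.ext_iff, true_or, or_true]; done) | (simp only [fsub, Fin.lt_def, Fin.ext_iff]; omega),
          by first | (simp only [fsub, Fin.lt_def, Fin.ext_iff, true_or, or_true]; done) | (simp only [fsub, Fin.lt_def, Fin.ext_iff]; omega),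
          by first | (simp only [fsub, Fin.lt_def, Fin.ext_iff, true_or, or_true]; done) | (simp only [fsub, Fin.lt_def, Fin.ext_iff]; omega),
          by first | (simp only [fsub, Fin.lt_def, Fin.ext_iff, true_or, or_true]; done) | (simp only [fsub, Fin.lt_def, Fin.ext_iff]; omega),
          by first | (simp only [fsub, Fin.lt_def, Fin.ext_iff, true_or, or_true]; done) | (simp only [fsub, Fin.lt_def, Fin.ext_iff]; omega)⟩
      · exact ⟨⟨4 * a1.1 + 2, by omega⟩, ⟨4 * b1.1 + 3, by omega⟩, ⟨4 * b1.1 + 4, by omega⟩,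
          ⟨4 * b1.1 + 5, by omega⟩, ⟨4 * b1.1 + 6, by omega⟩, ⟨4 * a2.1 + 3, by omega⟩,
          ⟨4 * b2.1 + 3, by omega⟩, by first | (simp only [fsub, Fin.lt_def, Fin.ext_iff, true_or, or_true]; done) | (simp only [fsub, Fin.lt_def, Fin.ext_iff]; omega),
          by first | (simp only [fsub, Fin.lt_def, Fin.ext_iff, true_or, or_true]; done) | (simp only [fsub, Fin.lt_def, Fin.ext_iff]; omega),
          by first | (simp only [fsub, Fin.lt_def, Fin.ext_iff, true_or, or_true]; done) | (simp only [fsub, Fin.lt_def, Fin.ext_iff]; omega),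
          by first | (simp only [fsub, Fin.lt_def, Fin.ext_iff, true_or, or_true]; done) | (simp only [fsub, Fin.lt_def, Fin.ext_iff]; omega),
          by first | (simp only [fsub, Fin.lt_def, Fin.ext_iff, true_or, or_true]; done) | (simp only [fsub, Fin.lt_def, Fin.ext_iff]; omega),
          by first | (simp only [fsub, Fin.lt_def, Fin.ext_iff, true_or, or_true]; done) | (simp only [fsub, Fin.lt_def, Fin.ext_iff]; omega),
          by first | (simp only [fsub, Fin.lt_def, Fin.ext_iff, true_or, or_true]; done) | (simp only [fsub, Fin.lt_def, Fin.ext_iff]; omega),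
          by first | (simp only [fsub, Fin.lt_def, Fin.ext_iff, true_or, or_true]; done) | (simp only [fsub, Fin.lt_def, Fin.ext_iff]; omega),
          by first | (simp only [fsub, Fin.lt_def, Fin.ext_iff, true_or, or_true]; done) | (simp only [fsub, Fin.lt_def, Fin.ext_iff]; omega),
          by first | (simp only [fsub, Fin.lt_def, Fin.ext_iff, true_or, or_true]; done) | (simp only [fsub, Fin.lt_def, Fin.ext_iff]; omega),
          by first | (simp only [fsub, Fin.lt_def, Fin.ext_iff, true_or, or_true]; done) | (simp only [fsub, Fin.lt_def, Fin.ext_iff]; omega),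
          by first | (simp only [fsub, Fin.lt_def, Fin.ext_iff, true_or, or_true]; done) | (simp only [fsub, Fin.lt_def, Fin.ext_iff]; omega),
          by first | (simp only [fsub, Fin.lt_def, Fin.ext_iff, true_or, or_true]; done) | (simp only [fsub, Fin.lt_def, Fin.ext_iff]; omega),
          by first | (simp only [fsub, Fin.lt_def, Fin.ext_iff, true_or, or_true]; done) | (simp only [fsub, Fin.lt_def, Fin.ext_iff]; omega)⟩
      · exact ⟨⟨4 * a1.1 + 2, by omega⟩, ⟨4 * b1.1 + 3, by omega⟩, ⟨4 * b1.1 + 4, by omega⟩,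
          ⟨4 * b1.1 + 5, by omega⟩, ⟨4 * b1.1 + 6, by omega⟩, ⟨4 * a2.1 + 3, by omega⟩,
          ⟨4 * a2.1 + 4, by omega⟩, by first | (simp only [fsub, Fin.lt_def, Fin.ext_iff, true_or, or_true]; done) | (simp only [fsub, Fin.lt_def, Fin.ext_iff]; omega),
          by first | (simp only [fsub, Fin.lt_def, Fin.ext_iff, true_or, or_true]; done) | (simp only [fsub, Fin.lt_def, Fin.ext_iff]; omega),
          by first | (simp only [fsub, Fin.lt_def, Fin.ext_iff, true_or, or_true]; done) | (simp only [fsub, Fin.lt_def, Fin.ext_iff]; omega),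
          by first | (simp only [fsub, Fin.lt_def, Fin.ext_iff, true_or, or_true]; done) | (simp only [fsub, Fin.lt_def, Fin.ext_iff]; omega),
          by first | (simp only [fsub, Fin.lt_def, Fin.ext_iff, true_or, or_true]; done) | (simp only [fsub, Fin.lt_def, Fin.ext_iff]; omega),
          by first | (simp only [fsub, Fin.lt_def, Fin.ext_iff, true_or, or_true]; done) | (simp only [fsub, Fin.lt_def, Fin.ext_iff]; omega),
          by first | (simp only [fsub, Fin.lt_def, Fin.ext_iff, true_or, or_true]; done) | (simp only [fsub, Fin.lt_def, Fin.ext_iff]; omega),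
          by first | (simp only [fsub, Fin.lt_def, Fin.ext_iff, true_or, or_true]; done) | (simp only [fsub, Fin.lt_def, Fin.ext_iff]; omega),
          by first | (simp only [fsub, Fin.lt_def, Fin.ext_iff, true_or, or_true]; done) | (simp only [fsub, Fin.lt_def, Fin.ext_iff]; omega),
          by first | (simp only [fsub, Fin.lt_def, Fin.ext_iff, true_or, or_true]; done) | (simp only [fsub, Fin.lt_def, Fin.ext_iff]; omega),
          by first | (simp only [fsub, Fin.lt_def, Fin.ext_iff, true_or, or_true]; done) | (simp only [fsub, Fin.lt_def, Fin.ext_iff]; omega),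
          by first | (simp only [fsub, Fin.lt_def, Fin.ext_iff, true_or, or_true]; done) | (simp only [fsub, Fin.lt_def, Fin.ext_iff]; omega),
          by first | (simp only [fsub, Fin.lt_def, Fin.ext_iff, true_or, or_true]; done) | (simp only [fsub, Fin.lt_def, Fin.ext_iff]; omega),
          by first | (simp only [fsub, Fin.lt_def, Fin.ext_iff, true_or, or_true]; done) | (simp only [fsub, Fin.lt_def, Fin.ext_iff]; omega)⟩
      · exact ⟨⟨4 * a1.1 + 2, by omega⟩, ⟨4 * b1.1 + 3, by omega⟩, ⟨4 * b1.1 + 4, by omega⟩,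
          ⟨4 * b1.1 + 5, by omega⟩, ⟨4 * b1.1 + 6, by omega⟩, ⟨4 * b2.1 + 3, by omega⟩,
          ⟨4 * a2.1 + 3, by omega⟩, by first | (simp only [fsub, Fin.lt_def, Fin.ext_iff, true_or, or_true]; done) | (simp only [fsub, Fin.lt_def, Fin.ext_iff]; omega),
          by first | (simp only [fsub, Fin.lt_def, Fin.ext_iff, true_or, or_true]; done) | (simp only [fsub, Fin.lt_def, Fin.ext_iff]; omega),
          by first | (simp only [fsub, Fin.lt_def, Fin.ext_iff, true_or, or_true]; done) | (simp only [fsub, Fin.lt_def, Fin.ext_iff]; omega),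
          by first | (simp only [fsub, Fin.lt_def, Fin.ext_iff, true_or, or_true]; done) | (simp only [fsub, Fin.lt_def, Fin.ext_iff]; omega),
          by first | (simp only [fsub, Fin.lt_def, Fin.ext_iff, true_or, or_true]; done) | (simp only [fsub, Fin.lt_def, Fin.ext_iff]; omega),
          by first | (simp only [fsub, Fin.lt_def, Fin.ext_iff, true_or, or_true]; done) | (simp only [fsub, Fin.lt_def, Fin.ext_iff]; omega),
          by first | (simp only [fsub, Fin.lt_def, Fin.ext_iff, true_or, or_true]; done) | (simp only [fsub, Fin.lt_def, Fin.ext_iff]; omega),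
          by first | (simp only [fsub, Fin.lt_def, Fin.ext_iff, true_or, or_true]; done) | (simp only [fsub, Fin.lt_def, Fin.ext_iff]; omega),
          by first | (simp only [fsub, Fin.lt_def, Fin.ext_iff, true_or, or_true]; done) | (simp only [fsub, Fin.lt_def, Fin.ext_iff]; omega),
          by first | (simp only [fsub, Fin.lt_def, Fin.ext_iff, true_or, or_true]; done) | (simp only [fsub, Fin.lt_def, Fin.ext_iff]; omega),
          by first | (simp only [fsub, Fin.lt_def, Fin.ext_iff, true_or, or_true]; done) | (simp only [fsub, Fin.lt_def, Fin.ext_iff]; omega),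
          by first | (simp only [fsub, Fin.lt_def, Fin.ext_iff, true_or, or_true]; done) | (simp only [fsub, Fin.lt_def, Fin.ext_iff]; omega),
          by first | (simp only [fsub, Fin.lt_def, Fin.ext_iff, true_or, or_true]; done) | (simp only [fsub, Fin.lt_def, Fin.ext_iff]; omega),
          by first | (simp only [fsub, Fin.lt_def, Fin.ext_iff, true_or, or_true]; done) | (simp only [fsub, Fin.lt_def, Fin.ext_iff]; omega)⟩
      · exact ⟨⟨4 * b1.1 + 3, by omega⟩, ⟨4 * a1.1 + 3, by omega⟩, ⟨4 * a1.1 + 4, by omega⟩,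
          ⟨4 * a1.1 + 5, by omega⟩, ⟨4 * a1.1 + 6, by omega⟩, ⟨4 * a2.1 + 3, by omega⟩,
          ⟨4 * b2.1 + 3, by omega⟩, by first | (simp only [fsub, Fin.lt_def, Fin.ext_iff, true_or, or_true]; done) | (simp only [fsub, Fin.lt_def, Fin.ext_iff]; omega),
          by first | (simp only [fsub, Fin.lt_def, Fin.ext_iff, true_or, or_true]; done) | (simp only [fsub, Fin.lt_def, Fin.ext_iff]; omega),
          by first | (simp only [fsub, Fin.lt_def, Fin.ext_iff, true_or, or_true]; done) | (simp only [fsub, Fin.lt_def, Fin.ext_iff]; omega),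
          by first | (simp only [fsub, Fin.lt_def, Fin.ext_iff, true_or, or_true]; done) | (simp only [fsub, Fin.lt_def, Fin.ext_iff]; omega),
          by first | (simp only [fsub, Fin.lt_def, Fin.ext_iff, true_or, or_true]; done) | (simp only [fsub, Fin.lt_def, Fin.ext_iff]; omega),
          by first | (simp only [fsub, Fin.lt_def, Fin.ext_iff, true_or, or_true]; done) | (simp only [fsub, Fin.lt_def, Fin.ext_iff]; omega),
          by first | (simp only [fsub, Fin.lt_def, Fin.ext_iff, true_or, or_true]; done) | (simp only [fsub, Fin.lt_def, Fin.ext_iff]; omega),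
          by first | (simp only [fsub, Fin.lt_def, Fin.ext_iff, true_or, or_true]; done) | (simp only [fsub, Fin.lt_def, Fin.ext_iff]; omega),
          by first | (simp only [fsub, Fin.lt_def, Fin.ext_iff, true_or, or_true]; done) | (simp only [fsub, Fin.lt_def, Fin.ext_iff]; omega),
          by first | (simp only [fsub, Fin.lt_def, Fin.ext_iff, true_or, or_true]; done) | (simp only [fsub, Fin.lt_def, Fin.ext_iff]; omega),
          by first | (simp only [fsub, Fin.lt_def, Fin.ext_iff, true_or, or_true]; done) | (simp only [fsub, Fin.lt_def, Fin.ext_iff]; omega),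
          by first | (simp only [fsub, Fin.lt_def, Fin.ext_iff, true_or, or_true]; done) | (simp only [fsub, Fin.lt_def, Fin.ext_iff]; omega),
          by first | (simp only [fsub, Fin.lt_def, Fin.ext_iff, true_or, or_true]; done) | (simp only [fsub, Fin.lt_def, Fin.ext_iff]; omega),
          by first | (simp only [fsub, Fin.lt_def, Fin.ext_iff, true_or, or_true]; done) | (simp only [fsub, Fin.lt_def, Fin.ext_iff]; omega)⟩
      · exact ⟨⟨4 * b1.1 + 3, by omega⟩, ⟨4 * a1.1 + 3, by omega⟩, ⟨4 * a1.1 + 4, by omega⟩,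
          ⟨4 * a1.1 + 5, by omega⟩, ⟨4 * a1.1 + 6, by omega⟩, ⟨4 * a2.1 + 3, by omega⟩,
          ⟨4 * a2.1 + 4, by omega⟩, by first | (simp only [fsub, Fin.lt_def, Fin.ext_iff, true_or, or_true]; done) | (simp only [fsub, Fin.lt_def, Fin.ext_iff]; omega),
          by first | (simp only [fsub, Fin.lt_def, Fin.ext_iff, true_or, or_true]; done) | (simp only [fsub, Fin.lt_def, Fin.ext_iff]; omega),
          by first | (simp only [fsub, Fin.lt_def, Fin.ext_iff, true_or, or_true]; done) | (simp only [fsub, Fin.lt_def, Fin.ext_iff]; omega),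
          by first | (simp only [fsub, Fin.lt_def, Fin.ext_iff, true_or, or_true]; done) | (simp only [fsub, Fin.lt_def, Fin.ext_iff]; omega),
          by first | (simp only [fsub, Fin.lt_def, Fin.ext_iff, true_or, or_true]; done) | (simp only [fsub, Fin.lt_def, Fin.ext_iff]; omega),
          by first | (simp only [fsub, Fin.lt_def, Fin.ext_iff, true_or, or_true]; done) | (simp only [fsub, Fin.lt_def, Fin.ext_iff]; omega),
          by first | (simp only [fsub, Fin.lt_def, Fin.ext_iff, true_or, or_true]; done) | (simp only [fsub, Fin.lt_def, Fin.ext_iff]; omega),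
          by first | (simp only [fsub, Fin.lt_def, Fin.ext_iff, true_or, or_true]; done) | (simp only [fsub, Fin.lt_def, Fin.ext_iff]; omega),
          by first | (simp only [fsub, Fin.lt_def, Fin.ext_iff, true_or, or_true]; done) | (simp only [fsub, Fin.lt_def, Fin.ext_iff]; omega),
          by first | (simp only [fsub, Fin.lt_def, Fin.ext_iff, true_or, or_true]; done) | (simp only [fsub, Fin.lt_def, Fin.ext_iff]; omega),
          by first | (simp only [fsub, Fin.lt_def, Fin.ext_iff, true_or, or_true]; done) | (simp only [fsub, Fin.lt_def, Fin.ext_iff]; omega),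
          by first | (simp only [fsub, Fin.lt_def, Fin.ext_iff, true_or, or_true]; done) | (simp only [fsub, Fin.lt_def, Fin.ext_iff]; omega),
          by first | (simp only [fsub, Fin.lt_def, Fin.ext_iff, true_or, or_true]; done) | (simp only [fsub, Fin.lt_def, Fin.ext_iff]; omega),
          by first | (simp only [fsub, Fin.lt_def, Fin.ext_iff, true_or, or_true]; done) | (simp only [fsub, Fin.lt_def, Fin.ext_iff]; omega)⟩
      · exact ⟨⟨4 * b1.1 + 3, by omega⟩, ⟨4 * a1.1 + 3, by omega⟩, ⟨4 * a1.1 + 4, by omega⟩,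
          ⟨4 * a1.1 + 5, by omega⟩, ⟨4 * a1.1 + 6, by omega⟩, ⟨4 * b2.1 + 3, by omega⟩,
          ⟨4 * a2.1 + 3, by omega⟩, by first | (simp only [fsub, Fin.lt_def, Fin.ext_iff, true_or, or_true]; done) | (simp only [fsub, Fin.lt_def, Fin.ext_iff]; omega),
          by first | (simp only [fsub, Fin.lt_def, Fin.ext_iff, true_or, or_true]; done) | (simp only [fsub, Fin.lt_def, Fin.ext_iff]; omega),
          by first | (simp only [fsub, Fin.lt_def, Fin.ext_iff, true_or, or_true]; done) | (simp only [fsub, Fin.lt_def, Fin.ext_iff]; omega),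
          by first | (simp only [fsub, Fin.lt_def, Fin.ext_iff, true_or, or_true]; done) | (simp only [fsub, Fin.lt_def, Fin.ext_iff]; omega),
          by first | (simp only [fsub, Fin.lt_def, Fin.ext_iff, true_or, or_true]; done) | (simp only [fsub, Fin.lt_def, Fin.ext_iff]; omega),
          by first | (simp only [fsub, Fin.lt_def, Fin.ext_iff, true_or, or_true]; done) | (simp only [fsub, Fin.lt_def, Fin.ext_iff]; omega),
          by first | (simp only [fsub, Fin.lt_def, Fin.ext_iff, true_or, or_true]; done) | (simp only [fsub, Fin.lt_def, Fin.ext_iff]; omega),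
          by first | (simp only [fsub, Fin.lt_def, Fin.ext_iff, true_or, or_true]; done) | (simp only [fsub, Fin.lt_def, Fin.ext_iff]; omega),
          by first | (simp only [fsub, Fin.lt_def, Fin.ext_iff, true_or, or_true]; done) | (simp only [fsub, Fin.lt_def, Fin.ext_iff]; omega),
          by first | (simp only [fsub, Fin.lt_def, Fin.ext_iff, true_or, or_true]; done) | (simp only [fsub, Fin.lt_def, Fin.ext_iff]; omega),
          by first | (simp only [fsub, Fin.lt_def, Fin.ext_iff, true_or, or_true]; done) | (simp only [fsub, Fin.lt_def, Fin.ext_iff]; omega),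
          by first | (simp only [fsub, Fin.lt_def, Fin.ext_iff, true_or, or_true]; done) | (simp only [fsub, Fin.lt_def, Fin.ext_iff]; omega),
          by first | (simp only [fsub, Fin.lt_def, Fin.ext_iff, true_or, or_true]; done) | (simp only [fsub, Fin.lt_def, Fin.ext_iff]; omega),
          by first | (simp only [fsub, Fin.lt_def, Fin.ext_iff, true_or, or_true]; done) | (simp only [fsub, Fin.lt_def, Fin.ext_iff]; omega)⟩
    rcases rowJF N M hM T hT x y z hS hU hN with hF | hF
    · left
      intro k k' a1 a2 b1 b2 hkk ha hb hab hba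
      obtain ⟨c1, c2, l, c, l', c4, c5, h12, h2c, hc4, h45, hA1, hA2, hB1, hB2, hl1, hl2, hlc, hcl,
        hl3, hl4⟩ := choice a1 a2 b1 b2 ha hb hab hba
      have hi : (⟨0, h0⟩ : Fin M) < fsub m M hm k := by
        simp only [fsub, Fin.mk_lt_mk]; omega
      refine ⟨_, _, key ⟨0, h0⟩ (fsub m M hm k) (fsub m M hm a1) l c l' (fsub m M hm a2) hi hl1 hlc
          hcl hl3, key ⟨0, h0⟩ (fsub m M hm k') (fsub m M hm b1) l c l' (fsub m M hm b2)
          (hi.trans (hmono _ _ hkk)) hl2 hlc hcl hl4, ?_⟩
      have := hF ⟨0, h0⟩ (fsub m M hm k) (fsub m M hm k') c1 c2 c c4 c5 (fsub m M hm a1)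
        (fsub m M hm a2) (fsub m M hm b1) (fsub m M hm b2) hi (hmono _ _ hkk) h12 h2c hc4 h45
        hA1 hA2 hB1 hB2
      have hpos : 0 < Vc (x (fsub m M hm k)) (y (fsub m M hm k)) (z (fsub m M hm k))
          (fsub m M hm a1) (fsub m M hm a2) (x ⟨0, h0⟩ c) :=
        lt_of_lt_of_le (hq _ l) (rowJS1 N M hM T hT x y z hS hU hN ⟨0, h0⟩ _ _ l c _ hi hl1 hlc
          (hcl.trans hl3))
      have := Real.log_le_log hpos this
      linarith
    · right
      intro k k' a1 a2 b1 b2 hkk ha hb hab hba
      obtain ⟨c1, c2, l, c, l', c4, c5, h12, h2c, hc4, h45, hA1, hA2, hB1, hB2, hl1, hl2, hlc, hcl,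
        hl3, hl4⟩ := choice a1 a2 b1 b2 ha hb hab hba
      have hi : (⟨0, h0⟩ : Fin M) < fsub m M hm k := by
        simp only [fsub, Fin.mk_lt_mk]; omega
      refine ⟨_, _, key ⟨0, h0⟩ (fsub m M hm k) (fsub m M hm a1) l c l' (fsub m M hm a2) hi hl1 hlc
          hcl hl3, key ⟨0, h0⟩ (fsub m M hm k') (fsub m M hm b1) l c l' (fsub m M hm b2)
          (hi.trans (hmono _ _ hkk)) hl2 hlc hcl hl4, ?_⟩
      have := hF ⟨0, h0⟩ (fsub m M hm k) (fsub m M hm k') c1 c2 c c4 c5 (fsub m M hm a1)
        (fsub m M hm a2) (fsub m M hm b1) (fsub m M hm b2) hi (hmono _ _ hkk) h12 h2c hc4 h45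
        hA1 hA2 hB1 hB2
      have hpos : 0 < Vc (x (fsub m M hm k')) (y (fsub m M hm k')) (z (fsub m M hm k'))
          (fsub m M hm b1) (fsub m M hm b2) (x ⟨0, h0⟩ c) :=
        lt_of_lt_of_le (hq _ l) (rowJS1 N M hM T hT x y z hS hU hN ⟨0, h0⟩ _ _ l c _
          (hi.trans (hmono _ _ hkk)) hl2 hlc (hcl.trans hl4))
      have := Real.log_le_log hpos this
      linarith

end Pool.Agent.BIP
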