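import Pool.Agent.BIP.JDefs

set_option autoImplicit false

/-!
# Two families, large oscillations: the linear part (row J8)

Logarithms of the Segre coordinates: `P = log x`, `P' = log (z/y)`, `Y = log y`, `Y' = log (z/x)`.
-/

namespace Pool.Agent.BIP.J

/-- level of a chord with ends `Y a`, `Y b`, `Y' a`, `Y' b` -/
def Le (τ Ya Yb Wa Wb t : ℝ) : Prop :=
  |t - (Wb - Ya)| ≤ 2 * τ ∧ min Wa Wb - max Ya Yb ≤ t ∧ t ≤ max Wa Wb - min Ya Yb

/-- The facts on the rows used below (the facts on the columns are the same structure for the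
transposed arrays). -/
structure Half (m n : ℕ) (τ : ℝ) (P P' Y Y' : ℕ → ℕ → ℝ) : Prop where
  R : ∀ b i i' p q s, b < m → i < m → i' < m → s < n →
    ((i < b ∧ b < i') ∨ (i' < b ∧ b < i) ∨ (i = i' ∧ i ≠ b)) → p < q → q < s →
    P i q ≤ P b q → P' b q ≤ P' i' q → Y' b s - Y b p ≤ P' i' q - P i q + 2 * τ
  R' : ∀ b i i' p q s, b < m → i < m → i' < m → s < n →
    ((i < b ∧ b < i') ∨ (i' < b ∧ b < i) ∨ (i = i' ∧ i ≠ b)) → p < q → q < s →
    P b q ≤ P i q → P' i' q ≤ P' b q → P' i' q - P i q - 2 * τ ≤ Y' b s - Y b p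
  F : (∀ k k' a1 a2 b1 b2, k < k' → k' < m → a2 < n → b2 < n → a1 < a2 → b1 < b2 → a1 < b2 →
        b1 < a2 → ∃ t t', Le τ (Y k a1) (Y k a2) (Y' k a1) (Y' k a2) t ∧
          Le τ (Y k' b1) (Y k' b2) (Y' k' b1) (Y' k' b2) t' ∧ t ≤ t') ∨
      (∀ k k' a1 a2 b1 b2, k < k' → k' < m → a2 < n → b2 < n → a1 < a2 → b1 < b2 → a1 < b2 →
        b1 < a2 → ∃ t t', Le τ (Y k a1) (Y k a2) (Y' k a1) (Y' k a2) t ∧
          Le τ (Y k' b1) (Y k' b2) (Y' k' b1) (Y' k' b2) t' ∧ t' ≤ t)
  mY : (∀ k p s, k < m → s < n → p < s → Y k p ≤ Y k s) ∨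
    (∀ k p s, k < m → s < n → p < s → Y k s ≤ Y k p)
  mY' : (∀ k p s, k < m → s < n → p < s → Y' k p ≤ Y' k s) ∨
    (∀ k p s, k < m → s < n → p < s → Y' k s ≤ Y' k p)

variable {m n : ℕ} {τ : ℝ} {P P' Y Y' : ℕ → ℕ → ℝ}

/-- order of the chord levels of different rows -/
theorem Half.mu_ord (h : Half m n τ P P' Y Y') :
    (∀ k k' a1 a2 b1 b2, k < k' → k' < m → a2 < n → b2 < n → a1 < a2 → b1 < b2 → a1 < b2 →
      b1 < a2 → Y' k a2 - Y k a1 ≤ Y' k' b2 - Y k' b1 + 4 * τ) ∨
    (∀ k k' a1 a2 b1 b2, k < k' → k' < m → a2 < n → b2 < n → a1 < a2 → b1 < b2 → a1 < b2 →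
      b1 < a2 → Y' k' b2 - Y k' b1 ≤ Y' k a2 - Y k a1 + 4 * τ) := by
  rcases h.F with hF | hF
  · left
    intro k k' a1 a2 b1 b2 h1 h2 h3 h4 h5 h6 h7 h8
    obtain ⟨t, t', ⟨c1, -, -⟩, ⟨c2, -, -⟩, c3⟩ := hF k k' a1 a2 b1 b2 h1 h2 h3 h4 h5 h6 h7 h8
    rw [abs_le] at c1 c2
    linarith [c1.1, c2.2]
  · right
    intro k k' a1 a2 b1 b2 h1 h2 h3 h4 h5 h6 h7 h8
    obtain ⟨t, t', ⟨c1, -, -⟩, ⟨c2, -, -⟩, c3⟩ := hF k k' a1 a2 b1 b2 h1 h2 h3 h4 h5 h6 h7 h8
    rw [abs_le] at c1 c2
    linarith [c1.2, c2.1]

/-- Mixed monotony: chords with levels above and below the cell. -/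
theorem Half.near (_h : Half m n τ P P' Y Y')
    (hm : ((∀ k p s, k < m → s < n → p < s → Y k p ≤ Y k s) ∧
        (∀ k p s, k < m → s < n → p < s → Y' k s ≤ Y' k p)) ∨
      ((∀ k p s, k < m → s < n → p < s → Y k s ≤ Y k p) ∧
        (∀ k p s, k < m → s < n → p < s → Y' k p ≤ Y' k s)))
    (k l : ℕ) (hk : k < m) (h1 : 1 ≤ l) (h2 : l + 1 < n) :
    (∃ p s, p < s ∧ s < n ∧
      ∀ t, Le τ (Y k p) (Y k s) (Y' k p) (Y' k s) t → Y' k l - Y k l ≤ t) ∧
    (∃ p s, p < s ∧ s < n ∧
      ∀ t, Le τ (Y k p) (Y k s) (Y' k p) (Y' k s) t → t ≤ Y' k l - Y k l) := by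
  obtain ⟨l, rfl⟩ : ∃ l', l = l' + 1 := ⟨l - 1, by omega⟩
  rcases hm with ⟨m1, m2⟩ | ⟨m1, m2⟩
  · have b1 := m1 k l (l + 1) hk (by omega) (by omega)
    have b2 := m2 k l (l + 1) hk (by omega) (by omega)
    have b3 := m1 k (l + 1) (l + 1 + 1) hk (by omega) (by omega)
    have b4 := m2 k (l + 1) (l + 1 + 1) hk (by omega) (by omega)
    refine ⟨⟨l, l + 1, by omega, by omega, ?_⟩, ⟨l + 1, l + 1 + 1, by omega, by omega, ?_⟩⟩
    · rintro t ⟨-, ht, -⟩
      rw [min_eq_right b2, max_eq_right b1] at ht
      exact ht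
    · rintro t ⟨-, -, ht⟩
      rw [max_eq_left b4, min_eq_left b3] at ht
      exact ht
  · have b1 := m1 k l (l + 1) hk (by omega) (by omega)
    have b2 := m2 k l (l + 1) hk (by omega) (by omega)
    have b3 := m1 k (l + 1) (l + 1 + 1) hk (by omega) (by omega)
    have b4 := m2 k (l + 1) (l + 1 + 1) hk (by omega) (by omega)
    refine ⟨⟨l + 1, l + 1 + 1, by omega, by omega, ?_⟩, ⟨l, l + 1, by omega, by omega, ?_⟩⟩
    · rintro t ⟨-, ht, -⟩
      rw [min_eq_left b4, max_eq_left b3] at ht
      exact ht
    · rintro t ⟨-, -, ht⟩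
      rw [max_eq_right b2, min_eq_right b1] at ht
      exact ht

/-- Mixed rows: the cell levels are row-major up to `4 τ`. -/
theorem Half.major (h : Half m n τ P P' Y Y')
    (hm : ((∀ k p s, k < m → s < n → p < s → Y k p ≤ Y k s) ∧
        (∀ k p s, k < m → s < n → p < s → Y' k s ≤ Y' k p)) ∨
      ((∀ k p s, k < m → s < n → p < s → Y k s ≤ Y k p) ∧
        (∀ k p s, k < m → s < n → p < s → Y' k p ≤ Y' k s))) :
    (∀ k k1 k' l l', k < k1 → k1 < k' → k' < m → 1 ≤ l → l + 1 < n → 1 ≤ l' → l' + 1 < n →
      Y' k l - Y k l ≤ Y' k' l' - Y k' l' + 4 * τ) ∨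
    (∀ k k1 k' l l', k < k1 → k1 < k' → k' < m → 1 ≤ l → l + 1 < n → 1 ≤ l' → l' + 1 < n →
      Y' k' l' - Y k' l' ≤ Y' k l - Y k l + 4 * τ) := by
  rcases h.F with hF | hF
  · left
    intro k k1 k' l l' h1 h2 h3 h4 h5 h6 h7
    obtain ⟨p, s, a1, a2, a3⟩ := (h.near hm k l (by omega) h4 h5).1
    obtain ⟨p', s', b1, b2, b3⟩ := (h.near hm k' l' (by omega) h6 h7).2
    obtain ⟨t, t', c1, c2, c3⟩ := hF k k1 p s 0 (n - 1) h1 (by omega) a2 (by omega) a1 (by omega)
      (by omega) (by omega)
    obtain ⟨u, u', d1, d2, d3⟩ := hF k1 k' 0 (n - 1) p' s' h2 (by omega) (by omega) b2 (by omega)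
      b1 (by omega) (by omega)
    have e1 := a3 t c1
    have e2 := b3 u' d2
    have e3 := abs_le.mp c2.1
    have e4 := abs_le.mp d1.1
    linarith [e3.2, e4.1]
  · right
    intro k k1 k' l l' h1 h2 h3 h4 h5 h6 h7
    obtain ⟨p, s, a1, a2, a3⟩ := (h.near hm k l (by omega) h4 h5).2
    obtain ⟨p', s', b1, b2, b3⟩ := (h.near hm k' l' (by omega) h6 h7).1
    obtain ⟨t, t', c1, c2, c3⟩ := hF k k1 p s 0 (n - 1) h1 (by omega) a2 (by omega) a1 (by omega)
      (by omega) (by omega)
    obtain ⟨u, u', d1, d2, d3⟩ := hF k1 k' 0 (n - 1) p' s' h2 (by omega) (by omega) b2 (by omega)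
      b1 (by omega) (by omega)
    have e1 := a3 t c1
    have e2 := b3 u' d2
    have e3 := abs_le.mp c2.1
    have e4 := abs_le.mp d1.1
    linarith [e3.1, e4.2]

/-- The conclusion for one kind (rows). -/
def Small (m n : ℕ) (B : ℝ) (Y Y' : ℕ → ℕ → ℝ) : Prop :=
  ∀ k j j', 4 ≤ k → k + 4 < m → 4 ≤ j → j < j' → j' + 4 < n →
    |Y k j - Y k j'| ≤ B ∧ |Y' k j - Y' k j'| ≤ B

/-- transposed array -/
def tr (A : ℕ → ℕ → ℝ) : ℕ → ℕ → ℝ := fun i j => A j i

@[simp] theorem tr_apply (A : ℕ → ℕ → ℝ) (i j : ℕ) : tr A i j = A j i := rfl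

/-- Columns mixed. -/
theorem colMixed (hτ : 0 ≤ τ) (h : Half m n τ P P' Y Y')
    (g : Half n m τ (tr Y) (tr Y') (tr P) (tr P'))
    (hH : ∀ i j, i < m → j < n → P' i j - P i j = Y' i j - Y i j)
    (hm : ((∀ k p s, k < n → s < m → p < s → tr P k p ≤ tr P k s) ∧
        (∀ k p s, k < n → s < m → p < s → tr P' k s ≤ tr P' k p)) ∨
      ((∀ k p s, k < n → s < m → p < s → tr P k s ≤ tr P k p) ∧
        (∀ k p s, k < n → s < m → p < s → tr P' k p ≤ tr P' k s))) :
    Small m n (12 * τ) Y Y' ∧ Small n m (12 * τ) (tr P) (tr P') := by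
  by_cases hM : 9 ≤ m ∧ 9 ≤ n
  swap
  · exact ⟨fun k j j' h1 h2 h3 h4 h5 => absurd h2 (by omega),
      fun k j j' h1 h2 h3 h4 h5 => absurd h2 (by omega)⟩
  obtain ⟨hM1, hM2⟩ := hM
  -- row-major
  have hrow : (∀ a b k q q', a < b → b < k → k < m → 1 ≤ q → q + 1 < n → 1 ≤ q' → q' + 1 < n →
      P' a q - P a q ≤ P' k q' - P k q' + 4 * τ) ∨
      (∀ a b k q q', a < b → b < k → k < m → 1 ≤ q → q + 1 < n → 1 ≤ q' → q' + 1 < n →
      P' k q' - P k q' ≤ P' a q - P a q + 4 * τ) := by
    rcases hm with ⟨m1, m2⟩ | ⟨m1, m2⟩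
    · right
      intro a b k q q' h1 h2 h3 h4 h5 h6 h7
      have c1 := h.R b a a 0 q (n - 1) (by omega) (by omega) (by omega) (by omega) (by omega)
        (by omega) (by omega) (m1 q a b (by omega) (by omega) h1)
        (m2 q a b (by omega) (by omega) h1)
      have c2 := h.R' b k k 0 q' (n - 1) (by omega) (by omega) (by omega) (by omega) (by omega)
        (by omega) (by omega) (m1 q' b k (by omega) (by omega) h2)
        (m2 q' b k (by omega) (by omega) h2)
      linarith
    · left
      intro a b k q q' h1 h2 h3 h4 h5 h6 h7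
      have c1 := h.R b k k 0 q' (n - 1) (by omega) (by omega) (by omega) (by omega) (by omega)
        (by omega) (by omega) (m1 q' b k (by omega) (by omega) h2)
        (m2 q' b k (by omega) (by omega) h2)
      have c2 := h.R' b a a 0 q (n - 1) (by omega) (by omega) (by omega) (by omega) (by omega)
        (by omega) (by omega) (m1 q a b (by omega) (by omega) h1)
        (m2 q a b (by omega) (by omega) h1)
      linarith
  -- column-major
  have hcol := g.major hm
  simp only [tr_apply] at hcol
  -- all levels are close to one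
  obtain ⟨K, L, hKL⟩ : ∃ K L, ∀ a q, 3 ≤ a → a + 3 < m → 3 ≤ q → q + 3 < n →
      P' a q - P a q ≤ P' K L - P K L + 4 * τ ∧ P' K L - P K L ≤ P' a q - P a q + 4 * τ := by
    rcases hrow with hr | hr
    · rcases hcol with hc | hc
      · refine ⟨m - 2, 1, fun a q h1 h2 h3 h4 => ⟨?_, ?_⟩⟩
        · exact hr a (a + 1) (m - 2) q 1 (by omega) (by omega) (by omega) (by omega) (by omega)
            (by omega) (by omega)
        · exact hc 1 2 q (m - 2) a (by omega) (by omega) (by omega) (by omega) (by omega)
            (by omega) (by omega)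
      · refine ⟨m - 2, n - 2, fun a q h1 h2 h3 h4 => ⟨?_, ?_⟩⟩
        · exact hr a (a + 1) (m - 2) q (n - 2) (by omega) (by omega) (by omega) (by omega)
            (by omega) (by omega) (by omega)
        · exact hc q (q + 1) (n - 2) a (m - 2) (by omega) (by omega) (by omega) (by omega)
            (by omega) (by omega) (by omega)
    · rcases hcol with hc | hc
      · refine ⟨1, 1, fun a q h1 h2 h3 h4 => ⟨?_, ?_⟩⟩
        · exact hr 1 2 a 1 q (by omega) (by omega) (by omega) (by omega) (by omega)
            (by omega) (by omega)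
        · exact hc 1 2 q 1 a (by omega) (by omega) (by omega) (by omega) (by omega)
            (by omega) (by omega)
      · refine ⟨1, n - 2, fun a q h1 h2 h3 h4 => ⟨?_, ?_⟩⟩
        · exact hr 1 2 a (n - 2) q (by omega) (by omega) (by omega) (by omega) (by omega)
            (by omega) (by omega)
        · exact hc q (q + 1) (n - 2) a 1 (by omega) (by omega) (by omega) (by omega)
            (by omega) (by omega) (by omega)
  have hclose : ∀ a q a' q', 3 ≤ a → a + 3 < m → 3 ≤ q → q + 3 < n → 3 ≤ a' → a' + 3 < m →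
      3 ≤ q' → q' + 3 < n → P' a q - P a q ≤ P' a' q' - P a' q' + 8 * τ := by
    intro a q a' q' h1 h2 h3 h4 h5 h6 h7 h8
    have c1 := (hKL a q h1 h2 h3 h4).1
    have c2 := (hKL a' q' h5 h6 h7 h8).2
    linarith
  constructor
  · -- rows
    intro k j j' h1 h2 h3 h4 h5
    have e1 := hH k j (by omega) (by omega)
    have e2 := hH k j' (by omega) (by omega)
    have e0 := hH k 0 (by omega) (by omega)
    have c1 := hclose k j k j' (by omega) (by omega) (by omega) (by omega) (by omega) (by omega)
      (by omega) (by omega)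
    have c2 := hclose k j' k j (by omega) (by omega) (by omega) (by omega) (by omega) (by omega)
      (by omega) (by omega)
    have c3 := hclose (k - 1) j k j (by omega) (by omega) (by omega) (by omega) (by omega)
      (by omega) (by omega) (by omega)
    have c4 := hclose (k - 1) j' k j' (by omega) (by omega) (by omega) (by omega) (by omega)
      (by omega) (by omega) (by omega)
    have c5 := hclose (k + 1) j k j (by omega) (by omega) (by omega) (by omega) (by omega)
      (by omega) (by omega) (by omega)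
    have c6 := hclose (k + 1) j' k j' (by omega) (by omega) (by omega) (by omega) (by omega)
      (by omega) (by omega) (by omega)
    have d3 := hclose k j (k - 1) j (by omega) (by omega) (by omega) (by omega) (by omega)
      (by omega) (by omega) (by omega)
    have d4 := hclose k j' (k - 1) j' (by omega) (by omega) (by omega) (by omega) (by omega)
      (by omega) (by omega) (by omega)
    have d5 := hclose k j (k + 1) j (by omega) (by omega) (by omega) (by omega) (by omega)
      (by omega) (by omega) (by omega)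
    have d6 := hclose k j' (k + 1) j' (by omega) (by omega) (by omega) (by omega) (by omega)
      (by omega) (by omega) (by omega)
    rcases h.mY with y1 | y1
    · rcases h.mY' with y2 | y2
      · -- above
        have f1 := y1 k j j' (by omega) (by omega) h4
        have f2 := y2 k j j' (by omega) (by omega) h4
        have f3 := y2 k j' (n - 1) (by omega) (by omega) (by omega)
        have f4 := y1 k 0 j (by omega) (by omega) (by omega)
        rcases hm with ⟨m1, m2⟩ | ⟨m1, m2⟩
        · have r1 := h.R k (k - 1) (k - 1) j j' (n - 1) (by omega) (by omega) (by omega)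
            (by omega) (by omega) (by omega) (by omega)
            (m1 j' (k - 1) k (by omega) (by omega) (by omega))
            (m2 j' (k - 1) k (by omega) (by omega) (by omega))
          have r2 := h.R k (k - 1) (k - 1) 0 j j' (by omega) (by omega) (by omega)
            (by omega) (by omega) (by omega) (by omega)
            (m1 j (k - 1) k (by omega) (by omega) (by omega))
            (m2 j (k - 1) k (by omega) (by omega) (by omega))
          constructor <;> rw [abs_le] <;> constructor <;> linarith
        · have r1 := h.R k (k + 1) (k + 1) j j' (n - 1) (by omega) (by omega) (by omega)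
            (by omega) (by omega) (by omega) (by omega)
            (m1 j' k (k + 1) (by omega) (by omega) (by omega))
            (m2 j' k (k + 1) (by omega) (by omega) (by omega))
          have r2 := h.R k (k + 1) (k + 1) 0 j j' (by omega) (by omega) (by omega)
            (by omega) (by omega) (by omega) (by omega)
            (m1 j k (k + 1) (by omega) (by omega) (by omega))
            (m2 j k (k + 1) (by omega) (by omega) (by omega))
          constructor <;> rw [abs_le] <;> constructor <;> linarith
      · have f1 := y1 k j j' (by omega) (by omega) h4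
        have f2 := y2 k j j' (by omega) (by omega) h4
        constructor <;> rw [abs_le] <;> constructor <;> linarith
    · rcases h.mY' with y2 | y2
      · have f1 := y1 k j j' (by omega) (by omega) h4
        have f2 := y2 k j j' (by omega) (by omega) h4
        constructor <;> rw [abs_le] <;> constructor <;> linarith
      · -- below
        have f1 := y1 k j j' (by omega) (by omega) h4
        have f2 := y2 k j j' (by omega) (by omega) h4
        have f3 := y2 k j' (n - 1) (by omega) (by omega) (by omega)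
        have f4 := y1 k 0 j (by omega) (by omega) (by omega)
        rcases hm with ⟨m1, m2⟩ | ⟨m1, m2⟩
        · have r1 := h.R' k (k + 1) (k + 1) j j' (n - 1) (by omega) (by omega) (by omega)
            (by omega) (by omega) (by omega) (by omega)
            (m1 j' k (k + 1) (by omega) (by omega) (by omega))
            (m2 j' k (k + 1) (by omega) (by omega) (by omega))
          have r2 := h.R' k (k + 1) (k + 1) 0 j j' (by omega) (by omega) (by omega)
            (by omega) (by omega) (by omega) (by omega)
            (m1 j k (k + 1) (by omega) (by omega) (by omega))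
            (m2 j k (k + 1) (by omega) (by omega) (by omega))
          constructor <;> rw [abs_le] <;> constructor <;> linarith
        · have r1 := h.R' k (k - 1) (k - 1) j j' (n - 1) (by omega) (by omega) (by omega)
            (by omega) (by omega) (by omega) (by omega)
            (m1 j' (k - 1) k (by omega) (by omega) (by omega))
            (m2 j' (k - 1) k (by omega) (by omega) (by omega))
          have r2 := h.R' k (k - 1) (k - 1) 0 j j' (by omega) (by omega) (by omega)
            (by omega) (by omega) (by omega) (by omega)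
            (m1 j (k - 1) k (by omega) (by omega) (by omega))
            (m2 j (k - 1) k (by omega) (by omega) (by omega))
          constructor <;> rw [abs_le] <;> constructor <;> linarith
  · -- columns
    intro k j j' h1 h2 h3 h4 h5
    have c1 := hclose j k j' k (by omega) (by omega) (by omega) (by omega) (by omega) (by omega)
      (by omega) (by omega)
    have c2 := hclose j' k j k (by omega) (by omega) (by omega) (by omega) (by omega) (by omega)
      (by omega) (by omega)
    rcases hm with ⟨m1, m2⟩ | ⟨m1, m2⟩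
    · have f1 := m1 k j j' (by omega) (by omega) h4
      have f2 := m2 k j j' (by omega) (by omega) h4
      simp only [tr_apply] at f1 f2 ⊢
      constructor <;> rw [abs_le] <;> constructor <;> linarith
    · have f1 := m1 k j j' (by omega) (by omega) h4
      have f2 := m2 k j j' (by omega) (by omega) h4
      simp only [tr_apply] at f1 f2 ⊢
      constructor <;> rw [abs_le] <;> constructor <;> linarith

/-- Rows and columns both increasing: rows. -/
theorem rowsInc (h : Half m n τ P P' Y Y')
    (g : Half n m τ (tr Y) (tr Y') (tr P) (tr P')) (hτ : 0 ≤ τ)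
    (y1 : ∀ k p s, k < m → s < n → p < s → Y k p ≤ Y k s)
    (y2 : ∀ k p s, k < m → s < n → p < s → Y' k p ≤ Y' k s)
    (m1 : ∀ k p s, k < n → s < m → p < s → tr P k p ≤ tr P k s)
    (m2 : ∀ k p s, k < n → s < m → p < s → tr P' k p ≤ tr P' k s) :
    Small m n (12 * τ) Y Y' := by
  intro k j j' h1 h2 h3 h4 h5
  have f1 := y1 k j j' (by omega) (by omega) h4
  have f2 := y2 k j j' (by omega) (by omega) h4
  have a1 := h.R k (k - 1) (k + 1) j (n - 2) (n - 1) (by omega) (by omega) (by omega) (by omega)
    (by omega) (by omega) (by omega)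
    (m1 (n - 2) (k - 1) k (by omega) (by omega) (by omega))
    (m2 (n - 2) k (k + 1) (by omega) (by omega) (by omega))
  have a2 := g.R (n - 2) j' (n - 1) (k - 1) k (k + 1) (by omega) (by omega) (by omega) (by omega)
    (by omega) (by omega) (by omega)
    (y1 k j' (n - 2) (by omega) (by omega) (by omega))
    (y2 k (n - 2) (n - 1) (by omega) (by omega) (by omega))
  have a3 := h.R k (k - 1) (k + 1) 0 1 j' (by omega) (by omega) (by omega) (by omega)
    (by omega) (by omega) (by omega)
    (m1 1 (k - 1) k (by omega) (by omega) (by omega))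
    (m2 1 k (k + 1) (by omega) (by omega) (by omega))
  have a4 := g.R 1 0 j (k - 1) k (k + 1) (by omega) (by omega) (by omega) (by omega)
    (by omega) (by omega) (by omega)
    (y1 k 0 1 (by omega) (by omega) (by omega))
    (y2 k 1 j (by omega) (by omega) (by omega))
  simp only [tr_apply] at a2 a4
  constructor <;> rw [abs_le] <;> constructor <;> linarith

/-- Rows and columns both decreasing: rows. -/
theorem rowsDec (h : Half m n τ P P' Y Y')
    (g : Half n m τ (tr Y) (tr Y') (tr P) (tr P')) (hτ : 0 ≤ τ)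
    (y1 : ∀ k p s, k < m → s < n → p < s → Y k s ≤ Y k p)
    (y2 : ∀ k p s, k < m → s < n → p < s → Y' k s ≤ Y' k p)
    (m1 : ∀ k p s, k < n → s < m → p < s → tr P k s ≤ tr P k p)
    (m2 : ∀ k p s, k < n → s < m → p < s → tr P' k s ≤ tr P' k p) :
    Small m n (12 * τ) Y Y' := by
  intro k j j' h1 h2 h3 h4 h5
  have f1 := y1 k j j' (by omega) (by omega) h4
  have f2 := y2 k j j' (by omega) (by omega) h4
  have a1 := h.R' k (k - 1) (k + 1) j (n - 2) (n - 1) (by omega) (by omega) (by omega) (by omega)
    (by omega) (by omega) (by omega)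
    (m1 (n - 2) (k - 1) k (by omega) (by omega) (by omega))
    (m2 (n - 2) k (k + 1) (by omega) (by omega) (by omega))
  have a2 := g.R' (n - 2) j' (n - 1) (k - 1) k (k + 1) (by omega) (by omega) (by omega)
    (by omega) (by omega) (by omega) (by omega)
    (y1 k j' (n - 2) (by omega) (by omega) (by omega))
    (y2 k (n - 2) (n - 1) (by omega) (by omega) (by omega))
  have a3 := h.R' k (k - 1) (k + 1) 0 1 j' (by omega) (by omega) (by omega) (by omega)
    (by omega) (by omega) (by omega)
    (m1 1 (k - 1) k (by omega) (by omega) (by omega))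
    (m2 1 k (k + 1) (by omega) (by omega) (by omega))
  have a4 := g.R' 1 0 j (k - 1) k (k + 1) (by omega) (by omega) (by omega) (by omega)
    (by omega) (by omega) (by omega)
    (y1 k 0 1 (by omega) (by omega) (by omega))
    (y2 k 1 j (by omega) (by omega) (by omega))
  simp only [tr_apply] at a2 a4
  constructor <;> rw [abs_le] <;> constructor <;> linarith

/-- Rows increasing, columns decreasing (saddle): the basic inequality. -/
theorem star (h : Half m n τ P P' Y Y')
    (g : Half n m τ (tr Y) (tr Y') (tr P) (tr P'))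
    (y1 : ∀ k p s, k < m → s < n → p < s → Y k p ≤ Y k s)
    (y2 : ∀ k p s, k < m → s < n → p < s → Y' k p ≤ Y' k s)
    (m1 : ∀ k p s, k < n → s < m → p < s → tr P k s ≤ tr P k p)
    (m2 : ∀ k p s, k < n → s < m → p < s → tr P' k s ≤ tr P' k p)
    (a b c d d1 p p1 q r s : ℕ) (h1 : a < c) (h2 : c < d1) (h3 : b < c) (h4 : c < d)
    (h5 : p < q) (h6 : q < s) (h7 : p1 < q) (h8 : q < r) (hd : d < m) (hd1 : d1 < m)
    (hs : s < n) (hr : r < n) :
    (Y' c s - Y c p) + (Y' c p1 - Y c r) - ((P' b q - P d q) + (P' d1 q - P a q)) ≤ 4 * τ := by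
  have a1 := h.R c d b p q s (by omega) (by omega) (by omega) (by omega) (by omega)
    h5 h6 (m1 q c d (by omega) (by omega) h4) (m2 q b c (by omega) (by omega) h3)
  have a2 := g.R' q r p1 a c d1 (by omega) (by omega) (by omega) (by omega) (by omega)
    h1 h2 (y1 c q r (by omega) (by omega) h8) (y2 c p1 q (by omega) (by omega) h7)
  simp only [tr_apply] at a2
  linarith

/-- Saddle. -/
theorem saddle (hτ : 0 ≤ τ) (h : Half m n τ P P' Y Y')
    (g : Half n m τ (tr Y) (tr Y') (tr P) (tr P'))
    (hH : ∀ i j, i < m → j < n → P' i j - P i j = Y' i j - Y i j)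
    (y1 : ∀ k p s, k < m → s < n → p < s → Y k p ≤ Y k s)
    (y2 : ∀ k p s, k < m → s < n → p < s → Y' k p ≤ Y' k s)
    (m1 : ∀ k p s, k < n → s < m → p < s → tr P k s ≤ tr P k p)
    (m2 : ∀ k p s, k < n → s < m → p < s → tr P' k s ≤ tr P' k p) :
    Small m n (12 * τ) Y Y' ∧ Small n m (12 * τ) (tr P) (tr P') := by
  have st := star h g y1 y2 m1 m2
  have n1 : ∀ l a k, l < n → k < m → a < k → P k l ≤ P a l := fun l a k x y z => m1 l a k x y z
  have n2 : ∀ l a k, l < n → k < m → a < k → P' k l ≤ P' a l :=
    fun l a k x y z => m2 l a k x y z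
  have hg := g.mu_ord
  simp only [tr_apply] at hg
  rcases h.mu_ord with hr | hr
  · -- rows up: R2
    rcases hg with hc | hc
    · -- columns up: L2
      have core : ∀ b c d d1 p p1 q s, b < c → c < d → d < d1 → d1 < m → p < p1 → p1 < q →
          q < s → s < n →
          (Y b q - Y b p) + (Y' b s - Y' b q) + (P b s - P c s) + (P' c s - P' d1 s) ≤
            12 * τ := by
        intro b c d d1 p p1 q s h1 h2 h3 h4 h5 h6 h7 h8
        have s1 := st b b c d d1 p p1 q s s h1 (by omega) h1 h2 (by omega) h7 h6 h7 (by omega) h4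
          h8 h8
        have s2 := hr b c p s p p1 h1 (by omega) h8 (by omega) (by omega) h5 h5 (by omega)
        have s3 := hc q s d d1 b d1 h7 h8 h4 h4 h3 (by omega) (by omega) (by omega)
        have s4 := hH b q (by omega) (by omega)
        have s5 := hH c s (by omega) h8
        linarith
      constructor
      · intro k j j' h1 h2 h3 h4 h5
        have e1 := core k (k + 1) (k + 2) (k + 3) (j - 1) j j' (n - 1) (by omega) (by omega)
          (by omega) (by omega) (by omega) (by omega) (by omega) (by omega)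
        have e2 := core k (k + 1) (k + 2) (k + 3) 0 1 j j' (by omega) (by omega)
          (by omega) (by omega) (by omega) (by omega) (by omega) (by omega)
        have f1 := y1 k j j' (by omega) (by omega) h4
        have f2 := y2 k j j' (by omega) (by omega) h4
        have f3 := y1 k (j - 1) j (by omega) (by omega) (by omega)
        have f4 := y2 k j' (n - 1) (by omega) (by omega) (by omega)
        have f5 := y1 k 0 j (by omega) (by omega) (by omega)
        have f6 := n1 (n - 1) k (k + 1) (by omega) (by omega) (by omega)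
        have f7 := n2 (n - 1) (k + 1) (k + 3) (by omega) (by omega) (by omega)
        have f8 := n1 j' k (k + 1) (by omega) (by omega) (by omega)
        have f9 := n2 j' (k + 1) (k + 3) (by omega) (by omega) (by omega)
        constructor <;> rw [abs_le] <;> constructor <;> linarith
      · intro k j j' h1 h2 h3 h4 h5
        simp only [tr_apply]
        have e1 := core j j' (m - 2) (m - 1) 0 1 2 k (by omega) (by omega)
          (by omega) (by omega) (by omega) (by omega) (by omega) (by omega)
        have e2 := core 0 j j' (j' + 1) 0 1 2 k (by omega) (by omega)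
          (by omega) (by omega) (by omega) (by omega) (by omega) (by omega)
        have f1 := n1 k j j' (by omega) (by omega) h4
        have f2 := n2 k j j' (by omega) (by omega) h4
        have f3 := n2 k j' (m - 1) (by omega) (by omega) (by omega)
        have f4 := n2 k j' (j' + 1) (by omega) (by omega) (by omega)
        have f5 := n1 k 0 j (by omega) (by omega) (by omega)
        have f6 := y1 j 0 2 (by omega) (by omega) (by omega)
        have f7 := y2 j 2 k (by omega) (by omega) (by omega)
        have f8 := y1 0 0 2 (by omega) (by omega) (by omega)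
        have f9 := y2 0 2 k (by omega) (by omega) (by omega)
        constructor <;> rw [abs_le] <;> constructor <;> linarith
    · -- columns down: L1
      have core : ∀ b c d d1 p q r s, b < c → c < d → d < d1 → d1 < m → p < q → q < r →
          r < s → s < n →
          (Y b q - Y b p) + (Y' b s - Y' b q) + (P b p - P c p) + (P' c p - P' d1 p) ≤
            12 * τ := by
        intro b c d d1 p q r s h1 h2 h3 h4 h5 h6 h7 h8
        have s1 := st b b c d d1 p p q r s h1 (by omega) h1 h2 h5 (by omega) h5 h6 (by omega) h4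
          h8 (by omega)
        have s2 := hr b c p s r s h1 (by omega) h8 h8 (by omega) h7 (by omega) (by omega)
        have s3 := hc p q b d1 d d1 h5 (by omega) h4 h4 (by omega) h3 (by omega) (by omega)
        have s4 := hH b q (by omega) (by omega)
        have s5 := hH c p (by omega) (by omega)
        linarith
      constructor
      · intro k j j' h1 h2 h3 h4 h5
        have e1 := core k (k + 1) (k + 2) (k + 3) j j' (n - 2) (n - 1) (by omega) (by omega)
          (by omega) (by omega) (by omega) (by omega) (by omega) (by omega)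
        have e2 := core k (k + 1) (k + 2) (k + 3) 0 j j' (j' + 1) (by omega) (by omega)
          (by omega) (by omega) (by omega) (by omega) (by omega) (by omega)
        have f1 := y1 k j j' (by omega) (by omega) h4
        have f2 := y2 k j j' (by omega) (by omega) h4
        have f3 := y2 k j' (j' + 1) (by omega) (by omega) (by omega)
        have f4 := y2 k j' (n - 1) (by omega) (by omega) (by omega)
        have f5 := y1 k 0 j (by omega) (by omega) (by omega)
        have f6 := n1 j k (k + 1) (by omega) (by omega) (by omega)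
        have f7 := n2 j (k + 1) (k + 3) (by omega) (by omega) (by omega)
        have f8 := n1 0 k (k + 1) (by omega) (by omega) (by omega)
        have f9 := n2 0 (k + 1) (k + 3) (by omega) (by omega) (by omega)
        constructor <;> rw [abs_le] <;> constructor <;> linarith
      · intro k j j' h1 h2 h3 h4 h5
        simp only [tr_apply]
        have e1 := core j j' (m - 2) (m - 1) k (k + 1) (k + 2) (k + 3) (by omega) (by omega)
          (by omega) (by omega) (by omega) (by omega) (by omega) (by omega)
        have e2 := core 0 j j' (j' + 1) k (k + 1) (k + 2) (k + 3) (by omega) (by omega)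
          (by omega) (by omega) (by omega) (by omega) (by omega) (by omega)
        have f1 := n1 k j j' (by omega) (by omega) h4
        have f2 := n2 k j j' (by omega) (by omega) h4
        have f3 := n2 k j' (m - 1) (by omega) (by omega) (by omega)
        have f4 := n2 k j' (j' + 1) (by omega) (by omega) (by omega)
        have f5 := n1 k 0 j (by omega) (by omega) (by omega)
        have f6 := y1 j k (k + 1) (by omega) (by omega) (by omega)
        have f7 := y2 j (k + 1) (k + 3) (by omega) (by omega) (by omega)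
        have f8 := y1 0 k (k + 1) (by omega) (by omega) (by omega)
        have f9 := y2 0 (k + 1) (k + 3) (by omega) (by omega) (by omega)
        constructor <;> rw [abs_le] <;> constructor <;> linarith
  · -- rows down: R1
    rcases hg with hc | hc
    · -- columns up: L2
      have core : ∀ a b c d p p1 q s, a < b → b < c → c < d → d < m → p < p1 → p1 < q →
          q < s → s < n →
          (Y d q - Y d p) + (Y' d s - Y' d q) + (P a s - P c s) + (P' c s - P' d s) ≤
            12 * τ := by
        intro a b c d p p1 q s h1 h2 h3 h4 h5 h6 h7 h8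
        have s1 := st a b c d d p p1 q s s (by omega) h3 h2 h3 (by omega) h7 h6 h7 h4 h4
          h8 h8
        have s2 := hr c d p p1 p s h3 h4 (by omega) h8 h5 (by omega) (by omega) h5
        have s3 := hc q s a b a d h7 h8 (by omega) h4 h1 (by omega) (by omega) h1
        have s4 := hH d q (by omega) (by omega)
        have s5 := hH c s (by omega) h8
        linarith
      constructor
      · intro k j j' h1 h2 h3 h4 h5
        have e1 := core 0 1 2 k (j - 1) j j' (n - 1) (by omega) (by omega)
          (by omega) (by omega) (by omega) (by omega) (by omega) (by omega)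
        have e2 := core 0 1 2 k 0 1 j j' (by omega) (by omega)
          (by omega) (by omega) (by omega) (by omega) (by omega) (by omega)
        have f1 := y1 k j j' (by omega) (by omega) h4
        have f2 := y2 k j j' (by omega) (by omega) h4
        have f3 := y1 k (j - 1) j (by omega) (by omega) (by omega)
        have f4 := y2 k j' (n - 1) (by omega) (by omega) (by omega)
        have f5 := y1 k 0 j (by omega) (by omega) (by omega)
        have f6 := n1 (n - 1) 0 2 (by omega) (by omega) (by omega)
        have f7 := n2 (n - 1) 2 k (by omega) (by omega) (by omega)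
        have f8 := n1 j' 0 2 (by omega) (by omega) (by omega)
        have f9 := n2 j' 2 k (by omega) (by omega) (by omega)
        constructor <;> rw [abs_le] <;> constructor <;> linarith
      · intro k j j' h1 h2 h3 h4 h5
        simp only [tr_apply]
        have e1 := core (j - 1) j j' (m - 1) 0 1 2 k (by omega) (by omega)
          (by omega) (by omega) (by omega) (by omega) (by omega) (by omega)
        have e2 := core 0 1 j j' 0 1 2 k (by omega) (by omega)
          (by omega) (by omega) (by omega) (by omega) (by omega) (by omega)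
        have f1 := n1 k j j' (by omega) (by omega) h4
        have f2 := n2 k j j' (by omega) (by omega) h4
        have f3 := n2 k j' (m - 1) (by omega) (by omega) (by omega)
        have f4 := n1 k (j - 1) j (by omega) (by omega) (by omega)
        have f5 := n1 k 0 j (by omega) (by omega) (by omega)
        have f6 := y1 (m - 1) 0 2 (by omega) (by omega) (by omega)
        have f7 := y2 (m - 1) 2 k (by omega) (by omega) (by omega)
        have f8 := y1 j' 0 2 (by omega) (by omega) (by omega)
        have f9 := y2 j' 2 k (by omega) (by omega) (by omega)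
        constructor <;> rw [abs_le] <;> constructor <;> linarith
    · -- columns down: L1
      have core : ∀ a b c d p q r s, a < b → b < c → c < d → d < m → p < q → q < r →
          r < s → s < n →
          (Y d q - Y d p) + (Y' d s - Y' d q) + (P a p - P c p) + (P' c p - P' d p) ≤
            12 * τ := by
        intro a b c d p q r s h1 h2 h3 h4 h5 h6 h7 h8
        have s1 := st a b c d d p p q r s (by omega) h3 h2 h3 h5 (by omega) h5 h6 h4 h4
          h8 (by omega)
        have s2 := hr c d r s p s h3 h4 h8 h8 h7 (by omega) h7 (by omega)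
        have s3 := hc p q a d a b h5 (by omega) h4 (by omega) (by omega) h1 h1 (by omega)
        have s4 := hH d q (by omega) (by omega)
        have s5 := hH c p (by omega) (by omega)
        linarith
      constructor
      · intro k j j' h1 h2 h3 h4 h5
        have e1 := core 0 1 2 k j j' (n - 2) (n - 1) (by omega) (by omega)
          (by omega) (by omega) (by omega) (by omega) (by omega) (by omega)
        have e2 := core 0 1 2 k 0 j j' (j' + 1) (by omega) (by omega)
          (by omega) (by omega) (by omega) (by omega) (by omega) (by omega)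
        have f1 := y1 k j j' (by omega) (by omega) h4
        have f2 := y2 k j j' (by omega) (by omega) h4
        have f3 := y2 k j' (j' + 1) (by omega) (by omega) (by omega)
        have f4 := y2 k j' (n - 1) (by omega) (by omega) (by omega)
        have f5 := y1 k 0 j (by omega) (by omega) (by omega)
        have f6 := n1 j 0 2 (by omega) (by omega) (by omega)
        have f7 := n2 j 2 k (by omega) (by omega) (by omega)
        have f8 := n1 0 0 2 (by omega) (by omega) (by omega)
        have f9 := n2 0 2 k (by omega) (by omega) (by omega)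
        constructor <;> rw [abs_le] <;> constructor <;> linarith
      · intro k j j' h1 h2 h3 h4 h5
        simp only [tr_apply]
        have e1 := core (j - 1) j j' (m - 1) k (k + 1) (k + 2) (k + 3) (by omega) (by omega)
          (by omega) (by omega) (by omega) (by omega) (by omega) (by omega)
        have e2 := core 0 1 j j' k (k + 1) (k + 2) (k + 3) (by omega) (by omega)
          (by omega) (by omega) (by omega) (by omega) (by omega) (by omega)
        have f1 := n1 k j j' (by omega) (by omega) h4
        have f2 := n2 k j j' (by omega) (by omega) h4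
        have f3 := n2 k j' (m - 1) (by omega) (by omega) (by omega)
        have f4 := n1 k (j - 1) j (by omega) (by omega) (by omega)
        have f5 := n1 k 0 j (by omega) (by omega) (by omega)
        have f6 := y1 (m - 1) k (k + 1) (by omega) (by omega) (by omega)
        have f7 := y2 (m - 1) (k + 1) (k + 3) (by omega) (by omega) (by omega)
        have f8 := y1 j' k (k + 1) (by omega) (by omega) (by omega)
        have f9 := y2 j' (k + 1) (k + 3) (by omega) (by omega) (by omega)
        constructor <;> rw [abs_le] <;> constructor <;> linarith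

/-- **Large oscillations are impossible** (linear part): all oscillations are at most `12 τ`. -/
theorem small (hτ : 0 ≤ τ) (h : Half m n τ P P' Y Y')
    (g : Half n m τ (tr Y) (tr Y') (tr P) (tr P'))
    (hH : ∀ i j, i < m → j < n → P' i j - P i j = Y' i j - Y i j) :
    Small m n (12 * τ) Y Y' ∧ Small n m (12 * τ) (tr P) (tr P') := by
  have h' : Half m n τ (tr (tr P)) (tr (tr P')) (tr (tr Y)) (tr (tr Y')) := h
  have hH' : ∀ i j, i < n → j < m → tr Y' i j - tr Y i j = tr P' i j - tr P i j := by
    intro i j hi hj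
    simp only [tr_apply]
    exact (hH j i hj hi).symm
  rcases h.mY with y1 | y1 <;> rcases h.mY' with y2 | y2 <;> rcases g.mY with m1 | m1 <;>
    rcases g.mY' with m2 | m2
  · exact ⟨rowsInc h g hτ y1 y2 m1 m2, rowsInc g h' hτ m1 m2 y1 y2⟩
  · exact colMixed hτ h g hH (Or.inl ⟨m1, m2⟩)
  · exact colMixed hτ h g hH (Or.inr ⟨m1, m2⟩)
  · exact saddle hτ h g hH y1 y2 m1 m2
  · exact (colMixed hτ g h' hH' (Or.inl ⟨y1, y2⟩)).symm
  · exact (colMixed hτ g h' hH' (Or.inl ⟨y1, y2⟩)).symm
  · exact (colMixed hτ g h' hH' (Or.inl ⟨y1, y2⟩)).symm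
  · exact (colMixed hτ g h' hH' (Or.inl ⟨y1, y2⟩)).symm
  · exact (colMixed hτ g h' hH' (Or.inr ⟨y1, y2⟩)).symm
  · exact (colMixed hτ g h' hH' (Or.inr ⟨y1, y2⟩)).symm
  · exact (colMixed hτ g h' hH' (Or.inr ⟨y1, y2⟩)).symm
  · exact (colMixed hτ g h' hH' (Or.inr ⟨y1, y2⟩)).symm
  · exact (saddle hτ g h' hH' m1 m2 y1 y2).symm
  · exact colMixed hτ h g hH (Or.inl ⟨m1, m2⟩)
  · exact colMixed hτ h g hH (Or.inr ⟨m1, m2⟩)
  · exact ⟨rowsDec h g hτ y1 y2 m1 m2, rowsDec g h' hτ m1 m2 y1 y2⟩

/-- extension of a finite array to all indices -/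
noncomputable def ext {m n : ℕ} (A : Fin m → Fin n → ℝ) : ℕ → ℕ → ℝ :=
  fun i j => if h : i < m ∧ j < n then A ⟨i, h.1⟩ ⟨j, h.2⟩ else 0

theorem ext_apply {m n : ℕ} (A : Fin m → Fin n → ℝ) {i j : ℕ} (hi : i < m) (hj : j < n) :
    ext A i j = A ⟨i, hi⟩ ⟨j, hj⟩ := dif_pos ⟨hi, hj⟩

theorem ext_tr {m n : ℕ} (A : Fin m → Fin n → ℝ) : ext (fun j i => A i j) = tr (ext A) := by
  funext i j
  by_cases h : i < n ∧ j < m
  · rw [tr_apply, ext_apply _ h.1 h.2, ext_apply A h.2 h.1]
  · rw [tr_apply, ext, ext, dif_neg h, dif_neg (by tauto)]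

theorem half_of {m n : ℕ} {τ : ℝ} {P Q Y W : Fin m → Fin n → ℝ} (h : JHalf τ P Q Y W)
    (hY : (∀ i j j', j < j' → Y i j ≤ Y i j') ∨ (∀ i j j', j < j' → Y i j' ≤ Y i j))
    (hW : (∀ i j j', j < j' → W i j ≤ W i j') ∨ (∀ i j j', j < j' → W i j' ≤ W i j)) :
    Half m n τ (ext P) (ext Q) (ext Y) (ext W) := by
  refine ⟨?_, ?_, ?_, ?_, ?_⟩
  · intro b i i' p q s hb hi hi' hs ht hpq hqs
    rw [ext_apply P hi (hqs.trans hs), ext_apply P hb (hqs.trans hs),
      ext_apply Q hb (hqs.trans hs), ext_apply Q hi' (hqs.trans hs), ext_apply W hb hs,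
      ext_apply Y hb (hpq.trans (hqs.trans hs))]
    refine h.R ⟨b, hb⟩ ⟨i, hi⟩ ⟨i', hi'⟩ ⟨p, _⟩ ⟨q, _⟩ ⟨s, hs⟩ ?_ hpq hqs
    rcases ht with ht | ht | ht
    · exact Or.inl ht
    · exact Or.inr (Or.inl ht)
    · exact Or.inr (Or.inr ⟨Fin.ext ht.1, fun e => ht.2 (congrArg Fin.val e)⟩)
  · intro b i i' p q s hb hi hi' hs ht hpq hqs
    rw [ext_apply P hi (hqs.trans hs), ext_apply P hb (hqs.trans hs),
      ext_apply Q hb (hqs.trans hs), ext_apply Q hi' (hqs.trans hs), ext_apply W hb hs,
      ext_apply Y hb (hpq.trans (hqs.trans hs))]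
    refine h.Rm ⟨b, hb⟩ ⟨i, hi⟩ ⟨i', hi'⟩ ⟨p, _⟩ ⟨q, _⟩ ⟨s, hs⟩ ?_ hpq hqs
    rcases ht with ht | ht | ht
    · exact Or.inl ht
    · exact Or.inr (Or.inl ht)
    · exact Or.inr (Or.inr ⟨Fin.ext ht.1, fun e => ht.2 (congrArg Fin.val e)⟩)
  · rcases h.F with hF | hF
    · left
      intro k k' a1 a2 b1 b2 h1 h2 h3 h4 h5 h6 h7 h8
      rw [ext_apply Y (h1.trans h2) (h5.trans h3), ext_apply Y (h1.trans h2) h3,
        ext_apply W (h1.trans h2) (h5.trans h3), ext_apply W (h1.trans h2) h3,
        ext_apply Y h2 (h6.trans h4), ext_apply Y h2 h4, ext_apply W h2 (h6.trans h4),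
        ext_apply W h2 h4]
      exact hF ⟨k, _⟩ ⟨k', h2⟩ ⟨a1, _⟩ ⟨a2, h3⟩ ⟨b1, _⟩ ⟨b2, h4⟩ h1 h5 h6 h7 h8
    · right
      intro k k' a1 a2 b1 b2 h1 h2 h3 h4 h5 h6 h7 h8
      rw [ext_apply Y (h1.trans h2) (h5.trans h3), ext_apply Y (h1.trans h2) h3,
        ext_apply W (h1.trans h2) (h5.trans h3), ext_apply W (h1.trans h2) h3,
        ext_apply Y h2 (h6.trans h4), ext_apply Y h2 h4, ext_apply W h2 (h6.trans h4),
        ext_apply W h2 h4]
      exact hF ⟨k, _⟩ ⟨k', h2⟩ ⟨a1, _⟩ ⟨a2, h3⟩ ⟨b1, _⟩ ⟨b2, h4⟩ h1 h5 h6 h7 h8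
  · rcases hY with hY | hY
    · left
      intro k p s hk hs hps
      rw [ext_apply Y hk hs, ext_apply Y hk (hps.trans hs)]
      exact hY ⟨k, hk⟩ ⟨p, _⟩ ⟨s, hs⟩ hps
    · right
      intro k p s hk hs hps
      rw [ext_apply Y hk hs, ext_apply Y hk (hps.trans hs)]
      exact hY ⟨k, hk⟩ ⟨p, _⟩ ⟨s, hs⟩ hps
  · rcases hW with hY | hY
    · left
      intro k p s hk hs hps
      rw [ext_apply W hk hs, ext_apply W hk (hps.trans hs)]
      exact hY ⟨k, hk⟩ ⟨p, _⟩ ⟨s, hs⟩ hps
    · right
      intro k p s hk hs hps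
      rw [ext_apply W hk hs, ext_apply W hk (hps.trans hs)]
      exact hY ⟨k, hk⟩ ⟨p, _⟩ ⟨s, hs⟩ hps

theorem small_fin {m n : ℕ} {τ : ℝ} (hτ : 0 ≤ τ) {Y W : Fin m → Fin n → ℝ}
    (h : Small m n (12 * τ) (ext Y) (ext W)) (i : Fin m) (j j' : Fin n) (hi : Inn i)
    (hj : Inn j) (hj' : Inn j') : |Y i j - Y i j'| ≤ 18 * τ ∧ |W i j - W i j'| ≤ 18 * τ := by
  obtain ⟨i, hi0⟩ := i
  obtain ⟨j, hj0⟩ := j
  obtain ⟨j', hj0'⟩ := j'
  simp only [Inn] at hi hj hj'
  rcases lt_trichotomy j j' with hl | hl | hl
  · have := h i j j' (by omega) (by omega) (by omega) hl (by omega)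
    rw [ext_apply Y hi0 hj0, ext_apply Y hi0 hj0', ext_apply W hi0 hj0, ext_apply W hi0 hj0']
      at this
    exact ⟨this.1.trans (by linarith), this.2.trans (by linarith)⟩
  · subst hl
    simp only [sub_self, abs_zero]
    constructor <;> linarith
  · have := h i j' j (by omega) (by omega) (by omega) hl (by omega)
    rw [ext_apply Y hi0 hj0, ext_apply Y hi0 hj0', ext_apply W hi0 hj0, ext_apply W hi0 hj0']
      at this
    rw [abs_sub_comm, abs_sub_comm (W _ _)]
    exact ⟨this.1.trans (by linarith), this.2.trans (by linarith)⟩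

end Pool.Agent.BIP.J

namespace Pool.Agent.BIP

open J in
/-- ROW J8 (helper96): section 4, pure linear algebra. -/
theorem rowJ8 (τ : ℝ) (hτ : 0 ≤ τ) {m n : ℕ} (P Q Y W : Fin m → Fin n → ℝ)
    (hH : ∀ i j, Q i j - P i j = W i j - Y i j)
    (hP : (∀ i i' j, i < i' → P i j ≤ P i' j) ∨ (∀ i i' j, i < i' → P i' j ≤ P i j))
    (hQ : (∀ i i' j, i < i' → Q i j ≤ Q i' j) ∨ (∀ i i' j, i < i' → Q i' j ≤ Q i j))
    (hY : (∀ i j j', j < j' → Y i j ≤ Y i j') ∨ (∀ i j j', j < j' → Y i j' ≤ Y i j))
    (hW : (∀ i j j', j < j' → W i j ≤ W i j') ∨ (∀ i j j', j < j' → W i j' ≤ W i j))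
    (h1 : JHalf τ P Q Y W)
    (h2 : JHalf τ (fun j i => Y i j) (fun j i => W i j) (fun j i => P i j) (fun j i => Q i j)) :
    ∀ i i' : Fin m, ∀ j j' : Fin n, Inn i → Inn i' → Inn j → Inn j' →
      |Y i j - Y i j'| ≤ 18 * τ ∧ |W i j - W i j'| ≤ 18 * τ ∧
      |P i j - P i' j| ≤ 18 * τ ∧ |Q i j - Q i' j| ≤ 18 * τ := by
  have a1 := half_of h1 hY hW
  have a2 := half_of h2 (hP.imp (fun h i j j' hj => h j j' i hj) (fun h i j j' hj => h j j' i hj))
    (hQ.imp (fun h i j j' hj => h j j' i hj) (fun h i j j' hj => h j j' i hj))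
  rw [ext_tr Y, ext_tr W, ext_tr P, ext_tr Q] at a2
  have a3 : ∀ i j, i < m → j < n → ext Q i j - ext P i j = ext W i j - ext Y i j := by
    intro i j hi hj
    rw [ext_apply Q hi hj, ext_apply P hi hj, ext_apply W hi hj, ext_apply Y hi hj]
    exact hH _ _
  obtain ⟨b1, b2⟩ := small hτ a1 a2 a3
  rw [← ext_tr P, ← ext_tr Q] at b2
  intro i i' j j' hi hi' hj hj'
  have c1 := small_fin hτ b1 i j j' hi hj hj'
  have c2 := small_fin hτ b2 j i i' hj hi hi'
  exact ⟨c1.1, c1.2, c2.1, c2.2⟩

end Pool.Agent.BIP

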