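import Pool.Agent.BIP.J0
import Pool.Agent.BIP.J7
import Pool.Agent.BIP.J8

namespace Pool.Agent.BIP

/-- a predicate on two cells, one above the other, is uniformly true or uniformly false -/
theorem j9_mono {M : ℕ} (r : Fin M → Fin M → ℝ) (v : Fin M → Fin M → V4)
    (P : (Fin 2 → Fin 1 → V4) → Prop)
    (hP : ∀ a : Fin 2 → Fin M, ∀ b : Fin 1 → Fin M, P (fun s t => v (a s) (b t)) ↔
      r (a 0) (b 0) ≤ r (a 1) (b 0))
    (h : (⟨2, 1, P⟩ : GPred).Homog v) :
    (∀ i i' j, i < i' → r i j ≤ r i' j) ∨ (∀ i i' j, i < i' → r i' j ≤ r i j) := by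
  have hm : ∀ i i' : Fin M, i < i' → StrictMono ![i, i'] := by
    intro i i' hi
    rw [Fin.strictMono_iff_lt_succ]
    intro s
    fin_cases s
    exact hi
  have h1 : ∀ j : Fin M, StrictMono (fun _ : Fin 1 => j) := by
    intro j s t hst
    exact absurd hst (by
      have : s = t := Subsingleton.elim _ _
      rw [this]
      exact lt_irrefl _)
  by_cases hex : ∃ i i' j, i < i' ∧ r i j ≤ r i' j
  · left
    obtain ⟨i0, i0', j0, hlt, hle⟩ := hex
    intro i i' j hi
    have h2 := h ![i0, i0'] ![i, i'] (hm _ _ hlt) (hm _ _ hi) (fun _ => j0) (fun _ => j) (h1 _)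
      (h1 _)
    have h3 := (hP ![i0, i0'] (fun _ => j0)).mpr hle
    exact (hP ![i, i'] (fun _ => j)).mp (h2.mp h3)
  · right
    intro i i' j hi
    by_contra hcon
    exact hex ⟨i, i', j, hi, (lt_of_not_ge hcon).le⟩

/-- ROW J9. Final form of the J part (from J7 twice, J8, transposition, monotonicity from the first
two predicates of `JBase` and their transposes). -/
theorem rowJ (N m M : ℕ) (hM : N + 8 ≤ M) (hm : 4 * (m + 17) + 8 ≤ M) (T : ℝ) (hT : 4 ≤ T)
    (x y z : Fin M → Fin M → ℝ) (hS : Seg T x y z) (hU : ∀ p ∈ JList, p.Homog (Nrm x y z))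
    (hN : ¬ Hit (Nrm x y z) N) :
    ∃ f : Fin m → Fin M, StrictMono f ∧ ∀ i i' j j' : Fin m,
      |Real.log (y (f i) (f j)) - Real.log (y (f i) (f j'))| ≤ 18 * tau T ∧
      |Real.log (z (f i) (f j) / x (f i) (f j)) - Real.log (z (f i) (f j') / x (f i) (f j'))|
        ≤ 18 * tau T ∧
      |Real.log (x (f i) (f j)) - Real.log (x (f i') (f j))| ≤ 18 * tau T ∧
      |Real.log (z (f i) (f j) / y (f i) (f j)) - Real.log (z (f i') (f j) / y (f i') (f j))|
        ≤ 18 * tau T := by
  have hUB : ∀ p ∈ JBase, p.Homog (Nrm x y z) := fun p hp =>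
    hU p (List.mem_append.mpr (Or.inl hp))
  have hUT : ∀ p ∈ JBase, p.Homog (Nrm (fun j i => y i j) (fun j i => x i j)
      (fun j i => z i j)) := fun p hp =>
    rowTrH p x y z (hU _ (List.mem_append.mpr (Or.inr (List.mem_map.mpr ⟨p, hp, rfl⟩))))
  have hNR : ¬ HitRows (Nrm x y z) N := fun h => hN (Or.inl h)
  have hNC : ¬ HitRows (Nrm (fun j i => y i j) (fun j i => x i j) (fun j i => z i j)) N :=
    fun h => hN (Or.inr (rowTr x y z N h))
  have hST := rowTrSeg T x y z hS
  have H1 := rowJHalf N (m + 17) M hM hm T hT x y z hS hUB hNR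
  have H2 := rowJHalf N (m + 17) M hM hm T hT (fun j i => y i j) (fun j i => x i j)
    (fun j i => z i j) hST hUT hNC
  have hτ : 0 ≤ tau T := by
    have hT0 : 0 < T := by linarith
    have h1 : (0:ℝ) < 1 / T := by positivity
    have h2 : 1 / T ≤ 1 / 4 := one_div_le_one_div_of_le (by norm_num) hT
    have h3 : Real.log (1 - 1 / T) ≤ 0 := Real.log_nonpos (by linarith) (by linarith)
    show 0 ≤ - Real.log (1 - 1 / T)
    linarith
  have hx := hS.hx
  have hy := hS.hy
  have hz := hS.hz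
  -- monotonicity
  have mB1 : (⟨2, 1, fun w => bx w 0 0 ≤ bx w 1 0⟩ : GPred) ∈ JBase := List.mem_cons_self
  have mB2 : (⟨2, 1, fun w => bz w 0 0 / by_ w 0 0 ≤ bz w 1 0 / by_ w 1 0⟩ : GPred) ∈ JBase :=
    List.mem_cons_of_mem _ List.mem_cons_self
  have mx := j9_mono x (Nrm x y z) (fun w => bx w 0 0 ≤ bx w 1 0) (fun a b => Iff.rfl)
    (hUB _ mB1)
  have mq := j9_mono (fun i j => z i j / y i j) (Nrm x y z)
    (fun w => bz w 0 0 / by_ w 0 0 ≤ bz w 1 0 / by_ w 1 0) (fun a b => Iff.rfl) (hUB _ mB2)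
  have my := j9_mono (fun j i => y i j) (Nrm (fun j i => y i j) (fun j i => x i j)
    (fun j i => z i j)) (fun w => bx w 0 0 ≤ bx w 1 0) (fun a b => Iff.rfl) (hUT _ mB1)
  have mw := j9_mono (fun j i => z i j / x i j) (Nrm (fun j i => y i j) (fun j i => x i j)
    (fun j i => z i j)) (fun w => bz w 0 0 / by_ w 0 0 ≤ bz w 1 0 / by_ w 1 0)
    (fun a b => Iff.rfl) (hUT _ mB2)
  have hfm : ∀ i i' : Fin (m + 17), i < i' → fsub (m + 17) M hm i < fsub (m + 17) M hm i' := by
    intro i i' h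
    show 4 * i.1 + 3 < 4 * i'.1 + 3
    have : i.1 < i'.1 := h
    omega
  have J8 := rowJ8 (tau T) hτ
    (fun i j : Fin (m + 17) => Real.log (x (fsub (m + 17) M hm i) (fsub (m + 17) M hm j)))
    (fun i j => Real.log (z (fsub (m + 17) M hm i) (fsub (m + 17) M hm j) /
      y (fsub (m + 17) M hm i) (fsub (m + 17) M hm j)))
    (fun i j => Real.log (y (fsub (m + 17) M hm i) (fsub (m + 17) M hm j)))
    (fun i j => Real.log (z (fsub (m + 17) M hm i) (fsub (m + 17) M hm j) /
      x (fsub (m + 17) M hm i) (fsub (m + 17) M hm j)))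
    (by
      intro i j
      show Real.log (_ / _) - Real.log _ = Real.log (_ / _) - Real.log _
      rw [Real.log_div (hz _ _).ne' (hy _ _).ne', Real.log_div (hz _ _).ne' (hx _ _).ne']
      ring)
    (by
      rcases mx with h | h
      · left
        intro i i' j hi
        exact Real.log_le_log (hx _ _) (h _ _ _ (hfm _ _ hi))
      · right
        intro i i' j hi
        exact Real.log_le_log (hx _ _) (h _ _ _ (hfm _ _ hi)))
    (by
      rcases mq with h | h
      · left
        intro i i' j hi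
        exact Real.log_le_log (div_pos (hz _ _) (hy _ _)) (h _ _ _ (hfm _ _ hi))
      · right
        intro i i' j hi
        exact Real.log_le_log (div_pos (hz _ _) (hy _ _)) (h _ _ _ (hfm _ _ hi)))
    (by
      rcases my with h | h
      · left
        intro i j j' hj
        exact Real.log_le_log (hy _ _) (h _ _ _ (hfm _ _ hj))
      · right
        intro i j j' hj
        exact Real.log_le_log (hy _ _) (h _ _ _ (hfm _ _ hj)))
    (by
      rcases mw with h | h
      · left
        intro i j j' hj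
        exact Real.log_le_log (div_pos (hz _ _) (hx _ _)) (h _ _ _ (hfm _ _ hj))
      · right
        intro i j j' hj
        exact Real.log_le_log (div_pos (hz _ _) (hx _ _)) (h _ _ _ (hfm _ _ hj)))
    H1 H2
  refine ⟨fun j => fsub (m + 17) M hm ⟨j.1 + 8, by omega⟩, ?_, ?_⟩
  · intro a b hab
    apply hfm
    show a.1 + 8 < b.1 + 8
    have : a.1 < b.1 := hab
    omega
  · intro i i' j j'
    have hi := i.2
    have hi' := i'.2
    have hj := j.2
    have hj' := j'.2
    exact J8 ⟨i.1 + 8, by omega⟩ ⟨i'.1 + 8, by omega⟩ ⟨j.1 + 8, by omega⟩ ⟨j'.1 + 8, by omega⟩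
      ⟨by show 8 ≤ i.1 + 8; omega, by show i.1 + 8 + 8 < m + 17; omega⟩
      ⟨by show 8 ≤ i'.1 + 8; omega, by show i'.1 + 8 + 8 < m + 17; omega⟩
      ⟨by show 8 ≤ j.1 + 8; omega, by show j.1 + 8 + 8 < m + 17; omega⟩
      ⟨by show 8 ≤ j'.1 + 8; omega, by show j'.1 + 8 + 8 < m + 17; omega⟩

end Pool.Agent.BIP
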