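import Pool.Agent.BIP.Defs

/-!
# JIT19: definitions (large oscillations are impossible)
-/

namespace Pool.Agent.BIP

/-- The normalized array `(1, x, y, z)`. -/
def Nrm {m n : ℕ} (x y z : Fin m → Fin n → ℝ) : Fin m → Fin n → V4 :=
  fun i j => ![1, x i j, y i j, z i j]

/-- Segre type, normalized: `x`, `x' = z / y` grow with the columns, `y`, `y' = z / x` with the
rows. -/
structure Seg {m n : ℕ} (T : ℝ) (x y z : Fin m → Fin n → ℝ) : Prop where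
  hx : ∀ i j, 0 < x i j
  hy : ∀ i j, 0 < y i j
  hz : ∀ i j, 0 < z i j
  cx : ColDom T x
  cq : ColDom T (fun i j => z i j / y i j)
  ry : RowDom T y
  rw : RowDom T (fun i j => z i j / x i j)

/-- Chord test for the cells `p s` of one row: `0 ≤ Ch` iff `D ≤ z / y` on the chord at `x = A`
(for `x p < A < x s`). -/
def Ch {n : ℕ} (x y z : Fin n → ℝ) (p s : Fin n) (A D : ℝ) : ℝ :=
  (A - x p) * (z s - D * y s) + (x s - A) * (z p - D * y p)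

/-- The value of `z / y` on the chord `p s` of one row at `x = A`. -/
noncomputable def Vc {n : ℕ} (x y z : Fin n → ℝ) (p s : Fin n) (A : ℝ) : ℝ :=
  ((A - x p) * z s + (x s - A) * z p) / ((A - x p) * y s + (x s - A) * y p)

/-- The row `x y z` meets the line `x = A`, `z = D y`. -/
def RMet {n : ℕ} (x y z : Fin n → ℝ) (A D : ℝ) : Prop :=
  ∃ l : Fin n → ℝ, (∀ j, 0 ≤ l j) ∧ (∃ j, 0 < l j) ∧
    ∑ j, l j * x j = A * ∑ j, l j ∧ ∑ j, l j * z j = D * ∑ j, l j * y j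

/-- Level of the chord `a b` of a row (logarithms `W = log (z/x)`, `Y = log y`). -/
def Lv {n : ℕ} (θ : ℝ) (W Y : Fin n → ℝ) (a b : Fin n) (t : ℝ) : Prop :=
  |t - (W b - Y a)| ≤ θ ∧ min (W a) (W b) - max (Y a) (Y b) ≤ t ∧
    t ≤ max (W a) (W b) - min (Y a) (Y b)

/-- The facts on rows, in logarithms `P = log x`, `Q = log (z/y)`, `Y = log y`,
`W = log (z/x)`. -/
structure JHalf (τ : ℝ) {m n : ℕ} (P Q Y W : Fin m → Fin n → ℝ) : Prop where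
  R : ∀ (b i i' : Fin m) (p q s : Fin n),
    ((i < b ∧ b < i') ∨ (i' < b ∧ b < i) ∨ (i = i' ∧ i ≠ b)) → p < q → q < s →
    P i q ≤ P b q → Q b q ≤ Q i' q → W b s - Y b p ≤ Q i' q - P i q + 2 * τ
  Rm : ∀ (b i i' : Fin m) (p q s : Fin n),
    ((i < b ∧ b < i') ∨ (i' < b ∧ b < i) ∨ (i = i' ∧ i ≠ b)) → p < q → q < s →
    P b q ≤ P i q → Q i' q ≤ Q b q → Q i' q - P i q - 2 * τ ≤ W b s - Y b p
  F : (∀ (k k' : Fin m) (a1 a2 b1 b2 : Fin n), k < k' → a1 < a2 → b1 < b2 → a1 < b2 → b1 < a2 →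
        ∃ t t', Lv (2 * τ) (W k) (Y k) a1 a2 t ∧ Lv (2 * τ) (W k') (Y k') b1 b2 t' ∧ t ≤ t') ∨
      (∀ (k k' : Fin m) (a1 a2 b1 b2 : Fin n), k < k' → a1 < a2 → b1 < b2 → a1 < b2 → b1 < a2 →
        ∃ t t', Lv (2 * τ) (W k) (Y k) a1 a2 t ∧ Lv (2 * τ) (W k') (Y k') b1 b2 t' ∧ t' ≤ t)

/-- Inner index. -/
def Inn {m : ℕ} (i : Fin m) : Prop := 8 ≤ i.1 ∧ i.1 + 8 < m

/-- Coordinates of a block. -/
def bx {h k : ℕ} (w : Fin h → Fin k → V4) (i : Fin h) (j : Fin k) : ℝ := w i j 1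
def by_ {h k : ℕ} (w : Fin h → Fin k → V4) (i : Fin h) (j : Fin k) : ℝ := w i j 2
def bz {h k : ℕ} (w : Fin h → Fin k → V4) (i : Fin h) (j : Fin k) : ℝ := w i j 3

/-- bad event for (R): rows `i b i'`, columns `0 1 2` -/
noncomputable def badR {h : ℕ} (i b i' : Fin h) (w : Fin h → Fin 3 → V4) : Prop :=
  bx w i 1 ≤ bx w b 1 ∧ bz w b 1 / by_ w b 1 ≤ bz w i' 1 / by_ w i' 1 ∧
    0 ≤ Ch (bx w b) (by_ w b) (bz w b) 0 2 (bx w i 1) (bz w i' 1 / by_ w i' 1)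

/-- bad event for (R-) -/
noncomputable def badRm {h : ℕ} (i b i' : Fin h) (w : Fin h → Fin 3 → V4) : Prop :=
  bx w b 1 ≤ bx w i 1 ∧ bz w i' 1 / by_ w i' 1 ≤ bz w b 1 / by_ w b 1 ∧
    Ch (bx w b) (by_ w b) (bz w b) 0 2 (bx w i 1) (bz w i' 1 / by_ w i' 1) ≤ 0

/-- bad events for (S): rows 0 < 1; columns p=0 < l=1 < m=2 < s=3, resp. p=0 < m=1 < l=2 < s=3. -/
noncomputable def badS1 (w : Fin 2 → Fin 4 → V4) : Prop :=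
  Vc (bx w 1) (by_ w 1) (bz w 1) 0 3 (bx w 0 2) < bz w 1 1 / by_ w 1 1
noncomputable def badS2 (w : Fin 2 → Fin 4 → V4) : Prop :=
  bz w 1 2 / by_ w 1 2 < Vc (bx w 1) (by_ w 1) (bz w 1) 0 3 (bx w 0 1)

/-- comparison of chord values: rows 0 < 1 < 2, columns 0 < 1 < m=2 < 3 < 4. -/
noncomputable def cmpF (a1 a2 b1 b2 : Fin 5) (w : Fin 3 → Fin 5 → V4) : Prop :=
  Vc (bx w 1) (by_ w 1) (bz w 1) a1 a2 (bx w 0 2) <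
    Vc (bx w 2) (by_ w 2) (bz w 2) b1 b2 (bx w 0 2)

/-- The predicates for the rows. -/
noncomputable def JBase : List GPred :=
  [⟨2, 1, fun w => bx w 0 0 ≤ bx w 1 0⟩,
   ⟨2, 1, fun w => bz w 0 0 / by_ w 0 0 ≤ bz w 1 0 / by_ w 1 0⟩,
   ⟨3, 3, badR 0 1 2⟩, ⟨3, 3, badR 2 1 0⟩, ⟨2, 3, badR 0 1 0⟩, ⟨2, 3, badR 1 0 1⟩,
   ⟨3, 3, badRm 0 1 2⟩, ⟨3, 3, badRm 2 1 0⟩, ⟨2, 3, badRm 0 1 0⟩, ⟨2, 3, badRm 1 0 1⟩,
   ⟨2, 4, badS1⟩, ⟨2, 4, badS2⟩,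
   ⟨3, 5, cmpF 0 3 0 3⟩, ⟨3, 5, cmpF 0 3 0 4⟩, ⟨3, 5, cmpF 0 3 1 3⟩, ⟨3, 5, cmpF 0 3 1 4⟩,
   ⟨3, 5, cmpF 0 4 0 3⟩, ⟨3, 5, cmpF 0 4 0 4⟩, ⟨3, 5, cmpF 0 4 1 3⟩, ⟨3, 5, cmpF 0 4 1 4⟩,
   ⟨3, 5, cmpF 1 3 0 3⟩, ⟨3, 5, cmpF 1 3 0 4⟩, ⟨3, 5, cmpF 1 3 1 3⟩, ⟨3, 5, cmpF 1 3 1 4⟩,
   ⟨3, 5, cmpF 1 4 0 3⟩, ⟨3, 5, cmpF 1 4 0 4⟩, ⟨3, 5, cmpF 1 4 1 3⟩, ⟨3, 5, cmpF 1 4 1 4⟩]

/-- exchange of the coordinates 1 and 2 -/
def sw (v : V4) : V4 := ![v 0, v 2, v 1, v 3]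

/-- transposed predicate -/
def GPred.tr (p : GPred) : GPred := ⟨p.k, p.h, fun w => p.P (fun a c => sw (w c a))⟩

/-- All predicates of the J part. -/
noncomputable def JList : List GPred := JBase ++ JBase.map GPred.tr

/-- `τ = - log (1 - 1/T)`. -/
noncomputable def tau (T : ℝ) : ℝ := - Real.log (1 - 1 / T)

end Pool.Agent.BIP
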