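import Pool.Agent.OTR.S6

/-!
# The finite Ramsey theorem for products, in terms of strictly monotone tuples
-/

namespace Pool.Agent.BIP

open Finset Pool.Agent.OTR

/-- Ramsey's theorem for strictly monotone `h`-tuples. -/
theorem ramsey_mono (κ : Type) [Finite κ] [Nonempty κ] (h m : ℕ) : ∃ M : ℕ,
    ∀ col : (Fin h → Fin M) → κ, ∃ f : Fin m → Fin M, StrictMono f ∧ ∃ c : κ,
      ∀ a : Fin h → Fin m, StrictMono a → col (f ∘ a) = c := by
  classical
  obtain ⟨M, hM⟩ := ramsey_finset κ h m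
  refine ⟨M, fun col => ?_⟩
  obtain ⟨Z', hZ', hc, k, hk⟩ := hM (Finset.range M) (by simp) (fun σ =>
    if hσ : ∃ a : Fin h → Fin M, StrictMono a ∧ σ = Finset.univ.image (fun i => (a i : ℕ)) then
      col hσ.choose else Classical.arbitrary κ)
  have hlt : ∀ x ∈ Z', x < M := fun x hx => Finset.mem_range.1 (hZ' hx)
  have hmem : ∀ i, Z'.orderEmbOfFin hc i ∈ Z' := fun i => Z'.orderEmbOfFin_mem hc i
  refine ⟨fun i => ⟨Z'.orderEmbOfFin hc i, hlt _ (hmem i)⟩, ?_, k, ?_⟩
  · intro i j hij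
    exact (Z'.orderEmbOfFin hc).strictMono hij
  · intro a ha
    have hinj : Function.Injective (fun i : Fin h => Z'.orderEmbOfFin hc (a i)) :=
      (Z'.orderEmbOfFin hc).injective.comp ha.injective
    have h1 := hk (Finset.univ.image (fun i => Z'.orderEmbOfFin hc (a i)))
      (by
        intro x hx
        obtain ⟨i, -, rfl⟩ := Finset.mem_image.1 hx
        exact hmem _)
      (by rw [Finset.card_image_of_injective _ hinj, Finset.card_univ, Fintype.card_fin])
    have hex : ∃ b : Fin h → Fin M, StrictMono b ∧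
        Finset.univ.image (fun i => Z'.orderEmbOfFin hc (a i)) =
          Finset.univ.image (fun i => (b i : ℕ)) :=
      ⟨fun i => ⟨Z'.orderEmbOfFin hc (a i), hlt _ (hmem _)⟩,
        fun i j hij => (Z'.orderEmbOfFin hc).strictMono (ha hij), rfl⟩
    simp only [dif_pos hex] at h1
    have hsp := hex.choose_spec
    have heq : hex.choose = fun i => (⟨Z'.orderEmbOfFin hc (a i), hlt _ (hmem _)⟩ : Fin M) := by
      have hm2 : StrictMono (fun i => (⟨Z'.orderEmbOfFin hc (a i), hlt _ (hmem _)⟩ : Fin M)) :=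
        fun i j hij => (Z'.orderEmbOfFin hc).strictMono (ha hij)
      refine (StrictMono.range_inj hsp.1 hm2).1 ?_
      ext x
      have h2 := congrArg (fun s : Finset ℕ => (x : ℕ) ∈ s) hsp.2
      simp only [Finset.mem_image, Finset.mem_univ, true_and, eq_iff_iff] at h2
      constructor
      · rintro ⟨i, rfl⟩
        obtain ⟨j, hj⟩ := h2.2 ⟨i, rfl⟩
        exact ⟨j, Fin.ext hj⟩
      · rintro ⟨i, rfl⟩
        obtain ⟨j, hj⟩ := h2.1 ⟨i, rfl⟩
        exact ⟨j, Fin.ext hj⟩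
    rw [heq] at h1
    exact h1

/-- Product Ramsey theorem for strictly monotone tuples of rows and of columns. -/
theorem prod_ramsey (κ : Type) [Finite κ] [Nonempty κ] (h k m : ℕ) : ∃ M : ℕ,
    ∀ col : (Fin h → Fin M) → (Fin k → Fin M) → κ, ∃ f g : Fin m → Fin M,
      StrictMono f ∧ StrictMono g ∧ ∃ c : κ, ∀ a : Fin h → Fin m, StrictMono a →
        ∀ b : Fin k → Fin m, StrictMono b → col (f ∘ a) (g ∘ b) = c := by
  classical
  obtain ⟨M₁, h1⟩ := ramsey_mono κ k m
  obtain ⟨M₂, h2⟩ := ramsey_mono ((Fin k → Fin M₁) → κ) h m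
  refine ⟨M₂ + M₁, fun col => ?_⟩
  obtain ⟨f, hf, C, hC⟩ := h2 (fun a b => col (Fin.castLE (Nat.le_add_right _ _) ∘ a)
    (Fin.castLE (Nat.le_add_left _ _) ∘ b))
  obtain ⟨g, hg, c, hc⟩ := h1 C
  refine ⟨Fin.castLE (Nat.le_add_right _ _) ∘ f, Fin.castLE (Nat.le_add_left _ _) ∘ g,
    fun i j hij => hf hij, fun i j hij => hg hij, c, fun a ha b hb => ?_⟩
  have h3 := congrFun (hC a ha) (g ∘ b)
  rw [hc b hb] at h3
  exact h3

end Pool.Agent.BIP
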