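import Pool.Agent.BIP.Defs
import Pool.Agent.BIP.PR

/-!
# Finitely many predicates made homogeneous
-/

namespace Pool.Agent.BIP

/-- ROW H. Finitely many predicates made homogeneous. -/
theorem rowH (Ps : List GPred) (m : ℕ) : ∃ M, ∀ v : Fin M → Fin M → V4,
    ∃ f g : Fin m → Fin M, StrictMono f ∧ StrictMono g ∧
      ∀ p ∈ Ps, p.Homog (fun i j => v (f i) (g j)) := by
  classical
  induction Ps with
  | nil => exact ⟨m, fun v => ⟨id, id, strictMono_id, strictMono_id, fun p hp => by simp at hp⟩⟩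
  | cons p Ps ih =>
    obtain ⟨M₁, h1⟩ := ih
    obtain ⟨M, h2⟩ := prod_ramsey Bool p.h p.k M₁
    refine ⟨M, fun v => ?_⟩
    obtain ⟨f₁, g₁, hf₁, hg₁, c, hc⟩ := h2 (fun a b => decide (p.P fun s t => v (a s) (b t)))
    obtain ⟨f₂, g₂, hf₂, hg₂, h3⟩ := h1 (fun i j => v (f₁ i) (g₁ j))
    refine ⟨f₁ ∘ f₂, g₁ ∘ g₂, hf₁.comp hf₂, hg₁.comp hg₂, fun q hq => ?_⟩
    rcases List.mem_cons.1 hq with rfl | hq
    · intro a a' ha ha' b b' hb hb'
      have e1 := hc (f₂ ∘ a) (hf₂.comp ha) (g₂ ∘ b) (hg₂.comp hb)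
      have e2 := hc (f₂ ∘ a') (hf₂.comp ha') (g₂ ∘ b') (hg₂.comp hb')
      have e3 := e1.trans e2.symm
      simp only [Function.comp_apply] at e3
      exact decide_eq_decide.1 e3
    · exact h3 q hq

end Pool.Agent.BIP
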