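import Pool.Agent.BIP.Defs

/-!
# Hitting passes from a sub-array to the array
-/

namespace Pool.Agent.BIP

theorem s_met {ι κ : Type} [Fintype ι] [Fintype κ] {f g : V4 →ₗ[ℝ] ℝ} {w : κ → V4} {e : ι → κ}
    (he : Function.Injective e) (h : Met f g (fun i => w (e i))) : Met f g w := by
  obtain ⟨l, hl, ⟨i, hi⟩, hf, hg⟩ := h
  have hs : ∑ j, Function.extend e l 0 j • w j = ∑ i, l i • w (e i) := by
    refine (Fintype.sum_of_injective e he _ _ ?_ ?_).symm
    · intro j hj
      rw [Function.extend_apply' l (0 : κ → ℝ) j (by simpa [Set.mem_range] using hj)]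
      simp
    · intro i
      rw [he.extend_apply]
  refine ⟨Function.extend e l 0, ?_, ⟨e i, ?_⟩, ?_, ?_⟩
  · intro j
    by_cases hj : ∃ i, e i = j
    · obtain ⟨i, rfl⟩ := hj
      rw [he.extend_apply]
      exact hl i
    · rw [Function.extend_apply' l (0 : κ → ℝ) j hj]
      simp
  · rw [he.extend_apply]
    exact hi
  · rw [hs]
    exact hf
  · rw [hs]
    exact hg

theorem s_rows {m n m' n' : ℕ} {v : Fin m → Fin n → V4} {f : Fin m' → Fin m} {g : Fin n' → Fin n}
    (hf : Function.Injective f) (hg : Function.Injective g) {N : ℕ}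
    (h : HitRows (fun i j => v (f i) (g j)) N) : HitRows v N := by
  obtain ⟨F, G, hFG, S, hS, h⟩ := h
  refine ⟨F, G, hFG, S.map ⟨f, hf⟩, by rwa [Finset.card_map], ?_⟩
  intro i hi
  obtain ⟨i', hi', rfl⟩ := Finset.mem_map.1 hi
  exact s_met (w := v (f i')) hg (h i' hi')

/-- ROW S. Hitting passes from a sub-array to the array. -/
theorem rowS {m n m' n' : ℕ} (v : Fin m → Fin n → V4) (f : Fin m' → Fin m) (g : Fin n' → Fin n)
    (hf : StrictMono f) (hg : StrictMono g) (N : ℕ)
    (h : Hit (fun i j => v (f i) (g j)) N) : Hit v N := by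
  rcases h with h | h
  · exact Or.inl (s_rows hf.injective hg.injective h)
  · exact Or.inr (s_rows (v := fun j i => v i j) hg.injective hf.injective h)

end Pool.Agent.BIP
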