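import Pool.Agent.BIP.NDefs
import Pool.Agent.BIP.J0
import Pool.Agent.BIP.J9
import Pool.Agent.BIP.RowH
import Pool.Agent.BIP.RowS

/-!
# Row ND: from the small half (`NodeHit`) and `rowJ` to `rowSEG`
-/

namespace Pool.Agent.BIP

/-- the determinant of the coordinates in four linear forms -/
theorem nd_D4_forms (L : Fin 4 → (V4 →ₗ[ℝ] ℝ)) (a b c d : V4) :
    D4 (fun k => L k a) (fun k => L k b) (fun k => L k c) (fun k => L k d) =
      D4 a b c d * (Matrix.of fun (i k : Fin 4) => L k (Pi.single i 1)).det := by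
  have key : ∀ (w : V4) (k : Fin 4), L k w = ∑ i, w i * L k (Pi.single i 1) := by
    intro w k
    have e : w = ∑ i, w i • (Pi.single i (1 : ℝ) : V4) := by
      funext j
      simp [Finset.sum_apply, Pi.single_apply]
    conv_lhs => rw [e]
    rw [map_sum]
    refine Finset.sum_congr rfl fun i _ => ?_
    rw [map_smul, smul_eq_mul]
  unfold D4
  rw [← Matrix.det_mul]
  congr 1
  ext s k
  rw [Matrix.mul_apply]
  fin_cases s
  · simpa using key a k
  · simpa using key b k
  · simpa using key c k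
  · simpa using key d k

theorem nd_det_ne (L : Fin 4 → (V4 →ₗ[ℝ] ℝ)) (hL : LinearIndependent ℝ L) :
    (Matrix.of fun (i k : Fin 4) => L k (Pi.single i 1)).det ≠ 0 := by
  intro h0
  obtain ⟨c, hc, h⟩ := Matrix.exists_mulVec_eq_zero_iff.2 h0
  have h1 : ∑ k, c k • L k = 0 := by
    apply LinearMap.pi_ext'
    intro i
    apply LinearMap.ext_ring
    have h2 := congrFun h i
    simp only [Matrix.mulVec, dotProduct, Matrix.of_apply, Pi.zero_apply] at h2
    simp only [LinearMap.comp_apply, LinearMap.sum_apply, LinearMap.smul_apply, smul_eq_mul,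
      LinearMap.zero_apply, LinearMap.coe_single]
    rw [← h2]
    exact Finset.sum_congr rfl fun k _ => mul_comm _ _
  exact hc (funext fun k => Fintype.linearIndependent_iff.1 hL c h1 k)

theorem nd_D4_smul (a b c d : ℝ) (w x y z : V4) :
    D4 (a • w) (b • x) (c • y) (d • z) = a * b * c * d * D4 w x y z := by
  unfold D4
  have e : (Matrix.of ![a • w, b • x, c • y, d • z] : Matrix (Fin 4) (Fin 4) ℝ) =
      Matrix.diagonal ![a, b, c, d] * Matrix.of ![w, x, y, z] := by
    ext s k
    rw [Matrix.diagonal_mul]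
    fin_cases s <;> simp
  rw [e, Matrix.det_mul, Matrix.det_diagonal, Fin.prod_univ_four]
  simp

/-- The normalized array is generic. -/
theorem nd_generic {m n : ℕ} (v : Fin m → Fin n → V4) (L : Fin 4 → (V4 →ₗ[ℝ] ℝ))
    (hL : LinearIndependent ℝ L) (hpos : ∀ k i j, 0 < L k (v i j)) (hG : Generic v) :
    Generic (Nrm (fun i j => L 1 (v i j) / L 0 (v i j)) (fun i j => L 2 (v i j) / L 0 (v i j))
      (fun i j => L 3 (v i j) / L 0 (v i j))) := by
  intro a b c d h1 h2 h3 h4 h5 h6
  have e : ∀ i j, Nrm (fun i j => L 1 (v i j) / L 0 (v i j)) (fun i j => L 2 (v i j) / L 0 (v i j))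
      (fun i j => L 3 (v i j) / L 0 (v i j)) i j = (L 0 (v i j))⁻¹ • (fun k => L k (v i j)) := by
    intro i j
    have h := (hpos 0 i j).ne'
    funext k
    fin_cases k
    · simp [Nrm, h]
    · simp [Nrm, div_eq_inv_mul]
    · simp [Nrm, div_eq_inv_mul]
    · simp [Nrm, div_eq_inv_mul]
  rw [e, e, e, e, nd_D4_smul, nd_D4_forms]
  have p1 := (inv_pos.2 (hpos 0 a.1 a.2)).ne'
  have p2 := (inv_pos.2 (hpos 0 b.1 b.2)).ne'
  have p3 := (inv_pos.2 (hpos 0 c.1 c.2)).ne'
  have p4 := (inv_pos.2 (hpos 0 d.1 d.2)).ne'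
  exact mul_ne_zero (mul_ne_zero (mul_ne_zero (mul_ne_zero p1 p2) p3) p4)
    (mul_ne_zero (hG a b c d h1 h2 h3 h4 h5 h6) (nd_det_ne L hL))

theorem nd_generic_sub {m n m' n' : ℕ} (v : Fin m → Fin n → V4) (f : Fin m' → Fin m)
    (g : Fin n' → Fin n) (hf : StrictMono f) (hg : StrictMono g) (h : Generic v) :
    Generic (fun i j => v (f i) (g j)) := by
  have hinj : ∀ a b : Fin m' × Fin n', a ≠ b → (f a.1, g a.2) ≠ (f b.1, g b.2) := by
    intro a b hab e
    rw [Prod.mk.injEq] at e
    exact hab (Prod.ext (hf.injective e.1) (hg.injective e.2))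
  intro a b c d hab hac had hbc hbd hcd
  exact h (f a.1, g a.2) (f b.1, g b.2) (f c.1, g c.2) (f d.1, g d.2) (hinj _ _ hab)
    (hinj _ _ hac) (hinj _ _ had) (hinj _ _ hbc) (hinj _ _ hbd) (hinj _ _ hcd)

theorem nd_seg_sub {m n m' n' : ℕ} {T : ℝ} {x y z : Fin m → Fin n → ℝ} (h : Seg T x y z)
    (f : Fin m' → Fin m) (g : Fin n' → Fin n) (hf : StrictMono f) (hg : StrictMono g) :
    Seg T (fun i j => x (f i) (g j)) (fun i j => y (f i) (g j)) (fun i j => z (f i) (g j)) where
  hx := fun i j => h.hx _ _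
  hy := fun i j => h.hy _ _
  hz := fun i j => h.hz _ _
  cx := fun i i' j j' hj => h.cx _ _ _ _ (hg hj)
  cq := fun i i' j j' hj => h.cq (f i) (f i') (g j) (g j') (hg hj)
  ry := fun i i' j j' hi => h.ry _ _ _ _ (hf hi)
  rw := fun i i' j j' hi => h.rw (f i) (f i') (g j) (g j') (hf hi)

/-- closeness of logarithms gives relative closeness -/
theorem nd_close {a b δ e : ℝ} (ha : 0 < a) (hb : 0 < b) (he : 0 < e)
    (hδ : δ ≤ Real.log (1 + e)) (h : |Real.log a - Real.log b| ≤ δ) : |a - b| ≤ e * b := by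
  have h1 := abs_le.1 h
  have e1 : 0 < 1 + e := by linarith
  have u : a ≤ (1 + e) * b := by
    have : Real.log a ≤ Real.log ((1 + e) * b) := by
      rw [Real.log_mul e1.ne' hb.ne']
      linarith
    exact (Real.log_le_log_iff ha (by positivity)).1 this
  have l : b ≤ (1 + e) * a := by
    have : Real.log b ≤ Real.log ((1 + e) * a) := by
      rw [Real.log_mul e1.ne' ha.ne']
      linarith
    exact (Real.log_le_log_iff hb (by positivity)).1 this
  rw [abs_le]
  constructor
  · -- b - a ≤ e b : from b ≤ (1+e) a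
    have : b - a ≤ e * b := by
      by_cases hab : a ≤ b
      · nlinarith
      · push Not at hab
        nlinarith
    linarith
  · linarith

/-- choice of `T` -/
theorem nd_tau {e : ℝ} (he : 0 < e) : ∃ T1 : ℝ, 4 ≤ T1 ∧ ∀ T, T1 ≤ T →
    4 * (18 * tau T) ≤ Real.log (1 + e) := by
  have hl : 0 < Real.log (1 + e) := Real.log_pos (by linarith)
  set η := Real.log (1 + e) / 72 with hη
  have hη0 : 0 < η := by positivity
  have hexp : Real.exp (-η) < 1 := by
    rw [Real.exp_lt_one_iff]
    linarith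
  refine ⟨max 4 (1 / (1 - Real.exp (-η))), le_max_left _ _, ?_⟩
  intro T hT
  have hT4 : 4 ≤ T := le_trans (le_max_left _ _) hT
  have hT2 : 1 / (1 - Real.exp (-η)) ≤ T := le_trans (le_max_right _ _) hT
  have hpos : 0 < 1 - Real.exp (-η) := by linarith
  have hT0 : 0 < T := by linarith
  have h1 : 1 / T ≤ 1 - Real.exp (-η) := by
    rw [div_le_iff₀ hT0]
    rw [div_le_iff₀ hpos] at hT2
    linarith
  have h2 : Real.exp (-η) ≤ 1 - 1 / T := by linarith
  have h3 : -η ≤ Real.log (1 - 1 / T) := by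
    have := Real.log_le_log (Real.exp_pos _) h2
    rwa [Real.log_exp] at this
  have h4 : tau T ≤ η := by
    unfold tau
    linarith
  have h5 : 72 * η = Real.log (1 + e) := by
    rw [hη]
    ring
  linarith

/-- multiplying the last coordinate by a constant does not change `Hit` -/
theorem nd_scale {m n : ℕ} (x y z : Fin m → Fin n → ℝ) (hx : ∀ i j, 0 < x i j)
    (hy : ∀ i j, 0 < y i j) (hz : ∀ i j, 0 < z i j) (c : ℝ) (hc : 0 < c) (N : ℕ) :
    (Hit (Nrm x y (fun i j => z i j / c)) N → Hit (Nrm x y z) N) ∧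
    (Generic (Nrm x y z) → Generic (Nrm x y (fun i j => z i j / c))) := by
  set L : Fin 4 → (V4 →ₗ[ℝ] ℝ) := fun k =>
    (if k = 3 then c⁻¹ else (1 : ℝ)) • LinearMap.proj k with hLdef
  have hLv : ∀ (k : Fin 4) (w : V4), L k w = (if k = 3 then c⁻¹ else (1 : ℝ)) * w k := by
    intro k w
    rfl
  have hL : LinearIndependent ℝ L := by
    rw [Fintype.linearIndependent_iff]
    intro g hg k
    have h1 := congrArg (fun φ : V4 →ₗ[ℝ] ℝ => φ (Pi.single k 1)) hg
    simp only [LinearMap.sum_apply, LinearMap.smul_apply, smul_eq_mul, LinearMap.zero_apply,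
      hLv, Pi.single_apply] at h1
    rw [Finset.sum_eq_single k] at h1
    · have hne : (if k = 3 then c⁻¹ else (1 : ℝ)) ≠ 0 := by
        split_ifs
        · exact (inv_pos.2 hc).ne'
        · exact one_ne_zero
      simp only [if_true, mul_one] at h1
      exact (mul_eq_zero.1 h1).resolve_right hne
    · intro b _ hb
      rw [if_neg hb]
      ring
    · intro h
      exact absurd (Finset.mem_univ k) h
  have hpos : ∀ k i j, 0 < L k (Nrm x y z i j) := by
    intro k i j
    rw [hLv]
    have p1 : 0 < (if k = 3 then c⁻¹ else (1 : ℝ)) := by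
      split_ifs
      · exact inv_pos.2 hc
      · exact one_pos
    refine mul_pos p1 ?_
    fin_cases k
    · simp [Nrm]
    · simpa [Nrm] using hx i j
    · simpa [Nrm] using hy i j
    · simpa [Nrm] using hz i j
  have e1 : (fun i j => L 1 (Nrm x y z i j) / L 0 (Nrm x y z i j)) = x := by
    funext i j
    simp [hLv, Nrm]
  have e2 : (fun i j => L 2 (Nrm x y z i j) / L 0 (Nrm x y z i j)) = y := by
    funext i j
    simp [hLv, Nrm]
  have e3 : (fun i j => L 3 (Nrm x y z i j) / L 0 (Nrm x y z i j)) = fun i j => z i j / c := by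
    funext i j
    simp [hLv, Nrm, div_eq_inv_mul]
  constructor
  · intro h
    refine rowNrm (Nrm x y z) L hL hpos N ?_
    rw [e1, e2, e3]
    exact h
  · intro h
    have := nd_generic (Nrm x y z) L hL hpos h
    rw [e1, e2, e3] at this
    exact this

/-- ROW ND. -/
theorem rowND (N : ℕ) (hN : NodeHit N) : ∃ (T : ℝ) (M : ℕ), ∀ (v : Fin M → Fin M → V4)
    (L : Fin 4 → (V4 →ₗ[ℝ] ℝ)), LinearIndependent ℝ L → (∀ k i j, 0 < L k (v i j)) →
    Segre T (fun k i j => L k (v i j)) → Generic v → Hit v N := by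
  obtain ⟨e, T0, m, he, hT0, hnode⟩ := hN
  obtain ⟨T1, hT14, hT1⟩ := nd_tau he
  set T := max T0 T1 with hTdef
  have hT4 : 4 ≤ T := le_trans hT14 (le_max_right _ _)
  have hTT0 : T0 ≤ T := le_max_left _ _
  have hτ := hT1 T (le_max_right _ _)
  set M' := (N + 8) + (4 * (m + 17) + 8) with hM'
  obtain ⟨M, hM⟩ := rowH JList M'
  refine ⟨T, M, ?_⟩
  intro v L hL hpos hS hG
  set x : Fin M → Fin M → ℝ := fun i j => L 1 (v i j) / L 0 (v i j) with hx
  set y : Fin M → Fin M → ℝ := fun i j => L 2 (v i j) / L 0 (v i j) with hy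
  set z : Fin M → Fin M → ℝ := fun i j => L 3 (v i j) / L 0 (v i j) with hz
  have hseg : Seg T x y z := rowSegNrm T v L hpos hS
  have hgen : Generic (Nrm x y z) := nd_generic v L hL hpos hG
  apply rowNrm v L hL hpos N
  obtain ⟨f, g, hf, hg, hhom⟩ := hM (Nrm x y z)
  set x' : Fin M' → Fin M' → ℝ := fun i j => x (f i) (g j) with hx'
  set y' : Fin M' → Fin M' → ℝ := fun i j => y (f i) (g j) with hy'
  set z' : Fin M' → Fin M' → ℝ := fun i j => z (f i) (g j) with hz'
  have hseg' : Seg T x' y' z' := nd_seg_sub hseg f g hf hg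
  have hgen' : Generic (Nrm x' y' z') := nd_generic_sub (Nrm x y z) f g hf hg hgen
  have hhom' : ∀ p ∈ JList, p.Homog (Nrm x' y' z') := hhom
  refine rowS (Nrm x y z) f g hf hg N ?_
  change Hit (Nrm x' y' z') N
  by_contra hno
  obtain ⟨f', hf', hosc⟩ := rowJ N m M' (by omega) (by omega) T hT4 x' y' z' hseg' hhom' hno
  apply hno
  refine rowS (Nrm x' y' z') f' f' hf' hf' N ?_
  set x2 : Fin m → Fin m → ℝ := fun i j => x' (f' i) (f' j) with hx2
  set y2 : Fin m → Fin m → ℝ := fun i j => y' (f' i) (f' j) with hy2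
  set z2 : Fin m → Fin m → ℝ := fun i j => z' (f' i) (f' j) with hz2
  have hseg2 : Seg T x2 y2 z2 := nd_seg_sub hseg' f' f' hf' hf'
  have hgen2 : Generic (Nrm x2 y2 z2) := nd_generic_sub (Nrm x' y' z') f' f' hf' hf' hgen'
  change Hit (Nrm x2 y2 z2) N
  rcases Nat.eq_zero_or_pos m with hm0 | hm0
  · subst hm0
    refine hnode (fun i => i.elim0) (fun i => i.elim0) x2 y2 z2 ?_ hgen2
    exact ⟨fun i => i.elim0, fun i => i.elim0, fun i => i.elim0, fun i => i.elim0,
      fun i => i.elim0, fun i => i.elim0, fun i => i.elim0⟩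
  have o : Fin m := ⟨0, hm0⟩
  have px := hseg2.hx
  have py := hseg2.hy
  have pz := hseg2.hz
  set c := z2 o o / (x2 o o * y2 o o) with hc
  have hc0 : 0 < c := div_pos (pz o o) (mul_pos (px o o) (py o o))
  refine (nd_scale x2 y2 z2 px py pz c hc0 N).1 ?_
  refine hnode (fun j => x2 o j) (fun i => y2 i o) x2 y2 _ ?_
    ((nd_scale x2 y2 z2 px py pz c hc0 N).2 hgen2)
  have hδ0 : 0 ≤ 18 * tau T := by
    have := (hosc o o o o).1
    exact le_trans (abs_nonneg _) this
  have hδ : 18 * tau T ≤ Real.log (1 + e) := by linarith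
  refine ⟨fun j => px o j, fun i => py i o, ?_, ?_, ?_, ?_, ?_⟩
  · intro j j' hj
    exact le_trans (mul_le_mul_of_nonneg_right hTT0 (px o j).le) (hseg2.cx o o j j' hj)
  · intro i i' hi
    exact le_trans (mul_le_mul_of_nonneg_right hTT0 (py i o).le) (hseg2.ry i i' o o hi)
  · intro i j
    exact nd_close (px i j) (px o j) he hδ (hosc i o j j).2.2.1
  · intro i j
    exact nd_close (py i j) (py i o) he hδ (hosc i i j o).1
  · intro i j
    have hp : 0 < x2 o j * y2 i o := mul_pos (px o j) (py i o)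
    refine nd_close (div_pos (pz i j) hc0) hp he hτ ?_
    -- logarithms
    have A1 := abs_le.1 (hosc i o j j).2.2.2
    have A2 := abs_le.1 (hosc i i j o).1
    have A3 := abs_le.1 (hosc o o j o).2.1
    have A4 := abs_le.1 (hosc o o j o).1
    have q1 : Real.log (z' (f' i) (f' j) / y' (f' i) (f' j)) =
        Real.log (z2 i j) - Real.log (y2 i j) := Real.log_div (pz i j).ne' (py i j).ne'
    have q2 : Real.log (z' (f' o) (f' j) / y' (f' o) (f' j)) =
        Real.log (z2 o j) - Real.log (y2 o j) := Real.log_div (pz o j).ne' (py o j).ne'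
    have q3 : Real.log (z' (f' o) (f' j) / x' (f' o) (f' j)) =
        Real.log (z2 o j) - Real.log (x2 o j) := Real.log_div (pz o j).ne' (px o j).ne'
    have q4 : Real.log (z' (f' o) (f' o) / x' (f' o) (f' o)) =
        Real.log (z2 o o) - Real.log (x2 o o) := Real.log_div (pz o o).ne' (px o o).ne'
    rw [q1, q2] at A1
    rw [q3, q4] at A3
    have e1 : Real.log (z2 i j / c) = Real.log (z2 i j) - (Real.log (z2 o o) -
        (Real.log (x2 o o) + Real.log (y2 o o))) := by
      rw [Real.log_div (pz i j).ne' hc0.ne', hc,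
        Real.log_div (pz o o).ne' (mul_pos (px o o) (py o o)).ne',
        Real.log_mul (px o o).ne' (py o o).ne']
    have e2 : Real.log (x2 o j * y2 i o) = Real.log (x2 o j) + Real.log (y2 i o) :=
      Real.log_mul (px o j).ne' (py i o).ne'
    rw [e1, e2, abs_le]
    have y1 : Real.log (y' (f' i) (f' j)) = Real.log (y2 i j) := rfl
    have y2' : Real.log (y' (f' i) (f' o)) = Real.log (y2 i o) := rfl
    have y3 : Real.log (y' (f' o) (f' j)) = Real.log (y2 o j) := rfl
    have y4 : Real.log (y' (f' o) (f' o)) = Real.log (y2 o o) := rfl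
    rw [y1, y2'] at A2
    rw [y3, y4] at A4
    constructor <;> linarith [A1.1, A1.2, A2.1, A2.2, A3.1, A3.2, A4.1, A4.2]

end Pool.Agent.BIP
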