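import Pool.Agent.BIP.T10e

namespace Pool.Agent.BIP

/-- Small half. -/
theorem rowNode (N : ℕ) : NodeHit N := Pool.Agent.BIP.TB.rowNode N

end Pool.Agent.BIP
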