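import Pool.Agent.BIP.Defs

set_option autoImplicit false

namespace Pool.Agent.BIP

/-- The determinant in terms of the `2 × 2` minors. -/
theorem rowP_D4_eq (a b c d : V4) : D4 a b c d =
    (a 0 * b 1 - a 1 * b 0) * (c 2 * d 3 - c 3 * d 2)
    - (a 0 * b 2 - a 2 * b 0) * (c 1 * d 3 - c 3 * d 1)
    + (a 0 * b 3 - a 3 * b 0) * (c 1 * d 2 - c 2 * d 1)
    + (a 1 * b 2 - a 2 * b 1) * (c 0 * d 3 - c 3 * d 0)
    - (a 1 * b 3 - a 3 * b 1) * (c 0 * d 2 - c 2 * d 0)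
    + (a 2 * b 3 - a 3 * b 2) * (c 0 * d 1 - c 1 * d 0) := by
  unfold D4
  rw [Matrix.det_succ_row_zero]
  simp [Fin.sum_univ_succ, Matrix.det_fin_three, Matrix.submatrix, Fin.succAbove]
  ring

/-- ROW P1. The three-term relation. -/
theorem rowP1 (p q a b c e : V4) :
    D4 p q a b * D4 p q c e - D4 p q a c * D4 p q b e + D4 p q b c * D4 p q a e = 0 := by
  simp only [rowP_D4_eq]
  have hpl : (p 0 * q 1 - p 1 * q 0) * (p 2 * q 3 - p 3 * q 2)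
      - (p 0 * q 2 - p 2 * q 0) * (p 1 * q 3 - p 3 * q 1)
      + (p 0 * q 3 - p 3 * q 0) * (p 1 * q 2 - p 2 * q 1) = 0 := by ring
  generalize (p 0 * q 1 - p 1 * q 0) = P01 at *
  generalize (p 2 * q 3 - p 3 * q 2) = P23 at *
  generalize (p 0 * q 2 - p 2 * q 0) = P02 at *
  generalize (p 1 * q 3 - p 3 * q 1) = P13 at *
  generalize (p 0 * q 3 - p 3 * q 0) = P03 at *
  generalize (p 1 * q 2 - p 2 * q 1) = P12 at *
  linear_combination ((a 0 * b 1 - a 1 * b 0) * (c 2 * e 3 - c 3 * e 2)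
    - (a 0 * b 2 - a 2 * b 0) * (c 1 * e 3 - c 3 * e 1)
    + (a 0 * b 3 - a 3 * b 0) * (c 1 * e 2 - c 2 * e 1)
    + (a 1 * b 2 - a 2 * b 1) * (c 0 * e 3 - c 3 * e 0)
    - (a 1 * b 3 - a 3 * b 1) * (c 0 * e 2 - c 2 * e 0)
    + (a 2 * b 3 - a 3 * b 2) * (c 0 * e 1 - c 1 * e 0)) * hpl

/-- ROW P2. Linearity in the first vector and vanishing on the others. -/
theorem rowP2 (b c d : V4) : ∃ L : V4 →ₗ[ℝ] ℝ, (∀ a, L a = D4 a b c d) ∧
    L b = 0 ∧ L c = 0 ∧ L d = 0 := by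
  refine ⟨{ toFun := fun a => D4 a b c d, map_add' := ?_, map_smul' := ?_ }, fun _ => rfl,
    ?_, ?_, ?_⟩
  · intro x y
    simp only [rowP_D4_eq, Pi.add_apply]
    ring
  · intro r x
    simp only [rowP_D4_eq, Pi.smul_apply, smul_eq_mul, RingHom.id_apply]
    ring
  · show D4 b b c d = 0
    rw [rowP_D4_eq]; ring
  · show D4 c b c d = 0
    rw [rowP_D4_eq]; ring
  · show D4 d b c d = 0
    rw [rowP_D4_eq]; ring

theorem rowP3 (a b c d : V4) : D4 a b c d = - D4 b a c d ∧ D4 a b c d = - D4 a c b d ∧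
    D4 a b c d = - D4 a b d c := by
  refine ⟨?_, ?_, ?_⟩ <;> simp only [rowP_D4_eq] <;> ring

end Pool.Agent.BIP
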