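import Pool.Agent.BIP.RowA
import Pool.Agent.BIP.RowP

namespace Pool.Agent.BIP

/-- Cyclic shift by two. -/
theorem D4_shift (a b c d : V4) : D4 a b c d = D4 c d a b := by
  have h1 := (rowP3 a b c d).2.1
  have h2 := (rowP3 a c b d).1
  have h3 := (rowP3 c a b d).2.2
  have h4 := (rowP3 c a d b).2.1
  linarith

/-- moving the second vector to the last place. -/
theorem D4_mid (a b c d : V4) : D4 a b c d = D4 a c d b := by
  have h1 := (rowP3 a b c d).2.1
  have h2 := (rowP3 a c b d).2.2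
  linarith

theorem D4_13 (a b c d : V4) : D4 a b c d = D4 b c a d := by
  have h1 := (rowP3 a b c d).1
  have h2 := (rowP3 b a c d).2.1
  linarith

theorem D4_14 (a b c d : V4) : D4 a b c d = - D4 b c d a := by
  have h1 := D4_13 a b c d
  have h2 := (rowP3 b c a d).2.2
  linarith

/-- sign of a chain of four cells. -/
def pSign : GPred := ⟨4, 4, fun w => 0 < D4 (w 0 0) (w 1 1) (w 2 2) (w 3 3)⟩

/-- growth of the ratio of two consecutive coordinates along a chain. -/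
noncomputable def pG (T : ℝ) (k : Fin 3) : GPred := ⟨6, 6, fun w =>
  ![T * (|D4 (w 1 1) (w 0 0) (w 4 4) (w 5 5)| * |D4 (w 2 2) (w 3 3) (w 4 4) (w 5 5)|) ≤
      |D4 (w 2 2) (w 0 0) (w 4 4) (w 5 5)| * |D4 (w 1 1) (w 3 3) (w 4 4) (w 5 5)|,
    T * (|D4 (w 2 2) (w 0 0) (w 1 1) (w 5 5)| * |D4 (w 3 3) (w 0 0) (w 4 4) (w 5 5)|) ≤
      |D4 (w 3 3) (w 0 0) (w 1 1) (w 5 5)| * |D4 (w 2 2) (w 0 0) (w 4 4) (w 5 5)|,
    T * (|D4 (w 3 3) (w 0 0) (w 1 1) (w 2 2)| * |D4 (w 4 4) (w 0 0) (w 1 1) (w 5 5)|) ≤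
      |D4 (w 4 4) (w 0 0) (w 1 1) (w 2 2)| * |D4 (w 3 3) (w 0 0) (w 1 1) (w 5 5)|] k⟩

/-- Existence of a growing quadruple in a zone. -/
theorem grow_exists (p q e' : V4) (n : ℕ) (T : ℝ) (hT : 1 ≤ T) (hn : 2 * T + 6 ≤ n)
    (c : Fin n → V4) (σ : ℝ) (hσ : |σ| = 1)
    (h1 : ∀ s t, s < t → 0 < σ * D4 p q (c s) (c t))
    (h2 : ∀ s, 0 < σ * D4 p q (c s) e') :
    ∃ a b c' e : Fin n, a < b ∧ b < c' ∧ c' < e ∧
      T * (|D4 p q (c a) (c b)| * |D4 p q (c c') (c e)|) ≤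
        |D4 p q (c a) (c c')| * |D4 p q (c b) (c e)| := by
  have hσ2 : σ * σ = 1 := by
    have := congrArg (fun x => x * x) hσ
    simpa [abs_mul_abs_self] using this
  have habs : ∀ x : ℝ, 0 < σ * x → |x| = σ * x := by
    intro x hx
    rw [← abs_of_pos hx, abs_mul, hσ, one_mul]
  obtain ⟨a, b, c', e, hab, hbc, hce, h⟩ := rowA n T hT hn
    (fun s t => σ * D4 p q (c s) (c t) / ((σ * D4 p q (c s) e') * (σ * D4 p q (c t) e')))
    (fun s t hst => div_pos (h1 s t hst) (mul_pos (h2 s) (h2 t)))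
    (by
      intro s t u hst htu
      have hP := rowP1 p q (c s) (c t) (c u) e'
      have hs0 : σ ≠ 0 := by
        intro h
        rw [h] at hσ
        simp at hσ
      have e1 : D4 p q (c s) e' ≠ 0 := right_ne_zero_of_mul (h2 s).ne'
      have e2 : D4 p q (c t) e' ≠ 0 := right_ne_zero_of_mul (h2 t).ne'
      have e3 : D4 p q (c u) e' ≠ 0 := right_ne_zero_of_mul (h2 u).ne'
      field_simp
      linear_combination hP)
  refine ⟨a, b, c', e, hab, hbc, hce, ?_⟩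
  have ha := h2 a
  have hb := h2 b
  have hc := h2 c'
  have he := h2 e
  rw [habs _ (h1 a b hab), habs _ (h1 c' e hce), habs _ (h1 a c' (hab.trans hbc)),
    habs _ (h1 b e (hbc.trans hce))]
  set A := σ * D4 p q (c a) e'
  set B := σ * D4 p q (c b) e'
  set C := σ * D4 p q (c c') e'
  set E := σ * D4 p q (c e) e'
  have hprod : 0 < A * B * C * E := by positivity
  have h3 := mul_le_mul_of_nonneg_right h hprod.le
  have e1 : T * (σ * D4 p q (c a) (c b) / (A * B) * (σ * D4 p q (c c') (c e) / (C * E))) *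
      (A * B * C * E) = T * (σ * D4 p q (c a) (c b) * (σ * D4 p q (c c') (c e))) := by
    field_simp
  have e2 : (σ * D4 p q (c a) (c c') / (A * C) * (σ * D4 p q (c b) (c e) / (B * E))) *
      (A * B * C * E) = σ * D4 p q (c a) (c c') * (σ * D4 p q (c b) (c e)) := by
    field_simp
  rw [e1, e2] at h3
  exact h3

/-- In a generic array with homogeneous `pSign` all chains have the same sign. -/
theorem chain_sign {M : ℕ} (v : Fin M → Fin M → V4) (hg : Generic v) (hs : pSign.Homog v) :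
    ∃ σ : ℝ, |σ| = 1 ∧ ∀ a b : Fin 4 → Fin M, StrictMono a → StrictMono b →
      0 < σ * D4 (v (a 0) (b 0)) (v (a 1) (b 1)) (v (a 2) (b 2)) (v (a 3) (b 3)) := by
  have hne : ∀ a b : Fin 4 → Fin M, StrictMono a → StrictMono b →
      D4 (v (a 0) (b 0)) (v (a 1) (b 1)) (v (a 2) (b 2)) (v (a 3) (b 3)) ≠ 0 := by
    intro a b ha hb
    have hd : ∀ s t : Fin 4, s ≠ t → (a s, b s) ≠ (a t, b t) := by
      intro s t hst h
      exact hst (ha.injective (Prod.ext_iff.1 h).1)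
    exact hg (a 0, b 0) (a 1, b 1) (a 2, b 2) (a 3, b 3) (hd 0 1 (by decide)) (hd 0 2 (by decide))
      (hd 0 3 (by decide)) (hd 1 2 (by decide)) (hd 1 3 (by decide)) (hd 2 3 (by decide))
  by_cases hex : ∃ a b : Fin 4 → Fin M, StrictMono a ∧ StrictMono b ∧
      0 < D4 (v (a 0) (b 0)) (v (a 1) (b 1)) (v (a 2) (b 2)) (v (a 3) (b 3))
  · obtain ⟨a, b, ha, hb, h⟩ := hex
    refine ⟨1, by simp, fun a' b' ha' hb' => ?_⟩
    rw [one_mul]
    exact (hs a a' ha ha' b b' hb hb').1 h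
  · refine ⟨-1, by simp, fun a' b' ha' hb' => ?_⟩
    have h1 : ¬ 0 < D4 (v (a' 0) (b' 0)) (v (a' 1) (b' 1)) (v (a' 2) (b' 2)) (v (a' 3) (b' 3)) :=
      fun h => hex ⟨a', b', ha', hb', h⟩
    have h2 := hne a' b' ha' hb'
    rcases lt_or_gt_of_ne h2 with h3 | h3
    · linarith
    · exact absurd h3 h1

theorem sm4 {M : ℕ} (a b c d : Fin M) (h1 : a < b) (h2 : b < c) (h3 : c < d) :
    StrictMono ![a, b, c, d] := by
  rw [Fin.strictMono_iff_lt_succ]
  intro i
  fin_cases i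
  exacts [h1, h2, h3]

theorem sm6 {M : ℕ} (a b c d e f : Fin M) (h1 : a < b) (h2 : b < c) (h3 : c < d) (h4 : d < e)
    (h5 : e < f) : StrictMono ![a, b, c, d, e, f] := by
  rw [Fin.strictMono_iff_lt_succ]
  intro i
  fin_cases i
  exacts [h1, h2, h3, h4, h5]

theorem sm8 {M : ℕ} (a b c d e f g h : Fin M) (h1 : a < b) (h2 : b < c) (h3 : c < d) (h4 : d < e)
    (h5 : e < f) (h6 : f < g) (h7 : g < h) : StrictMono ![a, b, c, d, e, f, g, h] := by
  rw [Fin.strictMono_iff_lt_succ]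
  intro i
  fin_cases i
  exacts [h1, h2, h3, h4, h5, h6, h7]

theorem abs_k0 (t a p q : V4) : |D4 t a p q| = |D4 p q a t| := by
  rw [D4_shift, (rowP3 p q t a).2.2, abs_neg]

theorem abs_k0' (t a p q : V4) : |D4 t a p q| = |D4 p q t a| := by
  rw [D4_shift]

theorem abs_k1 (t p a q : V4) : |D4 t p a q| = |D4 p q a t| := by
  rw [D4_mid p q a t, (rowP3 t p a q).1, (rowP3 p t a q).2.1, neg_neg]

theorem abs_k1' (t p a q : V4) : |D4 t p a q| = |D4 p q t a| := by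
  rw [abs_k1, (rowP3 p q a t).2.2, abs_neg]

theorem abs_k2 (t p q a : V4) : |D4 t p q a| = |D4 p q a t| := by
  rw [D4_14, abs_neg]

theorem abs_k2' (t p q a : V4) : |D4 t p q a| = |D4 p q t a| := by
  rw [abs_k2, (rowP3 p q a t).2.2, abs_neg]

/-- ROW C. -/
theorem rowC (T : ℝ) (hT : 1 ≤ T) {M : ℕ} (Z : ℕ) (hZ : 2 * T + 6 ≤ Z) (hM : Z + 3 ≤ M)
    (v : Fin M → Fin M → V4) (hg : Generic v) (hs : pSign.Homog v) (k : Fin 3)
    (hk : (pG T k).Homog v) (a b : Fin 6 → Fin M) (ha : StrictMono a) (hb : StrictMono b) :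
    (pG T k).P (fun s t => v (a s) (b t)) := by
  obtain ⟨σ, hσ, hch⟩ := chain_sign v hg hs
  let ix : (s : ℕ) → s < M → Fin M := fun s h => ⟨s, h⟩
  -- diagonal chains
  have hdg : ∀ i j l q : Fin M, i < j → j < l → l < q →
      0 < σ * D4 (v i i) (v j j) (v l l) (v q q) := by
    intro i j l q h1 h2 h3
    exact hch ![i, j, l, q] ![i, j, l, q] (sm4 i j l q h1 h2 h3) (sm4 i j l q h1 h2 h3)
  fin_cases k
  · -- k = 0
    let P : Fin M := ⟨M - 2, by omega⟩
    let Q : Fin M := ⟨M - 1, by omega⟩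
    let c : Fin Z → Fin M := fun s => ⟨s.1, by omega⟩
    let E : Fin M := ⟨Z, by omega⟩
    have hPQ : P < Q := by simp only [P, Q, Fin.mk_lt_mk]; omega
    have hcP : ∀ s, c s < P := by intro s; simp only [P, c, Fin.mk_lt_mk]; omega
    have hcE : ∀ s, c s < E := by intro s; simp only [E, c, Fin.mk_lt_mk]; omega
    have hEP : E < P := by simp only [E, P, Fin.mk_lt_mk]; omega
    obtain ⟨x, y, z, w, hxy, hyz, hzw, h⟩ := grow_exists (v P P) (v Q Q) (v E E) Z T hT hZ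
      (fun s => v (c s) (c s)) σ hσ
      (by
        intro s t hst
        rw [D4_shift]
        exact hdg _ _ _ _ (by simpa [c] using hst) (hcP t) hPQ)
      (by
        intro s
        rw [D4_shift]
        exact hdg _ _ _ _ (hcE s) hEP hPQ)
    have hcm : ∀ s t : Fin Z, s < t → c s < c t := by intro s t hst; simpa [c] using hst
    have hsm := sm6 (c x) (c y) (c z) (c w) P Q (hcm _ _ hxy) (hcm _ _ hyz) (hcm _ _ hzw) (hcP w) hPQ
    refine (hk _ a hsm ha _ b hsm hb).1 ?_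
    change T * (|D4 (v (c y) (c y)) (v (c x) (c x)) (v P P) (v Q Q)| *
      |D4 (v (c z) (c z)) (v (c w) (c w)) (v P P) (v Q Q)|) ≤
      |D4 (v (c z) (c z)) (v (c x) (c x)) (v P P) (v Q Q)| *
      |D4 (v (c y) (c y)) (v (c w) (c w)) (v P P) (v Q Q)|
    rw [abs_k0 (v (c y) (c y)), abs_k0' (v (c z) (c z)) (v (c w) (c w)), abs_k0 (v (c z) (c z)),
      abs_k0' (v (c y) (c y)) (v (c w) (c w))]
    exact h
  · -- k = 1
    let P : Fin M := ⟨0, by omega⟩
    let Q : Fin M := ⟨M - 1, by omega⟩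
    let c : Fin Z → Fin M := fun s => ⟨s.1 + 1, by omega⟩
    let E : Fin M := ⟨Z + 1, by omega⟩
    have hPc : ∀ s, P < c s := by intro s; simp only [P, c, Fin.mk_lt_mk]; omega
    have hcQ : ∀ s, c s < Q := by intro s; simp only [Q, c, Fin.mk_lt_mk]; omega
    have hcE : ∀ s, c s < E := by intro s; simp only [E, c, Fin.mk_lt_mk]; omega
    have hEQ : E < Q := by simp only [E, Q, Fin.mk_lt_mk]; omega
    have hcm : ∀ s t : Fin Z, s < t → c s < c t := by intro s t hst; simpa [c] using hst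
    obtain ⟨x, y, z, w, hxy, hyz, hzw, h⟩ := grow_exists (v P P) (v Q Q) (v E E) Z T hT hZ
      (fun s => v (c s) (c s)) σ hσ
      (by
        intro s t hst
        rw [D4_mid]
        exact hdg _ _ _ _ (hPc s) (hcm _ _ hst) (hcQ t))
      (by
        intro s
        rw [D4_mid]
        exact hdg _ _ _ _ (hPc s) (hcE s) hEQ)
    have hsm := sm6 P (c x) (c y) (c z) (c w) Q (hPc x) (hcm _ _ hxy) (hcm _ _ hyz)
      (hcm _ _ hzw) (hcQ w)
    refine (hk _ a hsm ha _ b hsm hb).1 ?_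
    change T * (|D4 (v (c y) (c y)) (v P P) (v (c x) (c x)) (v Q Q)| *
      |D4 (v (c z) (c z)) (v P P) (v (c w) (c w)) (v Q Q)|) ≤
      |D4 (v (c z) (c z)) (v P P) (v (c x) (c x)) (v Q Q)| *
      |D4 (v (c y) (c y)) (v P P) (v (c w) (c w)) (v Q Q)|
    rw [abs_k1 (v (c y) (c y)) _ (v (c x) (c x)), abs_k1' (v (c z) (c z)) _ (v (c w) (c w)),
      abs_k1 (v (c z) (c z)) _ (v (c x) (c x)), abs_k1' (v (c y) (c y)) _ (v (c w) (c w))]
    exact h
  · -- k = 2
    let P : Fin M := ⟨0, by omega⟩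
    let Q : Fin M := ⟨1, by omega⟩
    let c : Fin Z → Fin M := fun s => ⟨s.1 + 2, by omega⟩
    let E : Fin M := ⟨Z + 2, by omega⟩
    have hPQ : P < Q := by simp only [P, Q, Fin.mk_lt_mk]; omega
    have hQc : ∀ s, Q < c s := by intro s; simp only [Q, c, Fin.mk_lt_mk]; omega
    have hcE : ∀ s, c s < E := by intro s; simp only [E, c, Fin.mk_lt_mk]; omega
    have hcm : ∀ s t : Fin Z, s < t → c s < c t := by intro s t hst; simpa [c] using hst
    obtain ⟨x, y, z, w, hxy, hyz, hzw, h⟩ := grow_exists (v P P) (v Q Q) (v E E) Z T hT hZ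
      (fun s => v (c s) (c s)) σ hσ
      (fun s t hst => hdg _ _ _ _ hPQ (hQc s) (hcm _ _ hst))
      (fun s => hdg _ _ _ _ hPQ (hQc s) (hcE s))
    have hsm := sm6 P Q (c x) (c y) (c z) (c w) hPQ (hQc x) (hcm _ _ hxy) (hcm _ _ hyz)
      (hcm _ _ hzw)
    refine (hk _ a hsm ha _ b hsm hb).1 ?_
    change T * (|D4 (v (c y) (c y)) (v P P) (v Q Q) (v (c x) (c x))| *
      |D4 (v (c z) (c z)) (v P P) (v Q Q) (v (c w) (c w))|) ≤
      |D4 (v (c z) (c z)) (v P P) (v Q Q) (v (c x) (c x))| *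
      |D4 (v (c y) (c y)) (v P P) (v Q Q) (v (c w) (c w))|
    rw [abs_k2 (v (c y) (c y)) _ _ (v (c x) (c x)), abs_k2' (v (c z) (c z)) _ _ (v (c w) (c w)),
      abs_k2 (v (c z) (c z)) _ _ (v (c x) (c x)), abs_k2' (v (c y) (c y)) _ _ (v (c w) (c w))]
    exact h

end Pool.Agent.BIP
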