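import Pool.Agent.BIP.Defs

/-! Row E1: a point of a triangle (in homogeneous form). -/

set_option autoImplicit false

namespace Pool.Agent.BIP

theorem e1_core (t X M x0 x1 x2 m0 m1 m2 : ℝ) (ht : 3 ≤ t) (hX : 0 < X) (hM : 0 < M)
    (hx0 : 0 < x0) (hx1 : 0 < x1) (hx2 : 0 < x2) (hm0 : 0 < m0) (hm1 : 0 < m1) (hm2 : 0 < m2)
    (h1 : t * x0 ≤ X) (h2 : t * X ≤ x1) (h3 : x1 ≤ x2) (h4 : m0 ≤ m1) (h5 : t * m1 ≤ M)
    (h6 : t * M ≤ m2) :
    0 ≤ (x1 - X) * (m2 * x2 - M * X) - (x2 - X) * (m1 * x1 - M * X) ∧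
    0 < (x2 - X) * (m0 * x0 - M * X) - (x0 - X) * (m2 * x2 - M * X) ∧
    0 ≤ (x0 - X) * (m1 * x1 - M * X) - (x1 - X) * (m0 * x0 - M * X) := by
  have ht0 : 0 < t := by linarith
  have hx1X : 3 * X ≤ x1 := by nlinarith
  have hx2X : 3 * X ≤ x2 := by linarith
  have hx0X : 3 * x0 ≤ X := by nlinarith
  have hm1M : 3 * m1 ≤ M := by nlinarith
  have hm2M : 3 * M ≤ m2 := by nlinarith
  have hMX : 0 < M * X := mul_pos hM hX
  -- upper bound of `m1 x1`, lower bound of `m2 x2`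
  have hb1 : 3 * (m1 * x1) ≤ M * x1 := by nlinarith
  have hb2 : 3 * (M * x2) ≤ m2 * x2 := by nlinarith
  have hb0 : 9 * (m0 * x0) ≤ M * X := by
    have e1 : 3 * m0 ≤ M := by linarith
    calc 9 * (m0 * x0) = (3 * m0) * (3 * x0) := by ring
      _ ≤ M * X := mul_le_mul e1 hx0X (by positivity) hM.le
  refine ⟨?_, ?_, ?_⟩
  · have e1 : (x1 - X) * (3 * (M * x2) - M * X) ≤ (x1 - X) * (m2 * x2 - M * X) :=
      mul_le_mul_of_nonneg_left (by linarith) (by linarith)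
    have e2 : (x2 - X) * (m1 * x1 - M * X) ≤ (x2 - X) * (M * x1 / 3 - M * X) :=
      mul_le_mul_of_nonneg_left (by linarith) (by linarith)
    have e3 : 0 ≤ (x1 - X) * (3 * (M * x2) - M * X) - (x2 - X) * (M * x1 / 3 - M * X) := by
      have e4 : (x1 - X) * (3 * (M * x2) - M * X) - (x2 - X) * (M * x1 / 3 - M * X) =
          M * (8 / 3 * (x1 * x2) - 2 / 3 * (x1 * X) - 2 * (x2 * X)) := by ring
      rw [e4]
      refine mul_nonneg hM.le ?_
      have e5 : x1 * X ≤ x1 * x2 := mul_le_mul_of_nonneg_left (by linarith) hx1.le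
      have e6 : 3 * (x2 * X) ≤ x1 * x2 := by nlinarith
      nlinarith
    linarith
  · have e1 : 3 * (M * x2) - M * X ≤ m2 * x2 - M * X := by linarith
    have e2 : 2 / 3 * X ≤ X - x0 := by linarith
    have e3 : 2 / 3 * X * (3 * (M * x2) - M * X) ≤ (X - x0) * (m2 * x2 - M * X) := by
      refine mul_le_mul e2 e1 ?_ (by linarith)
      nlinarith
    have e4 : (x2 - X) * (M * X - m0 * x0) ≤ (x2 - X) * (M * X) := by
      refine mul_le_mul_of_nonneg_left ?_ (by linarith)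
      have := mul_pos hm0 hx0
      linarith
    have e5 : (x2 - X) * (M * X) < 2 / 3 * X * (3 * (M * x2) - M * X) := by
      have e6 : 2 / 3 * X * (3 * (M * x2) - M * X) - (x2 - X) * (M * X) =
          (M * X) * (x2 + X / 3) := by ring
      have e7 : 0 < (M * X) * (x2 + X / 3) := by positivity
      linarith
    nlinarith
  · have e1 : (x1 - X) * (8 / 9 * (M * X)) ≤ (x1 - X) * (M * X - m0 * x0) := by
      refine mul_le_mul_of_nonneg_left (by linarith) (by linarith)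
    have e2 : (X - x0) * (m1 * x1 - M * X) ≤ (x1 - X) * (8 / 9 * (M * X)) := by
      rcases le_total (m1 * x1 - M * X) 0 with h | h
      · have e3 : (X - x0) * (m1 * x1 - M * X) ≤ 0 :=
          mul_nonpos_of_nonneg_of_nonpos (by linarith) h
        have e4 : 0 ≤ (x1 - X) * (8 / 9 * (M * X)) :=
          mul_nonneg (by linarith) (by positivity)
        linarith
      · have e3 : (X - x0) * (m1 * x1 - M * X) ≤ X * (M * x1 / 3 - M * X) :=
          mul_le_mul (by linarith) (by linarith) h hX.le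
        have e4 : X * (M * x1 / 3 - M * X) ≤ (x1 - X) * (8 / 9 * (M * X)) := by
          have e5 : (x1 - X) * (8 / 9 * (M * X)) - X * (M * x1 / 3 - M * X) =
              (M * X) * (5 / 9 * x1 + X / 9) := by ring
          have e6 : 0 < (M * X) * (5 / 9 * x1 + X / 9) := by positivity
          linarith
        linarith
    nlinarith

/-- ROW E1. A point of a triangle (in homogeneous form). -/
theorem rowE1 (t X M : ℝ) (ht : 3 ≤ t) (hX : 0 < X) (hM : 0 < M) (u v w : Fin 3 → ℝ)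
    (hu : ∀ s, 0 < u s) (hv : ∀ s, 0 < v s) (hw : ∀ s, 0 < w s)
    (h1 : t * (v 0 / u 0) ≤ X) (h2 : t * X ≤ v 1 / u 1) (h3 : v 1 / u 1 ≤ v 2 / u 2)
    (h4 : w 0 / v 0 ≤ w 1 / v 1) (h5 : t * (w 1 / v 1) ≤ M) (h6 : t * M ≤ w 2 / v 2) :
    ∃ l : Fin 3 → ℝ, (∀ s, 0 ≤ l s) ∧ (∃ s, 0 < l s) ∧
      ∑ s, l s * v s = X * ∑ s, l s * u s ∧ ∑ s, l s * w s = M * X * ∑ s, l s * u s := by
  obtain ⟨x, hx⟩ : ∃ x : Fin 3 → ℝ, x = fun s => v s / u s := ⟨_, rfl⟩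
  obtain ⟨m, hm⟩ : ∃ m : Fin 3 → ℝ, m = fun s => w s / v s := ⟨_, rfl⟩
  have hxs : ∀ s, v s / u s = x s := fun s => by rw [hx]
  have hms : ∀ s, w s / v s = m s := fun s => by rw [hm]
  have hx0 : ∀ s, 0 < x s := fun s => by rw [← hxs]; exact div_pos (hv s) (hu s)
  have hm0 : ∀ s, 0 < m s := fun s => by rw [← hms]; exact div_pos (hw s) (hv s)
  have hvx : ∀ s, v s = x s * u s := fun s => by
    rw [← hxs, div_mul_cancel₀ _ (hu s).ne']
  have hwx : ∀ s, w s = m s * x s * u s := fun s => by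
    rw [mul_assoc, ← hvx, ← hms, div_mul_cancel₀ _ (hv s).ne']
  rw [hxs] at h1 h2 h3
  rw [hxs] at h3
  rw [hms] at h4 h5 h6
  rw [hms] at h4
  obtain ⟨c0, c1, c2⟩ := e1_core t X M (x 0) (x 1) (x 2) (m 0) (m 1) (m 2) ht hX hM (hx0 0)
    (hx0 1) (hx0 2) (hm0 0) (hm0 1) (hm0 2) h1 h2 h3 h4 h5 h6
  obtain ⟨μ0, hμ0⟩ : ∃ μ0, μ0 = (x 1 - X) * (m 2 * x 2 - M * X) -
    (x 2 - X) * (m 1 * x 1 - M * X) := ⟨_, rfl⟩
  obtain ⟨μ1, hμ1⟩ : ∃ μ1, μ1 = (x 2 - X) * (m 0 * x 0 - M * X) -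
    (x 0 - X) * (m 2 * x 2 - M * X) := ⟨_, rfl⟩
  obtain ⟨μ2, hμ2⟩ : ∃ μ2, μ2 = (x 0 - X) * (m 1 * x 1 - M * X) -
    (x 1 - X) * (m 0 * x 0 - M * X) := ⟨_, rfl⟩
  rw [← hμ0] at c0
  rw [← hμ1] at c1
  rw [← hμ2] at c2
  have hu0 := (hu 0).ne'
  have hu1 := (hu 1).ne'
  have hu2 := (hu 2).ne'
  refine ⟨![μ0 / u 0, μ1 / u 1, μ2 / u 2], ?_, ⟨1, ?_⟩, ?_, ?_⟩
  · intro s
    fin_cases s
    · exact div_nonneg c0 (hu 0).le
    · exact div_nonneg c1.le (hu 1).le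
    · exact div_nonneg c2 (hu 2).le
  · exact div_pos c1 (hu 1)
  · simp only [Fin.sum_univ_three, Matrix.cons_val_zero, Matrix.cons_val_one, Matrix.cons_val_two,
      Matrix.head_cons, Matrix.tail_cons, Matrix.cons_val]
    rw [hvx 0, hvx 1, hvx 2]
    have e0 : μ0 / u 0 * (x 0 * u 0) = μ0 * x 0 := by field_simp
    have e1 : μ1 / u 1 * (x 1 * u 1) = μ1 * x 1 := by field_simp
    have e2 : μ2 / u 2 * (x 2 * u 2) = μ2 * x 2 := by field_simp
    rw [e0, e1, e2, div_mul_cancel₀ _ hu0, div_mul_cancel₀ _ hu1, div_mul_cancel₀ _ hu2,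
      hμ0, hμ1, hμ2]
    ring
  · simp only [Fin.sum_univ_three, Matrix.cons_val_zero, Matrix.cons_val_one, Matrix.cons_val_two,
      Matrix.head_cons, Matrix.tail_cons, Matrix.cons_val]
    rw [hwx 0, hwx 1, hwx 2]
    have e0 : μ0 / u 0 * (m 0 * x 0 * u 0) = μ0 * (m 0 * x 0) := by field_simp
    have e1 : μ1 / u 1 * (m 1 * x 1 * u 1) = μ1 * (m 1 * x 1) := by field_simp
    have e2 : μ2 / u 2 * (m 2 * x 2 * u 2) = μ2 * (m 2 * x 2) := by field_simp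
    rw [e0, e1, e2, div_mul_cancel₀ _ hu0, div_mul_cancel₀ _ hu1, div_mul_cancel₀ _ hu2,
      hμ0, hμ1, hμ2]
    ring

end Pool.Agent.BIP
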