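import Pool.Agent.BIP.Defs
import Pool.Agent.BIP.RowE1

namespace Pool.Agent.BIP

open Finset

/-- The two forms of the line are independent. -/
theorem rowE2_indep (L : Fin 4 → (V4 →ₗ[ℝ] ℝ)) (hL : LinearIndependent ℝ L) (k l q : Fin 4)
    (hkl : k ≠ l) (hlq : l ≠ q) (hkq : k ≠ q) (a b : ℝ) :
    LinearIndependent ℝ ![L l - a • L k, L q - b • L k] := by
  rw [LinearIndependent.pair_iff]
  intro s t hst
  have h := (Fintype.linearIndependent_iff.1 hL)
    (fun i => if i = l then s else if i = q then t else if i = k then -(s * a) - t * b else 0) (by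
      have e : ∀ i : Fin 4, (if i = l then s else if i = q then t else
          if i = k then -(s * a) - t * b else 0) • L i =
          (if i = l then s • L l else 0) + (if i = q then t • L q else 0) +
            (if i = k then (-(s * a) - t * b) • L k else 0) := by
        intro i
        by_cases h1 : i = l
        · subst h1
          simp [hlq, Ne.symm hkl]
        · by_cases h2 : i = q
          · subst h2
            simp [h1, Ne.symm hkq]
          · by_cases h3 : i = k
            · subst h3
              simp [h1, h2]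
            · simp [h1, h2, h3]
      rw [Finset.sum_congr rfl (fun i _ => e i), Finset.sum_add_distrib, Finset.sum_add_distrib]
      simp only [Finset.sum_ite_eq', Finset.mem_univ, if_true]
      rw [← hst]
      module)
  constructor
  · have := h l
    simpa using this
  · have := h q
    simpa [Ne.symm hlq] using this

/-- ROW E2. Monochromatic triangle: a line meets all columns. -/
theorem rowE2 {m n : ℕ} (hm : 3 ≤ m) (t : ℝ) (ht : 3 ≤ t) (v : Fin m → Fin n → V4)
    (L : Fin 4 → (V4 →ₗ[ℝ] ℝ)) (hL : LinearIndependent ℝ L)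
    (hpos : ∀ k i j, 0 < L k (v i j)) (k l q : Fin 4) (hkl : k ≠ l) (hlq : l ≠ q) (hkq : k ≠ q)
    (h1 : RowDom (t ^ 2) (fun i j => L l (v i j) / L k (v i j)))
    (h2 : RowDom (t ^ 2) (fun i j => L q (v i j) / L l (v i j))) :
    HitCols v n := by
  classical
  rcases Nat.eq_zero_or_pos n with hn | hn
  · refine ⟨L l - (0 : ℝ) • L k, L q - (0 : ℝ) • L k, rowE2_indep L hL k l q hkl hlq hkq 0 0, ∅, ?_,
      ?_⟩
    · rw [hn]; exact Nat.zero_le _
    · intro j hj
      exact absurd hj (notMem_empty j)
  haveI : Nonempty (Fin n) := ⟨⟨0, hn⟩⟩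
  set e : Fin 3 → Fin m := fun s => ⟨s.1, lt_of_lt_of_le s.2 hm⟩ with he
  have he01 : e 0 < e 1 := Fin.mk_lt_mk.2 (by norm_num)
  have he12 : e 1 < e 2 := Fin.mk_lt_mk.2 (by decide)
  have heinj : Function.Injective e := by
    intro a b hab
    rw [he] at hab
    have := Fin.mk.inj_iff.1 hab
    exact Fin.ext this
  set r : Fin m → Fin n → ℝ := fun i j => L l (v i j) / L k (v i j) with hr
  set s : Fin m → Fin n → ℝ := fun i j => L q (v i j) / L l (v i j) with hs
  have hrpos : ∀ i j, 0 < r i j := fun i j => div_pos (hpos l i j) (hpos k i j)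
  have hspos : ∀ i j, 0 < s i j := fun i j => div_pos (hpos q i j) (hpos l i j)
  obtain ⟨j0, hj0⟩ := Finite.exists_max (fun j => r (e 0) j)
  obtain ⟨j1, hj1⟩ := Finite.exists_max (fun j => s (e 1) j)
  have ht0 : 0 < t := by linarith
  have ht2 : 1 ≤ t ^ 2 := by nlinarith
  set X : ℝ := t * r (e 0) j0 with hX
  set M : ℝ := t * s (e 1) j1 with hM
  have hX0 : 0 < X := mul_pos ht0 (hrpos _ _)
  have hM0 : 0 < M := mul_pos ht0 (hspos _ _)
  refine ⟨L l - X • L k, L q - (M * X) • L k, rowE2_indep L hL k l q hkl hlq hkq X (M * X),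
    Finset.univ, by simp, ?_⟩
  intro j _
  obtain ⟨c, hc0, hcpos, hcv, hcw⟩ := rowE1 t X M ht hX0 hM0 (fun a => L k (v (e a) j))
    (fun a => L l (v (e a) j)) (fun a => L q (v (e a) j)) (fun a => hpos k _ _)
    (fun a => hpos l _ _) (fun a => hpos q _ _)
    (by
      rw [hX]
      exact mul_le_mul_of_nonneg_left (hj0 j) ht0.le)
    (by
      have := h1 (e 0) (e 1) j0 j he01
      rw [hX]
      calc t * (t * r (e 0) j0) = t ^ 2 * r (e 0) j0 := by ring
        _ ≤ _ := this)
    (by
      have := h1 (e 1) (e 2) j j he12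
      exact le_trans (le_mul_of_one_le_left (hrpos (e 1) j).le ht2) this)
    (by
      have := h2 (e 0) (e 1) j j he01
      exact le_trans (le_mul_of_one_le_left (hspos (e 0) j).le ht2) this)
    (by
      rw [hM]
      exact mul_le_mul_of_nonneg_left (hj1 j) ht0.le)
    (by
      have := h2 (e 1) (e 2) j1 j he12
      rw [hM]
      calc t * (t * s (e 1) j1) = t ^ 2 * s (e 1) j1 := by ring
        _ ≤ _ := this)
  refine ⟨fun i => ∑ a, if e a = i then c a else 0, ?_, ?_, ?_⟩
  · intro i
    apply Finset.sum_nonneg
    intro a _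
    split_ifs
    · exact hc0 a
    · exact le_rfl
  · obtain ⟨a, ha⟩ := hcpos
    refine ⟨e a, ?_⟩
    have h3 : c a ≤ ∑ b, if e b = e a then c b else 0 := by
      have h4 := Finset.single_le_sum (f := fun b => if e b = e a then c b else 0)
        (fun b _ => by split_ifs; exacts [hc0 b, le_rfl]) (Finset.mem_univ a)
      simpa using h4
    exact lt_of_lt_of_le ha h3
  · have hsum : ∑ i, (∑ a, if e a = i then c a else 0) • v i j = ∑ a, c a • v (e a) j := by
      simp only [Finset.sum_smul]
      rw [Finset.sum_comm]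
      apply Finset.sum_congr rfl
      intro a _
      rw [Finset.sum_eq_single (e a)]
      · simp
      · intro i _ hi
        rw [if_neg (Ne.symm hi), zero_smul]
      · intro h
        exact absurd (Finset.mem_univ _) h
    show _ ∧ _
    simp only [hsum]
    constructor
    · rw [LinearMap.sub_apply, LinearMap.smul_apply, map_sum, map_sum]
      simp only [map_smul, smul_eq_mul]
      linarith
    · rw [LinearMap.sub_apply, LinearMap.smul_apply, map_sum, map_sum]
      simp only [map_smul, smul_eq_mul]
      linarith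

end Pool.Agent.BIP
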