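import Pool.Agent.BIP.Defs

/-! Two families: Lemmas D and F of RED63: colourings of the six ratio arrays. -/

namespace Pool.Agent.BIP

/-- every value in a higher row is at least `T` times every value in a lower row -/
def RD57 {n : ℕ} (T : ℝ) (r : Fin n → Fin n → ℝ) : Prop :=
  ∀ i i' : Fin n, i < i' → ∀ j j' : Fin n, T * r i j ≤ r i' j'

/-- every value in a later column is at least `T` times every value in an earlier column -/
def CD57 {n : ℕ} (T : ℝ) (r : Fin n → Fin n → ℝ) : Prop :=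
  ∀ j j' : Fin n, j < j' → ∀ i i' : Fin n, T * r i j ≤ r i' j'

theorem f57_cd_swap {n : ℕ} (T : ℝ) (r : Fin n → Fin n → ℝ) :
    CD57 T r ↔ RD57 T (fun i j => r j i) := Iff.rfl

theorem f57_rd_swap {n : ℕ} (T : ℝ) (r : Fin n → Fin n → ℝ) :
    RD57 T r ↔ CD57 T (fun i j => r j i) := Iff.rfl

/-- an array cannot be both row- and column-dominated -/
theorem f57_not_both {n : ℕ} (hn : 2 ≤ n) (T : ℝ) (hT : 1 < T) (r : Fin n → Fin n → ℝ)
    (hr : ∀ i j, 0 < r i j) (h1 : RD57 T r) (h2 : CD57 T r) : False := by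
  have a := h1 ⟨0, by omega⟩ ⟨1, by omega⟩ (by simp) ⟨1, by omega⟩ ⟨0, by omega⟩
  have b := h2 ⟨0, by omega⟩ ⟨1, by omega⟩ (by simp) ⟨1, by omega⟩ ⟨0, by omega⟩
  have p1 := hr ⟨0, by omega⟩ ⟨1, by omega⟩
  have p2 := hr ⟨1, by omega⟩ ⟨0, by omega⟩
  nlinarith

theorem f57_rd_mul {n : ℕ} (T : ℝ) (hT : 1 < T) (r s : Fin n → Fin n → ℝ)
    (hr : ∀ i j, 0 < r i j) (hs : ∀ i j, 0 < s i j) (h1 : RD57 T r) (h2 : RD57 T s) :
    RD57 T (fun i j => r i j * s i j) := by
  intro i i' hi j j'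
  have a := h1 i i' hi j j'
  have b := h2 i i' hi j j'
  have hT0 : 0 < T := by linarith
  have c : (T * r i j) * (T * s i j) ≤ r i' j' * s i' j' :=
    mul_le_mul a b (mul_pos hT0 (hs i j)).le (hr i' j').le
  have d : 0 < r i j * s i j := mul_pos (hr i j) (hs i j)
  have e : T * (r i j * s i j) ≤ T * T * (r i j * s i j) := by
    apply mul_le_mul_of_nonneg_right _ d.le
    nlinarith
  calc T * (r i j * s i j) ≤ T * T * (r i j * s i j) := e
    _ = (T * r i j) * (T * s i j) := by ring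
    _ ≤ _ := c

/-- the two-path colouring is impossible (the hard part of Lemma F) -/
theorem f57_no_two_paths {n : ℕ} (hn : 7 ≤ n) (T : ℝ) (hT : 1 < T) (f g h : Fin n → Fin n → ℝ)
    (hf : ∀ i j, 0 < f i j) (hg : ∀ i j, 0 < g i j) (hh : ∀ i j, 0 < h i j)
    (rf : RD57 T f) (rh : RD57 T h) (rhgf : RD57 T (fun i j => h i j * g i j * f i j))
    (cg : CD57 T g) (cgf : CD57 T (fun i j => g i j * f i j))
    (chg : CD57 T (fun i j => h i j * g i j)) : False := by
  have hT0 : 0 < T := by linarith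
  obtain ⟨r, hr⟩ : ∃ r : Fin 7 → Fin n, StrictMono r :=
    ⟨Fin.castLE hn, Fin.strictMono_castLE hn⟩
  -- F = f h
  have hF : ∀ i j, 0 < f i j * h i j := fun i j => mul_pos (hf i j) (hh i j)
  -- LOWER for a triple of rows i < i2 < i3
  have lower : ∀ i i2 i3 : Fin n, r 0 < i → i < i2 → i2 < i3 → i2 < r 6 →
      T * g (r 0) (r 2) * (f i (r 3) * h i (r 3)) ≤ g (r 6) (r 1) * (f i3 (r 3) * h i3 (r 3)) := by
    intro i i2 i3 h0 h1 h2 h3
    have a := rhgf i i2 h1 (r 3) (r 0)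
    simp only at a
    have b := cg (r 2) (r 3) (hr (by decide)) (r 0) i
    have c := cg (r 0) (r 1) (hr (by decide)) i2 (r 6)
    have d := rf i2 i3 h2 (r 0) (r 3)
    have e := rh i2 i3 h2 (r 0) (r 3)
    have F1 := hF i (r 3)
    have F2 := hF i2 (r 0)
    have F3 := hF i3 (r 3)
    -- chain
    have s1 : T * g (r 0) (r 2) * (f i (r 3) * h i (r 3)) ≤ g i (r 3) * (f i (r 3) * h i (r 3)) :=
      mul_le_mul_of_nonneg_right b F1.le
    have s2 : T * (g i (r 3) * (f i (r 3) * h i (r 3))) ≤ g i2 (r 0) * (f i2 (r 0) * h i2 (r 0)) := by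
      linarith
    have s3 : g i2 (r 0) * (f i2 (r 0) * h i2 (r 0)) ≤ g (r 6) (r 1) * (f i2 (r 0) * h i2 (r 0)) := by
      apply mul_le_mul_of_nonneg_right _ F2.le
      nlinarith [hg i2 (r 0)]
    have s4 : f i2 (r 0) * h i2 (r 0) ≤ f i3 (r 3) * h i3 (r 3) := by
      apply mul_le_mul _ _ (hh _ _).le (hf _ _).le
      · nlinarith [hf i2 (r 0)]
      · nlinarith [hh i2 (r 0)]
    have s5 : g (r 6) (r 1) * (f i2 (r 0) * h i2 (r 0)) ≤ g (r 6) (r 1) * (f i3 (r 3) * h i3 (r 3)) :=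
      mul_le_mul_of_nonneg_left s4 (hg _ _).le
    have s6 : 0 < g i (r 3) * (f i (r 3) * h i (r 3)) := mul_pos (hg _ _) F1
    nlinarith
  have L1 := lower (r 1) (r 2) (r 3) (hr (by decide)) (hr (by decide)) (hr (by decide)) (hr (by decide))
  have L2 := lower (r 3) (r 4) (r 5) (hr (by decide)) (hr (by decide)) (hr (by decide)) (hr (by decide))
  -- UPPER
  have U1 : g (r 6) (r 1) * f (r 5) (r 3) ≤ g (r 0) (r 2) * f (r 1) (r 3) := by
    have a := cgf (r 1) (r 2) (hr (by decide)) (r 6) (r 0)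
    simp only at a
    have b := rf (r 5) (r 6) (hr (by decide)) (r 3) (r 1)
    have c := rf (r 0) (r 1) (hr (by decide)) (r 2) (r 3)
    have p1 : g (r 6) (r 1) * f (r 5) (r 3) ≤ g (r 6) (r 1) * f (r 6) (r 1) := by
      apply mul_le_mul_of_nonneg_left _ (hg _ _).le
      nlinarith [hf (r 5) (r 3)]
    have p2 : g (r 0) (r 2) * f (r 0) (r 2) ≤ g (r 0) (r 2) * f (r 1) (r 3) := by
      apply mul_le_mul_of_nonneg_left _ (hg _ _).le
      nlinarith [hf (r 0) (r 2)]
    have p3 : 0 < g (r 6) (r 1) * f (r 6) (r 1) := mul_pos (hg _ _) (hf _ _)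
    nlinarith
  have U2 : g (r 6) (r 1) * h (r 5) (r 3) ≤ g (r 0) (r 2) * h (r 1) (r 3) := by
    have a := chg (r 1) (r 2) (hr (by decide)) (r 6) (r 0)
    simp only at a
    have b := rh (r 5) (r 6) (hr (by decide)) (r 3) (r 1)
    have c := rh (r 0) (r 1) (hr (by decide)) (r 2) (r 3)
    have p1 : g (r 6) (r 1) * h (r 5) (r 3) ≤ g (r 6) (r 1) * h (r 6) (r 1) := by
      apply mul_le_mul_of_nonneg_left _ (hg _ _).le
      nlinarith [hh (r 5) (r 3)]
    have p2 : g (r 0) (r 2) * h (r 0) (r 2) ≤ g (r 0) (r 2) * h (r 1) (r 3) := by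
      apply mul_le_mul_of_nonneg_left _ (hg _ _).le
      nlinarith [hh (r 0) (r 2)]
    have p3 : 0 < g (r 6) (r 1) * h (r 6) (r 1) := mul_pos (hg _ _) (hh _ _)
    nlinarith
  -- contradiction: G = g(r6,r1), K = g(r0,r2), F1, F3, F5
  set G := g (r 6) (r 1) with hG
  set K := g (r 0) (r 2) with hK
  set F1 := f (r 1) (r 3) * h (r 1) (r 3) with hF1
  set F3 := f (r 3) (r 3) * h (r 3) (r 3) with hF3
  set F5 := f (r 5) (r 3) * h (r 5) (r 3) with hF5
  have hG0 : 0 < G := hg _ _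
  have hK0 : 0 < K := hg _ _
  have hF10 : 0 < F1 := hF _ _
  have hF30 : 0 < F3 := hF _ _
  have hF50 : 0 < F5 := hF _ _
  have U : G * G * F5 ≤ K * K * F1 := by
    have := mul_le_mul U1 U2 (mul_pos hG0 (hh _ _)).le (mul_pos hK0 (hf _ _)).le
    calc G * G * F5 = G * f (r 5) (r 3) * (G * h (r 5) (r 3)) := by rw [hF5]; ring
      _ ≤ K * f (r 1) (r 3) * (K * h (r 1) (r 3)) := this
      _ = K * K * F1 := by rw [hF1]; ring
  -- L1 : T K F1 ≤ G F3 ; L2 : T K F3 ≤ G F5
  have M : (T * K) * (T * K * F1) ≤ G * (G * F5) := by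
    calc (T * K) * (T * K * F1) ≤ (T * K) * (G * F3) :=
          mul_le_mul_of_nonneg_left L1 (mul_pos hT0 hK0).le
      _ = G * (T * K * F3) := by ring
      _ ≤ G * (G * F5) := mul_le_mul_of_nonneg_left L2 hG0.le
  have Z : 0 < K * K * F1 := mul_pos (mul_pos hK0 hK0) hF10
  have Q : T * T * (K * K * F1) ≤ 1 * (K * K * F1) := by
    calc T * T * (K * K * F1) = (T * K) * (T * K * F1) := by ring
      _ ≤ G * (G * F5) := M
      _ = G * G * F5 := by ring
      _ ≤ K * K * F1 := U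
      _ = 1 * (K * K * F1) := by ring
  have := le_of_mul_le_mul_right Q Z
  nlinarith

/-- the array `x^l / x^k` -/
noncomputable def f57rat {n : ℕ} (x : Fin 4 → Fin n → Fin n → ℝ) (k l : Fin 4) : Fin n → Fin n → ℝ :=
  fun i j => x l i j / x k i j

/-- exchange rows and columns -/
def f57tr {n : ℕ} (r : Fin n → Fin n → ℝ) : Fin n → Fin n → ℝ := fun i j => r j i

theorem f57_no_two_paths' {n : ℕ} (hn : 7 ≤ n) (T : ℝ) (hT : 1 < T) (x : Fin 4 → Fin n → Fin n → ℝ)
    (hx : ∀ k i j, 0 < x k i j) (h01 : RD57 T (f57rat x 0 1)) (h23 : RD57 T (f57rat x 2 3))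
    (h03 : RD57 T (f57rat x 0 3)) (h12 : CD57 T (f57rat x 1 2)) (h02 : CD57 T (f57rat x 0 2))
    (h13 : CD57 T (f57rat x 1 3)) : False := by
  refine f57_no_two_paths hn T hT (f57rat x 0 1) (f57rat x 1 2) (f57rat x 2 3)
    (fun i j => div_pos (hx _ _ _) (hx _ _ _)) (fun i j => div_pos (hx _ _ _) (hx _ _ _))
    (fun i j => div_pos (hx _ _ _) (hx _ _ _)) h01 h23 ?_ h12 ?_ ?_
  · have : (fun i j => f57rat x 2 3 i j * f57rat x 1 2 i j * f57rat x 0 1 i j) = f57rat x 0 3 := by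
      funext i j
      have a := (hx 0 i j).ne'
      have b := (hx 1 i j).ne'
      have c := (hx 2 i j).ne'
      simp only [f57rat]
      field_simp
    rw [this]; exact h03
  · have : (fun i j => f57rat x 1 2 i j * f57rat x 0 1 i j) = f57rat x 0 2 := by
      funext i j
      have a := (hx 0 i j).ne'
      have b := (hx 1 i j).ne'
      simp only [f57rat]
      field_simp
    rw [this]; exact h02
  · have : (fun i j => f57rat x 2 3 i j * f57rat x 1 2 i j) = f57rat x 1 3 := by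
      funext i j
      have a := (hx 1 i j).ne'
      have b := (hx 2 i j).ne'
      simp only [f57rat]
      field_simp
    rw [this]; exact h13

/-- **Lemma F** (with D): a colouring without a monochromatic path `k < l < m` is of Segre type. -/
theorem f57_lemmaF {n : ℕ} (hn : 7 ≤ n) (T : ℝ) (hT : 1 < T) (x : Fin 4 → Fin n → Fin n → ℝ)
    (hx : ∀ k i j, 0 < x k i j)
    (hcol : ∀ k l : Fin 4, k < l → RD57 T (f57rat x k l) ∨ CD57 T (f57rat x k l))
    (hR : ∀ k l m : Fin 4, k < l → l < m → ¬ (RD57 T (f57rat x k l) ∧ RD57 T (f57rat x l m)))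
    (hC : ∀ k l m : Fin 4, k < l → l < m → ¬ (CD57 T (f57rat x k l) ∧ CD57 T (f57rat x l m))) :
    (CD57 T (f57rat x 0 1) ∧ CD57 T (f57rat x 2 3) ∧ RD57 T (f57rat x 0 2) ∧ RD57 T (f57rat x 0 3) ∧
      RD57 T (f57rat x 1 2) ∧ RD57 T (f57rat x 1 3)) ∨
    (RD57 T (f57rat x 0 1) ∧ RD57 T (f57rat x 2 3) ∧ CD57 T (f57rat x 0 2) ∧ CD57 T (f57rat x 0 3) ∧
      CD57 T (f57rat x 1 2) ∧ CD57 T (f57rat x 1 3)) := by
  rcases hcol 0 1 (by decide) with a | a
  · right
    have b : CD57 T (f57rat x 1 2) :=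
      (hcol 1 2 (by decide)).resolve_left fun h => hR 0 1 2 (by decide) (by decide) ⟨a, h⟩
    have c : RD57 T (f57rat x 2 3) :=
      (hcol 2 3 (by decide)).resolve_right fun h => hC 1 2 3 (by decide) (by decide) ⟨b, h⟩
    have d : CD57 T (f57rat x 0 2) :=
      (hcol 0 2 (by decide)).resolve_left fun h => hR 0 2 3 (by decide) (by decide) ⟨h, c⟩
    have e : CD57 T (f57rat x 1 3) :=
      (hcol 1 3 (by decide)).resolve_left fun h => hR 0 1 3 (by decide) (by decide) ⟨a, h⟩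
    have f : CD57 T (f57rat x 0 3) :=
      (hcol 0 3 (by decide)).resolve_left fun h => f57_no_two_paths' hn T hT x hx a c h b d e
    exact ⟨a, c, d, f, b, e⟩
  · left
    have b : RD57 T (f57rat x 1 2) :=
      (hcol 1 2 (by decide)).resolve_right fun h => hC 0 1 2 (by decide) (by decide) ⟨a, h⟩
    have c : CD57 T (f57rat x 2 3) :=
      (hcol 2 3 (by decide)).resolve_left fun h => hR 1 2 3 (by decide) (by decide) ⟨b, h⟩
    have d : RD57 T (f57rat x 0 2) :=
      (hcol 0 2 (by decide)).resolve_right fun h => hC 0 2 3 (by decide) (by decide) ⟨h, c⟩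
    have e : RD57 T (f57rat x 1 3) :=
      (hcol 1 3 (by decide)).resolve_right fun h => hC 0 1 3 (by decide) (by decide) ⟨a, h⟩
    have f : RD57 T (f57rat x 0 3) :=
      (hcol 0 3 (by decide)).resolve_right fun h =>
        f57_no_two_paths' hn T hT (fun k => f57tr (x k)) (fun k i j => hx k j i) a c h b d e
    exact ⟨a, c, d, f, b, e⟩


theorem f57_row {n : ℕ} (T : ℝ) (r : Fin n → Fin n → ℝ) : RD57 T r ↔ RowDom T r :=
  ⟨fun h i i' j j' hi => h i i' hi j j', fun h i i' hi j j' => h i i' j j' hi⟩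

theorem f57_col {n : ℕ} (T : ℝ) (r : Fin n → Fin n → ℝ) : CD57 T r ↔ ColDom T r :=
  ⟨fun h i i' j j' hj => h j j' hj i i', fun h j j' hj i i' => h i i' j j' hj⟩

/-- ROW F. Colourings of `K₄`. -/
theorem rowF {n : ℕ} (hn : 7 ≤ n) (T : ℝ) (hT : 1 < T) (x : Fin 4 → Fin n → Fin n → ℝ)
    (hpos : ∀ k i j, 0 < x k i j)
    (hcol : ∀ k l : Fin 4, k < l → RowDom T (fun i j => x l i j / x k i j) ∨
      ColDom T (fun i j => x l i j / x k i j)) :
    (∃ k l q : Fin 4, k < l ∧ l < q ∧ RowDom T (fun i j => x l i j / x k i j) ∧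
      RowDom T (fun i j => x q i j / x l i j)) ∨
    (∃ k l q : Fin 4, k < l ∧ l < q ∧ ColDom T (fun i j => x l i j / x k i j) ∧
      ColDom T (fun i j => x q i j / x l i j)) ∨
    Segre T x ∨ Segre T (fun k i j => x k j i) := by
  by_cases hR : ∃ k l q : Fin 4, k < l ∧ l < q ∧ RowDom T (fun i j => x l i j / x k i j) ∧
      RowDom T (fun i j => x q i j / x l i j)
  · exact Or.inl hR
  by_cases hC : ∃ k l q : Fin 4, k < l ∧ l < q ∧ ColDom T (fun i j => x l i j / x k i j) ∧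
      ColDom T (fun i j => x q i j / x l i j)
  · exact Or.inr (Or.inl hC)
  refine Or.inr (Or.inr ?_)
  rcases f57_lemmaF hn T hT x hpos
    (fun k l hkl => (hcol k l hkl).imp (f57_row T _).2 (f57_col T _).2)
    (fun k l m hkl hlm h => hR ⟨k, l, m, hkl, hlm, (f57_row T _).1 h.1, (f57_row T _).1 h.2⟩)
    (fun k l m hkl hlm h => hC ⟨k, l, m, hkl, hlm, (f57_col T _).1 h.1, (f57_col T _).1 h.2⟩)
    with h | h
  · obtain ⟨a, b, c, d, e, f⟩ := h
    left
    exact ⟨(f57_col T _).1 a, (f57_col T _).1 b, (f57_row T _).1 c, (f57_row T _).1 d,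
      (f57_row T _).1 e, (f57_row T _).1 f⟩
  · obtain ⟨a, b, c, d, e, f⟩ := h
    right
    exact ⟨fun i i' j j' hj => a j j' hj i i', fun i i' j j' hj => b j j' hj i i',
      fun i i' j j' hi => c i i' hi j j', fun i i' j j' hi => d i i' hi j j',
      fun i i' j j' hi => e i i' hi j j', fun i i' j j' hi => f i i' hi j j'⟩

end Pool.Agent.BIP
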