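import Pool.Agent.BIP.RowB
import Pool.Agent.BIP.RowC
import Pool.Agent.BIP.RowE2
import Pool.Agent.BIP.RowF
import Pool.Agent.BIP.RowH
import Pool.Agent.BIP.RowS

namespace Pool.Agent.BIP

/-- the four coordinates (determinants). -/
noncomputable def XX (m n : Fin 3 → V4) (k : Fin 4) (v : V4) : ℝ :=
  ![D4 v (n 0) (n 1) (n 2), D4 v (m 0) (n 1) (n 2), D4 v (m 0) (m 1) (n 2),
    D4 v (m 0) (m 1) (m 2)] k

/-- comparison along anti-diagonals, first form. -/
noncomputable def pB1 (T : ℝ) (k l : Fin 4) : GPred := ⟨8, 8, fun w =>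
  T * (|XX ![w 0 0, w 1 1, w 2 2] ![w 5 5, w 6 6, w 7 7] l (w 3 4)| *
      |XX ![w 0 0, w 1 1, w 2 2] ![w 5 5, w 6 6, w 7 7] k (w 4 3)|) ≤
    |XX ![w 0 0, w 1 1, w 2 2] ![w 5 5, w 6 6, w 7 7] l (w 4 3)| *
      |XX ![w 0 0, w 1 1, w 2 2] ![w 5 5, w 6 6, w 7 7] k (w 3 4)|⟩

/-- comparison along anti-diagonals, second form. -/
noncomputable def pB2 (T : ℝ) (k l : Fin 4) : GPred := ⟨8, 8, fun w =>
  T * (|XX ![w 0 0, w 1 1, w 2 2] ![w 5 5, w 6 6, w 7 7] l (w 4 3)| *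
      |XX ![w 0 0, w 1 1, w 2 2] ![w 5 5, w 6 6, w 7 7] k (w 3 4)|) ≤
    |XX ![w 0 0, w 1 1, w 2 2] ![w 5 5, w 6 6, w 7 7] l (w 3 4)| *
      |XX ![w 0 0, w 1 1, w 2 2] ![w 5 5, w 6 6, w 7 7] k (w 4 3)|⟩

/-- all the pairs `(k, l)`. -/
def prs : List (Fin 4 × Fin 4) := [(0, 1), (0, 2), (0, 3), (1, 2), (1, 3), (2, 3)]

/-- The list of predicates. -/
noncomputable def preds (T T₁ : ℝ) : List GPred :=
  pSign :: pG T₁ 0 :: pG T₁ 1 :: pG T₁ 2 :: (prs.map (fun q => pB1 T q.1 q.2) ++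
    prs.map (fun q => pB2 T q.1 q.2))

/-- Scalar form of the output of the Ramsey step. -/
theorem scalar_step (n : ℕ) (T : ℝ) (hT : 1 < T) : ∃ R, ∀ v : Fin R → Fin R → V4, Generic v →
    ∃ (f g : Fin n → Fin R) (m p : Fin 3 → V4) (ε : Fin 4 → ℝ), StrictMono f ∧ StrictMono g ∧
      (∀ k, ε k ≠ 0) ∧ (∀ k i j, 0 < ε k * XX m p k (v (f i) (g j))) ∧
      XX m p 0 (m 0) ≠ 0 ∧ XX m p 1 (m 1) ≠ 0 ∧ XX m p 2 (m 2) ≠ 0 ∧ XX m p 3 (p 0) ≠ 0 ∧
      ∀ k l : Fin 4, k < l →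
        RowDom T (fun i j => ε l * XX m p l (v (f i) (g j)) / (ε k * XX m p k (v (f i) (g j)))) ∨
        ColDom T (fun i j => ε l * XX m p l (v (f i) (g j)) / (ε k * XX m p k (v (f i) (g j)))) := by
  classical
  set T₁ : ℝ := T ^ 4 + 1 with hT₁
  have hT₁1 : 1 ≤ T₁ := by
    have : 0 ≤ T ^ 4 := by positivity
    linarith
  have hTT₁ : T ^ 4 < T₁ := by linarith
  obtain ⟨Z, hZ⟩ := exists_nat_ge (2 * T₁ + 6)
  obtain ⟨R, hR⟩ := rowH (preds T T₁) (Z + 3 + (2 * n + 7))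
  set S := Z + 3 + (2 * n + 7) with hS
  refine ⟨R, fun v hv => ?_⟩
  obtain ⟨f, g, hf, hg, hhom⟩ := hR v
  set w : Fin S → Fin S → V4 := fun i j => v (f i) (g j) with hw
  have hgen : Generic w := by
    intro a b c d hab hac had hbc hbd hcd
    have hinj : ∀ x y : Fin S × Fin S, x ≠ y → (f x.1, g x.2) ≠ (f y.1, g y.2) := by
      intro x y hxy h
      apply hxy
      have h1 := Prod.ext_iff.1 h
      exact Prod.ext (hf.injective h1.1) (hg.injective h1.2)
    exact hv (f a.1, g a.2) (f b.1, g b.2) (f c.1, g c.2) (f d.1, g d.2) (hinj a b hab)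
      (hinj a c hac) (hinj a d had) (hinj b c hbc) (hinj b d hbd) (hinj c d hcd)
  have hsg : pSign.Homog w := hhom _ (by simp [preds])
  have hG : ∀ k, (pG T₁ k).Homog w := by
    intro k
    apply hhom
    fin_cases k <;> simp [preds]
  have hB1 : ∀ k l : Fin 4, k < l → (pB1 T k l).Homog w := by
    intro k l hkl
    apply hhom
    have : (k, l) ∈ prs := by
      revert k l
      decide
    simp only [preds, List.mem_cons, List.mem_append, List.mem_map]
    right; right; right; right; left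
    exact ⟨(k, l), this, rfl⟩
  have hB2 : ∀ k l : Fin 4, k < l → (pB2 T k l).Homog w := by
    intro k l hkl
    apply hhom
    have : (k, l) ∈ prs := by
      revert k l
      decide
    simp only [preds, List.mem_cons, List.mem_append, List.mem_map]
    right; right; right; right; right
    exact ⟨(k, l), this, rfl⟩
  have hGrow := fun k => rowC T₁ hT₁1 Z hZ (by omega : Z + 3 ≤ S) w hgen hsg k (hG k)
  obtain ⟨σ, hσ, hch⟩ := chain_sign w hgen hsg
  have hσ0 : σ ≠ 0 := by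
    intro h
    rw [h] at hσ
    simp at hσ
  -- positions
  let e0 : Fin S := ⟨0, by omega⟩
  let e1 : Fin S := ⟨1, by omega⟩
  let e2 : Fin S := ⟨2, by omega⟩
  let q0 : Fin S := ⟨2 * n + 4, by omega⟩
  let q1 : Fin S := ⟨2 * n + 5, by omega⟩
  let q2 : Fin S := ⟨2 * n + 6, by omega⟩
  let mid : Fin (2 * n + 1) → Fin S := fun i => ⟨i.1 + 3, by omega⟩
  have h01 : e0 < e1 := by simp only [e0, e1, Fin.mk_lt_mk]; omega
  have h12 : e1 < e2 := by simp only [e1, e2, Fin.mk_lt_mk]; omega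
  have h2m : ∀ i, e2 < mid i := by intro i; simp only [e2, mid, Fin.mk_lt_mk]; omega
  have hmq : ∀ i, mid i < q0 := by intro i; simp only [q0, mid, Fin.mk_lt_mk]; omega
  have hq01 : q0 < q1 := by simp only [q0, q1, Fin.mk_lt_mk]; omega
  have hq12 : q1 < q2 := by simp only [q1, q2, Fin.mk_lt_mk]; omega
  have hmm : ∀ i j, i < j → mid i < mid j := by
    intro i j hij
    simp only [mid, Fin.mk_lt_mk]
    have : i.1 < j.1 := hij
    omega
  let m : Fin 3 → V4 := ![w e0 e0, w e1 e1, w e2 e2]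
  let p : Fin 3 → V4 := ![w q0 q0, w q1 q1, w q2 q2]
  let ε : Fin 4 → ℝ := ![σ, -σ, σ, -σ]
  have hε : ∀ k, ε k ≠ 0 := by intro k; fin_cases k <;> simpa [ε] using hσ0
  -- positivity
  have hposM : ∀ (k : Fin 4) (i j : Fin (2 * n + 1)), 0 < ε k * XX m p k (w (mid i) (mid j)) := by
    intro k i j
    fin_cases k
    · have := hch ![mid i, q0, q1, q2] ![mid j, q0, q1, q2] (sm4 _ _ _ _ (hmq i) hq01 hq12)
        (sm4 _ _ _ _ (hmq j) hq01 hq12)
      exact this
    · have := hch ![e0, mid i, q1, q2] ![e0, mid j, q1, q2]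
        (sm4 _ _ _ _ (h01.trans (h12.trans (h2m i))) ((hmq i).trans hq01) hq12)
        (sm4 _ _ _ _ (h01.trans (h12.trans (h2m j))) ((hmq j).trans hq01) hq12)
      change 0 < (-σ) * D4 (w (mid i) (mid j)) (w e0 e0) (w q1 q1) (w q2 q2)
      rw [(rowP3 (w (mid i) (mid j)) (w e0 e0) (w q1 q1) (w q2 q2)).1]
      have h3 : 0 < σ * D4 (w e0 e0) (w (mid i) (mid j)) (w q1 q1) (w q2 q2) := this
      linarith
    · have := hch ![e0, e1, mid i, q2] ![e0, e1, mid j, q2]
        (sm4 _ _ _ _ h01 (h12.trans (h2m i)) ((hmq i).trans (hq01.trans hq12)))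
        (sm4 _ _ _ _ h01 (h12.trans (h2m j)) ((hmq j).trans (hq01.trans hq12)))
      change 0 < σ * D4 (w (mid i) (mid j)) (w e0 e0) (w e1 e1) (w q2 q2)
      rw [D4_13 (w (mid i) (mid j)) (w e0 e0) (w e1 e1) (w q2 q2)]
      exact this
    · have := hch ![e0, e1, e2, mid i] ![e0, e1, e2, mid j]
        (sm4 _ _ _ _ h01 h12 (h2m i)) (sm4 _ _ _ _ h01 h12 (h2m j))
      change 0 < (-σ) * D4 (w (mid i) (mid j)) (w e0 e0) (w e1 e1) (w e2 e2)
      rw [D4_14 (w (mid i) (mid j)) (w e0 e0) (w e1 e1) (w e2 e2)]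
      have h3 : 0 < σ * D4 (w e0 e0) (w e1 e1) (w e2 e2) (w (mid i) (mid j)) := this
      linarith
  have habs : ∀ (k : Fin 4) (i j : Fin (2 * n + 1)),
      ε k * XX m p k (w (mid i) (mid j)) = |XX m p k (w (mid i) (mid j))| := by
    intro k i j
    have hek : |ε k| = 1 := by fin_cases k <;> simp [ε, hσ]
    have h1 := hposM k i j
    rw [← abs_of_pos h1, abs_mul, hek, one_mul]
  -- the ratios
  let r : Fin 4 → Fin 4 → Fin (2 * n + 1) → Fin (2 * n + 1) → ℝ := fun k l i j =>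
    ε l * XX m p l (w (mid i) (mid j)) / (ε k * XX m p k (w (mid i) (mid j)))
  have hrpos : ∀ k l i j, 0 < r k l i j := fun k l i j => div_pos (hposM l i j) (hposM k i j)
  have hcmp : ∀ (k l : Fin 4) (i i' j j' : Fin (2 * n + 1)) (c : ℝ),
      c * (|XX m p l (w (mid i) (mid j))| * |XX m p k (w (mid i') (mid j'))|) ≤
        |XX m p l (w (mid i') (mid j'))| * |XX m p k (w (mid i) (mid j))| ↔
      c * r k l i j ≤ r k l i' j' := by
    intro k l i i' j j' c
    rw [← habs, ← habs, ← habs, ← habs]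
    have h1 := hposM k i j
    have h2 := hposM k i' j'
    simp only [r]
    rw [← mul_div_assoc, div_le_div_iff₀ h1 h2]
    constructor <;> intro h <;> linarith
  have hstep : ∀ (k l : Fin 4) (_ : (l : ℕ) = k + 1), ChainDom T₁ (r k l) := by
    intro k l hkl i i' j j' hi hj
    rw [← hcmp]
    have hkl' : (k = 0 ∧ l = 1) ∨ (k = 1 ∧ l = 2) ∨ (k = 2 ∧ l = 3) := by
      omega
    rcases hkl' with ⟨rfl, rfl⟩ | ⟨rfl, rfl⟩ | ⟨rfl, rfl⟩
    · exact hGrow 0 ![e0, mid i, mid i', q0, q1, q2] ![e0, mid j, mid j', q0, q1, q2]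
        (sm6 _ _ _ _ _ _ (h01.trans (h12.trans (h2m i))) (hmm _ _ hi) (hmq i') hq01 hq12)
        (sm6 _ _ _ _ _ _ (h01.trans (h12.trans (h2m j))) (hmm _ _ hj) (hmq j') hq01 hq12)
    · exact hGrow 1 ![e0, e1, mid i, mid i', q1, q2] ![e0, e1, mid j, mid j', q1, q2]
        (sm6 _ _ _ _ _ _ h01 (h12.trans (h2m i)) (hmm _ _ hi) ((hmq i').trans hq01) hq12)
        (sm6 _ _ _ _ _ _ h01 (h12.trans (h2m j)) (hmm _ _ hj) ((hmq j').trans hq01) hq12)
    · exact hGrow 2 ![e0, e1, e2, mid i, mid i', q2] ![e0, e1, e2, mid j, mid j', q2]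
        (sm6 _ _ _ _ _ _ h01 h12 (h2m i) (hmm _ _ hi) ((hmq i').trans (hq01.trans hq12)))
        (sm6 _ _ _ _ _ _ h01 h12 (h2m j) (hmm _ _ hj) ((hmq j').trans (hq01.trans hq12)))
  have hmul : ∀ k l q : Fin 4, ChainDom T₁ (r k l) → ChainDom T₁ (r l q) →
      ChainDom T₁ (r k q) := by
    intro k l q h1 h2 i i' j j' hi hj
    have e : ∀ i j, r k q i j = r k l i j * r l q i j := by
      intro i j
      have a1 := (hposM k i j).ne'
      have a2 := (hposM l i j).ne'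
      simp only [r]
      rw [mul_comm (_ / _), div_mul_div_cancel₀ a2]
    rw [e, e]
    have b1 := h1 i i' j j' hi hj
    have b2 := h2 i i' j j' hi hj
    have c1 := hrpos k l i j
    have c2 := hrpos l q i j
    have c3 : r l q i j ≤ r l q i' j' := by nlinarith
    calc T₁ * (r k l i j * r l q i j) = (T₁ * r k l i j) * r l q i j := by ring
      _ ≤ r k l i' j' * r l q i' j' :=
        mul_le_mul b1 c3 c2.le (hrpos k l i' j').le
  have hchain : ∀ k l : Fin 4, k < l → ChainDom T₁ (r k l) := by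
    have s01 := hstep 0 1 rfl
    have s12 := hstep 1 2 rfl
    have s23 := hstep 2 3 rfl
    have s02 := hmul _ _ _ s01 s12
    have s13 := hmul _ _ _ s12 s23
    have s03 := hmul _ _ _ s02 s23
    intro k l hkl
    have hc : (k = 0 ∧ l = 1) ∨ (k = 0 ∧ l = 2) ∨ (k = 0 ∧ l = 3) ∨ (k = 1 ∧ l = 2) ∨
        (k = 1 ∧ l = 3) ∨ (k = 2 ∧ l = 3) := by omega
    rcases hc with ⟨rfl, rfl⟩ | ⟨rfl, rfl⟩ | ⟨rfl, rfl⟩ | ⟨rfl, rfl⟩ | ⟨rfl, rfl⟩ | ⟨rfl, rfl⟩
    exacts [s01, s02, s03, s12, s13, s23]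
  -- domination
  have hdom : ∀ k l : Fin 4, k < l → _ := fun k l hkl => rowB n T T₁ hT hTT₁ (r k l)
    (hrpos k l) (hchain k l hkl)
    (by
      intro i i' j j' a a' b b' hi hj ha hb
      have := hB1 k l hkl ![e0, e1, e2, mid i, mid i', q0, q1, q2]
        ![e0, e1, e2, mid a, mid a', q0, q1, q2]
        (sm8 _ _ _ _ _ _ _ _ h01 h12 (h2m i) (hmm _ _ hi) (hmq i') hq01 hq12)
        (sm8 _ _ _ _ _ _ _ _ h01 h12 (h2m a) (hmm _ _ ha) (hmq a') hq01 hq12)
        ![e0, e1, e2, mid j', mid j, q0, q1, q2]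
        ![e0, e1, e2, mid b', mid b, q0, q1, q2]
        (sm8 _ _ _ _ _ _ _ _ h01 h12 (h2m j') (hmm _ _ hj) (hmq j) hq01 hq12)
        (sm8 _ _ _ _ _ _ _ _ h01 h12 (h2m b') (hmm _ _ hb) (hmq b) hq01 hq12)
      rw [← hcmp, ← hcmp]
      exact this)
    (by
      intro i i' j j' a a' b b' hi hj ha hb
      have := hB2 k l hkl ![e0, e1, e2, mid i, mid i', q0, q1, q2]
        ![e0, e1, e2, mid a, mid a', q0, q1, q2]
        (sm8 _ _ _ _ _ _ _ _ h01 h12 (h2m i) (hmm _ _ hi) (hmq i') hq01 hq12)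
        (sm8 _ _ _ _ _ _ _ _ h01 h12 (h2m a) (hmm _ _ ha) (hmq a') hq01 hq12)
        ![e0, e1, e2, mid j', mid j, q0, q1, q2]
        ![e0, e1, e2, mid b', mid b, q0, q1, q2]
        (sm8 _ _ _ _ _ _ _ _ h01 h12 (h2m j') (hmm _ _ hj) (hmq j) hq01 hq12)
        (sm8 _ _ _ _ _ _ _ _ h01 h12 (h2m b') (hmm _ _ hb) (hmq b) hq01 hq12)
      rw [← hcmp, ← hcmp]
      exact this)
  let od : Fin n → Fin (2 * n + 1) := fun i => ⟨2 * i.1 + 1, by omega⟩
  have hod : ∀ i j, i < j → mid (od i) < mid (od j) := by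
    intro i j hij
    apply hmm
    simp only [od, Fin.mk_lt_mk]
    have : i.1 < j.1 := hij
    omega
  have hne4 : ∀ i j l q : Fin S, i < j → j < l → l < q →
      D4 (w i i) (w j j) (w l l) (w q q) ≠ 0 := by
    intro i j l q h1 h2 h3
    have := hch ![i, j, l, q] ![i, j, l, q] (sm4 i j l q h1 h2 h3) (sm4 i j l q h1 h2 h3)
    exact right_ne_zero_of_mul this.ne'
  have h2q : e2 < q0 := by simp only [e2, q0, Fin.mk_lt_mk]; omega
  refine ⟨fun i => f (mid (od i)), fun j => g (mid (od j)), m, p, ε, fun i j hij => hf (hod i j hij),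
    fun i j hij => hg (hod i j hij), hε, fun k i j => hposM k (od i) (od j), ?_, ?_, ?_, ?_,
    fun k l hkl => hdom k l hkl⟩
  · exact hne4 e0 q0 q1 q2 (h01.trans (h12.trans h2q)) hq01 hq12
  · change D4 (w e1 e1) (w e0 e0) (w q1 q1) (w q2 q2) ≠ 0
    rw [(rowP3 _ _ _ _).1]
    exact neg_ne_zero.2 (hne4 e0 e1 q1 q2 h01 (h12.trans (h2q.trans hq01)) hq12)
  · change D4 (w e2 e2) (w e0 e0) (w e1 e1) (w q2 q2) ≠ 0
    rw [D4_13]
    exact hne4 e0 e1 e2 q2 h01 h12 (h2q.trans (hq01.trans hq12))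
  · change D4 (w q0 q0) (w e0 e0) (w e1 e1) (w e2 e2) ≠ 0
    rw [D4_14]
    exact neg_ne_zero.2 (hne4 e0 e1 e2 q0 h01 h12 h2q)

theorem rowDom_mono {m n : ℕ} {T T' : ℝ} (hT : T' ≤ T) {r : Fin m → Fin n → ℝ}
    (hr : ∀ i j, 0 < r i j) (h : RowDom T r) : RowDom T' r := by
  intro i i' j j' hi
  exact (mul_le_mul_of_nonneg_right hT (hr i j).le).trans (h i i' j j' hi)

theorem colDom_mono {m n : ℕ} {T T' : ℝ} (hT : T' ≤ T) {r : Fin m → Fin n → ℝ}
    (hr : ∀ i j, 0 < r i j) (h : ColDom T r) : ColDom T' r := by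
  intro i i' j j' hi
  exact (mul_le_mul_of_nonneg_right hT (hr i j).le).trans (h i i' j j' hi)

theorem segre_mono {m n m' n' : ℕ} {T T' : ℝ} (hT : T' ≤ T) {x : Fin 4 → Fin m → Fin n → ℝ}
    (hx : ∀ k i j, 0 < x k i j) (f : Fin m' → Fin m) (g : Fin n' → Fin n) (hf : StrictMono f)
    (hg : StrictMono g) (h : Segre T x) : Segre T' (fun k i j => x k (f i) (g j)) := by
  have hr : ∀ (k l : Fin 4) i j, 0 < x l i j / x k i j := fun k l i j => div_pos (hx l i j) (hx k i j)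
  obtain ⟨h1, h2, h3, h4, h5, h6⟩ := h
  refine ⟨?_, ?_, ?_, ?_, ?_, ?_⟩
  · intro i i' j j' hj
    exact colDom_mono hT (hr 0 1) h1 _ _ _ _ (hg hj)
  · intro i i' j j' hj
    exact colDom_mono hT (hr 2 3) h2 _ _ _ _ (hg hj)
  · intro i i' j j' hi
    exact rowDom_mono hT (hr 0 2) h3 _ _ _ _ (hf hi)
  · intro i i' j j' hi
    exact rowDom_mono hT (hr 0 3) h4 _ _ _ _ (hf hi)
  · intro i i' j j' hi
    exact rowDom_mono hT (hr 1 2) h5 _ _ _ _ (hf hi)
  · intro i i' j j' hi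
    exact rowDom_mono hT (hr 1 3) h6 _ _ _ _ (hf hi)

theorem hitRows_mono {m n : ℕ} {v : Fin m → Fin n → V4} {N N' : ℕ} (h : N' ≤ N)
    (hv : HitRows v N) : HitRows v N' := by
  obtain ⟨f, g, hfg, S, hS, hm⟩ := hv
  exact ⟨f, g, hfg, S, h.trans hS, hm⟩

/-- ROW RED: the reduction to the Segre type. -/
theorem rowRED (N M : ℕ) (T : ℝ) : ∃ R, ∀ v : Fin R → Fin R → V4, Generic v →
    Hit v N ∨ ∃ (f g : Fin M → Fin R) (L : Fin 4 → (V4 →ₗ[ℝ] ℝ)), StrictMono f ∧ StrictMono g ∧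
      LinearIndependent ℝ L ∧ (∀ k i j, 0 < L k (v (f i) (g j))) ∧
      (Segre T (fun k i j => L k (v (f i) (g j))) ∨
        Segre T (fun k j i => L k (v (f i) (g j)))) := by
  classical
  set T' : ℝ := max T 9 with hT'
  have hT'9 : (9 : ℝ) ≤ T' := le_max_right _ _
  have hTT' : T ≤ T' := le_max_left _ _
  set n := max (max M N) 7 with hn
  have hMn : M ≤ n := by omega
  have hNn : N ≤ n := by omega
  have h7n : 7 ≤ n := by omega
  obtain ⟨R, hR⟩ := scalar_step n T' (by linarith)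
  refine ⟨R, fun v hv => ?_⟩
  obtain ⟨f, g, m, p, ε, hf, hg, hε, hpos, hm0, hm1, hm2, hp0, hdom⟩ := hR v hv
  -- the forms
  have hforms : ∀ k : Fin 4, ∃ L : V4 →ₗ[ℝ] ℝ, ∀ a, L a = ε k * XX m p k a := by
    intro k
    have hk : ∃ b c d : V4, ∀ a, XX m p k a = D4 a b c d := by
      fin_cases k
      · exact ⟨p 0, p 1, p 2, fun a => rfl⟩
      · exact ⟨m 0, p 1, p 2, fun a => rfl⟩
      · exact ⟨m 0, m 1, p 2, fun a => rfl⟩
      · exact ⟨m 0, m 1, m 2, fun a => rfl⟩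
    obtain ⟨b, c, d, hbcd⟩ := hk
    obtain ⟨L, hL, -⟩ := rowP2 b c d
    refine ⟨ε k • L, fun a => ?_⟩
    rw [LinearMap.smul_apply, smul_eq_mul, hL, hbcd]
  choose L hL using hforms
  have hz : ∀ a b c : V4, D4 a a b c = 0 ∧ D4 a b a c = 0 ∧ D4 a b c a = 0 := by
    intro a b c
    refine ⟨?_, ?_, ?_⟩
    · obtain ⟨L, hL, h1, -, -⟩ := rowP2 a b c
      rw [← hL, h1]
    · obtain ⟨L, hL, -, h1, -⟩ := rowP2 b a c
      rw [← hL, h1]
    · obtain ⟨L, hL, -, -, h1⟩ := rowP2 b c a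
      rw [← hL, h1]
  have hXX : (∀ a, XX m p 0 a = D4 a (p 0) (p 1) (p 2)) ∧
      (∀ a, XX m p 1 a = D4 a (m 0) (p 1) (p 2)) ∧ (∀ a, XX m p 2 a = D4 a (m 0) (m 1) (p 2)) ∧
      (∀ a, XX m p 3 a = D4 a (m 0) (m 1) (m 2)) := ⟨fun _ => rfl, fun _ => rfl, fun _ => rfl,
        fun _ => rfl⟩
  have hind : LinearIndependent ℝ L := by
    rw [Fintype.linearIndependent_iff]
    intro c hc
    have hev : ∀ a, c 0 * (ε 0 * XX m p 0 a) + c 1 * (ε 1 * XX m p 1 a) +
        c 2 * (ε 2 * XX m p 2 a) + c 3 * (ε 3 * XX m p 3 a) = 0 := by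
      intro a
      have := congrArg (fun φ : V4 →ₗ[ℝ] ℝ => φ a) hc
      simp only [Fin.sum_univ_four, LinearMap.add_apply, LinearMap.smul_apply, smul_eq_mul,
        LinearMap.zero_apply, hL] at this
      exact this
    have c0 : c 0 = 0 := by
      have := hev (m 0)
      rw [hXX.2.1, hXX.2.2.1, hXX.2.2.2, (hz _ _ _).1, (hz _ _ _).1, (hz _ _ _).1] at this
      simp only [mul_zero, add_zero] at this
      rcases mul_eq_zero.1 this with h | h
      · exact h
      · exact absurd h (mul_ne_zero (hε 0) hm0)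
    have c1 : c 1 = 0 := by
      have := hev (m 1)
      rw [c0, hXX.2.2.1, hXX.2.2.2, (hz _ _ _).2.1, (hz _ _ _).2.1] at this
      simp only [mul_zero, add_zero, zero_mul, zero_add] at this
      rcases mul_eq_zero.1 this with h | h
      · exact h
      · exact absurd h (mul_ne_zero (hε 1) hm1)
    have c2 : c 2 = 0 := by
      have := hev (m 2)
      rw [c0, c1, hXX.2.2.2, (hz _ _ _).2.2] at this
      simp only [mul_zero, add_zero, zero_mul, zero_add] at this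
      rcases mul_eq_zero.1 this with h | h
      · exact h
      · exact absurd h (mul_ne_zero (hε 2) hm2)
    have c3 : c 3 = 0 := by
      have := hev (p 0)
      rw [c0, c1, c2] at this
      simp only [add_zero, zero_mul, zero_add] at this
      rcases mul_eq_zero.1 this with h | h
      · exact h
      · exact absurd h (mul_ne_zero (hε 3) hp0)
    intro i
    fin_cases i
    exacts [c0, c1, c2, c3]
  set w : Fin n → Fin n → V4 := fun i j => v (f i) (g j) with hw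
  have hposL : ∀ k i j, 0 < L k (w i j) := by
    intro k i j
    rw [hL]
    exact hpos k i j
  have hdomL : ∀ k l : Fin 4, k < l → RowDom T' (fun i j => L l (w i j) / L k (w i j)) ∨
      ColDom T' (fun i j => L l (w i j) / L k (w i j)) := by
    intro k l hkl
    have := hdom k l hkl
    simp only [hL]
    exact this
  have hrat : ∀ (k l : Fin 4) i j, 0 < L l (w i j) / L k (w i j) :=
    fun k l i j => div_pos (hposL l i j) (hposL k i j)
  rcases rowF h7n T' (by linarith) (fun k i j => L k (w i j)) hposL hdomL with h | h | h | h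
  · obtain ⟨k, l, q, hkl, hlq, h1, h2⟩ := h
    left
    have := rowE2 (by omega : 3 ≤ n) 3 le_rfl w L hind hposL k l q hkl.ne hlq.ne
      (hkl.trans hlq).ne (rowDom_mono (by norm_num; linarith) (hrat k l) h1)
      (rowDom_mono (by norm_num; linarith) (hrat l q) h2)
    exact rowS v f g hf hg N (Or.inr (hitRows_mono hNn this))
  · obtain ⟨k, l, q, hkl, hlq, h1, h2⟩ := h
    left
    have h1' : RowDom T' (fun j i => L l (w i j) / L k (w i j)) := fun i i' j j' hi =>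
      h1 j j' i i' hi
    have h2' : RowDom T' (fun j i => L q (w i j) / L l (w i j)) := fun i i' j j' hi =>
      h2 j j' i i' hi
    have := rowE2 (by omega : 3 ≤ n) 3 le_rfl (fun j i => w i j) L hind
      (fun k j i => hposL k i j) k l q hkl.ne hlq.ne
      (hkl.trans hlq).ne (rowDom_mono (by norm_num; linarith) (fun i j => hrat k l j i) h1')
      (rowDom_mono (by norm_num; linarith) (fun i j => hrat l q j i) h2')
    exact rowS v f g hf hg N (Or.inl (hitRows_mono hNn this))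
  · right
    refine ⟨fun i => f (Fin.castLE hMn i), fun j => g (Fin.castLE hMn j), L,
      fun i j hij => hf hij, fun i j hij => hg hij, hind, fun k i j => hposL k _ _, Or.inl ?_⟩
    exact segre_mono hTT' hposL (Fin.castLE hMn) (Fin.castLE hMn) (fun i j hij => hij)
      (fun i j hij => hij) h
  · right
    refine ⟨fun i => f (Fin.castLE hMn i), fun j => g (Fin.castLE hMn j), L,
      fun i j hij => hf hij, fun i j hij => hg hij, hind, fun k i j => hposL k _ _, Or.inr ?_⟩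
    exact segre_mono hTT' (fun k i j => hposL k j i) (Fin.castLE hMn) (Fin.castLE hMn)
      (fun i j hij => hij) (fun i j hij => hij) h

end Pool.Agent.BIP
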