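import Pool.Agent.BIP.Top
import Pool.Agent.BIP.RowRED
import Pool.Agent.BIP.ND
import Pool.Agent.BIP.Node
import Pool.Agent.BIP.Close
import Pool.Agent.MP_179466_co.SizesPow

/-!
# Two families of convex sets in space
-/

namespace Pool.Agent.BIP

/-- Second half: Segre arrays are hit. -/
theorem rowSEG (N : ℕ) : ∃ (T : ℝ) (M : ℕ), ∀ (v : Fin M → Fin M → V4)
    (L : Fin 4 → (V4 →ₗ[ℝ] ℝ)), LinearIndependent ℝ L → (∀ k i j, 0 < L k (v i j)) →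
    Segre T (fun k i j => L k (v i j)) → Generic v → Hit v N :=
  rowND N (rowNode N)

theorem main : ∃ (c : ℝ) (K : ℕ), 0 < c ∧ ∀ (α : ℝ), 0 < α → ∀ (m n : ℕ), 1 ≤ m → 1 ≤ n →
      ∀ (A : Fin m → Set (EuclideanSpace ℝ (Fin 3))) (B : Fin n → Set (EuclideanSpace ℝ (Fin 3))),
      (∀ i, Convex ℝ (A i)) → (∀ j, Convex ℝ (B j)) →
      α * (m * n : ℝ) ≤ (Nat.card {q : Fin m × Fin n // (A q.1 ∩ B q.2).Nonempty} : ℝ) →
      (∃ x d : EuclideanSpace ℝ (Fin 3), d ≠ 0 ∧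
        c * α ^ K * (m : ℝ) ≤ (Nat.card {i : Fin m // ∃ t : ℝ, x + t • d ∈ A i} : ℝ)) ∨
      (∃ x d : EuclideanSpace ℝ (Fin 3), d ≠ 0 ∧
        c * α ^ K * (n : ℝ) ≤ (Nat.card {j : Fin n // ∃ t : ℝ, x + t • d ∈ B j} : ℝ)) := by
  obtain ⟨R, hR, H⟩ := hit_of_halves 10000 (by norm_num) (rowSEG 10000) (fun M T => rowRED 10000 M T)
  exact Pool.Agent.MP_179466_co.two_of_arrays_pow R hR (points_of_generic 10000 H)

end Pool.Agent.BIP
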