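import Mathlib

/-!
# A weighted Turán bound
-/

open scoped BigOperators Classical

namespace Pool.Agent.BIP.Dual

/-- If no `k + 1` elements of `V` are pairwise unrelated, the related pairs carry at least the
`1 / k` part of the squared weight. -/
theorem turan {ι : Type} (R : ι → ι → Prop) (hR : ∀ i, R i i) (hS : ∀ i j, R i j → R j i)
    (w : ι → ℝ) (hw : ∀ i, 0 ≤ w i) (k : ℕ) : ∀ V : Finset ι,
    (∀ S : Finset ι, S ⊆ V → (∀ i ∈ S, ∀ j ∈ S, i ≠ j → ¬ R i j) → S.card ≤ k) →
    (∑ i ∈ V, w i) ^ 2 ≤ k * ∑ i ∈ V, ∑ j ∈ V, if R i j then w i * w j else 0 := by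
  induction k with
  | zero =>
    intro V h
    have hV : V = ∅ := by
      by_contra hne
      obtain ⟨x, hx⟩ := Finset.nonempty_iff_ne_empty.2 hne
      have := h {x} (Finset.singleton_subset_iff.2 hx) (by
        intro i hi j hj hij
        rw [Finset.mem_singleton] at hi hj
        exact absurd (hi.trans hj.symm) hij)
      simp at this
    subst hV
    simp
  | succ k ih =>
    intro V h
    rcases V.eq_empty_or_nonempty with hV | hV
    · subst hV; simp
    let f : ι → ℝ := fun i => ∑ j ∈ V, if R i j then w j else 0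
    obtain ⟨i0, hi0, hmin⟩ := Finset.exists_min_image V f hV
    let P := V.filter fun j => R i0 j
    let V' := V.filter fun j => ¬ R i0 j
    have hih := ih V' (by
      intro S hSV hSi
      have hnot : i0 ∉ S := fun hi => (Finset.mem_filter.1 (hSV hi)).2 (hR i0)
      have h1 := h (insert i0 S) (by
        intro x hx
        rcases Finset.mem_insert.1 hx with rfl | hx
        · exact hi0
        · exact (Finset.mem_filter.1 (hSV hx)).1) (by
        intro i hi j hj hij
        rcases Finset.mem_insert.1 hi with rfl | hi'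
        · rcases Finset.mem_insert.1 hj with rfl | hj'
          · exact absurd rfl hij
          · exact (Finset.mem_filter.1 (hSV hj')).2
        · rcases Finset.mem_insert.1 hj with rfl | hj'
          · exact fun hr => (Finset.mem_filter.1 (hSV hi')).2 (hS _ _ hr)
          · exact hSi i hi' j hj' hij)
      rw [Finset.card_insert_of_notMem hnot] at h1
      omega)
    have hsplit : ∀ g : ι → ℝ, ∑ i ∈ V, g i = ∑ i ∈ P, g i + ∑ i ∈ V', g i := fun g =>
      (Finset.sum_filter_add_sum_filter_not V (fun j => R i0 j) g).symm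
    have hf0 : f i0 = ∑ i ∈ P, w i := by
      simp only [f, P]
      rw [Finset.sum_filter]
    have hwP : 0 ≤ ∑ i ∈ P, w i := Finset.sum_nonneg fun i _ => hw i
    have hwV : 0 ≤ ∑ i ∈ V', w i := Finset.sum_nonneg fun i _ => hw i
    have hrow : ∀ i, (∑ j ∈ V, if R i j then w i * w j else 0) = w i * f i := by
      intro i
      simp only [f]
      rw [Finset.mul_sum]
      refine Finset.sum_congr rfl fun j _ => ?_
      split_ifs <;> simp
    have h1 : (∑ i ∈ P, w i) * (∑ i ∈ P, w i) ≤
        ∑ i ∈ P, ∑ j ∈ V, if R i j then w i * w j else 0 := by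
      rw [Finset.sum_mul]
      refine Finset.sum_le_sum fun i hi => ?_
      rw [hrow]
      refine mul_le_mul_of_nonneg_left ?_ (hw i)
      rw [← hf0]
      exact hmin i (Finset.mem_filter.1 hi).1
    have h2 : (∑ i ∈ V', ∑ j ∈ V', if R i j then w i * w j else 0) ≤
        ∑ i ∈ V', ∑ j ∈ V, if R i j then w i * w j else 0 := by
      refine Finset.sum_le_sum fun i _ => ?_
      refine Finset.sum_le_sum_of_subset_of_nonneg (Finset.filter_subset _ _) fun j _ _ => ?_
      split_ifs
      · exact mul_nonneg (hw i) (hw j)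
      · exact le_refl _
    rw [hsplit w, hsplit (fun i => ∑ j ∈ V, if R i j then w i * w j else 0)]
    set a := ∑ i ∈ P, w i with ha
    set b := ∑ i ∈ V', w i with hb
    set E' := ∑ i ∈ V', ∑ j ∈ V', if R i j then w i * w j else 0 with hE'
    have hE0 : 0 ≤ E' := Finset.sum_nonneg fun i _ => Finset.sum_nonneg fun j _ => by
      split_ifs
      · exact mul_nonneg (hw i) (hw j)
      · exact le_refl _
    have hkey : (a + b) ^ 2 ≤ ((k : ℝ) + 1) * (a * a + E') := by
      rcases Nat.eq_zero_or_pos k with hk | hk
      · subst hk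
        simp only [Nat.cast_zero, zero_mul] at hih
        have hb0 : b = 0 := by nlinarith
        rw [hb0]
        simp
        nlinarith
      · have hk' : (0:ℝ) < k := by exact_mod_cast hk
        have h3 : (k:ℝ) * (a + b) ^ 2 ≤ (k:ℝ) * (((k : ℝ) + 1) * (a * a + E')) := by
          nlinarith [sq_nonneg ((k:ℝ) * a - b), mul_nonneg hk'.le hE0]
        exact le_of_mul_le_mul_left h3 hk'
    push_cast
    refine hkey.trans (mul_le_mul_of_nonneg_left ?_ (by positivity))
    linarith

end Pool.Agent.BIP.Dual
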