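import Pool.Agent.BIP.Dual
import Pool.Agent.BIP.Turan

/-!
# Unions of convex sets, the `(p, 2)` property, systems of lines
-/

open scoped BigOperators Classical

namespace Pool.Agent.BIP.Dual

/-- The density statement for two families, arbitrary finite index types. -/
def Dens (c : ℝ) (K : ℕ) : Prop := ∀ (α : ℝ), 0 < α → ∀ (ι κ : Type) [Fintype ι] [Fintype κ]
  [Nonempty ι] [Nonempty κ]
  (A : ι → Set E3) (B : κ → Set E3), (∀ i, Convex ℝ (A i)) → (∀ j, Convex ℝ (B j)) →
  α * ((Fintype.card ι : ℝ) * (Fintype.card κ : ℝ)) ≤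
    ((Finset.univ.filter fun q : ι × κ => (A q.1 ∩ B q.2).Nonempty).card : ℝ) →
  (∃ l : E3 × E3, l.2 ≠ 0 ∧
    c * α ^ K * (Fintype.card ι : ℝ) ≤ ((Finset.univ.filter fun i => Hits l (A i)).card : ℝ)) ∨
  (∃ l : E3 × E3, l.2 ≠ 0 ∧
    c * α ^ K * (Fintype.card κ : ℝ) ≤ ((Finset.univ.filter fun j => Hits l (B j)).card : ℝ))

/-- Blow-up by multiplicities, with control of the multiplicities. -/
theorem blow' {m : ℕ} (p : Fin m → ℝ) (hp : ∀ i, 0 ≤ p i) (hp1 : ∑ i, p i = 1) (c : ℝ)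
    (hc : 0 < c) :
    ∃ (a : Fin m → ℕ) (M : ℝ), 0 < M ∧ (∀ i, M * p i ≤ a i) ∧ (∑ i, (a i : ℝ)) ≤ 2 * M ∧
      ∀ P : Fin m → Prop,
      c * (∑ i, (a i : ℝ)) ≤ (∑ i, if P i then (a i : ℝ) else 0) →
      c / 2 ≤ ∑ i, if P i then p i else 0 := by
  obtain ⟨M, hM⟩ := exists_nat_gt (2 * m / c + m)
  have hM' : 2 * m / c < (M:ℝ) := lt_of_le_of_lt (by linarith [Nat.cast_nonneg (α := ℝ) m]) hM
  have hMm : (m:ℝ) < M := lt_of_le_of_lt (by
    have : (0:ℝ) ≤ 2 * m / c := by positivity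
    linarith) hM
  have hM0 : (0:ℝ) < M := lt_of_le_of_lt (by positivity) hMm
  refine ⟨fun i => ⌈(M : ℝ) * p i⌉₊, M, hM0, fun i => Nat.le_ceil _, ?_, ?_⟩
  · calc ∑ i, (⌈(M : ℝ) * p i⌉₊ : ℝ) ≤ ∑ i, ((M : ℝ) * p i + 1) :=
          Finset.sum_le_sum fun i _ => (Nat.ceil_lt_add_one (mul_nonneg hM0.le (hp i))).le
      _ = M + m := by
          rw [Finset.sum_add_distrib, ← Finset.mul_sum, hp1]; simp
      _ ≤ _ := by linarith
  · intro P hP
    have h1 : (M : ℝ) ≤ ∑ i, (⌈(M : ℝ) * p i⌉₊ : ℝ) := by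
      calc (M : ℝ) = M * ∑ i, p i := by rw [hp1, mul_one]
        _ = ∑ i, M * p i := Finset.mul_sum _ _ _
        _ ≤ _ := Finset.sum_le_sum fun i _ => Nat.le_ceil _
    have h2 : (∑ i, if P i then (⌈(M : ℝ) * p i⌉₊ : ℝ) else 0) ≤
        M * (∑ i, if P i then p i else 0) + m := by
      calc (∑ i, if P i then (⌈(M : ℝ) * p i⌉₊ : ℝ) else 0) ≤
          ∑ i, (M * (if P i then p i else 0) + 1) := by
            refine Finset.sum_le_sum fun i _ => ?_
            split_ifs
            · exact (Nat.ceil_lt_add_one (mul_nonneg hM0.le (hp i))).le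
            · simp
        _ = _ := by
            rw [Finset.sum_add_distrib, ← Finset.mul_sum]
            simp
    have h3 : c * M ≤ M * (∑ i, if P i then p i else 0) + m :=
      (mul_le_mul_of_nonneg_left h1 hc.le).trans (hP.trans h2)
    have h4 : 2 * (m : ℝ) < M * c := by
      rwa [div_lt_iff₀ hc] at hM'
    by_contra hcon
    push Not at hcon
    nlinarith

theorem card_blow2 {m n : ℕ} (a : Fin m → ℕ) (b : Fin n → ℕ) (P : Fin m → Fin n → Prop) :
    ((Finset.univ.filter fun x : (Σ i : Fin m, Fin (a i)) × (Σ i : Fin n, Fin (b i)) =>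
      P x.1.1 x.2.1).card : ℝ) = ∑ i, ∑ j, if P i j then (a i : ℝ) * (b j : ℝ) else 0 := by
  rw [Finset.card_filter, Fintype.sum_prod_type, Fintype.sum_sigma]
  push_cast
  refine Finset.sum_congr rfl fun i _ => ?_
  simp only [Fintype.sum_sigma]
  rw [Finset.sum_const, nsmul_eq_mul, Finset.card_univ, Fintype.card_fin, Finset.mul_sum]
  refine Finset.sum_congr rfl fun j _ => ?_
  split_ifs <;> simp

/-- The weighted density form. -/
theorem weightedD (c : ℝ) (K : ℕ) (hc : 0 < c) (H : Dens c K) (α : ℝ) (hα : 0 < α) {m n : ℕ}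
    (A : Fin m → Set E3)
    (B : Fin n → Set E3) (hA : ∀ i, Convex ℝ (A i)) (hB : ∀ j, Convex ℝ (B j))
    (p : Fin m → ℝ) (hp : ∀ i, 0 ≤ p i)
    (hp1 : ∑ i, p i = 1) (q : Fin n → ℝ) (hq : ∀ i, 0 ≤ q i) (hq1 : ∑ i, q i = 1)
    (hAB : α ≤ ∑ i, ∑ j, if (A i ∩ B j).Nonempty then p i * q j else 0) :
    (∃ l : E3 × E3, l.2 ≠ 0 ∧ c * (α / 4) ^ K / 2 ≤ ∑ i, if Hits l (A i) then p i else 0) ∨
    (∃ l : E3 × E3, l.2 ≠ 0 ∧ c * (α / 4) ^ K / 2 ≤ ∑ j, if Hits l (B j) then q j else 0) := by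
  have hc' : 0 < c * (α / 4) ^ K := by positivity
  obtain ⟨a, M, hM, ha, ha2, ha'⟩ := blow' p hp hp1 _ hc'
  obtain ⟨b, M', hM', hb, hb2, hb'⟩ := blow' q hq hq1 _ hc'
  have hsa : M ≤ ∑ i, (a i : ℝ) := by
    calc M = M * ∑ i, p i := by rw [hp1, mul_one]
      _ = ∑ i, M * p i := Finset.mul_sum _ _ _
      _ ≤ _ := Finset.sum_le_sum fun i _ => ha i
  have hsb : M' ≤ ∑ i, (b i : ℝ) := by
    calc M' = M' * ∑ i, q i := by rw [hq1, mul_one]
      _ = ∑ i, M' * q i := Finset.mul_sum _ _ _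
      _ ≤ _ := Finset.sum_le_sum fun i _ => hb i
  have ca : (Fintype.card (Σ i : Fin m, Fin (a i)) : ℝ) = ∑ i, (a i : ℝ) := by
    rw [Fintype.card_sigma]; push_cast; simp
  have cb : (Fintype.card (Σ i : Fin n, Fin (b i)) : ℝ) = ∑ i, (b i : ℝ) := by
    rw [Fintype.card_sigma]; push_cast; simp
  have hna : Nonempty (Σ i : Fin m, Fin (a i)) := by
    rw [← Fintype.card_pos_iff]
    have : (0:ℝ) < (Fintype.card (Σ i : Fin m, Fin (a i)) : ℝ) := by rw [ca]; linarith
    exact_mod_cast this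
  have hnb : Nonempty (Σ i : Fin n, Fin (b i)) := by
    rw [← Fintype.card_pos_iff]
    have : (0:ℝ) < (Fintype.card (Σ i : Fin n, Fin (b i)) : ℝ) := by rw [cb]; linarith
    exact_mod_cast this
  rcases H (α / 4) (by positivity) (Σ i : Fin m, Fin (a i)) (Σ i : Fin n, Fin (b i))
    (fun x => A x.1) (fun y => B y.1)
    (fun x => hA x.1) (fun y => hB y.1) (by
      rw [card_blow2 a b (fun i j => (A i ∩ B j).Nonempty), ca, cb]
      have h1 : M * M' * α ≤
          ∑ i, ∑ j, if (A i ∩ B j).Nonempty then (a i : ℝ) * (b j : ℝ) else 0 := by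
        calc M * M' * α ≤ M * M' * ∑ i, ∑ j, (if (A i ∩ B j).Nonempty then p i * q j else 0) :=
              mul_le_mul_of_nonneg_left hAB (by positivity)
          _ = ∑ i, ∑ j, (if (A i ∩ B j).Nonempty then (M * p i) * (M' * q j) else 0) := by
              rw [Finset.mul_sum]
              refine Finset.sum_congr rfl fun i _ => ?_
              rw [Finset.mul_sum]
              refine Finset.sum_congr rfl fun j _ => ?_
              split_ifs
              · ring
              · simp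
          _ ≤ _ := by
              refine Finset.sum_le_sum fun i _ => Finset.sum_le_sum fun j _ => ?_
              split_ifs
              · exact mul_le_mul (ha i) (hb j) (mul_nonneg hM'.le (hq j)) (Nat.cast_nonneg _)
              · exact le_refl _
      refine le_trans ?_ h1
      have h2 : (∑ i, (a i : ℝ)) * (∑ i, (b i : ℝ)) ≤ (2 * M) * (2 * M') :=
        mul_le_mul ha2 hb2 (by linarith) (by linarith)
      nlinarith) with ⟨l, hl, h⟩ | ⟨l, hl, h⟩
  · refine Or.inl ⟨l, hl, ha' (fun i => Hits l (A i)) ?_⟩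
    rw [card_blow a (fun i => Hits l (A i)), ca] at h
    exact h
  · refine Or.inr ⟨l, hl, hb' (fun i => Hits l (B i)) ?_⟩
    rw [card_blow b (fun i => Hits l (B i)), cb] at h
    exact h

/-- Unions of `k` convex sets with the `(p, 2)` property. -/
theorem unions (c : ℝ) (K : ℕ) (hc : 0 < c) (H : Dens c K) (p k n : ℕ) (hp : 2 ≤ p)
    (C : Fin n → Fin k → Set E3) (hC : ∀ i s, Convex ℝ (C i s)) (hne : ∀ i, ∃ s, (C i s).Nonempty)
    (hp2 : ∀ S : Finset (Fin n), S.card = p →
      ∃ i ∈ S, ∃ j ∈ S, i ≠ j ∧ ((⋃ s, C i s) ∩ ⋃ s, C j s).Nonempty) :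
    ∃ (N : ℕ) (L : Fin N → E3 × E3), 0 < N ∧ (∀ s, (L s).2 ≠ 0) ∧
      (∀ i, c / (4 * (4 * (k:ℝ) ^ 2 * p) ^ K) * (N : ℝ) ≤
        ((Finset.univ.filter fun r => Hits (L r) (⋃ s, C i s)).card : ℝ)) := by
  rcases Nat.eq_zero_or_pos n with hn | hn
  · subst hn
    exact ⟨1, fun _ => (0, EuclideanSpace.single 0 1), one_pos, fun _ => by simp,
      fun i => i.elim0⟩
  have hk : 0 < k := by
    obtain ⟨s, -⟩ := hne ⟨0, hn⟩
    exact lt_of_le_of_lt (Nat.zero_le _) s.2
  have hk' : (0:ℝ) < k := by exact_mod_cast hk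
  have hp' : (0:ℝ) < p := by exact_mod_cast (by omega : 0 < p)
  set α : ℝ := 1 / ((k:ℝ) ^ 2 * p) with hα
  have hα0 : 0 < α := by positivity
  have hconst : c * (α / 4) ^ K / 2 = c / (2 * (4 * (k:ℝ) ^ 2 * p) ^ K) := by
    rw [hα]
    rw [show (1:ℝ) / ((k:ℝ) ^ 2 * p) / 4 = (4 * (k:ℝ) ^ 2 * p)⁻¹ by
      rw [one_div, div_eq_mul_inv, ← mul_inv]; ring_nf]
    rw [inv_pow]
    field_simp
  obtain ⟨R, hRdef⟩ : ∃ R : Fin n → Fin n → Prop, ∀ i j, R i j ↔ ∃ s t, (C i s ∩ C j t).Nonempty :=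
    ⟨fun i j => ∃ s t, (C i s ∩ C j t).Nonempty, fun _ _ => Iff.rfl⟩
  have hRr : ∀ i, R i i := fun i => by
    obtain ⟨s, hs⟩ := hne i
    exact (hRdef i i).2 ⟨s, s, by rwa [Set.inter_self]⟩
  have hRs : ∀ i j, R i j → R j i := fun i j h => by
    obtain ⟨s, t, h⟩ := (hRdef i j).1 h
    exact (hRdef j i).2 ⟨t, s, by rwa [Set.inter_comm]⟩
  have hRu : ∀ i j, ((⋃ s, C i s) ∩ ⋃ s, C j s).Nonempty → R i j := by
    rintro i j ⟨x, hx1, hx2⟩
    rw [Set.mem_iUnion] at hx1 hx2
    obtain ⟨s, hs⟩ := hx1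
    obtain ⟨t, ht⟩ := hx2
    exact (hRdef i j).2 ⟨s, t, x, hs, ht⟩
  have key : ∀ w : Fin n → ℝ, (∀ i, 0 ≤ w i) → ∑ i, w i = 1 → ∃ l : E3 × E3, l.2 ≠ 0 ∧
      c / (2 * (4 * (k:ℝ) ^ 2 * p) ^ K) ≤ ∑ i, if Hits l (⋃ s, C i s) then w i else 0 := by
    intro w hw hw1
    have h1 := turan R hRr hRs w hw (p - 1) Finset.univ (by
      intro S _ hSi
      by_contra hcard
      push Not at hcard
      obtain ⟨S', hS'S, hS'⟩ := Finset.exists_subset_card_eq (show p ≤ S.card by omega)
      obtain ⟨i, hi, j, hj, hij, hmeet⟩ := hp2 S' hS'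
      exact hSi i (hS'S hi) j (hS'S hj) hij (hRu i j hmeet))
    rw [hw1, one_pow] at h1
    have h2 : 1 / (p:ℝ) ≤ ∑ i, ∑ j, if R i j then w i * w j else 0 := by
      rw [div_le_iff₀ hp']
      have hE : 0 ≤ ∑ i, ∑ j, if R i j then w i * w j else 0 :=
        Finset.sum_nonneg fun i _ => Finset.sum_nonneg fun j _ => by
          split_ifs
          · exact mul_nonneg (hw i) (hw j)
          · exact le_refl _
      have h3 : ((p - 1 : ℕ) : ℝ) ≤ p := by exact_mod_cast Nat.sub_le p 1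
      calc (1:ℝ) ≤ ((p - 1 : ℕ) : ℝ) * _ := h1
        _ ≤ (p:ℝ) * _ := mul_le_mul_of_nonneg_right h3 hE
        _ = _ := mul_comm _ _
    -- some pair of pieces
    obtain ⟨s, t, hst⟩ : ∃ s t : Fin k, α ≤
        ∑ i, ∑ j, if (C i s ∩ C j t).Nonempty then w i * w j else 0 := by
      by_contra hcon
      push Not at hcon
      have h4 : ∑ s : Fin k, ∑ t : Fin k,
          (∑ i, ∑ j, if (C i s ∩ C j t).Nonempty then w i * w j else 0) <
          ∑ _s : Fin k, ∑ _t : Fin k, α := by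
        have hne' : (Finset.univ : Finset (Fin k)).Nonempty := ⟨⟨0, hk⟩, Finset.mem_univ _⟩
        exact Finset.sum_lt_sum_of_nonempty hne' fun s _ =>
          Finset.sum_lt_sum_of_nonempty hne' fun t _ => hcon s t
      have h5 : ∑ _s : Fin k, ∑ _t : Fin k, α = 1 / (p:ℝ) := by
        simp only [Finset.sum_const, Finset.card_univ, Fintype.card_fin, nsmul_eq_mul]
        rw [hα]
        field_simp
      have h6 : (∑ i, ∑ j, if R i j then w i * w j else 0) ≤
          ∑ s : Fin k, ∑ t : Fin k,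
          (∑ i, ∑ j, if (C i s ∩ C j t).Nonempty then w i * w j else 0) := by
        have h7 : ∑ s : Fin k, ∑ t : Fin k,
            (∑ i, ∑ j, if (C i s ∩ C j t).Nonempty then w i * w j else 0) =
            ∑ i, ∑ j, ∑ s : Fin k, ∑ t : Fin k,
              (if (C i s ∩ C j t).Nonempty then w i * w j else 0) := by
          calc _ = ∑ s : Fin k, ∑ i, ∑ t : Fin k,
                (∑ j, if (C i s ∩ C j t).Nonempty then w i * w j else 0) :=
                Finset.sum_congr rfl fun s _ => Finset.sum_comm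
            _ = ∑ i, ∑ s : Fin k, ∑ t : Fin k,
                (∑ j, if (C i s ∩ C j t).Nonempty then w i * w j else 0) := Finset.sum_comm
            _ = _ := by
                refine Finset.sum_congr rfl fun i _ => ?_
                calc _ = ∑ s : Fin k, ∑ j, ∑ t : Fin k,
                      (if (C i s ∩ C j t).Nonempty then w i * w j else 0) :=
                      Finset.sum_congr rfl fun s _ => Finset.sum_comm
                  _ = _ := Finset.sum_comm
        rw [h7]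
        refine Finset.sum_le_sum fun i _ => Finset.sum_le_sum fun j _ => ?_
        split_ifs with hr
        · obtain ⟨s, t, hst⟩ := (hRdef i j).1 hr
          have hnn : ∀ s' t' : Fin k, 0 ≤ (if (C i s' ∩ C j t').Nonempty then w i * w j else 0) :=
            fun s' t' => by
              split_ifs
              · exact mul_nonneg (hw i) (hw j)
              · exact le_refl _
          calc w i * w j = (if (C i s ∩ C j t).Nonempty then w i * w j else 0) := by
                rw [if_pos hst]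
            _ ≤ ∑ t', (if (C i s ∩ C j t').Nonempty then w i * w j else 0) :=
                Finset.single_le_sum (f := fun t' =>
                  (if (C i s ∩ C j t').Nonempty then w i * w j else 0))
                  (fun t' _ => hnn s t') (Finset.mem_univ t)
            _ ≤ _ := Finset.single_le_sum (f := fun s' => ∑ t',
                  (if (C i s' ∩ C j t').Nonempty then w i * w j else 0))
                  (fun s' _ => Finset.sum_nonneg fun t' _ => hnn s' t') (Finset.mem_univ s)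
        · exact Finset.sum_nonneg fun s _ => Finset.sum_nonneg fun t _ => by
            split_ifs
            · exact mul_nonneg (hw i) (hw j)
            · exact le_refl _
      rw [h5] at h4
      linarith
    have hmono : ∀ (s : Fin k) (l : E3 × E3), (∑ i, if Hits l (C i s) then w i else 0) ≤
        ∑ i, if Hits l (⋃ s, C i s) then w i else 0 := by
      intro s l
      refine Finset.sum_le_sum fun i _ => ?_
      by_cases h : Hits l (C i s)
      · have h' : Hits l (⋃ s, C i s) := by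
          obtain ⟨u, hu⟩ := h
          exact ⟨u, Set.mem_iUnion.2 ⟨s, hu⟩⟩
        rw [if_pos h, if_pos h']
      · rw [if_neg h]
        split_ifs
        · exact hw i
        · exact le_refl _
    rcases weightedD c K hc H α hα0 (fun i => C i s) (fun j => C j t) (fun i => hC i s)
      (fun j => hC j t) w hw hw1 w hw hw1 hst with ⟨l, hl, h⟩ | ⟨l, hl, h⟩
    · rw [hconst] at h
      exact ⟨l, hl, h.trans (hmono s l)⟩
    · rw [hconst] at h
      exact ⟨l, hl, h.trans (hmono t l)⟩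
  have hc2 : 0 < c / (2 * (4 * (k:ℝ) ^ 2 * p) ^ K) := by positivity
  obtain ⟨k0, Q, w, hQ, hw0, hw1, hcov⟩ := minimax _ hc2
      {P : Fin n → Prop | ∃ l : E3 × E3, l.2 ≠ 0 ∧ P = fun i => Hits l (⋃ s, C i s)} (by
        intro w hw hw1
        obtain ⟨l, hl, hle⟩ := key w hw hw1
        exact ⟨_, ⟨l, hl, rfl⟩, hle⟩) hn
  choose l hl hQl using hQ
  obtain ⟨N, L, hN, hL, h⟩ := repeat_lines _ hc2 l hl (fun i => ⋃ s, C i s) w hw0 hw1 (by
      intro i
      refine (hcov i).trans (le_of_eq ?_)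
      refine Finset.sum_congr rfl fun s _ => ?_
      rw [hQl s])
  refine ⟨N, L, hN, hL, fun i => ?_⟩
  have h1 := h i
  rwa [show c / (2 * (4 * (k:ℝ) ^ 2 * p) ^ K) / 2 = c / (4 * (4 * (k:ℝ) ^ 2 * p) ^ K) by
    field_simp; ring] at h1

end Pool.Agent.BIP.Dual
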