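import Pool.Agent.BIP.Main
import Pool.Agent.BIP.Unions

/-!
# Systems of lines
-/

open scoped BigOperators Classical

namespace Pool.Agent.BIP

/-- The density theorem for arbitrary finite index types. -/
theorem dens_of_fin (c : ℝ) (K : ℕ)
    (h : ∀ (α : ℝ), 0 < α → ∀ (m n : ℕ), 1 ≤ m → 1 ≤ n →
      ∀ (A : Fin m → Set (EuclideanSpace ℝ (Fin 3))) (B : Fin n → Set (EuclideanSpace ℝ (Fin 3))),
      (∀ i, Convex ℝ (A i)) → (∀ j, Convex ℝ (B j)) →
      α * (m * n : ℝ) ≤ (Nat.card {q : Fin m × Fin n // (A q.1 ∩ B q.2).Nonempty} : ℝ) →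
      (∃ x d : EuclideanSpace ℝ (Fin 3), d ≠ 0 ∧
        c * α ^ K * (m : ℝ) ≤ (Nat.card {i : Fin m // ∃ t : ℝ, x + t • d ∈ A i} : ℝ)) ∨
      (∃ x d : EuclideanSpace ℝ (Fin 3), d ≠ 0 ∧
        c * α ^ K * (n : ℝ) ≤ (Nat.card {j : Fin n // ∃ t : ℝ, x + t • d ∈ B j} : ℝ))) :
    Dual.Dens c K := by
  intro α hα ι κ _ _ _ _ A B hA hB hdens
  let e := Fintype.equivFin ι
  let f := Fintype.equivFin κ
  have hcount : ∀ {τ : Type} [Fintype τ] (S : τ → Set (EuclideanSpace ℝ (Fin 3)))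
      (x d : EuclideanSpace ℝ (Fin 3)),
      (Nat.card {i : Fin (Fintype.card τ) //
        ∃ t : ℝ, x + t • d ∈ S ((Fintype.equivFin τ).symm i)} : ℝ)
        = ((Finset.univ.filter fun i => Dual.Hits (x, d) (S i)).card : ℝ) := by
    intro τ _ S x d
    congr 1
    refine (Nat.card_congr (Equiv.subtypeEquiv (q := fun i => Dual.Hits (x, d) (S i))
      (Fintype.equivFin τ).symm fun i => Iff.rfl)).trans ?_
    rw [Nat.card_eq_fintype_card, Fintype.card_subtype]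
  have hpairs : (Nat.card {q : Fin (Fintype.card ι) × Fin (Fintype.card κ) //
      (A (e.symm q.1) ∩ B (f.symm q.2)).Nonempty} : ℝ) =
      ((Finset.univ.filter fun q : ι × κ => (A q.1 ∩ B q.2).Nonempty).card : ℝ) := by
    congr 1
    refine (Nat.card_congr (Equiv.subtypeEquiv (q := fun q : ι × κ => (A q.1 ∩ B q.2).Nonempty)
      (Equiv.prodCongr e.symm f.symm) fun q => Iff.rfl)).trans ?_
    rw [Nat.card_eq_fintype_card, Fintype.card_subtype]
  rcases h α hα (Fintype.card ι) (Fintype.card κ) Fintype.card_pos Fintype.card_pos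
    (fun i => A (e.symm i)) (fun j => B (f.symm j)) (fun i => hA _) (fun j => hB _)
    (by rw [hpairs]; exact hdens) with ⟨x, d, hd, h1⟩ | ⟨x, d, hd, h1⟩
  · refine Or.inl ⟨(x, d), hd, ?_⟩
    rw [hcount A x d] at h1
    exact h1
  · refine Or.inr ⟨(x, d), hd, ?_⟩
    rw [hcount B x d] at h1
    exact h1

/-- Unions of `k` convex sets, among any `p` of which two intersect: a system of lines such that
every member meets a positive fraction of them. -/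
theorem main2 : ∃ (c : ℝ) (K : ℕ), 0 < c ∧ ∀ (p k n : ℕ), 2 ≤ p →
    ∀ F : Fin n → Set (EuclideanSpace ℝ (Fin 3)), (∀ i, (F i).Nonempty) →
    (∀ i, ∃ C : Fin k → Set (EuclideanSpace ℝ (Fin 3)), (∀ s, Convex ℝ (C s)) ∧ F i = ⋃ s, C s) →
    (∀ S : Finset (Fin n), S.card = p → ∃ i ∈ S, ∃ j ∈ S, i ≠ j ∧ (F i ∩ F j).Nonempty) →
    ∃ (N : ℕ) (x d : Fin N → EuclideanSpace ℝ (Fin 3)), 0 < N ∧ (∀ r, d r ≠ 0) ∧
      ∀ i, c / ((k : ℝ) * p) ^ K * (N : ℝ) ≤
        (Nat.card {r : Fin N // ∃ t : ℝ, x r + t • d r ∈ F i} : ℝ) := by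
  obtain ⟨c, K, hc, h⟩ := main
  have H := dens_of_fin c K h
  refine ⟨c / (4 * 4 ^ K), 2 * K, by positivity, ?_⟩
  intro p k n hp F hne hF hp2
  choose C hC hCF using hF
  have hne' : ∀ i, ∃ s, (C i s).Nonempty := by
    intro i
    obtain ⟨x, hx⟩ := hne i
    rw [hCF i, Set.mem_iUnion] at hx
    obtain ⟨s, hs⟩ := hx
    exact ⟨s, x, hs⟩
  obtain ⟨N, L, hN, hL, hcov⟩ := Dual.unions c K hc H p k n hp C hC hne' (by
    intro S hS
    obtain ⟨i, hi, j, hj, hij, hm⟩ := hp2 S hS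
    refine ⟨i, hi, j, hj, hij, ?_⟩
    rwa [hCF i, hCF j] at hm)
  refine ⟨N, fun r => (L r).1, fun r => (L r).2, hN, hL, fun i => ?_⟩
  have hk : 0 < k := by
    obtain ⟨s, -⟩ := hne' i
    exact lt_of_le_of_lt (Nat.zero_le _) s.2
  have hk' : (1:ℝ) ≤ k := by exact_mod_cast hk
  have hp' : (1:ℝ) ≤ p := by exact_mod_cast (by omega : 1 ≤ p)
  have h1 := hcov i
  have h2 : ((Finset.univ.filter fun r => Dual.Hits (L r) (⋃ s, C i s)).card : ℝ) =
      (Nat.card {r : Fin N // ∃ t : ℝ, (L r).1 + t • (L r).2 ∈ F i} : ℝ) := by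
    congr 1
    rw [Nat.card_eq_fintype_card, Fintype.card_subtype, hCF i]
    rfl
  rw [← h2]
  refine le_trans (mul_le_mul_of_nonneg_right ?_ (Nat.cast_nonneg _)) h1
  have h3 : (4 * (k:ℝ) ^ 2 * p) ^ K ≤ 4 ^ K * ((k:ℝ) * p) ^ (2 * K) := by
    rw [pow_mul, ← mul_pow]
    refine pow_le_pow_left₀ (by positivity) ?_ K
    have : (p:ℝ) ≤ p ^ 2 := by nlinarith
    nlinarith [mul_le_mul_of_nonneg_left this (by positivity : (0:ℝ) ≤ 4 * (k:ℝ) ^ 2)]
  have h4 : c / (4 * 4 ^ K) / ((k:ℝ) * p) ^ (2 * K) =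
      c / (4 * (4 ^ K * ((k:ℝ) * p) ^ (2 * K))) := by
    rw [div_div]; ring_nf
  rw [h4]
  refine div_le_div_of_nonneg_left hc.le (by positivity) ?_
  linarith

end Pool.Agent.BIP
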