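import Pool.Agent.BIP.JDefs

/-!
# Near product arrays (small oscillations)
-/

namespace Pool.Agent.BIP

/-- Every cell `(1, x, y, z)` is close to `(1, X, Y, X Y)`; `X`, `Y` lacunary. -/
structure Nod {m n : ℕ} (e T : ℝ) (X : Fin n → ℝ) (Y : Fin m → ℝ) (x y z : Fin m → Fin n → ℝ) :
    Prop where
  hX : ∀ j, 0 < X j
  hY : ∀ i, 0 < Y i
  lX : ∀ j j', j < j' → T * X j ≤ X j'
  lY : ∀ i i', i < i' → T * Y i ≤ Y i'
  nx : ∀ i j, |x i j - X j| ≤ e * X j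
  ny : ∀ i j, |y i j - Y i| ≤ e * Y i
  nz : ∀ i j, |z i j - X j * Y i| ≤ e * (X j * Y i)

/-- The statement of the small half. -/
def NodeHit (N : ℕ) : Prop := ∃ (e T : ℝ) (m : ℕ), 0 < e ∧ 1 ≤ T ∧
  ∀ (X Y : Fin m → ℝ) (x y z : Fin m → Fin m → ℝ), Nod e T X Y x y z →
    Generic (Nrm x y z) → Hit (Nrm x y z) N

end Pool.Agent.BIP
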