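import Pool.Agent.BIP.Defs

/-!
# Row A: four points of a line with a small cross ratio
-/

namespace Pool.Agent.BIP

/-- ROW A. `d` additive and positive on the pairs `s < t` of `Fin n`. -/
theorem rowA (n : ℕ) (T : ℝ) (hT : 1 ≤ T) (hn : 2 * T + 6 ≤ n) (d : Fin n → Fin n → ℝ)
    (hpos : ∀ s t, s < t → 0 < d s t)
    (hadd : ∀ s t u, s < t → t < u → d s t + d t u = d s u) :
    ∃ a b c e : Fin n, a < b ∧ b < c ∧ c < e ∧ T * (d a b * d c e) ≤ d a c * d b e := by
  by_contra hcon
  push Not at hcon
  have hn8 : (8 : ℝ) ≤ n := by linarith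
  have hn8' : 8 ≤ n := by exact_mod_cast hn8
  have hT0 : 0 < T := by linarith
  -- indices
  set z : Fin n := ⟨0, by omega⟩ with hz
  set o : Fin n := ⟨1, by omega⟩ with ho
  set p : Fin n := ⟨n - 2, by omega⟩ with hp
  set q : Fin n := ⟨n - 1, by omega⟩ with hq
  have hop : o < p := by rw [ho, hp, Fin.mk_lt_mk]; omega
  have hD : 0 < d o p := hpos o p hop
  -- every inner step is long
  have hstep : ∀ k : ℕ, ∀ hk : 1 ≤ k, ∀ hk' : k + 3 ≤ n,
      d o p ≤ (2 * T) * d ⟨k, by omega⟩ ⟨k + 1, by omega⟩ := by
    intro k hk hk'
    set s : Fin n := ⟨k, by omega⟩ with hs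
    set t : Fin n := ⟨k + 1, by omega⟩ with ht
    have hst : s < t := by rw [hs, ht, Fin.mk_lt_mk]; omega
    have hzs : z < s := by rw [hz, hs, Fin.mk_lt_mk]; omega
    have htq : t < q := by rw [ht, hq, Fin.mk_lt_mk]; omega
    have hpq : p < q := by rw [hp, hq, Fin.mk_lt_mk]; omega
    have hzo : z < o := by rw [hz, ho, Fin.mk_lt_mk]; omega
    have hsp : s < p := by rw [hs, hp, Fin.mk_lt_mk]; omega
    have hot : o < t := by rw [ho, ht, Fin.mk_lt_mk]; omega
    have dst := hpos s t hst
    -- right part
    have hR : d s p ≤ T * d s t := by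
      rcases lt_or_ge t p with htp | htp
      · have h := hcon s t p q hst htp hpq
        have h1 : d t p + d p q = d t q := hadd t p q htp hpq
        have h2 := hpos t p htp
        have h3 := hpos p q hpq
        have h4 := hpos s p hsp
        have h5 : d s p * d p q ≤ T * d s t * d p q := by nlinarith
        exact le_of_mul_le_mul_right h5 h3
      · have htp' : t = p := by
          apply le_antisymm _ htp
          rw [ht, hp, Fin.mk_le_mk]; omega
        rw [← htp']
        nlinarith
    -- left part
    have hL : d o t ≤ T * d s t := by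
      rcases lt_or_ge o s with hos | hos
      · have h := hcon z o s t hzo hos hst
        have h1 : d z o + d o s = d z s := hadd z o s hzo hos
        have h2 := hpos o s hos
        have h3 := hpos z o hzo
        have h4 := hpos o t hot
        have h5 : d o t * d z o ≤ T * d s t * d z o := by nlinarith
        exact le_of_mul_le_mul_right h5 h3
      · have hos' : o = s := by
          apply le_antisymm _ hos
          rw [ho, hs, Fin.mk_le_mk]; omega
        rw [hos']
        nlinarith
    -- sum
    have hsum : d o p ≤ d o t + d s p := by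
      rcases lt_or_ge t p with htp | htp
      · have h1 : d o t + d t p = d o p := hadd o t p hot htp
        have h2 : d s t + d t p = d s p := hadd s t p hst htp
        linarith
      · have htp' : t = p := by
          apply le_antisymm _ htp
          rw [ht, hp, Fin.mk_le_mk]; omega
        rw [htp']
        have := hpos s p hsp
        linarith
    linarith
  have hind : ∀ k : ℕ, 1 ≤ k → ∀ hk' : k + 3 ≤ n,
      (k : ℝ) * d o p ≤ (2 * T) * d o ⟨k + 1, by omega⟩ := by
    intro k hk
    induction k, hk using Nat.le_induction with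
    | base =>
      intro hk'
      have := hstep 1 le_rfl hk'
      simpa using this
    | succ k hk ih =>
      intro hk'
      have h1 := ih (by omega)
      have h2 := hstep (k + 1) (by omega) hk'
      have h3 : d o ⟨k + 1, by omega⟩ + d ⟨k + 1, by omega⟩ ⟨k + 1 + 1, by omega⟩ =
          d o ⟨k + 1 + 1, by omega⟩ :=
        hadd _ _ _ (by rw [ho, Fin.mk_lt_mk]; omega) (by rw [Fin.mk_lt_mk]; omega)
      push_cast
      nlinarith
  have hfin := hind (n - 3) (by omega) (by omega)
  have hidx : (⟨n - 3 + 1, by omega⟩ : Fin n) = p := by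
    rw [hp, Fin.mk.injEq]; omega
  rw [hidx] at hfin
  have hc : ((n - 3 : ℕ) : ℝ) = n - 3 := by
    rw [Nat.cast_sub (by omega)]; norm_num
  rw [hc] at hfin
  have : (n : ℝ) - 3 ≤ 2 * T := le_of_mul_le_mul_right hfin hD
  linarith

end Pool.Agent.BIP
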