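import Pool.Agent.BIP.Defs

/-! Row B: scalar arrays growing along chains are row or column dominated. -/

namespace Pool.Agent.BIP

/-- Lemma B: a positive scalar array growing along chains is row dominated or column dominated. -/
theorem lemmaB70 {ι κ : Type*} [LinearOrder ι] [LinearOrder κ] (r : ι → κ → ℝ)
    (hr : ∀ i j, 0 < r i j) (T T₁ : ℝ) (hT : 1 ≤ T) (hT1 : T ^ 2 ≤ T₁)
    (hch : ∀ i i' j j', i < i' → j < j' → T₁ * r i j ≤ r i' j')
    (hp : (∀ i i' j j', i < i' → j' < j → T * r i j ≤ r i' j') ∨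
      (∀ i i' j j', i < i' → j' < j → ¬ T * r i j ≤ r i' j'))
    (hq : (∀ i i' j j', i < i' → j' < j → T * r i' j' ≤ r i j) ∨
      (∀ i i' j j', i < i' → j' < j → ¬ T * r i' j' ≤ r i j))
    (hι : ∃ a b c : ι, a < b ∧ b < c) (hκ : ∃ a b c : κ, a < b ∧ b < c) :
    (∀ i i'' i', i < i'' → i'' < i' → ∀ j j', (∃ j'', j < j'') → T * r i j ≤ r i' j') ∨
      (∀ j j'' j', j < j'' → j'' < j' → ∀ i i', (∃ i'', i < i'') → T * r i j ≤ r i' j') := by
  have hTT : T ≤ T₁ := by nlinarith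
  have hT0 : 0 < T := by linarith
  have hTT1 : 1 ≤ T₁ := by linarith
  rcases hp with hp | hp
  · left
    intro i i'' i' h1 h2 j j' ⟨j'', hj⟩
    rcases lt_trichotomy j j' with h | h | h
    · exact (mul_le_mul_of_nonneg_right hTT (hr i j).le).trans (hch i i' j j' (h1.trans h2) h)
    · subst h
      have h3 := hch i i'' j j'' h1 hj
      have h4 := hp i'' i' j'' j h2 hj
      have h5 := hr i j
      have h6 := hr i'' j''
      have h7 : r i j ≤ r i'' j'' := by nlinarith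
      exact (mul_le_mul_of_nonneg_left h7 hT0.le).trans h4
    · exact hp i i' j j' (h1.trans h2) h
  rcases hq with hq | hq
  · right
    intro j j'' j' h1 h2 i i' ⟨i'', hi⟩
    rcases lt_trichotomy i i' with h | h | h
    · exact (mul_le_mul_of_nonneg_right hTT (hr i j).le).trans (hch i i' j j' h (h1.trans h2))
    · subst h
      have h3 := hch i i'' j j'' hi h1
      have h4 := hq i i'' j' j'' hi h2
      have h5 := hr i j
      have h6 := hr i'' j''
      have h7 : r i j ≤ r i'' j'' := by nlinarith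
      exact (mul_le_mul_of_nonneg_left h7 hT0.le).trans h4
    · exact hq i' i j' j h (h1.trans h2)
  exfalso
  obtain ⟨i₀, i, i', h1, h2⟩ := hι
  obtain ⟨j, j', j₀, h3, h4⟩ := hκ
  have h5 := hch i i' j j' h2 h3
  have h6 := hq i₀ i' j₀ j' (h1.trans h2) h4
  have h7 := hp i₀ i j₀ j h1 (h3.trans h4)
  have h8 := hp i₀ i' j₀ j' (h1.trans h2) h4
  have h9 := hq i₀ i j₀ j h1 (h3.trans h4)
  push Not at h6 h7 h8 h9
  -- r i' j' < T r i₀ j₀ < T² r i j
  have h10 : r i' j' < T * r i₀ j₀ := by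
    nlinarith [hr i' j', hr i₀ j₀]
  have h11 : r i₀ j₀ < T * r i j := by
    nlinarith [hr i j, hr i₀ j₀]
  have h12 : r i' j' < T ^ 2 * r i j := by nlinarith [hr i j]
  have h13 : T ^ 2 * r i j ≤ T₁ * r i j := mul_le_mul_of_nonneg_right hT1 (hr i j).le
  linarith

/-- ROW B. -/
theorem rowB (n : ℕ) (T T₁ : ℝ) (hT : 1 < T) (hT₁ : T ^ 4 < T₁)
    (r : Fin (2 * n + 1) → Fin (2 * n + 1) → ℝ) (hpos : ∀ i j, 0 < r i j)
    (hch : ChainDom T₁ r)
    (h1 : ∀ i i' j j' k k' l l', i < i' → j' < j → k < k' → l' < l →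
      (T * r i j ≤ r i' j' ↔ T * r k l ≤ r k' l'))
    (h2 : ∀ i i' j j' k k' l l', i < i' → j' < j → k < k' → l' < l →
      (T * r i' j' ≤ r i j ↔ T * r k' l' ≤ r k l)) :
    let e : Fin n → Fin (2 * n + 1) := fun i => ⟨2 * i.1 + 1, by omega⟩
    RowDom T (fun i j => r (e i) (e j)) ∨ ColDom T (fun i j => r (e i) (e j)) := by
  intro e
  by_cases hn : n ≤ 1
  · left
    intro i i' j j' hlt
    have h3 := i.isLt
    have h4 := i'.isLt
    have h5 : i.1 < i'.1 := hlt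
    omega
  have hT2 : T ^ 2 ≤ T₁ := by nlinarith [sq_nonneg (T ^ 2 - 1), sq_nonneg T]
  have hp : (∀ i i' j j', i < i' → j' < j → T * r i j ≤ r i' j') ∨
      (∀ i i' j j', i < i' → j' < j → ¬ T * r i j ≤ r i' j') := by
    by_cases hP : ∃ i i' j j', i < i' ∧ j' < j ∧ T * r i j ≤ r i' j'
    · obtain ⟨i, i', j, j', h3, h4, h5⟩ := hP
      exact Or.inl fun k k' l l' h6 h7 => (h1 i i' j j' k k' l l' h3 h4 h6 h7).1 h5
    · push Not at hP
      exact Or.inr fun k k' l l' h6 h7 => not_le.2 (hP k k' l l' h6 h7)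
  have hq : (∀ i i' j j', i < i' → j' < j → T * r i' j' ≤ r i j) ∨
      (∀ i i' j j', i < i' → j' < j → ¬ T * r i' j' ≤ r i j) := by
    by_cases hP : ∃ i i' j j', i < i' ∧ j' < j ∧ T * r i' j' ≤ r i j
    · obtain ⟨i, i', j, j', h3, h4, h5⟩ := hP
      exact Or.inl fun k k' l l' h6 h7 => (h2 i i' j j' k k' l l' h3 h4 h6 h7).1 h5
    · push Not at hP
      exact Or.inr fun k k' l l' h6 h7 => not_le.2 (hP k k' l l' h6 h7)
  have h3el : ∃ a b c : Fin (2 * n + 1), a < b ∧ b < c :=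
    ⟨⟨0, by omega⟩, ⟨1, by omega⟩, ⟨2, by omega⟩, by simp [Fin.lt_def], by simp [Fin.lt_def]⟩
  rcases lemmaB70 r hpos T T₁ hT.le hT2 (fun i i' j j' h3 h4 => hch i i' j j' h3 h4) hp hq h3el h3el
    with h3 | h3
  · left
    intro i i' j j' hlt
    have h4 : i.1 < i'.1 := hlt
    have h5 := i'.isLt
    have h6 := j.isLt
    refine h3 (e i) ⟨2 * i.1 + 2, by omega⟩ (e i') ?_ ?_ (e j) (e j') ⟨⟨2 * j.1 + 2, by omega⟩, ?_⟩
    · simp only [e, Fin.lt_def]; omega
    · simp only [e, Fin.lt_def]; omega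
    · simp only [e, Fin.lt_def]; omega
  · right
    intro i i' j j' hlt
    have h4 : j.1 < j'.1 := hlt
    have h5 := j'.isLt
    have h6 := i.isLt
    refine h3 (e j) ⟨2 * j.1 + 2, by omega⟩ (e j') ?_ ?_ (e i) (e i') ⟨⟨2 * i.1 + 2, by omega⟩, ?_⟩
    · simp only [e, Fin.lt_def]; omega
    · simp only [e, Fin.lt_def]; omega
    · simp only [e, Fin.lt_def]; omega

end Pool.Agent.BIP
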