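import Pool.Agent.BIP.TRows
import Pool.Agent.BIP.FX

/-!
# TWO: the core
-/

namespace Pool.Agent.BIP.TB

open Pool.Agent.BIP Pool.Agent.BIP.FX Pool.Agent.BIP.TW

/-- row chord of a block -/
noncomputable def rch {h k : ℕ} (w : Fin h → Fin k → V4) (i : Fin h) (j j' : Fin k) : Ln :=
  Lth (w i j 1) (w i j 2) (w i j 3) (w i j' 1) (w i j' 2) (w i j' 3)

/-- column chord of a block -/
noncomputable def cch {h k : ℕ} (w : Fin h → Fin k → V4) (i i' : Fin h) (j : Fin k) : Ln :=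
  Lth (w i j 2) (w i j 1) (w i j 3) (w i' j 2) (w i' j 1) (w i' j 3)

/-- normalized pairing -/
noncomputable def hz (E F : Ln) : ℝ := MM E F / (F.a * E.a)

/-- sign -/
noncomputable def pSg : GPred := ⟨3, 3, fun w => 0 < MM (rch w 1 0 2) (cch w 0 2 1)⟩

/-- monotone -/
noncomputable def pMon : GPred := ⟨3, 4, fun w =>
  hz (rch w 1 0 3) (cch w 0 2 1) ≤ hz (rch w 1 0 3) (cch w 0 2 2)⟩

/-- half -/
noncomputable def pAl : GPred := ⟨3, 3, fun w =>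
  MM (rch w 1 0 1) (cch w 0 2 1) ≤ MM (rch w 1 0 2) (cch w 0 2 1) / 2 ∧
  MM (rch w 1 1 2) (cch w 0 2 1) ≤ MM (rch w 1 0 2) (cch w 0 2 1) / 2⟩

/-- the four columns of a `3 × 6` block -/
noncomputable def F6 (w : Fin 3 → Fin 6 → V4) : Fin 4 → Ln := fun i =>
  cch w 0 2 (![1, 2, 3, 4] i)

/-- no cancellation -/
noncomputable def pNC : GPred := ⟨3, 6, fun w =>
  |A0 (F6 w)| + |A1 (F6 w)| * (rch w 1 0 5).a + |A2 (F6 w)| * (rch w 1 0 5).a ^ 2 ≤
    10 * |fK (F6 w) (rch w 1 0 5)|⟩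

/-- the column chord meets the row -/
noncomputable def pF : GPred := ⟨3, 3, fun w => Met (cF (cch w 0 2 1)) (cG (cch w 0 2 1)) (w 1)⟩

/-- the row chord meets the column -/
noncomputable def pE : GPred := ⟨3, 3, fun w =>
  Met (rF (rch w 1 0 2)) (rG (rch w 1 0 2)) (fun s => w s 1)⟩

/-- `C_τ` meets the row -/
noncomputable def pC (j : Fin 4) (τ : ℝ) : GPred := ⟨3, 6, fun w =>
  Met (cF (Ct (F6 w) j τ)) (cG (Ct (F6 w) j τ)) (w 1)⟩

/-- positions of the four columns in a block of eight columns, `j` between its neighbours -/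
def pos8 (j : Fin 4) : Fin 4 → Fin 8 :=
  ![![2, 4, 5, 6], ![1, 3, 5, 6], ![1, 2, 4, 6], ![1, 2, 3, 5]] j

def nlo (j : Fin 4) : Fin 8 := ![1, 2, 3, 4] j
def nhi (j : Fin 4) : Fin 8 := ![3, 4, 5, 6] j

noncomputable def F8 (w : Fin 3 → Fin 8 → V4) (j : Fin 4) : Fin 4 → Ln := fun i =>
  cch w 0 2 (pos8 j i)

/-- the maximum of the normalized pairings outside the column -/
noncomputable def Hm (w : Fin 3 → Fin 8 → V4) (j : Fin 4) : ℝ :=
  max (hz (rch w 1 0 7) (cch w 0 2 (nlo j))) (max (hz (rch w 1 0 7) (cch w 0 2 (nhi j)))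
    (max (hz (rch w 1 0 7) (F8 w j (oth j 0))) (max (hz (rch w 1 0 7) (F8 w j (oth j 1)))
      (hz (rch w 1 0 7) (F8 w j (oth j 2))))))

/-- the line `R` -/
noncomputable def R8 (w : Fin 3 → Fin 8 → V4) (j : Fin 4) (ξ : ℝ) : Ln :=
  Rln (rch w 1 0 7) (F8 w j (oth j 0)) (F8 w j (oth j 1)) (F8 w j (oth j 2))
    (ξ * (1000 * Hm w j))

/-- `R` meets the column -/
noncomputable def pR (j : Fin 4) (ξ : ℝ) : GPred := ⟨3, 8, fun w =>
  Met (rF (R8 w j ξ)) (rG (R8 w j ξ)) (fun s => w s (pos8 j j))⟩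

noncomputable def taus : List ℝ := [3 / 2, 1, 4 / 5, 1 / 2, 3 / 10]

noncomputable def TL : List GPred :=
  [pSg, pMon, pAl, pNC, pF, pE] ++
    ([0, 1, 2, 3] : List (Fin 4)).flatMap (fun j => taus.map (fun τ => pC j τ)) ++
    ([0, 1, 2, 3] : List (Fin 4)).flatMap (fun j => [pR j 1, pR j (-1)])

/-- near product arrays of either sign -/
structure NodK {m n : ℕ} (κ e T : ℝ) (X : Fin n → ℝ) (Y : Fin m → ℝ) (x y z : Fin m → Fin n → ℝ) :
    Prop where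
  hX : ∀ j, 0 < X j
  hY : ∀ i, 0 < Y i
  lX : ∀ j j', j < j' → T * X j ≤ X j'
  lY : ∀ i i', i < i' → T * Y i ≤ Y i'
  nx : ∀ i j, |x i j - X j| ≤ e / 6 * X j
  ny : ∀ i j, |y i j - Y i| ≤ e / 6 * Y i
  nz : ∀ i j, |z i j - κ * (X j * Y i)| ≤ e / 6 * (X j * Y i)

theorem cch_dep {h k : ℕ} (w w' : Fin h → Fin k → V4) (i i' : Fin h) (j : Fin k)
    (h1 : w i j = w' i j) (h2 : w i' j = w' i' j) : cch w i i' j = cch w' i i' j := by
  unfold cch
  rw [h1, h2]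

theorem rch_dep {h k : ℕ} (w w' : Fin h → Fin k → V4) (i : Fin h) (j j' : Fin k)
    (h1 : w i j = w' i j) (h2 : w i j' = w' i j') : rch w i j j' = rch w' i j j' := by
  unfold rch
  rw [h1, h2]

theorem posne (j : Fin 4) : (0 : Fin 8) ≠ pos8 j j ∧ (7 : Fin 8) ≠ pos8 j j ∧
    nlo j ≠ pos8 j j ∧ nhi j ≠ pos8 j j ∧ ∀ k : Fin 3, pos8 j (oth j k) ≠ pos8 j j := by
  revert j
  decide

section fail

variable {M N : ℕ} (v : Fin M → Fin M → V4) (hM : N + 12 ≤ M) (hN : 1 ≤ N)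
  (hhom : ∀ p ∈ TL, p.Homog v)

include hM hN hhom

theorem miss_F (hv : ¬ HitRows v N) (a b : Fin 3 → Fin M) (ha : StrictMono a)
    (hb : StrictMono b) : ¬ pF.P (Sub v a b) := by
  refine failRows v pF (hhom _ (by simp [TL])) (by change 3 + N ≤ M; omega) (1 : Fin 3)
    (fun (w : Fin 3 → Fin 3 → V4) => cF (cch w 0 2 1))
    (fun (w : Fin 3 → Fin 3 → V4) => cG (cch w 0 2 1)) ?_ ?_ hv hN a b ha hb
  · intro (w : Fin 3 → Fin 3 → V4) (w' : Fin 3 → Fin 3 → V4) (h : ∀ s : Fin 3, s ≠ 1 → w s = w' s)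
    have e : cch w 0 2 1 = cch w' 0 2 1 := cch_dep w w' 0 2 1 (by rw [h 0 (by decide)])
      (by rw [h 2 (by decide)])
    exact ⟨by rw [e], by rw [e]⟩
  · intro a b _ _ h
    exact ⟨t2_indC _, h⟩

theorem miss_E (hv : ¬ HitCols v N) (a b : Fin 3 → Fin M) (ha : StrictMono a)
    (hb : StrictMono b) : ¬ pE.P (Sub v a b) := by
  refine failCols v pE (hhom _ (by simp [TL])) (by change 3 + N ≤ M; omega) (1 : Fin 3)
    (fun (w : Fin 3 → Fin 3 → V4) => rF (rch w 1 0 2))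
    (fun (w : Fin 3 → Fin 3 → V4) => rG (rch w 1 0 2)) ?_ ?_ hv hN a b ha hb
  · intro (w : Fin 3 → Fin 3 → V4) (w' : Fin 3 → Fin 3 → V4)
      (h : ∀ s t : Fin 3, t ≠ 1 → w s t = w' s t)
    have e : rch w 1 0 2 = rch w' 1 0 2 := rch_dep w w' 1 0 2 (h 1 0 (by decide))
      (h 1 2 (by decide))
    exact ⟨by rw [e], by rw [e]⟩
  · intro a b _ _ h
    exact ⟨t2_indR _, h⟩

theorem miss_C (hv : ¬ HitRows v N) (j : Fin 4) (τ : ℝ) (hτ : τ ∈ taus) (a : Fin 3 → Fin M)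
    (b : Fin 6 → Fin M) (ha : StrictMono a) (hb : StrictMono b) : ¬ (pC j τ).P (Sub v a b) := by
  have hmem : pC j τ ∈ TL := by
    simp only [TL, List.mem_append, List.mem_flatMap, List.mem_map]
    left; right
    exact ⟨j, by fin_cases j <;> simp, τ, hτ, rfl⟩
  refine failRows v (pC j τ) (hhom _ hmem) (by change 3 + N ≤ M; omega) (1 : Fin 3)
    (fun (w : Fin 3 → Fin 6 → V4) => cF (Ct (F6 w) j τ))
    (fun (w : Fin 3 → Fin 6 → V4) => cG (Ct (F6 w) j τ)) ?_ ?_ hv hN a b ha hb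
  · intro (w : Fin 3 → Fin 6 → V4) (w' : Fin 3 → Fin 6 → V4) (h : ∀ s : Fin 3, s ≠ 1 → w s = w' s)
    have e : F6 w = F6 w' := by
      funext i
      exact cch_dep w w' 0 2 _ (by rw [h 0 (by decide)]) (by rw [h 2 (by decide)])
    exact ⟨by rw [e], by rw [e]⟩
  · intro a b _ _ h
    exact ⟨t2_indC _, h⟩

theorem miss_R (hv : ¬ HitCols v N) (j : Fin 4) (ξ : ℝ) (hξ : ξ = 1 ∨ ξ = -1) (a : Fin 3 → Fin M)
    (b : Fin 8 → Fin M) (ha : StrictMono a) (hb : StrictMono b) : ¬ (pR j ξ).P (Sub v a b) := by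
  have hmem : pR j ξ ∈ TL := by
    simp only [TL, List.mem_append, List.mem_flatMap]
    right
    exact ⟨j, by fin_cases j <;> simp, by rcases hξ with rfl | rfl <;> simp⟩
  refine failCols v (pR j ξ) (hhom _ hmem) (by change 8 + N ≤ M; omega) (pos8 j j)
    (fun (w : Fin 3 → Fin 8 → V4) => rF (R8 w j ξ))
    (fun (w : Fin 3 → Fin 8 → V4) => rG (R8 w j ξ)) ?_ ?_ hv hN a b ha hb
  · intro (w : Fin 3 → Fin 8 → V4) (w' : Fin 3 → Fin 8 → V4)
      (h : ∀ (s : Fin 3) (t : Fin 8), t ≠ pos8 j j → w s t = w' s t)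
    have h1 : ∀ (s : Fin 3) (c : Fin 8), c ≠ pos8 j j → w s c = w' s c := fun s c hc => h s c hc
    have eE : rch w 1 0 7 = rch w' 1 0 7 := rch_dep w w' 1 0 7
      (h1 1 0 (posne j).1) (h1 1 7 (posne j).2.1)
    have en : cch w 0 2 (nlo j) = cch w' 0 2 (nlo j) := cch_dep w w' 0 2 _
      (h1 0 _ (posne j).2.2.1) (h1 2 _ (posne j).2.2.1)
    have en' : cch w 0 2 (nhi j) = cch w' 0 2 (nhi j) := cch_dep w w' 0 2 _
      (h1 0 _ (posne j).2.2.2.1) (h1 2 _ (posne j).2.2.2.1)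
    have e0 : F8 w j (oth j 0) = F8 w' j (oth j 0) := cch_dep w w' 0 2 _
      (h1 0 _ ((posne j).2.2.2.2 0)) (h1 2 _ ((posne j).2.2.2.2 0))
    have e1 : F8 w j (oth j 1) = F8 w' j (oth j 1) := cch_dep w w' 0 2 _
      (h1 0 _ ((posne j).2.2.2.2 1)) (h1 2 _ ((posne j).2.2.2.2 1))
    have e2 : F8 w j (oth j 2) = F8 w' j (oth j 2) := cch_dep w w' 0 2 _
      (h1 0 _ ((posne j).2.2.2.2 2)) (h1 2 _ ((posne j).2.2.2.2 2))
    have e : R8 w j ξ = R8 w' j ξ := by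
      unfold R8 Hm
      rw [eE, en, en', e0, e1, e2]
    exact ⟨by rw [e], by rw [e]⟩
  · intro a b _ _ h
    exact ⟨t2_indR _, h⟩

end fail

end Pool.Agent.BIP.TB
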