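import Pool.Agent.BIP.T10b

/-!
# TWO: the core, one cell
-/

namespace Pool.Agent.BIP.TB

open Pool.Agent.BIP Pool.Agent.BIP.FX Pool.Agent.BIP.TW

theorem sm3 {M : ℕ} (a b c : Fin M) (h1 : a < b) (h2 : b < c) : StrictMono ![a, b, c] := by
  rw [Fin.strictMono_iff_lt_succ]
  intro i
  fin_cases i
  exacts [h1, h2]

section

variable {M N : ℕ} {κ e T : ℝ} {X Y : Fin M → ℝ} {x y z : Fin M → Fin M → ℝ}

theorem x_lt (hc : Cst κ e T) (hn : NodK κ e T X Y x y z) {i i' j j' : Fin M} (h : j < j') :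
    x i j < x i' j' := by
  have h1 := (abs_le.1 (hn.nx i j)).2
  have h2 := (abs_le.1 (hn.nx i' j')).1
  have h3 := hn.lX j j' h
  have h4 := hn.hX j
  have h5 := hn.hX j'
  have he := hc.he1
  have he0 := hc.he
  have hT := hc.hT
  have h6 : 10 ^ 9 * X j ≤ X j' := (mul_le_mul_of_nonneg_right hT h4.le).trans h3
  have h7 : e / 6 * X j ≤ X j := by nlinarith
  have h8 : e / 6 * X j' ≤ X j' / 2 := by nlinarith
  linarith

theorem y_lt (hc : Cst κ e T) (hn : NodK κ e T X Y x y z) {i i' j j' : Fin M} (h : i < i') :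
    y i j < y i' j' := by
  have h1 := (abs_le.1 (hn.ny i j)).2
  have h2 := (abs_le.1 (hn.ny i' j')).1
  have h3 := hn.lY i i' h
  have h4 := hn.hY i
  have h5 := hn.hY i'
  have he := hc.he1
  have he0 := hc.he
  have hT := hc.hT
  have h6 : 10 ^ 9 * Y i ≤ Y i' := (mul_le_mul_of_nonneg_right hT h4.le).trans h3
  have h7 : e / 6 * Y i ≤ Y i := by nlinarith
  have h8 : e / 6 * Y i' ≤ Y i' / 2 := by nlinarith
  linarith

/-- facts on a row chord -/
theorem rowLB (hc : Cst κ e T) (hn : NodK κ e T X Y x y z) (r o l : Fin M) (h : o < l) :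
    LB κ e (Y r) (X o) (X l) (rch (Nrm x y z) r o l) ∧
      On (rch (Nrm x y z) r o l) (x r o) (y r o) (z r o) ∧
      On (rch (Nrm x y z) r o l) (x r l) (y r l) (z r l) :=
  t3_LB κ e T (Y r) (X o) (X l) (x r o) (y r o) (z r o) (x r l) (y r l) (z r l) hc (hn.hY r)
    (hn.hX o) (hn.lX o l h) (hn.nx r o) (hn.nx r l) (hn.ny r o) (hn.ny r l) (hn.nz r o) (hn.nz r l)

/-- facts on a column chord -/
theorem colLB (hc : Cst κ e T) (hn : NodK κ e T X Y x y z) (c o l : Fin M) (h : o < l) :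
    LB κ e (X c) (Y o) (Y l) (cch (Nrm x y z) o l c) ∧
      On (cch (Nrm x y z) o l c) (y o c) (x o c) (z o c) ∧
      On (cch (Nrm x y z) o l c) (y l c) (x l c) (z l c) := by
  refine t3_LB κ e T (X c) (Y o) (Y l) (y o c) (x o c) (z o c) (y l c) (x l c) (z l c) hc (hn.hX c)
    (hn.hY o) (hn.lY o l h) (hn.ny o c) (hn.ny l c) (hn.nx o c) (hn.nx l c) ?_ ?_
  · have := hn.nz o c
    rwa [mul_comm (X c) (Y o)] at this
  · have := hn.nz l c
    rwa [mul_comm (X c) (Y l)] at this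

theorem mkCell (hc : Cst κ e T) (hn : NodK κ e T X Y x y z) (r c o l : Fin M) (h1 : o < r)
    (h2 : r < l) (h3 : o < c) (h4 : c < l) :
    Cell κ e T (X c) (Y r) (X o) (X l) (Y o) (Y l) (rch (Nrm x y z) r o l)
      (cch (Nrm x y z) o l c) (x r c) (y r c) (z r c) := by
  have he := hc.he
  refine ⟨hc, hn.hX o, hn.hY o, hn.lX o c h3, hn.lX c l h4, hn.lY o r h1, hn.lY r l h2,
    (rowLB hc hn r o l (h3.trans h4)).1, (colLB hc hn c o l (h1.trans h2)).1, ?_, ?_, ?_⟩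
  · refine (hn.nx r c).trans ?_
    have := hn.hX c
    nlinarith
  · refine (hn.ny r c).trans ?_
    have := hn.hY r
    nlinarith
  · refine (hn.nz r c).trans ?_
    have := mul_pos (hn.hX c) (hn.hY r)
    nlinarith

/-- the column chord misses the row: one of `L`, `L'` is positive. -/
theorem posL (hc : Cst κ e T) (hn : NodK κ e T X Y x y z) (hM : N + 12 ≤ M) (hN : 1 ≤ N)
    (hhom : ∀ p ∈ TL, p.Homog (Nrm x y z)) (hv : ¬ HitRows (Nrm x y z) N) (r c o l : Fin M)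
    (h1 : o < r) (h2 : r < l) (h3 : o < c) (h4 : c < l)
    (hZ : 0 < MM (rch (Nrm x y z) r o l) (cch (Nrm x y z) o l c)) :
    0 < MM (rch (Nrm x y z) r o c) (cch (Nrm x y z) o l c) ∨
      0 < MM (rch (Nrm x y z) r c l) (cch (Nrm x y z) o l c) := by
  by_contra hneg
  push Not at hneg
  refine miss_F (Nrm x y z) hM hN hhom hv ![o, r, l] ![o, c, l] (sm3 _ _ _ h1 h2)
    (sm3 _ _ _ h3 h4) ?_
  have := t2_row (fun t : Fin 3 => x r (![o, c, l] t)) (fun t : Fin 3 => y r (![o, c, l] t))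
    (fun t : Fin 3 => z r (![o, c, l] t)) (cch (Nrm x y z) o l c) 0 1 2 (x_lt hc hn h3)
    (x_lt hc hn h4) hZ.le hneg.1 hneg.2 (by
      have e1 : MM (rch (Nrm x y z) r o c) (cch (Nrm x y z) o l c) ≤ 0 := hneg.1
      have e2 : MM (rch (Nrm x y z) r c l) (cch (Nrm x y z) o l c) ≤ 0 := hneg.2
      have : 0 < MM (rch (Nrm x y z) r o l) (cch (Nrm x y z) o l c) -
        MM (rch (Nrm x y z) r o c) (cch (Nrm x y z) o l c) -
        MM (rch (Nrm x y z) r c l) (cch (Nrm x y z) o l c) := by linarith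
      exact this)
  exact this

/-- the row chord misses the column. -/
theorem posK (hc : Cst κ e T) (hn : NodK κ e T X Y x y z) (hM : N + 12 ≤ M) (hN : 1 ≤ N)
    (hhom : ∀ p ∈ TL, p.Homog (Nrm x y z)) (hv : ¬ HitCols (Nrm x y z) N) (r c o l : Fin M)
    (h1 : o < r) (h2 : r < l) (h3 : o < c) (h4 : c < l)
    (hZ : 0 < MM (rch (Nrm x y z) r o l) (cch (Nrm x y z) o l c)) :
    0 < MM (rch (Nrm x y z) r o l) (cch (Nrm x y z) o r c) ∨
      0 < MM (rch (Nrm x y z) r o l) (cch (Nrm x y z) r l c) := by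
  by_contra hneg
  push Not at hneg
  refine miss_E (Nrm x y z) hM hN hhom hv ![o, r, l] ![o, c, l] (sm3 _ _ _ h1 h2)
    (sm3 _ _ _ h3 h4) ?_
  have := t2_col (fun t : Fin 3 => x (![o, r, l] t) c) (fun t : Fin 3 => y (![o, r, l] t) c)
    (fun t : Fin 3 => z (![o, r, l] t) c) (rch (Nrm x y z) r o l) 0 1 2 (y_lt hc hn h1)
    (y_lt hc hn h2) hZ.le hneg.1 hneg.2 (by
      have e1 : MM (rch (Nrm x y z) r o l) (cch (Nrm x y z) o r c) ≤ 0 := hneg.1
      have e2 : MM (rch (Nrm x y z) r o l) (cch (Nrm x y z) r l c) ≤ 0 := hneg.2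
      have : 0 < MM (rch (Nrm x y z) r o l) (cch (Nrm x y z) o l c) -
        MM (rch (Nrm x y z) r o l) (cch (Nrm x y z) o r c) -
        MM (rch (Nrm x y z) r o l) (cch (Nrm x y z) r l c) := by linarith
      exact this)
  exact this

end

end Pool.Agent.BIP.TB
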