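import Pool.Agent.BIP.T10c

/-!
# TWO: the core
-/

namespace Pool.Agent.BIP.TB

open Pool.Agent.BIP Pool.Agent.BIP.FX Pool.Agent.BIP.TW

theorem sm6' {M : ℕ} (a b c d e f : Fin M) (h1 : a < b) (h2 : b < c) (h3 : c < d) (h4 : d < e)
    (h5 : e < f) : StrictMono ![a, b, c, d, e, f] := by
  rw [Fin.strictMono_iff_lt_succ]
  intro i
  fin_cases i
  exacts [h1, h2, h3, h4, h5]

theorem sm4' {M : ℕ} (a b c d : Fin M) (h1 : a < b) (h2 : b < c) (h3 : c < d) :
    StrictMono ![a, b, c, d] := by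
  rw [Fin.strictMono_iff_lt_succ]
  intro i
  fin_cases i
  exacts [h1, h2, h3]

theorem sm8' {M : ℕ} (a b c d e f g h : Fin M) (h1 : a < b) (h2 : b < c) (h3 : c < d) (h4 : d < e)
    (h5 : e < f) (h6 : f < g) (h7 : g < h) : StrictMono ![a, b, c, d, e, f, g, h] := by
  rw [Fin.strictMono_iff_lt_succ]
  intro i
  fin_cases i
  exacts [h1, h2, h3, h4, h5, h6, h7]

/-- comparison of the normalized pairing with the nodes -/
theorem hz_bd {κ e T t s tm tp sm sp : ℝ} (hc : Cst κ e T) {E F : Ln} (hE : LB κ e s tm tp E)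
    (hF : LB κ e t sm sp F) (ht : 0 < t) (hs : 0 < s) (hZ : 0 < MM E F)
    (hZ1 : MM E F ≤ 20 * e * (t * s)) :
    0 < hz E F ∧ MM E F ≤ hz E F * (1.0001 * (t * s)) ∧ hz E F ≤ 20.3 * e := by
  have he := hc.he
  have he1 := hc.he1
  have a1 := abs_le.1 hE.ha
  have a2 := abs_le.1 hF.ha
  have hes : e * s ≤ s / 10 ^ 6 := by nlinarith
  have het : e * t ≤ t / 10 ^ 6 := by nlinarith
  have hEa : 0 < E.a := by linarith
  have hFa : 0 < F.a := by linarith
  have hts : 0 < t * s := mul_pos ht hs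
  have up : F.a * E.a ≤ 1.0001 * (t * s) := by
    have u1 : F.a ≤ (1 + 1 / 10 ^ 6) * t := by linarith
    have u2 : E.a ≤ (1 + 1 / 10 ^ 6) * s := by linarith
    calc F.a * E.a ≤ ((1 + 1 / 10 ^ 6) * t) * ((1 + 1 / 10 ^ 6) * s) :=
          mul_le_mul u1 u2 hEa.le (by positivity)
      _ = ((1 + 1 / 10 ^ 6) * (1 + 1 / 10 ^ 6)) * (t * s) := by ring
      _ ≤ 1.0001 * (t * s) := by
          apply mul_le_mul_of_nonneg_right _ hts.le
          norm_num
  have lo : 0.99 * (t * s) ≤ F.a * E.a := by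
    have u1 : (1 - 1 / 10 ^ 6) * t ≤ F.a := by linarith
    have u2 : (1 - 1 / 10 ^ 6) * s ≤ E.a := by linarith
    calc 0.99 * (t * s) ≤ ((1 - 1 / 10 ^ 6) * (1 - 1 / 10 ^ 6)) * (t * s) := by
          apply mul_le_mul_of_nonneg_right _ hts.le
          norm_num
      _ = ((1 - 1 / 10 ^ 6) * t) * ((1 - 1 / 10 ^ 6) * s) := by ring
      _ ≤ F.a * E.a := mul_le_mul u1 u2 (by positivity) hFa.le
  have hp : 0 < F.a * E.a := mul_pos hFa hEa
  have h0 : 0 < hz E F := div_pos hZ hp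
  have heq : MM E F = hz E F * (F.a * E.a) := by
    unfold hz
    field_simp
  refine ⟨h0, ?_, ?_⟩
  · rw [heq]
    exact mul_le_mul_of_nonneg_left up h0.le
  · unfold hz
    rw [div_le_iff₀ hp]
    have : 20.3 * e * (0.99 * (t * s)) ≤ 20.3 * e * (F.a * E.a) :=
      mul_le_mul_of_nonneg_left lo (by positivity)
    nlinarith [mul_pos he hts]

theorem oth_cases : ∀ w j : Fin 4, j ≠ w → j = oth w 0 ∨ j = oth w 1 ∨ j = oth w 2 := by
  decide

/-- The core. -/
theorem core {M N : ℕ} {κ e T : ℝ} {X Y : Fin M → ℝ} {x y z : Fin M → Fin M → ℝ}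
    (hc : Cst κ e T) (hn : NodK κ e T X Y x y z) (hM : N + 12 ≤ M) (hN : 1 ≤ N)
    (hhom : ∀ p ∈ TL, p.Homog (Nrm x y z)) (hvR : ¬ HitRows (Nrm x y z) N)
    (hvC : ¬ HitCols (Nrm x y z) N)
    (hZ : ∀ r c o l : Fin M, o < r → r < l → o < c → c < l →
      0 < MM (rch (Nrm x y z) r o l) (cch (Nrm x y z) o l c))
    (hα : ∀ r c o l : Fin M, o < r → r < l → o < c → c < l →
      MM (rch (Nrm x y z) r o c) (cch (Nrm x y z) o l c) ≤
        0.51 * MM (rch (Nrm x y z) r o l) (cch (Nrm x y z) o l c) ∧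
      MM (rch (Nrm x y z) r c l) (cch (Nrm x y z) o l c) ≤
        0.51 * MM (rch (Nrm x y z) r o l) (cch (Nrm x y z) o l c)) : False := by
  have he := hc.he
  have he1 := hc.he1
  have hT := hc.hT
  let p : (k : ℕ) → k < 12 → Fin M := fun k hk => ⟨k, by omega⟩
  let o : Fin M := ⟨0, by omega⟩
  let l : Fin M := ⟨M - 1, by omega⟩
  let r : Fin M := ⟨1, by omega⟩
  let c1 : Fin M := ⟨1, by omega⟩
  let c2 : Fin M := ⟨2, by omega⟩
  let c3 : Fin M := ⟨3, by omega⟩
  let c4 : Fin M := ⟨4, by omega⟩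
  let c5 : Fin M := ⟨5, by omega⟩
  let c6 : Fin M := ⟨6, by omega⟩
  let c7 : Fin M := ⟨7, by omega⟩
  let c8 : Fin M := ⟨8, by omega⟩
  let c9 : Fin M := ⟨9, by omega⟩
  have o1 : o < c1 := by simp only [o, c1, Fin.mk_lt_mk]; omega
  have h12 : c1 < c2 := by simp only [c1, c2, Fin.mk_lt_mk]; omega
  have h23 : c2 < c3 := by simp only [c2, c3, Fin.mk_lt_mk]; omega
  have h34 : c3 < c4 := by simp only [c3, c4, Fin.mk_lt_mk]; omega
  have h45 : c4 < c5 := by simp only [c4, c5, Fin.mk_lt_mk]; omega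
  have h56 : c5 < c6 := by simp only [c5, c6, Fin.mk_lt_mk]; omega
  have h67 : c6 < c7 := by simp only [c6, c7, Fin.mk_lt_mk]; omega
  have h78 : c7 < c8 := by simp only [c7, c8, Fin.mk_lt_mk]; omega
  have h89 : c8 < c9 := by simp only [c8, c9, Fin.mk_lt_mk]; omega
  have h9l : c9 < l := by simp only [c9, l, Fin.mk_lt_mk]; omega
  have o2 : o < c2 := o1.trans h12
  have h8l : c8 < l := h89.trans h9l
  have hor : o < r := o1
  have hrl : r < l := by simp only [r, l, Fin.mk_lt_mk]; omega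
  have hol : o < l := hor.trans hrl
  set V := Nrm x y z with hV
  let b6 : Fin 6 → Fin M := ![o, c2, c4, c6, c8, l]
  have hb6 : StrictMono b6 := sm6' _ _ _ _ _ _ o2 (h23.trans h34) (h45.trans h56)
    (h67.trans h78) h8l
  let cw : Fin 4 → Fin M := fun i => b6 (![1, 2, 3, 4] i)
  let F : Fin 4 → Ln := fun i => cch V o l (cw i)
  let E : Ln := rch V r o l
  have hocw : ∀ i, o < cw i := by
    intro i
    exact hb6 (show (0 : Fin 6) < ![1, 2, 3, 4] i by fin_cases i <;> decide)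
  have hcwl : ∀ i, cw i < l := by
    intro i
    exact hb6 (show (![1, 2, 3, 4] i : Fin 6) < 5 by fin_cases i <;> decide)
  have hcwm : ∀ i j, i < j → cw i < cw j := by
    intro i j hij
    refine hb6 (show (![1, 2, 3, 4] i : Fin 6) < ![1, 2, 3, 4] j from ?_)
    revert i j
    decide
  let b8 : Fin 4 → Fin 8 → Fin M := ![![o, c1, c2, c3, c4, c6, c8, l],
    ![o, c2, c3, c4, c5, c6, c8, l], ![o, c2, c4, c5, c6, c7, c8, l],
    ![o, c2, c4, c6, c7, c8, c9, l]]
  have hb8 : ∀ w, StrictMono (b8 w) := by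
    intro w
    fin_cases w
    · exact sm8' _ _ _ _ _ _ _ _ o1 h12 h23 h34 (h45.trans h56) (h67.trans h78) h8l
    · exact sm8' _ _ _ _ _ _ _ _ o2 h23 h34 h45 h56 (h67.trans h78) h8l
    · exact sm8' _ _ _ _ _ _ _ _ o2 (h23.trans h34) h45 h56 h67 h78 h8l
    · exact sm8' _ _ _ _ _ _ _ _ o2 (h23.trans h34) (h45.trans h56) h67 h78 h89 h9l
  let cn : Fin 4 → Fin M := ![c1, c3, c5, c7]
  let cn' : Fin 4 → Fin M := ![c3, c5, c7, c9]
  have hcn : ∀ w, o < cn w ∧ cn w < cw w ∧ cw w < cn' w ∧ cn' w < l := by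
    intro w
    fin_cases w
    · exact ⟨o1, h12, h23, (h34.trans (h45.trans (h56.trans (h67.trans h78)))).trans h8l⟩
    · exact ⟨o2.trans h23, h34, h45, (h56.trans (h67.trans h78)).trans h8l⟩
    · exact ⟨((o2.trans h23).trans h34).trans h45, h56, h67, h78.trans h8l⟩
    · exact ⟨((((o2.trans h23).trans h34).trans h45).trans h56).trans h67, h78, h89, h9l⟩
  -- basic bounds
  have hEL := rowLB hc hn r o l hol
  have hFL : ∀ c, LB κ e (X c) (Y o) (Y l) (cch V o l c) ∧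
      On (cch V o l c) (y o c) (x o c) (z o c) ∧ On (cch V o l c) (y l c) (x l c) (z l c) :=
    fun c => colLB hc hn c o l hol
  have hsmall : ∀ a : ℝ, 0 < a → e / 6 * a ≤ e * a := by
    intro a ha
    nlinarith [mul_pos he ha]
  have nxo : |x r o - X o| ≤ e * X o := (hn.nx r o).trans (hsmall _ (hn.hX o))
  have nxl : |x r l - X l| ≤ e * X l := (hn.nx r l).trans (hsmall _ (hn.hX l))
  have nyo : ∀ c, |y o c - Y o| ≤ e * Y o := fun c => (hn.ny o c).trans (hsmall _ (hn.hY o))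
  have nyl : ∀ c, |y l c - Y l| ≤ e * Y l := fun c => (hn.ny l c).trans (hsmall _ (hn.hY l))
  -- the facts of T4 for every column
  have hT4 : ∀ c, o < c → c < l → MM E (cch V o l c) ≤ 20 * e * (X c * Y r) := by
    intro c h3 h4
    exact (t4_cell (mkCell hc hn r c o l hor hrl h3 h4) (x r o) (y r o) (z r o) (x r l) (y r l)
      (z r l) hEL.2.1 hEL.2.2 nxo nxl (x o c) (y o c) (z o c) (x l c) (y l c) (z l c)
      (hFL c).2.1 (hFL c).2.2 (nyo c) (nyl c) (hZ r c o l hor hrl h3 h4)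
      ((posL hc hn hM hN hhom hvR r c o l hor hrl h3 h4 (hZ r c o l hor hrl h3 h4)).imp le_of_lt
        le_of_lt)
      ((posK hc hn hM hN hhom hvC r c o l hor hrl h3 h4 (hZ r c o l hor hrl h3 h4)).imp le_of_lt
        le_of_lt)).1
  have hhz : ∀ c, o < c → c < l → 0 < hz E (cch V o l c) ∧
      MM E (cch V o l c) ≤ hz E (cch V o l c) * (1.0001 * (X c * Y r)) ∧
      hz E (cch V o l c) ≤ 20.3 * e := fun c h3 h4 =>
    hz_bd hc hEL.1 (hFL c).1 (hn.hX c) (hn.hY r) (hZ r c o l hor hrl h3 h4) (hT4 c h3 h4)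
  -- no cancellation
  have hNC : |A0 F| + |A1 F| * E.a + |A2 F| * E.a ^ 2 ≤ 10 * |fK F E| := by
    let rr : Fin 4 → Fin M := ![c1, c2, c3, c4]
    have hrr : ∀ i, o < rr i ∧ rr i < l := by
      intro i
      have h4l : c4 < l := ((h45.trans (h56.trans (h67.trans h78)))).trans h8l
      fin_cases i
      · exact ⟨o1, hrl⟩
      · exact ⟨o2, (h23.trans h34).trans h4l⟩
      · exact ⟨o2.trans h23, h34.trans h4l⟩
      · exact ⟨(o2.trans h23).trans h34, h4l⟩
    have hrm : ∀ i j, i < j → rr i < rr j := by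
      intro i j hij
      have : StrictMono rr := sm4' _ _ _ _ h12 h23 h34
      exact this hij
    obtain ⟨i, hi⟩ := t5_nocancel κ e T hc (A0 F) (A1 F) (A2 F) (fun i => rch V (rr i) o l)
      (fun i => Y (rr i)) (X o) (X l) (hn.hX o)
      (by
        have h1 := hn.lX o l hol
        have h2 := hn.hX o
        nlinarith)
      (fun i => (rowLB hc hn (rr i) o l hol).1) (fun i => hn.hY _)
      (fun i j hij => hn.lY _ _ (hrm i j hij))
    have h1 : pNC.P (Sub V ![o, rr i, l] b6) := hi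
    exact (hhom pNC (by simp [TL]) ![o, rr i, l] ![o, r, l] (sm3 _ _ _ (hrr i).1 (hrr i).2)
      (sm3 _ _ _ hor hrl) b6 b6 hb6 hb6).1 h1
  -- the choice of the column
  have hkill : ∑ j, dw F j * MM E (F j) = - fK F E := t1_kill F E
  obtain ⟨hd0, w, hX0, hX1⟩ := t5_pick κ e T hc F (fun j => X (cw j)) (Y o) (Y l) (hn.hY o)
    (by
      have h1 := hn.lY o l hol
      have h2 := hn.hY o
      nlinarith)
    (fun j => (hFL (cw j)).1) (fun j => hn.hX _) (fun i j hij => hn.lX _ _ (hcwm i j hij))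
    (fun j => MM E (F j)) (fun j => hZ r (cw j) o l hor hrl (hocw j) (hcwl j)) (fK F E) hkill
  have hdw := hd0 w
  -- abbreviations
  set c := cw w with hcdef
  have hoc := hocw w
  have hcl := hcwl w
  set XX := - fK F E / dw F w with hXX
  set Z := MM E (F w) with hZdef
  have hZpos : 0 < Z := hZ r c o l hor hrl hoc hcl
  have hts : 0 < X c * Y r := mul_pos (hn.hX c) (hn.hY r)
  have hZ20 : Z ≤ 20 * e * (X c * Y r) := hT4 c hoc hcl
  -- the maximum
  let H : ℝ := max (hz E (cch V o l (cn w))) (max (hz E (cch V o l (cn' w)))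
    (max (hz E (F (oth w 0))) (max (hz E (F (oth w 1))) (hz E (F (oth w 2))))))
  have hHo : ∀ j, j ≠ w → hz E (F j) ≤ H := by
    intro j hj
    have : j = oth w 0 ∨ j = oth w 1 ∨ j = oth w 2 := oth_cases w j hj
    rcases this with rfl | rfl | rfl
    · exact le_max_of_le_right (le_max_of_le_right (le_max_left _ _))
    · exact le_max_of_le_right (le_max_of_le_right (le_max_of_le_right (le_max_left _ _)))
    · exact le_max_of_le_right (le_max_of_le_right (le_max_of_le_right (le_max_right _ _)))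
  have hHn : hz E (cch V o l (cn w)) ≤ H := le_max_left _ _
  have hHn' : hz E (cch V o l (cn' w)) ≤ H := le_max_of_le_right (le_max_left _ _)
  have hHw : hz E (F w) ≤ H := by
    have h1 := hcn w
    have hiff := hhom pMon (by simp [TL]) ![o, r, l] ![o, r, l] (sm3 _ _ _ hor hrl)
      (sm3 _ _ _ hor hrl) ![o, cn w, c, l] ![o, c, cn' w, l] (sm4' _ _ _ _ h1.1 h1.2.1 hcl)
      (sm4' _ _ _ _ hoc h1.2.2.1 h1.2.2.2)
    have hiff' : (hz E (cch V o l (cn w)) ≤ hz E (F w)) ↔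
        (hz E (F w) ≤ hz E (cch V o l (cn' w))) := hiff
    by_cases h2 : hz E (F w) ≤ hz E (cch V o l (cn' w))
    · exact h2.trans hHn'
    · have h3 : ¬ hz E (cch V o l (cn w)) ≤ hz E (F w) := fun h => h2 (hiff'.1 h)
      exact (not_le.1 h3).le.trans hHn
  have hHall : ∀ j, hz E (F j) ≤ H := by
    intro j
    by_cases hj : j = w
    · rw [hj]
      exact hHw
    · exact hHo j hj
  have hHle : H ≤ 20.3 * e := by
    have h1 := hcn w
    refine max_le (hhz (cn w) h1.1 (h1.2.1.trans hcl)).2.2 (max_le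
      (hhz (cn' w) (hoc.trans h1.2.2.1) h1.2.2.2).2.2 (max_le ?_ (max_le ?_ ?_)))
    · exact (hhz _ (hocw _) (hcwl _)).2.2
    · exact (hhz _ (hocw _) (hcwl _)).2.2
    · exact (hhz _ (hocw _) (hcwl _)).2.2
  have hHpos : 0 < H := (hhz c hoc hcl).1.trans_le hHw
  have hMMH : ∀ j, MM E (F j) ≤ 1.001 * H * (X (cw j) * Y r) := by
    intro j
    have h1 := (hhz (cw j) (hocw j) (hcwl j)).2.1
    have h2 := hHall j
    have h3 : 0 < X (cw j) * Y r := mul_pos (hn.hX _) (hn.hY r)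
    have h4 : hz E (F j) * (1.0001 * (X (cw j) * Y r)) ≤ H * (1.0001 * (X (cw j) * Y r)) :=
      mul_le_mul_of_nonneg_right h2 (by positivity)
    have h5 : 0 < H * (X (cw j) * Y r) := mul_pos hHpos h3
    have h6 : MM E (F j) ≤ hz E (F j) * (1.0001 * (X (cw j) * Y r)) := h1
    nlinarith
  -- the sign
  obtain ⟨ξ, hξ, hξX⟩ : ∃ ξ : ℝ, (ξ = 1 ∨ ξ = -1) ∧ 0 ≤ - (κ * oX (F w) (x r c) (y r c) * ξ) := by
    by_cases h : 0 ≤ κ * oX (F w) (x r c) (y r c)
    · exact ⟨-1, Or.inr rfl, by linarith⟩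
    · exact ⟨1, Or.inl rfl, by linarith⟩
  set y0 := ξ * (1000 * H) with hy0
  have hy0abs : |y0| = 1000 * H := by
    rw [hy0, abs_mul, abs_of_pos (by positivity : 0 < 1000 * H)]
    rcases hξ with h | h <;> rw [h] <;> simp
  have hsg : 0 ≤ - (κ * oX (F w) (x r c) (y r c) * y0) := by
    have : - (κ * oX (F w) (x r c) (y r c) * y0) =
        (- (κ * oX (F w) (x r c) (y r c) * ξ)) * (1000 * H) := by
      rw [hy0]
      ring
    rw [this]
    exact mul_nonneg hξX (by positivity)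
  -- the line R
  have hR := t7_R κ e T hc F E (fun j => X (cw j)) (Y r) (X o) (X l) (Y o) (Y l) y0 (1.001 * H) w
    (hn.hX o) (fun j => hn.lX _ _ (hocw j)) (fun i j hij => hn.lX _ _ (hcwm i j hij))
    (fun j => hn.lX _ _ (hcwl j)) (hn.hY o) (hn.lY _ _ hor) (hn.lY _ _ hrl) hEL.1
    (fun j => (hFL (cw j)).1) hdw (fun j => (hZ r (cw j) o l hor hrl (hocw j) (hcwl j)).le) hMMH
    (by linarith) (by rw [hy0abs]; linarith) (by rw [hy0abs]; linarith) hNC hX0
    (by
      have : XX < 2.5 * Z := hX1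
      exact this.le)
  set R := Rln E (F (oth w 0)) (F (oth w 1)) (F (oth w 2)) y0 with hRdef
  obtain ⟨hR1, hR2, hR3, hR4⟩ := hR
  have hR4' := abs_le.1 hR4
  have hX0' : 0 ≤ XX := hX0
  have hX1' : XX < 2.5 * Z := hX1
  have hdiv : fK F E / dw F w = - XX := by rw [hXX]; ring
  have hMR0 : 0 ≤ MM R (F w) := by
    have := hR4'.1
    rw [hdiv] at this
    linarith
  have hMR1 : MM R (F w) ≤ 1.001 * XX := by
    have := hR4'.2
    rw [hdiv] at this
    linarith
  -- R misses the column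
  have hmiss : ¬ (0 ≤ MM R (F w) ∧ MM R (cch V o r c) < 0 ∧ MM R (cch V r l c) < 0) := by
    rintro ⟨m1, m2, m3⟩
    refine miss_R V hM hN hhom hvC w ξ hξ ![o, r, l] (b8 w) (sm3 _ _ _ hor hrl) (hb8 w) ?_
    have e1 : R8 (Sub V ![o, r, l] (b8 w)) w ξ = R := by
      rw [hRdef, hy0]
      fin_cases w <;> rfl
    have e2 : b8 w (pos8 w w) = c := by
      rw [hcdef]
      fin_cases w <;> rfl
    have := t2_col (fun t : Fin 3 => x (![o, r, l] t) c) (fun t : Fin 3 => y (![o, r, l] t) c)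
      (fun t : Fin 3 => z (![o, r, l] t) c) R 0 1 2 (y_lt hc hn hor)
      (y_lt hc hn hrl) m1 m2.le m3.le (by
        have : 0 < MM R (F w) - MM R (cch V o r c) - MM R (cch V r l c) := by linarith
        exact this)
    change Met (rF (R8 (Sub V ![o, r, l] (b8 w)) w ξ)) (rG (R8 (Sub V ![o, r, l] (b8 w)) w ξ))
      (fun s : Fin 3 => V (![o, r, l] s) (b8 w (pos8 w w)))
    rw [e1, e2]
    exact this
  have hLpos := posL hc hn hM hN hhom hvR r c o l hor hrl hoc hcl hZpos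
  have hKpos := posK hc hn hM hN hhom hvC r c o l hor hrl hoc hcl hZpos
  have hcell := mkCell hc hn r c o l hor hrl hoc hcl
  have h8 := t8_nogap hcell (x r o) (y r o) (z r o) (x r l) (y r l) (z r l) hEL.2.1 hEL.2.2 nxo nxl
    (x o c) (y o c) (z o c) (x l c) (y l c) (z l c) (hFL c).2.1 (hFL c).2.2 (nyo c) (nyl c) hZpos
    hLpos (hKpos.imp le_of_lt le_of_lt) (1.001 * H) y0 (hMMH w) (by linarith)
    (by rw [hy0abs]; linarith) (by rw [hy0abs]; linarith) hsg R hR1 hR2 hR3 hMR0 hmiss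
  -- alpha
  set α := max (MM (rch V r o c) (F w)) (MM (rch V r c l) (F w)) with hαdef
  have hαpos : 0 < α := by
    rcases hLpos with h | h
    · exact lt_max_of_lt_left h
    · exact lt_max_of_lt_right h
  have hα51 : α ≤ 0.51 * Z := max_le (hα r c o l hor hrl hoc hcl).1 (hα r c o l hor hrl hoc hcl).2
  have hα97 : 0.97 * α ≤ 1.001 * XX := by
    have h1 : 0.97 * MM (rch V r o c) (F w) ≤ MM R (F w) := h8.1
    have h2 : 0.97 * MM (rch V r c l) (F w) ≤ MM R (F w) := h8.2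
    rcases le_total (MM (rch V r o c) (F w)) (MM (rch V r c l) (F w)) with h | h
    · rw [hαdef, max_eq_right h]
      linarith
    · rw [hαdef, max_eq_left h]
      linarith
  refine t9_end XX Z α hZpos hαpos hα51 hX0' hX1' hα97 ?_
  intro τ hτ hbad
  obtain ⟨hb1, hb2⟩ := hbad
  have hτmem : τ ∈ taus := by
    rcases hτ with h | h | h | h | h <;> rw [h] <;> simp [taus]
  have hτ0 : 0 ≤ τ := by rcases hτ with h | h | h | h | h <;> rw [h] <;> norm_num
  have hτ1 : τ ≤ 3 / 2 := by rcases hτ with h | h | h | h | h <;> rw [h] <;> norm_num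
  have hclose := t4_close hcell (x r o) (y r o) (z r o) (x r l) (y r l) (z r l) hEL.2.1 hEL.2.2
    nxo nxl
  have hXb : - fK F E / dw F w ≤ 50 * e * (X c * Y r) := by
    have h1 : XX < 2.5 * Z := hX1'
    have h2 := hZ20
    have : XX ≤ 50 * e * (X c * Y r) := by linarith
    exact this
  have h6 : ∀ Q, (Q = E ∨ Q = rch V r o c ∨ Q = rch V r c l) →
      |MM Q (Ct F w τ) - MM Q (F w) - τ * (fK F E / dw F w)| ≤ (- fK F E / dw F w) / 1000 := by
    intro Q hQ
    have h1 := hclose Q hQ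
    exact t6_Ct κ e T hc F w (X c) (Y r) (X o) (X l) (Y o) (Y l) (hn.hX c) (hn.hY r) (hn.hY o)
      (hn.lY _ _ hor) (hn.lY _ _ hrl) (hFL c).1 hdw E Q (hn.hX o)
      (by
        have h1 := hn.lX o l hol
        have h2 := hn.hX o
        nlinarith) hEL.1 hNC hX0 hXb h1.1 h1.2.1 h1.2.2 τ hτ0 hτ1
  have hE6 := abs_le.1 (h6 E (Or.inl rfl))
  have hL6 := abs_le.1 (h6 (rch V r o c) (Or.inr (Or.inl rfl)))
  have hL6' := abs_le.1 (h6 (rch V r c l) (Or.inr (Or.inr rfl)))
  rw [hdiv] at hE6 hL6 hL6'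
  have hαL : MM (rch V r o c) (F w) ≤ α := le_max_left _ _
  have hαL' : MM (rch V r c l) (F w) ≤ α := le_max_right _ _
  have q1 : 0 < MM E (Ct F w τ) := by
    have := hE6.1
    have h2 : - (- fK F E / dw F w / 1000) = - (XX / 1000) := rfl
    rw [h2] at this
    linarith
  have q2 : MM (rch V r o c) (Ct F w τ) ≤ 0 := by
    have := hL6.2
    have h2 : - fK F E / dw F w / 1000 = XX / 1000 := rfl
    rw [h2] at this
    linarith
  have q3 : MM (rch V r c l) (Ct F w τ) ≤ 0 := by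
    have := hL6'.2
    have h2 : - fK F E / dw F w / 1000 = XX / 1000 := rfl
    rw [h2] at this
    linarith
  refine miss_C V hM hN hhom hvR w τ hτmem ![o, r, l] b6 (sm3 _ _ _ hor hrl) hb6 ?_
  have := t2_row (fun t : Fin 6 => x r (b6 t)) (fun t : Fin 6 => y r (b6 t))
    (fun t : Fin 6 => z r (b6 t)) (Ct F w τ) 0 (![1, 2, 3, 4] w) 5 (x_lt hc hn hoc)
    (x_lt hc hn hcl) q1.le q2 q3 (by
      have : 0 < MM E (Ct F w τ) - MM (rch V r o c) (Ct F w τ) - MM (rch V r c l) (Ct F w τ) := by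
        linarith
      exact this)
  exact this

end Pool.Agent.BIP.TB
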