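import Pool.Agent.BIP.NDefs
import Pool.Agent.BIP.J0

/-!
# Two families (T): the reflection `z ↦ - z`, and the exchange of rows and columns
-/

namespace Pool.Agent.BIP

/-- change the sign of the last coordinate -/
def ng (v : V4) : V4 := ![v 0, v 1, v 2, - v 3]

/-- linear version of `ng` -/
def ngL : V4 →ₗ[ℝ] V4 where
  toFun := ng
  map_add' a b := by
    funext k
    fin_cases k <;> simp [ng] <;> ring
  map_smul' c a := by
    funext k
    fin_cases k <;> simp [ng]

theorem ng_ng (a : V4) : ng (ng a) = a := by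
  funext k
  fin_cases k <;> simp [ng]

theorem ng_nrm {m n : ℕ} (x y z : Fin m → Fin n → ℝ) (i : Fin m) (j : Fin n) :
    ng (Nrm x y z i j) = Nrm x y (fun i j => - z i j) i j := by
  funext k
  fin_cases k <;> simp [ng, Nrm]

theorem ng_D4 (a b c d : V4) : D4 (ng a) (ng b) (ng c) (ng d) = - D4 a b c d := by
  unfold D4
  rw [Matrix.det_succ_row_zero, Matrix.det_succ_row_zero]
  simp [Fin.sum_univ_succ, Matrix.det_fin_three, Fin.succAbove, ng]
  ring

theorem ng_gen {m n : ℕ} {x y z : Fin m → Fin n → ℝ} (h : Generic (Nrm x y z)) :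
    Generic (Nrm x y (fun i j => - z i j)) := by
  intro a b c d hab hac had hbc hbd hcd
  rw [← ng_nrm, ← ng_nrm, ← ng_nrm, ← ng_nrm, ng_D4]
  exact neg_ne_zero.2 (h a b c d hab hac had hbc hbd hcd)

theorem ng_hitRows {m n : ℕ} {x y z : Fin m → Fin n → ℝ} {N : ℕ}
    (h : HitRows (Nrm x y (fun i j => - z i j)) N) : HitRows (Nrm x y z) N := by
  have he : Nrm x y (fun i j => - z i j) = fun i j => ngL (Nrm x y z i j) := by
    funext i j
    exact (ng_nrm x y z i j).symm
  rw [he] at h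
  exact hitRows_map ngL (fun a => ⟨ng a, ng_ng a⟩) (Nrm x y z) N h

theorem ng_hitCols {m n : ℕ} {x y z : Fin m → Fin n → ℝ} {N : ℕ}
    (h : HitCols (Nrm x y (fun i j => - z i j)) N) : HitCols (Nrm x y z) N := by
  have he : (fun j i => Nrm x y (fun i j => - z i j) i j) =
      fun j i => ngL (Nrm x y z i j) := by
    funext j i
    exact (ng_nrm x y z i j).symm
  have h' : HitRows (fun j i => Nrm x y (fun i j => - z i j) i j) N := h
  rw [he] at h'
  exact hitRows_map ngL (fun a => ⟨ng a, ng_ng a⟩) (fun j i => Nrm x y z i j) N h'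

theorem ng_hit {m n : ℕ} {x y z : Fin m → Fin n → ℝ} {N : ℕ}
    (h : Hit (Nrm x y (fun i j => - z i j)) N) : Hit (Nrm x y z) N :=
  h.imp ng_hitRows ng_hitCols

/-- predicate for the reflected array -/
def GPred.ng (p : GPred) : GPred := ⟨p.h, p.k, fun w => p.P (fun s t => Pool.Agent.BIP.ng (w s t))⟩

theorem ng_homog {m n : ℕ} (p : GPred) (x y z : Fin m → Fin n → ℝ)
    (h : (GPred.ng p).Homog (Nrm x y z)) : p.Homog (Nrm x y (fun i j => - z i j)) := by
  intro a a' ha ha' b b' hb hb'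
  have := h a a' ha ha' b b' hb hb'
  simp only [GPred.ng, ng_nrm] at this
  exact this

theorem ng_homogL {m n : ℕ} (Ps : List GPred) (x y z : Fin m → Fin n → ℝ)
    (h : ∀ p ∈ Ps ++ Ps.map GPred.ng, p.Homog (Nrm x y z)) :
    (∀ p ∈ Ps, p.Homog (Nrm x y z)) ∧ ∀ p ∈ Ps, p.Homog (Nrm x y (fun i j => - z i j)) :=
  ⟨fun p hp => h p (List.mem_append_left _ hp), fun p hp =>
    ng_homog p x y z (h _ (List.mem_append_right _ (List.mem_map_of_mem hp)))⟩

end Pool.Agent.BIP
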