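import Pool.Agent.BIP.T10d
import Pool.Agent.BIP.TNeg
import Pool.Agent.BIP.RowH
import Pool.Agent.BIP.RowS

/-!
# TWO: the top
-/

namespace Pool.Agent.BIP.TB

open Pool.Agent.BIP Pool.Agent.BIP.FX Pool.Agent.BIP.TW

/-- reflected line -/
def ngl (R : Ln) : Ln := ⟨R.a, R.b, -R.c, -R.d⟩

theorem Lth_ng (u1 s1 z1 u2 s2 z2 : ℝ) :
    Lth u1 s1 (-z1) u2 s2 (-z2) = ngl (Lth u1 s1 z1 u2 s2 z2) := by
  unfold Lth ngl
  congr 1 <;> ring

theorem MM_ng (R C : Ln) : MM (ngl R) (ngl C) = - MM R C := by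
  unfold MM ngl Ln.pi
  ring

/-- the transposed reflected pairing -/
theorem MM_tr (R C : Ln) : MM (ngl C) (ngl R) = MM R C := by
  rw [MM_ng, t1_anti C R, neg_neg]

theorem D4_MM (x1 y1 z1 x2 y2 z2 x3 y3 z3 x4 y4 z4 : ℝ) (hx : x1 < x2) (hy : y3 < y4) :
    D4 ![1, x1, y1, z1] ![1, x2, y2, z2] ![1, x3, y3, z3] ![1, x4, y4, z4] =
      (x2 - x1) * (y4 - y3) * MM (Lth x1 y1 z1 x2 y2 z2) (Lth y3 x3 z3 y4 x4 z4) := by
  have h1 : x2 - x1 ≠ 0 := by linarith
  have h2 : y4 - y3 ≠ 0 := by linarith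
  unfold D4 MM Lth Ln.pi
  rw [Matrix.det_succ_row_zero]
  simp [Fin.sum_univ_succ, Matrix.det_fin_three, Fin.succAbove]
  field_simp
  ring

theorem rch_ng {M : ℕ} (x y z : Fin M → Fin M → ℝ) (r o l : Fin M) :
    rch (Nrm x y (fun i j => - z i j)) r o l = ngl (rch (Nrm x y z) r o l) :=
  Lth_ng (x r o) (y r o) (z r o) (x r l) (y r l) (z r l)

theorem cch_ng {M : ℕ} (x y z : Fin M → Fin M → ℝ) (o l c : Fin M) :
    cch (Nrm x y (fun i j => - z i j)) o l c = ngl (cch (Nrm x y z) o l c) :=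
  Lth_ng (y o c) (x o c) (z o c) (y l c) (x l c) (z l c)

theorem rch_trn {M : ℕ} (x y z : Fin M → Fin M → ℝ) (c o l : Fin M) :
    rch (Nrm (fun j i => y i j) (fun j i => x i j) (fun j i => - z i j)) c o l =
      ngl (cch (Nrm x y z) o l c) :=
  Lth_ng (y o c) (x o c) (z o c) (y l c) (x l c) (z l c)

theorem cch_trn {M : ℕ} (x y z : Fin M → Fin M → ℝ) (o l r : Fin M) :
    cch (Nrm (fun j i => y i j) (fun j i => x i j) (fun j i => - z i j)) o l r =
      ngl (rch (Nrm x y z) r o l) :=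
  Lth_ng (x r o) (y r o) (z r o) (x r l) (y r l) (z r l)

theorem nodK_trn {M : ℕ} {κ e T : ℝ} {X Y : Fin M → ℝ} {x y z : Fin M → Fin M → ℝ}
    (hn : NodK κ e T X Y x y z) :
    NodK (-κ) e T Y X (fun j i => y i j) (fun j i => x i j) (fun j i => - z i j) where
  hX := hn.hY
  hY := hn.hX
  lX := hn.lY
  lY := hn.lX
  nx := fun i j => hn.ny j i
  ny := fun i j => hn.nx j i
  nz := fun i j => by
    have h := hn.nz j i
    have e1 : - z j i - -κ * (Y j * X i) = - (z j i - κ * (X i * Y j)) := by ring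
    rw [e1, abs_neg, mul_comm (Y j) (X i)]
    exact h

theorem nodK_ng {M : ℕ} {κ e T : ℝ} {X Y : Fin M → ℝ} {x y z : Fin M → Fin M → ℝ}
    (hn : NodK κ e T X Y x y z) :
    NodK (-κ) e T X Y x y (fun i j => - z i j) where
  hX := hn.hX
  hY := hn.hY
  lX := hn.lX
  lY := hn.lY
  nx := hn.nx
  ny := hn.ny
  nz := fun i j => by
    have h := hn.nz i j
    have e1 : - z i j - -κ * (X j * Y i) = - (z i j - κ * (X j * Y i)) := by ring
    rw [e1, abs_neg]
    exact h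

theorem cst_neg {κ e T : ℝ} (hc : Cst κ e T) : Cst (-κ) e T :=
  ⟨by rcases hc.hκ with h | h <;> rw [h] <;> simp, hc.he, hc.he1, hc.hT⟩

/-- Positive pairing: one of the two cases. -/
theorem half {M N : ℕ} {κ e T : ℝ} {X Y : Fin M → ℝ} {x y z : Fin M → Fin M → ℝ}
    (hc : Cst κ e T) (hn : NodK κ e T X Y x y z) (hM : N + 12 ≤ M) (hN : 1 ≤ N)
    (hhom : ∀ p ∈ TL, p.Homog (Nrm x y z))
    (hhomB : ∀ p ∈ TL, p.Homog
      (Nrm (fun j i => y i j) (fun j i => x i j) (fun j i => - z i j)))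
    (hvR : ¬ HitRows (Nrm x y z) N) (hvC : ¬ HitCols (Nrm x y z) N)
    (hvRB : ¬ HitRows (Nrm (fun j i => y i j) (fun j i => x i j) (fun j i => - z i j)) N)
    (hvCB : ¬ HitCols (Nrm (fun j i => y i j) (fun j i => x i j) (fun j i => - z i j)) N)
    (hZ : ∀ r c o l : Fin M, o < r → r < l → o < c → c < l →
      0 < MM (rch (Nrm x y z) r o l) (cch (Nrm x y z) o l c)) : False := by
  have he := hc.he
  let o : Fin M := ⟨0, by omega⟩
  let r : Fin M := ⟨1, by omega⟩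
  let l : Fin M := ⟨2, by omega⟩
  have hor : o < r := by simp only [o, r, Fin.mk_lt_mk]; omega
  have hrl : r < l := by simp only [l, r, Fin.mk_lt_mk]; omega
  have hom := hhom pAl (by simp [TL])
  by_cases hP : pAl.P (Sub (Nrm x y z) ![o, r, l] ![o, r, l])
  · refine core hc hn hM hN hhom hvR hvC hZ ?_
    intro r' c' o' l' h1 h2 h3 h4
    have := (hom ![o, r, l] ![o', r', l'] (sm3 _ _ _ hor hrl) (sm3 _ _ _ h1 h2) ![o, r, l]
      ![o', c', l'] (sm3 _ _ _ hor hrl) (sm3 _ _ _ h3 h4)).1 hP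
    have h5 : MM (rch (Nrm x y z) r' o' c') (cch (Nrm x y z) o' l' c') ≤
        MM (rch (Nrm x y z) r' o' l') (cch (Nrm x y z) o' l' c') / 2 := this.1
    have h6 : MM (rch (Nrm x y z) r' c' l') (cch (Nrm x y z) o' l' c') ≤
        MM (rch (Nrm x y z) r' o' l') (cch (Nrm x y z) o' l' c') / 2 := this.2
    have h7 := hZ r' c' o' l' h1 h2 h3 h4
    constructor <;> linarith
  · refine core (cst_neg hc) (nodK_trn hn) hM hN hhomB hvRB hvCB ?_ ?_
    · intro c r' o' l' h3 h4 h1 h2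
      rw [rch_trn, cch_trn, MM_tr]
      exact hZ r' c o' l' h1 h2 h3 h4
    · intro c r' o' l' h3 h4 h1 h2
      rw [rch_trn, cch_trn, rch_trn, rch_trn, MM_tr, MM_tr, MM_tr]
      have hnP : ¬ pAl.P (Sub (Nrm x y z) ![o', r', l'] ![o', c, l']) := fun h =>
        hP ((hom ![o', r', l'] ![o, r, l] (sm3 _ _ _ h1 h2) (sm3 _ _ _ hor hrl) ![o', c, l']
          ![o, r, l] (sm3 _ _ _ h3 h4) (sm3 _ _ _ hor hrl)).1 h)
      have hZ' := hZ r' c o' l' h1 h2 h3 h4
      have hbad : MM (rch (Nrm x y z) r' o' l') (cch (Nrm x y z) o' l' c) / 2 <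
            MM (rch (Nrm x y z) r' o' c) (cch (Nrm x y z) o' l' c) ∨
          MM (rch (Nrm x y z) r' o' l') (cch (Nrm x y z) o' l' c) / 2 <
            MM (rch (Nrm x y z) r' c l') (cch (Nrm x y z) o' l' c) := by
        by_contra hcon
        push Not at hcon
        exact hnP hcon
      have hEL := rowLB hc hn r' o' l' (h1.trans h2)
      have hFL := colLB hc hn c o' l' (h1.trans h2)
      have hsmall : ∀ a : ℝ, 0 < a → e / 6 * a ≤ e * a := by
        intro a ha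
        nlinarith [mul_pos he ha]
      exact (t4_cell (mkCell hc hn r' c o' l' h1 h2 h3 h4) (x r' o') (y r' o') (z r' o') (x r' l')
        (y r' l') (z r' l') hEL.2.1 hEL.2.2 ((hn.nx r' o').trans (hsmall _ (hn.hX o')))
        ((hn.nx r' l').trans (hsmall _ (hn.hX l'))) (x o' c) (y o' c) (z o' c) (x l' c) (y l' c)
        (z l' c) hFL.2.1 hFL.2.2 ((hn.ny o' c).trans (hsmall _ (hn.hY o')))
        ((hn.ny l' c).trans (hsmall _ (hn.hY l'))) hZ'
        ((posL hc hn hM hN hhom hvR r' c o' l' h1 h2 h3 h4 hZ').imp le_of_lt le_of_lt)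
        ((posK hc hn hM hN hhom hvC r' c o' l' h1 h2 h3 h4 hZ').imp le_of_lt le_of_lt)).2.2.2.2.2
        hbad

/-- The list for all four arrays. -/
noncomputable def LL : List GPred :=
  (TL ++ TL.map GPred.ng) ++ (TL ++ TL.map GPred.ng).map GPred.tr

theorem hitRows_mono' {m n : ℕ} {v : Fin m → Fin n → V4} {N N' : ℕ} (h : N' ≤ N)
    (hv : HitRows v N) : HitRows v N' := by
  obtain ⟨f, g, hfg, S, hS, hm⟩ := hv
  exact ⟨f, g, hfg, S, h.trans hS, hm⟩

theorem rowNode (N : ℕ) : NodeHit N := by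
  set N' := max N 1 with hN'
  have hNN' : N ≤ N' := le_max_left _ _
  have hN1 : 1 ≤ N' := le_max_right _ _
  obtain ⟨M, hMM⟩ := rowH LL (N' + 12)
  refine ⟨1 / 10 ^ 13, 10 ^ 9, M, by norm_num, by norm_num, ?_⟩
  intro X Y x₀ y₀ z₀ hnod hgen
  obtain ⟨f, g, hf, hg, hhom⟩ := hMM (Nrm x₀ y₀ z₀)
  by_contra hHit
  let x : Fin (N' + 12) → Fin (N' + 12) → ℝ := fun i j => x₀ (f i) (g j)
  let y : Fin (N' + 12) → Fin (N' + 12) → ℝ := fun i j => y₀ (f i) (g j)
  let z : Fin (N' + 12) → Fin (N' + 12) → ℝ := fun i j => z₀ (f i) (g j)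
  have hhomV : ∀ p ∈ LL, p.Homog (Nrm x y z) := hhom
  have hc : Cst 1 (1 / 10 ^ 12) (10 ^ 9) := ⟨Or.inl rfl, by norm_num, le_rfl, le_rfl⟩
  have hsm : ∀ a : ℝ, 0 < a → (1 / 10 ^ 13 : ℝ) * a ≤ (1 / 10 ^ 12) / 6 * a := by
    intro a ha
    apply mul_le_mul_of_nonneg_right _ ha.le
    norm_num
  have hn : NodK 1 (1 / 10 ^ 12) (10 ^ 9) (fun j => X (g j)) (fun i => Y (f i)) x y z :=
    { hX := fun j => hnod.hX _
      hY := fun i => hnod.hY _
      lX := fun j j' h => hnod.lX _ _ (hg h)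
      lY := fun i i' h => hnod.lY _ _ (hf h)
      nx := fun i j => (hnod.nx _ _).trans (hsm _ (hnod.hX _))
      ny := fun i j => (hnod.ny _ _).trans (hsm _ (hnod.hY _))
      nz := fun i j => by
        rw [one_mul]
        exact (hnod.nz _ _).trans (hsm _ (mul_pos (hnod.hX _) (hnod.hY _))) }
  have hR : ¬ HitRows (Nrm x y z) N' := fun h => hHit
    (rowS (Nrm x₀ y₀ z₀) f g hf hg N (Or.inl (hitRows_mono' hNN' h)))
  have hC : ¬ HitCols (Nrm x y z) N' := fun h => hHit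
    (rowS (Nrm x₀ y₀ z₀) f g hf hg N (Or.inr (hitRows_mono' hNN' h)))
  have hTr : ∀ (z' : Fin (N' + 12) → Fin (N' + 12) → ℝ), ¬ HitRows (Nrm x y z') N' →
      ¬ HitCols (Nrm x y z') N' →
      ¬ HitRows (Nrm (fun j i => y i j) (fun j i => x i j) (fun j i => z' i j)) N' ∧
      ¬ HitCols (Nrm (fun j i => y i j) (fun j i => x i j) (fun j i => z' i j)) N' := by
    intro z' h1 h2
    refine ⟨fun h => h2 (rowTr x y z' N' h), fun h => h1 ?_⟩
    have he : (fun i j => Nrm (fun j i => y i j) (fun j i => x i j) (fun j i => z' i j) j i) =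
        fun i j => swL (Nrm x y z' i j) := by
      funext i j
      exact (sw_nrm x y z' i j).symm
    have h3 : HitRows (fun i j => Nrm (fun j i => y i j) (fun j i => x i j)
      (fun j i => z' i j) j i) N' := h
    rw [he] at h3
    exact hitRows_map swL (fun a => ⟨sw a, sw_sw a⟩) (Nrm x y z') N' h3
  have hNg : ∀ (z' : Fin (N' + 12) → Fin (N' + 12) → ℝ), ¬ HitRows (Nrm x y z') N' →
      ¬ HitCols (Nrm x y z') N' → ¬ HitRows (Nrm x y (fun i j => - z' i j)) N' ∧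
      ¬ HitCols (Nrm x y (fun i j => - z' i j)) N' :=
    fun z' h1 h2 => ⟨fun h => h1 (ng_hitRows h), fun h => h2 (ng_hitCols h)⟩
  have hn1 := hNg z hR hC
  have hom1 := ng_homogL TL x y z (fun p hp => hhomV p (List.mem_append_left _ hp))
  have homT : ∀ p ∈ TL ++ TL.map GPred.ng,
      p.Homog (Nrm (fun j i => y i j) (fun j i => x i j) (fun j i => z i j)) := fun p hp =>
    rowTrH p x y z (hhomV _ (List.mem_append_right _ (List.mem_map_of_mem hp)))
  have homT1 := ng_homogL TL (fun j i => y i j) (fun j i => x i j) (fun j i => z i j) homT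
  have hne : ∀ r c o l : Fin (N' + 12), o < r → r < l → o < c → c < l →
      MM (rch (Nrm x y z) r o l) (cch (Nrm x y z) o l c) ≠ 0 := by
    intro r c o l h1 h2 h3 h4 h0
    have hx := x_lt hc hn (h3.trans h4) (i := r) (i' := r)
    have hy := y_lt hc hn (h1.trans h2) (j := c) (j' := c)
    have hD := D4_MM (x r o) (y r o) (z r o) (x r l) (y r l) (z r l) (x o c) (y o c) (z o c)
      (x l c) (y l c) (z l c) hx hy
    have h0' : MM (Lth (x r o) (y r o) (z r o) (x r l) (y r l) (z r l))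
      (Lth (y o c) (x o c) (z o c) (y l c) (x l c) (z l c)) = 0 := h0
    rw [h0', mul_zero] at hD
    have hfi := hf.injective
    have hgi := hg.injective
    refine hgen (f r, g o) (f r, g l) (f o, g c) (f l, g c) ?_ ?_ ?_ ?_ ?_ ?_ hD
    · intro h
      exact (h3.trans h4).ne (hgi (Prod.ext_iff.1 h).2)
    · intro h
      exact h1.ne' (hfi (Prod.ext_iff.1 h).1)
    · intro h
      exact h2.ne (hfi (Prod.ext_iff.1 h).1)
    · intro h
      exact h1.ne' (hfi (Prod.ext_iff.1 h).1)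
    · intro h
      exact h2.ne (hfi (Prod.ext_iff.1 h).1)
    · intro h
      exact (h1.trans h2).ne (hfi (Prod.ext_iff.1 h).1)
  let o : Fin (N' + 12) := ⟨0, by omega⟩
  let r : Fin (N' + 12) := ⟨1, by omega⟩
  let l : Fin (N' + 12) := ⟨2, by omega⟩
  have hor : o < r := by simp only [o, r, Fin.mk_lt_mk]; omega
  have hrl : r < l := by simp only [l, r, Fin.mk_lt_mk]; omega
  have homS := hom1.1 pSg (by simp [TL])
  by_cases hP : pSg.P (Sub (Nrm x y z) ![o, r, l] ![o, r, l])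
  · refine half hc hn le_rfl hN1 hom1.1 homT1.2 hR hC (hTr _ hn1.1 hn1.2).1
      (hTr _ hn1.1 hn1.2).2 ?_
    intro r' c' o' l' h1 h2 h3 h4
    exact (homS ![o, r, l] ![o', r', l'] (sm3 _ _ _ hor hrl) (sm3 _ _ _ h1 h2) ![o, r, l]
      ![o', c', l'] (sm3 _ _ _ hor hrl) (sm3 _ _ _ h3 h4)).1 hP
  · have hz2 : (fun j i => - (fun i j => - z i j) i j : Fin (N' + 12) → Fin (N' + 12) → ℝ) =
        fun j i => z i j := by
      funext j i
      simp
    refine half (cst_neg hc) (nodK_ng hn) le_rfl hN1 hom1.2 ?_ hn1.1 hn1.2 ?_ ?_ ?_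
    · rw [hz2]
      exact homT1.1
    · rw [hz2]
      exact (hTr z hR hC).1
    · rw [hz2]
      exact (hTr z hR hC).2
    · intro r' c' o' l' h1 h2 h3 h4
      rw [rch_ng, cch_ng, MM_ng]
      have h5 : ¬ 0 < MM (rch (Nrm x y z) r' o' l') (cch (Nrm x y z) o' l' c') := fun h =>
        hP ((homS ![o', r', l'] ![o, r, l] (sm3 _ _ _ h1 h2) (sm3 _ _ _ hor hrl) ![o', c', l']
          ![o, r, l] (sm3 _ _ _ h3 h4) (sm3 _ _ _ hor hrl)).1 h)
      have h6 := hne r' c' o' l' h1 h2 h3 h4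
      rcases lt_or_gt_of_ne h6 with h7 | h7
      · linarith
      · exact absurd h7 h5

end Pool.Agent.BIP.TB
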