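import Pool.Agent.BIP.TDefs

/-!
# Exact identities for lines (row T1)
-/

namespace Pool.Agent.BIP.TW

theorem t1_pt (R F : Ln) (x y z : ℝ) (h : On R x y z) :
    MM R F = (1 - R.b * F.b) * oD F y z - oX F x y * (R.d - F.d * R.b) := by
  obtain ⟨h1, h2⟩ := h
  subst h1; subst h2
  unfold MM Ln.pi oD oX; ring

theorem t1_anti (R C : Ln) : MM R C = - MM C R := by
  unfold MM Ln.pi; ring

theorem t1_kill (F : Fin 4 → Ln) (R : Ln) : ∑ j, dw F j * MM R (F j) = - fK F R := by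
  unfold fK A0 A1 A2
  simp only [Fin.sum_univ_four, dw, dd, MM, Matrix.cons_val_zero, Matrix.cons_val_one,
    Matrix.cons_val]
  generalize (F 0).pi = p0
  generalize (F 1).pi = p1
  generalize (F 2).pi = p2
  generalize (F 3).pi = p3
  generalize R.pi = p
  ring

theorem t1_split (E F : Ln) (x y z : ℝ) : MM E F = M0 E F x y z + T0 E F x y z := by
  unfold MM M0 T0 oD oX oy oz Ln.pi; ring

theorem t1_Ct (F : Fin 4 → Ln) (w : Fin 4) (τ : ℝ) (hd : dw F w ≠ 0) (R : Ln) :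
    MM R (Ct F w τ) = MM R (F w) + τ * fK F R / dw F w - R.b * ((Ct F w τ).pi - (F w).pi) := by
  unfold MM fK
  have h1 : (Ct F w τ).a = (F w).a := rfl
  have h2 : (Ct F w τ).b = (F w).b - τ * A2 F / dw F w := rfl
  have h3 : (Ct F w τ).c = (F w).c - τ * A0 F / dw F w := rfl
  have h4 : (Ct F w τ).d = (F w).d - τ * A1 F / dw F w := rfl
  rw [h1, h2, h3, h4]
  generalize (Ct F w τ).pi = P
  field_simp
  ring

theorem t1_Lth_symm (u1 s1 z1 u2 s2 z2 : ℝ) (h : u1 ≠ u2) :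
    Lth u1 s1 z1 u2 s2 z2 = Lth u2 s2 z2 u1 s1 z1 := by
  have h1 : u2 - u1 ≠ 0 := sub_ne_zero.2 (Ne.symm h)
  have h2 : u1 - u2 ≠ 0 := sub_ne_zero.2 h
  have e1 : (s2 - s1) / (u2 - u1) = (s1 - s2) / (u1 - u2) := by
    rw [div_eq_div_iff h1 h2]; ring
  have e2 : (z2 - z1) / (u2 - u1) = (z1 - z2) / (u1 - u2) := by
    rw [div_eq_div_iff h1 h2]; ring
  unfold Lth
  rw [Ln.mk.injEq]
  refine ⟨?_, e1, ?_, e2⟩
  · field_simp; ring
  · field_simp; ring

theorem t1_L (E F : Ln) (x y z xm ym zm : ℝ) (hE : On E xm ym zm) (hx : x ≠ xm)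
    (h1 : 1 - E.b * F.b ≠ 0) :
    MM (Lth xm ym zm x y z) F = M0 E F x y z +
      (oX F x y * T0 E F x y z + F.b * oy E x y * M0 E F x y z) / (1 - E.b * F.b) / (x - xm) := by
  obtain ⟨e1, e2⟩ := hE
  subst e1; subst e2
  have h2 : x - xm ≠ 0 := sub_ne_zero.2 hx
  have key : oX F x y * T0 E F x y z + F.b * oy E x y * M0 E F x y z =
      (1 - E.b * F.b) * (F.b * oy E x y * oD F y z + oX F x y * oz E x z -
        oX F x y * F.d * oy E x y) := by
    unfold T0 M0; ring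
  rw [key, mul_div_cancel_left₀ _ h1]
  unfold MM Lth Ln.pi M0 oD oX oy oz
  simp only
  field_simp
  ring

theorem t1_K (E F : Ln) (x y z xm ym zm : ℝ) (hF : On F ym xm zm) (hy : y ≠ ym)
    (h1 : 1 - E.b * F.b ≠ 0) :
    MM E (Lth ym xm zm y x z) = T0 E F x y z -
      (oy E x y * M0 E F x y z + E.b * oX F x y * T0 E F x y z) / (1 - E.b * F.b) / (y - ym) := by
  obtain ⟨e1, e2⟩ := hF
  subst e1; subst e2
  have h2 : y - ym ≠ 0 := sub_ne_zero.2 hy
  have key : oy E x y * M0 E F x y z + E.b * oX F x y * T0 E F x y z =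
      (1 - E.b * F.b) * (oy E x y * oD F y z + E.b * oX F x y * oz E x z -
        oX F x y * E.d * oy E x y) := by
    unfold T0 M0; ring
  rw [key, mul_div_cancel_left₀ _ h1]
  unfold MM Lth Ln.pi T0 oD oX oy oz
  simp only
  field_simp
  ring

end Pool.Agent.BIP.TW
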