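import Mathlib

/-!
# TWO.md, section 2 (interface free): four columns
-/

namespace Pool.Agent.BIP.P52

/-- `3 × 3` minor of the rows `(1, a, a')`, `(1, b, b')`, `(1, c, c')`. -/
def m3 (a b c a' b' c' : ℝ) : ℝ := (b - a) * (c' - a') - (c - a) * (b' - a')

/-- The minors `d_j` of section 2. -/
def dd4 (g v : Fin 4 → ℝ) : Fin 4 → ℝ :=
  ![m3 (g 1) (g 2) (g 3) (v 1) (v 2) (v 3), - m3 (g 0) (g 2) (g 3) (v 0) (v 2) (v 3),
    m3 (g 0) (g 1) (g 3) (v 0) (v 1) (v 3), - m3 (g 0) (g 1) (g 2) (v 0) (v 1) (v 2)]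

theorem dd4_sum (g v : Fin 4 → ℝ) : ∑ j, dd4 g v j = 0 := by
  simp [Fin.sum_univ_four, dd4, m3]; ring

theorem dd4_sum_g (g v : Fin 4 → ℝ) : ∑ j, dd4 g v j * g j = 0 := by
  simp [Fin.sum_univ_four, dd4, m3]; ring

theorem dd4_sum_v (g v : Fin 4 → ℝ) : ∑ j, dd4 g v j * v j = 0 := by
  simp [Fin.sum_univ_four, dd4, m3]; ring

theorem m3_pos {κ a b c a' b' c' s t u : ℝ} (hκ : κ ≤ 1 / 100) (hs : 0 < s) (hst : 100 * s ≤ t)
    (htu : 100 * t ≤ u) (ha : |a - s| ≤ κ * s) (hb : |b - t| ≤ κ * t) (hc : |c - u| ≤ κ * u)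
    (ha' : |a' - s ^ 2| ≤ κ * s ^ 2) (hb' : |b' - t ^ 2| ≤ κ * t ^ 2)
    (hc' : |c' - u ^ 2| ≤ κ * u ^ 2) : 0 < m3 a b c a' b' c' := by
  have ht : 0 < t := by linarith
  have hu : 0 < u := by linarith
  have k1 : κ * s ≤ 1 / 100 * s := mul_le_mul_of_nonneg_right hκ hs.le
  have k2 : κ * t ≤ 1 / 100 * t := mul_le_mul_of_nonneg_right hκ ht.le
  have k3 : κ * u ≤ 1 / 100 * u := mul_le_mul_of_nonneg_right hκ hu.le
  have k4 : κ * s ^ 2 ≤ 1 / 100 * s ^ 2 := mul_le_mul_of_nonneg_right hκ (by positivity)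
  have k5 : κ * t ^ 2 ≤ 1 / 100 * t ^ 2 := mul_le_mul_of_nonneg_right hκ (by positivity)
  have k6 : κ * u ^ 2 ≤ 1 / 100 * u ^ 2 := mul_le_mul_of_nonneg_right hκ (by positivity)
  have a1 := abs_le.1 ha
  have b1 := abs_le.1 hb
  have c1 := abs_le.1 hc
  have a2 := abs_le.1 ha'
  have b2 := abs_le.1 hb'
  have c2 := abs_le.1 hc'
  have hsu : s ≤ u := by linarith
  have s2u : s ^ 2 ≤ 1 / 100 * u ^ 2 := by nlinarith
  have e1 : 0.97 * t ≤ b - a := by nlinarith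
  have e2 : 0.97 * u ^ 2 ≤ c' - a' := by nlinarith
  have e3 : c - a ≤ 1.01 * u := by nlinarith
  have e4 : b' - a' ≤ 1.01 * t ^ 2 := by nlinarith [sq_nonneg s]
  have e5 : 0 ≤ c - a := by nlinarith
  have f1 : 0.97 * t * (0.97 * u ^ 2) ≤ (b - a) * (c' - a') :=
    mul_le_mul e1 e2 (by positivity) (by linarith [mul_pos (by norm_num : (0:ℝ) < 0.97) ht])
  have f2 : (c - a) * (b' - a') ≤ 1.01 * u * (1.01 * t ^ 2) :=
    (mul_le_mul_of_nonneg_left e4 e5).trans (mul_le_mul_of_nonneg_right e3 (by positivity))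
  have f3 : 1.01 * u * (1.01 * t ^ 2) < 0.97 * t * (0.97 * u ^ 2) := by
    have : 0 < t * u := by positivity
    nlinarith
  unfold m3
  linarith

/-- (2), signs of the minors. -/
theorem dd4_sign {κ : ℝ} {g v t : Fin 4 → ℝ} (hκ : κ ≤ 1 / 100) (ht : ∀ j, 0 < t j)
    (hl : ∀ i j, i < j → 100 * t i ≤ t j) (hg : ∀ j, |g j - t j| ≤ κ * t j)
    (hv : ∀ j, |v j - t j ^ 2| ≤ κ * t j ^ 2) :
    0 < dd4 g v 0 ∧ dd4 g v 1 < 0 ∧ 0 < dd4 g v 2 ∧ dd4 g v 3 < 0 := by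
  have key : ∀ i j k : Fin 4, i < j → j < k → 0 < m3 (g i) (g j) (g k) (v i) (v j) (v k) :=
    fun i j k hij hjk => m3_pos hκ (ht i) (hl i j hij) (hl j k hjk) (hg i) (hg j) (hg k) (hv i)
      (hv j) (hv k)
  have h0 := key 1 2 3 (by decide) (by decide)
  have h1 := key 0 2 3 (by decide) (by decide)
  have h2 := key 0 1 3 (by decide) (by decide)
  have h3 := key 0 1 2 (by decide) (by decide)
  refine ⟨?_, ?_, ?_, ?_⟩
  · simpa [dd4] using h0
  · simpa [dd4] using h1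
  · simpa [dd4] using h2
  · simpa [dd4] using h3

/-- `a` and `a'` are positive and within a factor `20`. -/
def Cmp20 (a a' : ℝ) : Prop := 0 < a ∧ 0 < a' ∧ a ≤ 20 * a' ∧ a' ≤ 20 * a

theorem cmp_or {a a' : ℝ} (ha' : 0 ≤ a') (hle : a' ≤ a) : Cmp20 a a' ∨ 20 * a' ≤ a := by
  by_cases h : 20 * a' ≤ a
  · exact Or.inr h
  · left
    push Not at h
    have h1 : 0 < a' := by
      rcases ha'.lt_or_eq with h2 | h2
      · exact h2
      · exfalso; rw [← h2] at h hle; linarith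
    exact ⟨by linarith, h1, h.le, by linarith⟩

theorem one_dom {a x y f : ℝ} (hx : 0 ≤ x) (_hy : 0 ≤ y) (h1 : 20 * x ≤ a) (h2 : 20 * y ≤ a)
    (hf : 0.999 * a - 1.001 * x - 1.001 * y ≤ |f|) : a + x + y ≤ 10 * |f| := by
  linarith

theorem nocancel_one {A0 A1 A2 s b p : ℝ} (hs : 0 < s) (hb : |b - s| ≤ s / 1000)
    (hp : |p - s ^ 2| ≤ s ^ 2 / 1000)
    (h : 10 * |A0 + A1 * b - A2 * p| < |A0| + |A1| * s + |A2| * s ^ 2) :
    Cmp20 |A0| (|A1| * s) ∨ Cmp20 |A0| (|A2| * s ^ 2) ∨ Cmp20 (|A1| * s) (|A2| * s ^ 2) := by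
  have sym : ∀ u w : ℝ, Cmp20 u w → Cmp20 w u := fun u w hh => ⟨hh.2.1, hh.1, hh.2.2.2, hh.2.2.1⟩
  have h0 := abs_nonneg A0
  have h1 : 0 ≤ |A1| * s := by positivity
  have h2 : 0 ≤ |A2| * s ^ 2 := by positivity
  have ub : |A1 * b| ≤ 1.001 * (|A1| * s) ∧ 0.999 * (|A1| * s) ≤ |A1 * b| := by
    have hb' := abs_le.1 hb
    rw [abs_mul, abs_of_pos (by linarith : 0 < b)]
    constructor <;> nlinarith [abs_nonneg A1]
  have up : |A2 * p| ≤ 1.001 * (|A2| * s ^ 2) ∧ 0.999 * (|A2| * s ^ 2) ≤ |A2 * p| := by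
    have hp' := abs_le.1 hp
    have hs2 : 0 < s ^ 2 := by positivity
    rw [abs_mul, abs_of_pos (by linarith : 0 < p)]
    constructor <;> nlinarith [abs_nonneg A2]
  -- lower bounds for `f`
  have l0 : |A0| - |A1 * b| - |A2 * p| ≤ |A0 + A1 * b - A2 * p| := by
    have e : A0 = (A0 + A1 * b - A2 * p) - A1 * b + A2 * p := by ring
    have : |A0| ≤ |A0 + A1 * b - A2 * p| + |A1 * b| + |A2 * p| := by
      calc |A0| = |(A0 + A1 * b - A2 * p) - A1 * b + A2 * p| := by rw [← e]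
        _ ≤ |(A0 + A1 * b - A2 * p) - A1 * b| + |A2 * p| := abs_add_le _ _
        _ ≤ _ := by linarith [abs_sub (A0 + A1 * b - A2 * p) (A1 * b)]
    linarith
  have l1 : |A1 * b| - |A0| - |A2 * p| ≤ |A0 + A1 * b - A2 * p| := by
    have e : A1 * b = (A0 + A1 * b - A2 * p) - A0 + A2 * p := by ring
    have : |A1 * b| ≤ |A0 + A1 * b - A2 * p| + |A0| + |A2 * p| := by
      calc |A1 * b| = |(A0 + A1 * b - A2 * p) - A0 + A2 * p| := by rw [← e]
        _ ≤ |(A0 + A1 * b - A2 * p) - A0| + |A2 * p| := abs_add_le _ _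
        _ ≤ _ := by linarith [abs_sub (A0 + A1 * b - A2 * p) A0]
    linarith
  have l2 : |A2 * p| - |A0| - |A1 * b| ≤ |A0 + A1 * b - A2 * p| := by
    have e : A2 * p = -((A0 + A1 * b - A2 * p) - A0) + A1 * b := by ring
    have : |A2 * p| ≤ |A0 + A1 * b - A2 * p| + |A0| + |A1 * b| := by
      calc |A2 * p| = |-((A0 + A1 * b - A2 * p) - A0) + A1 * b| := by rw [← e]
        _ ≤ |-((A0 + A1 * b - A2 * p) - A0)| + |A1 * b| := abs_add_le _ _
        _ ≤ _ := by rw [abs_neg]; linarith [abs_sub (A0 + A1 * b - A2 * p) A0]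
    linarith
  by_contra hcon
  push Not at hcon
  obtain ⟨n01, n02, n12⟩ := hcon
  rcases le_total |A0| (|A1| * s) with c1 | c1
  · rcases le_total (|A1| * s) (|A2| * s ^ 2) with c2 | c2
    · -- max = 2
      have r1 := (cmp_or h1 c2).resolve_left (fun hh => n12 (sym _ _ hh))
      have r2 := (cmp_or h0 (c1.trans c2)).resolve_left (fun hh => n02 (sym _ _ hh))
      linarith [up.2, ub.1]
    · -- max = 1
      have r1 := (cmp_or h2 c2).resolve_left n12
      have r2 := (cmp_or h0 c1).resolve_left (fun hh => n01 (sym _ _ hh))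
      linarith [up.1, ub.2]
  · rcases le_total |A0| (|A2| * s ^ 2) with c2 | c2
    · have r1 := (cmp_or h0 c2).resolve_left (fun hh => n02 (sym _ _ hh))
      have r2 := (cmp_or h1 (c1.trans c2)).resolve_left (fun hh => n12 (sym _ _ hh))
      linarith [up.2, ub.1]
    · have r1 := (cmp_or h2 c2).resolve_left n02
      have r2 := (cmp_or h1 c1).resolve_left n01
      linarith [up.1, ub.1]

theorem cmp_lac {a x s s' : ℝ} (_hs : 0 < s) (hx : 0 ≤ x) (hl : 401 * s ≤ s')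
    (h : Cmp20 a (x * s)) (h' : Cmp20 a (x * s')) : False := by
  obtain ⟨h1, h2, h3, h4⟩ := h
  obtain ⟨h1', h2', h3', h4'⟩ := h'
  have hx0 : 0 < x := by
    rcases hx.lt_or_eq with h5 | h5
    · exact h5
    · rw [← h5] at h2; simp at h2
  have : x * (401 * s) ≤ x * s' := mul_le_mul_of_nonneg_left hl hx
  nlinarith

/-- (2.1) NO CANCELLATION. -/
theorem nocancel {A0 A1 A2 : ℝ} {s b p : Fin 4 → ℝ} (hs : ∀ i, 0 < s i)
    (hl : ∀ i j, i < j → 401 * s i ≤ s j) (hb : ∀ i, |b i - s i| ≤ s i / 1000)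
    (hp : ∀ i, |p i - s i ^ 2| ≤ s i ^ 2 / 1000) :
    ∃ i, |A0| + |A1| * s i + |A2| * s i ^ 2 ≤ 10 * |A0 + A1 * b i - A2 * p i| := by
  by_contra hcon
  push Not at hcon
  have hall : ∀ i, ∃ c : Fin 3, (c = 0 → Cmp20 |A0| (|A1| * s i)) ∧
      (c = 1 → Cmp20 |A0| (|A2| * s i ^ 2)) ∧ (c = 2 → Cmp20 (|A1| * s i) (|A2| * s i ^ 2)) := by
    intro i
    rcases nocancel_one (hs i) (hb i) (hp i) (hcon i) with h | h | h
    · exact ⟨0, fun _ => h, fun h' => absurd h' (by decide), fun h' => absurd h' (by decide)⟩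
    · exact ⟨1, fun h' => absurd h' (by decide), fun _ => h, fun h' => absurd h' (by decide)⟩
    · exact ⟨2, fun h' => absurd h' (by decide), fun h' => absurd h' (by decide), fun _ => h⟩
  choose c hc using hall
  obtain ⟨i, j, hij, hcij⟩ := Fintype.exists_ne_map_eq_of_card_lt c (by simp)
  have main : ∀ i j, i < j → c i = c j → False := by
    intro i j hlt he
    have hsi := hs i
    have hsj := hs j
    have hl' := hl i j hlt
    have hlsq : 401 * s i ^ 2 ≤ s j ^ 2 := by nlinarith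
    have c3 : c i = 0 ∨ c i = 1 ∨ c i = 2 := by
      generalize c i = q
      fin_cases q <;> simp
    rcases c3 with h | h | h
    · exact cmp_lac hsi (abs_nonneg A1) hl' ((hc i).1 h) ((hc j).1 (he ▸ h))
    · exact cmp_lac (by positivity) (abs_nonneg A2) hlsq ((hc i).2.1 h) ((hc j).2.1 (he ▸ h))
    · have q1 := (hc i).2.2 h
      have q2 := (hc j).2.2 (he ▸ h)
      have conv : ∀ r : ℝ, 0 < r → Cmp20 (|A1| * r) (|A2| * r ^ 2) → Cmp20 |A1| (|A2| * r) := by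
        intro r hr hh
        obtain ⟨u1, u2, u3, u4⟩ := hh
        have e : |A2| * r ^ 2 = |A2| * r * r := by ring
        rw [e] at u2 u3 u4
        refine ⟨(mul_pos_iff_of_pos_right hr).1 u1, (mul_pos_iff_of_pos_right hr).1 u2, ?_, ?_⟩
        · exact le_of_mul_le_mul_right (by linarith : |A1| * r ≤ 20 * (|A2| * r) * r) hr
        · exact le_of_mul_le_mul_right (by linarith : |A2| * r * r ≤ 20 * |A1| * r) hr
      exact cmp_lac hsi (abs_nonneg A2) hl' (conv _ hsi q1) (conv _ hsj q2)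
  rcases lt_or_gt_of_ne hij with h | h
  · exact main i j h hcij
  · exact main j i h hcij.symm

/-- (2.2): some column `w` with the good sign has `X_w < 2.5 Z_w`. -/
theorem sgn2 {d Z : Fin 4 → ℝ} {f σ : ℝ} (h0 : 0 < d 0) (h1 : d 1 < 0) (h2 : 0 < d 2)
    (h3 : d 3 < 0) (hσ : σ = 1 ∨ σ = -1) (hZ : ∀ j, 0 < σ * Z j) (hs : ∑ j, d j * Z j = -f)
    (hf : f ≠ 0) : ∃ w, σ * (d w * f) < 0 ∧ |f| < 2.5 * (|d w| * (σ * Z w)) := by
  have hσ2 : σ * σ = 1 := by rcases hσ with h | h <;> rw [h] <;> norm_num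
  rw [Fin.sum_univ_four] at hs
  have hz0 := hZ 0
  have hz1 := hZ 1
  have hz2 := hZ 2
  have hz3 := hZ 3
  have e : d 0 * (σ * Z 0) + d 1 * (σ * Z 1) + d 2 * (σ * Z 2) + d 3 * (σ * Z 3) = -(σ * f) := by
    linear_combination σ * hs
  have p0 := mul_pos h0 hz0
  have p2 := mul_pos h2 hz2
  have p1 := mul_neg_of_neg_of_pos h1 hz1
  have p3 := mul_neg_of_neg_of_pos h3 hz3
  have hσf : σ * f ≠ 0 := by
    intro h
    apply hf
    have := congrArg (σ * ·) h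
    simpa [← mul_assoc, hσ2] using this
  have habs : |f| = |σ * f| := by
    rw [abs_mul]
    rcases hσ with h | h <;> rw [h] <;> simp
  rcases lt_or_gt_of_ne hσf with hneg | hpos
  · rw [habs, abs_of_neg hneg]
    by_cases hc : -(σ * f) < 2.5 * (d 0 * (σ * Z 0))
    · refine ⟨0, ?_, ?_⟩
      · have : σ * (d 0 * f) = d 0 * (σ * f) := by ring
        rw [this]; exact mul_neg_of_pos_of_neg h0 hneg
      · rw [abs_of_pos h0]; exact hc
    · refine ⟨2, ?_, ?_⟩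
      · have : σ * (d 2 * f) = d 2 * (σ * f) := by ring
        rw [this]; exact mul_neg_of_pos_of_neg h2 hneg
      · rw [abs_of_pos h2]; linarith
  · rw [habs, abs_of_pos hpos]
    by_cases hc : σ * f < 2.5 * (-d 1 * (σ * Z 1))
    · refine ⟨1, ?_, ?_⟩
      · have : σ * (d 1 * f) = d 1 * (σ * f) := by ring
        rw [this]; exact mul_neg_of_neg_of_pos h1 hpos
      · rw [abs_of_neg h1]; exact hc
    · refine ⟨3, ?_, ?_⟩
      · have : σ * (d 3 * f) = d 3 * (σ * f) := by ring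
        rw [this]; exact mul_neg_of_neg_of_pos h3 hpos
      · rw [abs_of_neg h3]; linarith

end Pool.Agent.BIP.P52
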