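import Pool.Agent.BIP.TDefs

/-!
# TWO: row T2, hit tests
-/

namespace Pool.Agent.BIP.TW

/-- the weights kill both forms -/
theorem t2_chord (C : Ln) (u1 s1 z1 u2 s2 z2 : ℝ) (h : u1 ≠ u2) :
    (u2 - u1) * MM (Lth u1 s1 z1 u2 s2 z2) C =
      (u2 - C.a - C.b * s2) * (z1 - C.c - C.d * s1) -
        (u1 - C.a - C.b * s1) * (z2 - C.c - C.d * s2) := by
  have h0 : u2 - u1 ≠ 0 := sub_ne_zero.2 (Ne.symm h)
  simp only [MM, Lth, Ln.pi]
  field_simp
  ring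

theorem t2_hit (C : Ln) (u1 s1 z1 u2 s2 z2 u3 s3 z3 σ : ℝ) (h12 : u1 < u2) (h23 : u2 < u3)
    (hσ : σ = 1 ∨ σ = -1)
    (hE : 0 ≤ σ * MM (Lth u1 s1 z1 u3 s3 z3) C)
    (hL : σ * MM (Lth u1 s1 z1 u2 s2 z2) C ≤ 0)
    (hL' : σ * MM (Lth u2 s2 z2 u3 s3 z3) C ≤ 0)
    (hne : 0 < σ * (MM (Lth u1 s1 z1 u3 s3 z3) C - MM (Lth u1 s1 z1 u2 s2 z2) C -
      MM (Lth u2 s2 z2 u3 s3 z3) C)) :
    ∃ l1 l2 l3 : ℝ, 0 ≤ l1 ∧ 0 ≤ l2 ∧ 0 ≤ l3 ∧ 0 < l1 + l2 + l3 ∧
      l1 * (u1 - C.a - C.b * s1) + l2 * (u2 - C.a - C.b * s2) + l3 * (u3 - C.a - C.b * s3) = 0 ∧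
      l1 * (z1 - C.c - C.d * s1) + l2 * (z2 - C.c - C.d * s2) + l3 * (z3 - C.c - C.d * s3) = 0 := by
  have p12 := sub_pos.2 h12
  have p23 := sub_pos.2 h23
  have p13 := sub_pos.2 (h12.trans h23)
  have e12 := t2_chord C u1 s1 z1 u2 s2 z2 h12.ne
  have e23 := t2_chord C u2 s2 z2 u3 s3 z3 h23.ne
  have e13 := t2_chord C u1 s1 z1 u3 s3 z3 (h12.trans h23).ne
  have _ := hσ
  refine ⟨(u3 - u2) * -(σ * MM (Lth u2 s2 z2 u3 s3 z3) C),
    (u3 - u1) * (σ * MM (Lth u1 s1 z1 u3 s3 z3) C),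
    (u2 - u1) * -(σ * MM (Lth u1 s1 z1 u2 s2 z2) C),
    mul_nonneg p23.le (by linarith), mul_nonneg p13.le hE, mul_nonneg p12.le (by linarith),
    ?_, ?_, ?_⟩
  · have q1 : 0 ≤ (u3 - u2) * -(σ * MM (Lth u2 s2 z2 u3 s3 z3) C) :=
      mul_nonneg p23.le (by linarith)
    have q2 : 0 ≤ (u3 - u1) * (σ * MM (Lth u1 s1 z1 u3 s3 z3) C) := mul_nonneg p13.le hE
    have q3 : 0 ≤ (u2 - u1) * -(σ * MM (Lth u1 s1 z1 u2 s2 z2) C) :=
      mul_nonneg p12.le (by linarith)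
    by_contra hcon
    have z1' : (u3 - u2) * -(σ * MM (Lth u2 s2 z2 u3 s3 z3) C) = 0 := by linarith
    have z2' : (u3 - u1) * (σ * MM (Lth u1 s1 z1 u3 s3 z3) C) = 0 := by linarith
    have z3' : (u2 - u1) * -(σ * MM (Lth u1 s1 z1 u2 s2 z2) C) = 0 := by linarith
    have w1 := (mul_eq_zero.1 z1').resolve_left p23.ne'
    have w2 := (mul_eq_zero.1 z2').resolve_left p13.ne'
    have w3 := (mul_eq_zero.1 z3').resolve_left p12.ne'
    have : σ * (MM (Lth u1 s1 z1 u3 s3 z3) C - MM (Lth u1 s1 z1 u2 s2 z2) C -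
      MM (Lth u2 s2 z2 u3 s3 z3) C) = 0 := by linarith
    linarith
  · linear_combination (-σ * (u1 - C.a - C.b * s1)) * e23 + (σ * (u2 - C.a - C.b * s2)) * e13 +
      (-σ * (u3 - C.a - C.b * s3)) * e12
  · linear_combination (-σ * (z1 - C.c - C.d * s1)) * e23 + (σ * (z2 - C.c - C.d * s2)) * e13 +
      (-σ * (z3 - C.c - C.d * s3)) * e12

/-- three weights on three different cells -/
theorem t2_met {n : ℕ} (f g : V4 →ₗ[ℝ] ℝ) (v : Fin n → V4) (i j k : Fin n) (hij : i ≠ j)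
    (hik : i ≠ k) (hjk : j ≠ k) (l1 l2 l3 : ℝ) (h1 : 0 ≤ l1) (h2 : 0 ≤ l2) (h3 : 0 ≤ l3)
    (h0 : 0 < l1 + l2 + l3) (hf : l1 * f (v i) + l2 * f (v j) + l3 * f (v k) = 0)
    (hg : l1 * g (v i) + l2 * g (v j) + l3 * g (v k) = 0) : Met f g v := by
  classical
  have hs : ∀ F : V4 →ₗ[ℝ] ℝ, F (∑ l, ((if l = i then l1 else 0) + (if l = j then l2 else 0) +
      (if l = k then l3 else 0)) • v l) = l1 * F (v i) + l2 * F (v j) + l3 * F (v k) := by
    intro F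
    rw [map_sum]
    simp only [map_smul, smul_eq_mul, add_mul, ite_mul, zero_mul, Finset.sum_add_distrib,
      Finset.sum_ite_eq', Finset.mem_univ, if_true]
  refine ⟨fun l => (if l = i then l1 else 0) + (if l = j then l2 else 0) +
    (if l = k then l3 else 0), ?_, ?_, ?_, ?_⟩
  · intro l
    dsimp only
    split_ifs <;> linarith
  · by_cases c1 : 0 < l1
    · refine ⟨i, ?_⟩
      simp only [if_true, hij, hik, if_false]
      linarith
    · by_cases c2 : 0 < l2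
      · refine ⟨j, ?_⟩
        simp only [if_true, hij.symm, hjk, if_false]
        linarith
      · refine ⟨k, ?_⟩
        simp only [if_true, hik.symm, hjk.symm, if_false]
        linarith
  · rw [hs, hf]
  · rw [hs, hg]

theorem cF_apply (C : Ln) (x y z : ℝ) : cF C ![1, x, y, z] = x - C.a - C.b * y := by
  simp [cF]

theorem cG_apply (C : Ln) (x y z : ℝ) : cG C ![1, x, y, z] = z - C.c - C.d * y := by
  simp [cG]

theorem rF_apply (C : Ln) (x y z : ℝ) : rF C ![1, x, y, z] = y - C.a - C.b * x := by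
  simp [rF]

theorem rG_apply (C : Ln) (x y z : ℝ) : rG C ![1, x, y, z] = z - C.c - C.d * x := by
  simp [rG]

/-- A column-like line meets a row. -/
theorem t2_row {n : ℕ} (x y z : Fin n → ℝ) (C : Ln) (i j k : Fin n)
    (hij : x i < x j) (hjk : x j < x k)
    (hE : 0 ≤ MM (Lth (x i) (y i) (z i) (x k) (y k) (z k)) C)
    (hL : MM (Lth (x i) (y i) (z i) (x j) (y j) (z j)) C ≤ 0)
    (hL' : MM (Lth (x j) (y j) (z j) (x k) (y k) (z k)) C ≤ 0)
    (hne : 0 < MM (Lth (x i) (y i) (z i) (x k) (y k) (z k)) C -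
      MM (Lth (x i) (y i) (z i) (x j) (y j) (z j)) C -
      MM (Lth (x j) (y j) (z j) (x k) (y k) (z k)) C) :
    Met (cF C) (cG C) (fun l => (![1, x l, y l, z l] : V4)) := by
  obtain ⟨l1, l2, l3, h1, h2, h3, h0, hf, hg⟩ := t2_hit C (x i) (y i) (z i) (x j) (y j) (z j)
    (x k) (y k) (z k) 1 hij hjk (Or.inl rfl) (by linarith) (by linarith) (by linarith)
    (by linarith)
  refine t2_met _ _ _ i j k ?_ ?_ ?_ l1 l2 l3 h1 h2 h3 h0 ?_ ?_
  · rintro rfl; exact lt_irrefl _ hij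
  · rintro rfl; exact lt_irrefl _ (hij.trans hjk)
  · rintro rfl; exact lt_irrefl _ hjk
  · simp only [cF_apply]; exact hf
  · simp only [cG_apply]; exact hg

theorem t2_anti (R C : Ln) : MM R C = - MM C R := by
  simp only [MM, Ln.pi]
  ring

/-- A row-like line meets a column. -/
theorem t2_col {n : ℕ} (x y z : Fin n → ℝ) (R : Ln) (i j k : Fin n)
    (hij : y i < y j) (hjk : y j < y k)
    (hE : 0 ≤ MM R (Lth (y i) (x i) (z i) (y k) (x k) (z k)))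
    (hL : MM R (Lth (y i) (x i) (z i) (y j) (x j) (z j)) ≤ 0)
    (hL' : MM R (Lth (y j) (x j) (z j) (y k) (x k) (z k)) ≤ 0)
    (hne : 0 < MM R (Lth (y i) (x i) (z i) (y k) (x k) (z k)) -
      MM R (Lth (y i) (x i) (z i) (y j) (x j) (z j)) -
      MM R (Lth (y j) (x j) (z j) (y k) (x k) (z k))) :
    Met (rF R) (rG R) (fun l => (![1, x l, y l, z l] : V4)) := by
  rw [t2_anti] at hE hL hL'
  rw [t2_anti R, t2_anti R, t2_anti R] at hne
  obtain ⟨l1, l2, l3, h1, h2, h3, h0, hf, hg⟩ := t2_hit R (y i) (x i) (z i) (y j) (x j) (z j)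
    (y k) (x k) (z k) (-1) hij hjk (Or.inr rfl) (by linarith) (by linarith) (by linarith)
    (by linarith)
  refine t2_met _ _ _ i j k ?_ ?_ ?_ l1 l2 l3 h1 h2 h3 h0 ?_ ?_
  · rintro rfl; exact lt_irrefl _ hij
  · rintro rfl; exact lt_irrefl _ (hij.trans hjk)
  · rintro rfl; exact lt_irrefl _ hjk
  · simp only [rF_apply]; exact hf
  · simp only [rG_apply]; exact hg

theorem t2_dual {f k : V4 →ₗ[ℝ] ℝ} (u w : V4) (h1 : f u = 1) (h2 : k u = 0)
    (h3 : f w = 0) (h4 : k w = 1) : LinearIndependent ℝ ![f, k] := by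
  rw [LinearIndependent.pair_iff]
  intro s t h
  have e1 := LinearMap.congr_fun h u
  have e2 := LinearMap.congr_fun h w
  simp only [LinearMap.add_apply, LinearMap.smul_apply, h1, h2, h3, h4, smul_eq_mul, mul_one,
    mul_zero, add_zero, zero_add, LinearMap.zero_apply] at e1 e2
  exact ⟨e1, e2⟩

theorem t2_indC (C : Ln) : LinearIndependent ℝ ![cF C, cG C] :=
  t2_dual ![0, 1, 0, 0] ![0, 0, 0, 1] (by simp [cF]) (by simp [cG]) (by simp [cF]) (by simp [cG])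

theorem t2_indR (R : Ln) : LinearIndependent ℝ ![rF R, rG R] :=
  t2_dual ![0, 0, 1, 0] ![0, 0, 0, 1] (by simp [rF]) (by simp [rG]) (by simp [rF]) (by simp [rG])

end Pool.Agent.BIP.TW
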