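import Pool.Agent.BIP.TDefs

namespace Pool.Agent.BIP.TW

/-- The line through two end nodes `(tm, σ)`, `(tp, σ)`. -/
theorem t3_LB (κ e T σ tm tp um sm zm up sp zp : ℝ) (hc : Cst κ e T) (h0 : 0 < σ) (h1 : 0 < tm)
    (h2 : T * tm ≤ tp) (hum : |um - tm| ≤ e / 6 * tm) (hup : |up - tp| ≤ e / 6 * tp)
    (hsm : |sm - σ| ≤ e / 6 * σ) (hsp : |sp - σ| ≤ e / 6 * σ)
    (hzm : |zm - κ * (tm * σ)| ≤ e / 6 * (tm * σ)) (hzp : |zp - κ * (tp * σ)| ≤ e / 6 * (tp * σ)) :
    LB κ e σ tm tp (Lth um sm zm up sp zp) ∧ On (Lth um sm zm up sp zp) um sm zm ∧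
      On (Lth um sm zm up sp zp) up sp zp := by
  have he := hc.he
  have he1 : e ≤ 1 / 1000 := hc.he1.trans (by norm_num)
  have hT : (10 : ℝ) ^ 9 ≤ T := hc.hT
  have hκ : |κ| = 1 := by rcases hc.hκ with h | h <;> rw [h] <;> simp
  have h3 : 1000 * tm ≤ tp := by
    have : (1000 : ℝ) * tm ≤ T * tm := mul_le_mul_of_nonneg_right (by linarith) h1.le
    linarith
  have h4 : 0 < tp := by linarith
  have a1 := abs_le.1 hum
  have a2 := abs_le.1 hup
  have a3 := abs_le.1 hsm
  have a4 := abs_le.1 hsp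
  set δ := up - um with hδ
  have etm : e / 6 * tm ≤ 1 / 1000 * tm := mul_le_mul_of_nonneg_right (by linarith) h1.le
  have etp : e / 6 * tp ≤ 1 / 1000 * tp := mul_le_mul_of_nonneg_right (by linarith) h4.le
  have hδ1 : 0.99 * tp ≤ δ := by rw [hδ]; linarith
  have hδ0 : 0 < δ := by linarith
  have hδn : δ ≠ 0 := hδ0.ne'
  have hum0 : 0 < um := by linarith
  have hum1 : um ≤ 1.001 * tm := by linarith
  -- slopes
  have hb1 : |(sp - sm) / δ| * tp ≤ 0.34 * (e * σ) := by
    have q : |(sp - sm) / δ| * δ ≤ e / 3 * σ := by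
      rw [abs_div, abs_of_pos hδ0, div_mul_cancel₀ _ hδn, abs_le]
      constructor <;> linarith
    have q2 : |(sp - sm) / δ| * (0.99 * tp) ≤ |(sp - sm) / δ| * δ :=
      mul_le_mul_of_nonneg_left hδ1 (abs_nonneg _)
    have : 0 < e * σ := mul_pos he h0
    linarith
  have hd1 : |(zp - zm) / δ - κ * σ| ≤ 0.34 * (e * σ) := by
    have hN : (zp - zm) / δ - κ * σ = (zp - zm - κ * σ * δ) / δ := by
      field_simp
    rw [hN, abs_div, abs_of_pos hδ0, div_le_iff₀ hδ0]
    have hid : zp - zm - κ * σ * δ = (zp - κ * (tp * σ)) - (zm - κ * (tm * σ)) -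
        κ * (σ * ((up - tp) - (um - tm))) := by rw [hδ]; ring
    have k1 : |κ * (σ * ((up - tp) - (um - tm)))| ≤ e / 6 * ((tp + tm) * σ) := by
      rw [abs_mul, hκ, one_mul, abs_mul, abs_of_pos h0]
      have : |(up - tp) - (um - tm)| ≤ e / 6 * (tp + tm) := by
        rw [abs_le]; constructor <;> linarith
      calc σ * |(up - tp) - (um - tm)| ≤ σ * (e / 6 * (tp + tm)) :=
            mul_le_mul_of_nonneg_left this h0.le
        _ = _ := by ring
    have k2 : |zp - zm - κ * σ * δ| ≤ e / 3 * ((tp + tm) * σ) := by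
      rw [hid]
      have b1 := abs_le.1 hzm
      have b2 := abs_le.1 hzp
      have b3 := abs_le.1 k1
      rw [abs_le]; constructor <;> linarith
    have k3 : 0 < e * σ := mul_pos he h0
    have k4 : e / 3 * ((tp + tm) * σ) ≤ 0.334 * (e * σ) * tp := by
      have : (tp + tm) * (e * σ) ≤ 1.001 * tp * (e * σ) :=
        mul_le_mul_of_nonneg_right (by linarith) k3.le
      linarith [mul_pos k3 h4]
    have k5 : 0.34 * (e * σ) * (0.99 * tp) ≤ 0.34 * (e * σ) * δ :=
      mul_le_mul_of_nonneg_left hδ1 (by positivity)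
    linarith [mul_pos k3 h4]
  have heσ : 0 < e * σ := mul_pos he h0
  refine ⟨⟨?_, ?_, ?_, ?_⟩, ⟨?_, ?_⟩, ⟨?_, ?_⟩⟩
  · change |sm - (sp - sm) / δ * um - σ| ≤ e * σ
    have q : |(sp - sm) / δ * um| ≤ 0.01 * (e * σ) := by
      rw [abs_mul, abs_of_pos hum0]
      have : |(sp - sm) / δ| * um ≤ |(sp - sm) / δ| * (tp / 100) :=
        mul_le_mul_of_nonneg_left (by linarith) (abs_nonneg _)
      linarith
    have q' := abs_le.1 q
    rw [abs_le]; constructor <;> linarith
  · change |(sp - sm) / δ| * tp ≤ e * σ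
    linarith
  · change |zm - (zp - zm) / δ * um| ≤ e * (σ * tm)
    have hid : zm - (zp - zm) / δ * um = (zm - κ * (tm * σ)) - ((zp - zm) / δ - κ * σ) * um -
        κ * (σ * (um - tm)) := by ring
    have k1 : |κ * (σ * (um - tm))| ≤ e / 6 * (tm * σ) := by
      rw [abs_mul, hκ, one_mul, abs_mul, abs_of_pos h0]
      calc σ * |um - tm| ≤ σ * (e / 6 * tm) := mul_le_mul_of_nonneg_left hum h0.le
        _ = _ := by ring
    have k2 : |((zp - zm) / δ - κ * σ) * um| ≤ 0.35 * (e * (σ * tm)) := by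
      rw [abs_mul, abs_of_pos hum0]
      calc |(zp - zm) / δ - κ * σ| * um ≤ 0.34 * (e * σ) * (1.001 * tm) :=
            mul_le_mul hd1 hum1 hum0.le (by positivity)
        _ ≤ 0.35 * (e * (σ * tm)) := by linarith [mul_pos heσ h1]
    rw [hid]
    have b1 := abs_le.1 hzm
    have b2 := abs_le.1 k1
    have b3 := abs_le.1 k2
    have : 0 < e * (σ * tm) := by positivity
    rw [abs_le]; constructor <;> linarith
  · change |(zp - zm) / δ - κ * σ| ≤ e * σ
    linarith
  · change sm = sm - (sp - sm) / δ * um + (sp - sm) / δ * um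
    ring
  · change zm = zm - (zp - zm) / δ * um + (zp - zm) / δ * um
    ring
  · change sp = sm - (sp - sm) / δ * um + (sp - sm) / δ * up
    have : (sp - sm) / δ * δ = sp - sm := div_mul_cancel₀ _ hδn
    have e2 : (sp - sm) / δ * δ = (sp - sm) / δ * up - (sp - sm) / δ * um := by rw [hδ]; ring
    linarith
  · change zp = zm - (zp - zm) / δ * um + (zp - zm) / δ * up
    have : (zp - zm) / δ * δ = zp - zm := div_mul_cancel₀ _ hδn
    have e2 : (zp - zm) / δ * δ = (zp - zm) / δ * up - (zp - zm) / δ * um := by rw [hδ]; ring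
    linarith

end Pool.Agent.BIP.TW
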