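import Pool.Agent.BIP.T1f

namespace Pool.Agent.BIP.TW

/-- offsets of a cell from a line -/
theorem t4_off {κ e T σ υ um up : ℝ} {R : Ln} {u s z : ℝ} (hc : Cst κ e T) (h0 : 0 < um)
    (h1 : T * um ≤ υ) (h2 : T * υ ≤ up) (hσ : 0 < σ) (hR : LB κ e σ um up R)
    (hu : |u - υ| ≤ e * υ) (hs : |s - σ| ≤ e * σ) (hz : |z - κ * (σ * υ)| ≤ e * (σ * υ)) :
    0 < υ ∧ |s - R.a - R.b * u| ≤ 2.5 * (e * σ) ∧ |z - R.c - R.d * u| ≤ 3.5 * (e * (σ * υ)) ∧
      |R.b| * υ ≤ e * σ ∧ |R.d| ≤ 1.01 * σ := by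
  obtain ⟨hκ, he, he1, hT⟩ := hc
  have hT0 : (0 : ℝ) < T := by
    have : (0:ℝ) < 10 ^ 9 := by norm_num
    linarith
  have hυ : 0 < υ := lt_of_lt_of_le (mul_pos hT0 h0) h1
  have hT4 : (100:ℝ) ≤ T := by
    have : (100:ℝ) ≤ 10 ^ 9 := by norm_num
    linarith
  have u1 : 100 * um ≤ υ := (mul_le_mul_of_nonneg_right hT4 h0.le).trans h1
  have u2 : 100 * υ ≤ up := (mul_le_mul_of_nonneg_right hT4 hυ.le).trans h2
  have eσ : 0 < e * σ := mul_pos he hσ
  have eυ : e * υ ≤ υ / 10 ^ 12 := by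
    have := mul_le_mul_of_nonneg_right he1 hυ.le
    linarith
  have eσ' : e * σ ≤ σ / 10 ^ 12 := by
    have := mul_le_mul_of_nonneg_right he1 hσ.le
    linarith
  have hb : 100 * (|R.b| * υ) ≤ e * σ := by
    have h3 := hR.hb
    have h4 : |R.b| * (100 * υ) ≤ |R.b| * up := mul_le_mul_of_nonneg_left u2 (abs_nonneg _)
    linarith
  have hu' := abs_le.1 hu
  have u3 : |u| ≤ 1.01 * υ := abs_le.2 ⟨by linarith [hu'.1], by linarith [hu'.2]⟩
  have bu : |R.b * u| ≤ 1.01 * (|R.b| * υ) := by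
    rw [abs_mul]
    have := mul_le_mul_of_nonneg_left u3 (abs_nonneg R.b)
    linarith
  have bn : 0 ≤ |R.b| * υ := mul_nonneg (abs_nonneg _) hυ.le
  have ha := abs_le.1 hR.ha
  have hs' := abs_le.1 hs
  have bu' := abs_le.1 bu
  have hκ1 : |κ| = 1 := by rcases hκ with rfl | rfl <;> simp
  have hd := abs_le.1 hR.hd
  refine ⟨hυ, ?_, ?_, by linarith, ?_⟩
  · rw [abs_le]
    constructor <;> linarith [ha.1, ha.2, hs'.1, hs'.2, bu'.1, bu'.2]
  · have c1 : |(R.d - κ * σ) * u| ≤ e * σ * (1.01 * υ) := by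
      rw [abs_mul]
      exact mul_le_mul hR.hd u3 (abs_nonneg _) eσ.le
    have c2 : |κ * σ * (u - υ)| ≤ σ * (e * υ) := by
      rw [abs_mul, abs_mul, hκ1, one_mul, abs_of_pos hσ]
      exact mul_le_mul_of_nonneg_left hu hσ.le
    have c3 : |R.c| ≤ e * (σ * υ) / 100 := by
      refine hR.hc.trans ?_
      have h5 : σ * um ≤ σ * υ / 100 := by
        have := mul_le_mul_of_nonneg_left u1 hσ.le
        linarith
      have := mul_le_mul_of_nonneg_left h5 he.le
      linarith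
    have hid : z - R.c - R.d * u = (z - κ * (σ * υ)) - R.c - (R.d - κ * σ) * u -
        κ * σ * (u - υ) := by ring
    have c1' := abs_le.1 c1
    have c2' := abs_le.1 c2
    have c3' := abs_le.1 c3
    have hz' := abs_le.1 hz
    have hp : 0 < e * (σ * υ) := by positivity
    rw [hid, abs_le]
    constructor <;>
      linarith [c1'.1, c1'.2, c2'.1, c2'.2, c3'.1, c3'.2, hz'.1, hz'.2]
  · rcases hκ with hk | hk
    · rw [hk] at hd
      exact abs_le.2 ⟨by linarith [hd.1], by linarith [hd.2]⟩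
    · rw [hk] at hd
      exact abs_le.2 ⟨by linarith [hd.1], by linarith [hd.2]⟩

/-- the size of `M0` / `T0` -/
theorem t4_size {e σ υ D X p q S : ℝ} (he : 0 < e) (he1 : e ≤ 1 / 10 ^ 12) (hσ : 0 < σ)
    (hυ : 0 < υ) (hD : |D| ≤ 3.5 * (e * (σ * υ))) (hX : |X| ≤ 2.5 * (e * σ))
    (hp : |p| ≤ 1 / 10 ^ 6) (hS : |S| ≤ 1.1 * υ) (hq : q = (1 - p) * D - X * S) :
    |q| ≤ 7 * (e * (σ * υ)) := by
  have h1 : |(1 - p) * D| ≤ 1.01 * (3.5 * (e * (σ * υ))) := by
    rw [abs_mul]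
    refine mul_le_mul ?_ hD (abs_nonneg _) (by norm_num)
    have := abs_le.1 hp
    rw [abs_le]
    constructor <;> linarith [this.1, this.2]
  have h2 : |X * S| ≤ 2.5 * (e * σ) * (1.1 * υ) := by
    rw [abs_mul]
    exact mul_le_mul hX hS (abs_nonneg _) (by positivity)
  have h3 := abs_le.1 h1
  have h4 := abs_le.1 h2
  have h5 : 0 < e * (σ * υ) := by positivity
  rw [hq, abs_le]
  constructor <;> linarith [h3.1, h3.2, h4.1, h4.2]

/-- the correction of a chord -/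
theorem t4_cor {N D v a t k : ℝ} (ht : 0 < t) (hk : 0 ≤ k) (hN : |N| ≤ k) (hD : |D - 1| ≤ 1 / 100)
    (hv : 0.98 * t ≤ |v|) (ha : a = N / D / v) : |a| ≤ 1.05 * k / t := by
  have hD' := abs_le.1 hD
  have hDp : 0 < D := by linarith [hD'.1]
  have hvp : 0 < |v| := by
    have : 0 < 0.98 * t := by positivity
    linarith
  rw [ha, abs_div, abs_div, abs_of_pos hDp, div_div, div_le_div_iff₀ (mul_pos hDp hvp) ht]
  have h1 : 0.99 * (0.98 * t) ≤ D * |v| :=
    mul_le_mul (by linarith [hD'.1]) hv (by positivity) hDp.le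
  have h2 : |N| * t ≤ k * t := mul_le_mul_of_nonneg_right hN ht.le
  have h3 : 1.05 * k * (0.99 * (0.98 * t)) ≤ 1.05 * k * (D * |v|) :=
    mul_le_mul_of_nonneg_left h1 (by positivity)
  have h4 : 0 ≤ k * t := mul_nonneg hk ht.le
  linarith

/-- the sum -/
theorem t4_sum {M T Z al alT k : ℝ} (hk : 0 ≤ k) (hk1 : k ≤ 1 / 1000) (hZ : 0 < Z)
    (hs : Z = M + T) (ha0 : 0 ≤ al) (hb0 : 0 ≤ alT)
    (ha : al ≤ M + k * (|M| + |T|)) (hb : alT ≤ T + k * (|M| + |T|)) :
    |M| ≤ 1.01 * Z ∧ |T| ≤ 1.01 * Z ∧ al + alT ≤ 1.01 * Z := by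
  obtain ⟨q, hq⟩ : ∃ q, q = k * (|M| + |T|) := ⟨_, rfl⟩
  rw [← hq] at ha hb
  have hn : 0 ≤ |M| + |T| := add_nonneg (abs_nonneg _) (abs_nonneg _)
  have hq1 : q ≤ 1 / 1000 * (|M| + |T|) := by
    rw [hq]
    exact mul_le_mul_of_nonneg_right hk1 hn
  have hM : -q ≤ M := by linarith
  have hT : -q ≤ T := by linarith
  have hM2 : |M| ≤ M + 2 * q := by
    have hq0 : 0 ≤ q := by rw [hq]; positivity
    rcases le_total 0 M with h | h
    · rw [abs_of_nonneg h]; linarith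
    · rw [abs_of_nonpos h]; linarith
  have hT2 : |T| ≤ T + 2 * q := by
    have hq0 : 0 ≤ q := by rw [hq]; positivity
    rcases le_total 0 T with h | h
    · rw [abs_of_nonneg h]; linarith
    · rw [abs_of_nonpos h]; linarith
  have hsum : |M| + |T| ≤ 1.005 * Z := by linarith
  have hM0 := abs_nonneg M
  have hT0 := abs_nonneg T
  refine ⟨by linarith, by linarith, by linarith⟩

theorem t4_cell {κ e T t s tm tp sm sp : ℝ} {E F : Ln} {x y z : ℝ}
    (h : Cell κ e T t s tm tp sm sp E F x y z) (xm ym zm xp yp zp : ℝ) (hEm : On E xm ym zm)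
    (hEp : On E xp yp zp) (hxm : |xm - tm| ≤ e * tm) (hxp : |xp - tp| ≤ e * tp)
    (um vm wm up vp wp : ℝ) (hFm : On F vm um wm) (hFp : On F vp up wp)
    (hvm : |vm - sm| ≤ e * sm) (hvp : |vp - sp| ≤ e * sp) (hZ : 0 < MM E F)
    (hα : 0 ≤ MM (Lth xm ym zm x y z) F ∨ 0 ≤ MM (Lth x y z xp yp zp) F)
    (hβ : 0 ≤ MM E (Lth vm um wm y x z) ∨ 0 ≤ MM E (Lth y x z vp up wp)) :
    MM E F ≤ 20 * e * (t * s) ∧ |M0 E F x y z| ≤ 1.01 * MM E F ∧ |T0 E F x y z| ≤ 1.01 * MM E F ∧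
    MM (Lth xm ym zm x y z) F ≤
      M0 E F x y z + 1.2 * |oX F x y| * MM E F / t + |M0 E F x y z| / 10 ^ 6 ∧
    MM (Lth x y z xp yp zp) F ≤
      M0 E F x y z + 1.2 * |oX F x y| * MM E F / t + |M0 E F x y z| / 10 ^ 6 ∧
    ((MM E F / 2 < MM (Lth xm ym zm x y z) F ∨ MM E F / 2 < MM (Lth x y z xp yp zp) F) →
      MM E (Lth vm um wm y x z) ≤ 0.51 * MM E F ∧ MM E (Lth y x z vp up wp) ≤ 0.51 * MM E F) := by
  obtain ⟨hc, tm0, sm0, t1, t2, s1, s2, lE, lF, hx, hy, hz⟩ := h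
  have he := hc.he
  have he1 := hc.he1
  have hT := hc.hT
  have hT0 : (0 : ℝ) < T := by
    have : (0:ℝ) < 10 ^ 9 := by norm_num
    linarith
  have t0 : 0 < t := lt_of_lt_of_le (mul_pos hT0 tm0) t1
  have s0 : 0 < s := lt_of_lt_of_le (mul_pos hT0 sm0) s1
  have hz' : |z - κ * (s * t)| ≤ e * (s * t) := by rwa [mul_comm s t]
  obtain ⟨-, fX, fD, fb, fd⟩ := t4_off hc sm0 s1 s2 t0 lF hy hx hz
  obtain ⟨-, gY, gZ, eb, ed⟩ := t4_off hc tm0 t1 t2 s0 lE hx hy hz'
  have hts : 0 < t * s := mul_pos t0 s0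
  have tp0 : 0 < tp := lt_of_lt_of_le (mul_pos hT0 t0) t2
  have sp0 : 0 < sp := lt_of_lt_of_le (mul_pos hT0 s0) s2
  have hT4 : (1000:ℝ) ≤ T := by
    have : (1000:ℝ) ≤ 10 ^ 9 := by norm_num
    linarith
  have tmt : 1000 * tm ≤ t := (mul_le_mul_of_nonneg_right hT4 tm0.le).trans t1
  have ttp : 1000 * t ≤ tp := (mul_le_mul_of_nonneg_right hT4 t0.le).trans t2
  have sms : 1000 * sm ≤ s := (mul_le_mul_of_nonneg_right hT4 sm0.le).trans s1
  have ssp : 1000 * s ≤ sp := (mul_le_mul_of_nonneg_right hT4 s0.le).trans s2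
  have es1 : e * s ≤ s / 10 ^ 12 := by
    have := mul_le_mul_of_nonneg_right he1 s0.le
    linarith
  have et1 : e * t ≤ t / 10 ^ 12 := by
    have := mul_le_mul_of_nonneg_right he1 t0.le
    linarith
  have esm : e * sm ≤ sm / 10 ^ 12 := by
    have := mul_le_mul_of_nonneg_right he1 sm0.le
    linarith
  have esp : e * sp ≤ sp / 10 ^ 12 := by
    have := mul_le_mul_of_nonneg_right he1 sp0.le
    linarith
  have etm : e * tm ≤ tm / 10 ^ 12 := by
    have := mul_le_mul_of_nonneg_right he1 tm0.le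
    linarith
  have etp : e * tp ≤ tp / 10 ^ 12 := by
    have := mul_le_mul_of_nonneg_right he1 tp0.le
    linarith
  have hx' := abs_le.1 hx
  have hy' := abs_le.1 hy
  have hxm' := abs_le.1 hxm
  have hxp' := abs_le.1 hxp
  have hvm' := abs_le.1 hvm
  have hvp' := abs_le.1 hvp
  have q1 : 0.98 * t ≤ x - xm := by linarith [hx'.1, hxm'.2]
  have q2 : 0.98 * t ≤ xp - x := by linarith [hx'.2, hxp'.1]
  have q3 : 0.98 * s ≤ y - vm := by linarith [hy'.1, hvm'.2]
  have q4 : 0.98 * s ≤ vp - y := by linarith [hy'.2, hvp'.1]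
  have pt : 0 < 0.98 * t := by positivity
  have ps : 0 < 0.98 * s := by positivity
  have ef : |E.b * F.b| ≤ 1 / 10 ^ 6 := by
    have h1 : (|E.b| * t) * (|F.b| * s) ≤ (e * s) * (e * t) :=
      mul_le_mul eb fb (by positivity) (by positivity)
    have h2 : |E.b * F.b| * (t * s) ≤ (e * e) * (t * s) := by
      rw [abs_mul]
      calc |E.b| * |F.b| * (t * s) = (|E.b| * t) * (|F.b| * s) := by ring
        _ ≤ _ := h1
        _ = _ := by ring
    have h3 := le_of_mul_le_mul_right h2 hts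
    have h4 : e * e ≤ 1 / 10 ^ 12 * (1 / 10 ^ 12) := mul_le_mul he1 he1 he.le (by norm_num)
    have h5 : (1 / 10 ^ 12 * (1 / 10 ^ 12) : ℝ) ≤ 1 / 10 ^ 6 := by norm_num
    linarith
  have ef' := abs_le.1 ef
  have hD1 : |(1 - E.b * F.b) - 1| ≤ 1 / 100 := by
    rw [abs_le]
    constructor <;> linarith [ef'.1, ef'.2]
  have hD0 : 1 - E.b * F.b ≠ 0 := by
    intro hh
    linarith [ef'.2]
  obtain ⟨X, hX⟩ : ∃ X, X = oX F x y := ⟨_, rfl⟩
  obtain ⟨Y, hY⟩ : ∃ Y, Y = oy E x y := ⟨_, rfl⟩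
  obtain ⟨M, hM⟩ : ∃ M, M = M0 E F x y z := ⟨_, rfl⟩
  obtain ⟨U, hU⟩ : ∃ U, U = T0 E F x y z := ⟨_, rfl⟩
  obtain ⟨Z, hZe⟩ : ∃ Z, Z = MM E F := ⟨_, rfl⟩
  have hXb : |X| ≤ 2.5 * (e * t) := by rw [hX]; exact fX
  have hYb : |Y| ≤ 2.5 * (e * s) := by
    rw [hY]
    have : oy E x y = -(y - E.a - E.b * x) := by unfold oy; ring
    rw [this, abs_neg]
    exact gY
  have hsp : Z = M + U := by rw [hZe, hM, hU]; exact t1_split E F x y z
  -- sizes
  have hS1 : |E.d - F.d * E.b| ≤ 1.1 * s := by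
    have h1 : |F.d * E.b| ≤ 1.01 * (e * s) := by
      rw [abs_mul]
      calc |F.d| * |E.b| ≤ (1.01 * t) * |E.b| := mul_le_mul_of_nonneg_right fd (abs_nonneg _)
        _ = 1.01 * (|E.b| * t) := by ring
        _ ≤ _ := by linarith
    have h2 := abs_le.1 h1
    have h3 := abs_le.1 ed
    rw [abs_le]
    constructor <;> linarith [h2.1, h2.2, h3.1, h3.2]
  have hS2 : |F.d - E.d * F.b| ≤ 1.1 * t := by
    have h1 : |E.d * F.b| ≤ 1.01 * (e * t) := by
      rw [abs_mul]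
      calc |E.d| * |F.b| ≤ (1.01 * s) * |F.b| := mul_le_mul_of_nonneg_right ed (abs_nonneg _)
        _ = 1.01 * (|F.b| * s) := by ring
        _ ≤ _ := by linarith
    have h2 := abs_le.1 h1
    have h3 := abs_le.1 fd
    rw [abs_le]
    constructor <;> linarith [h2.1, h2.2, h3.1, h3.2]
  have hMs : |M| ≤ 7 * (e * (t * s)) := by
    refine t4_size he he1 t0 s0 (D := oD F y z) fD hXb ef hS1 ?_
    rw [hM, hX]; rfl
  have hUs : |U| ≤ 7 * (e * (s * t)) := by
    refine t4_size he he1 s0 t0 (D := oz E x z) ?_ hYb ef hS2 ?_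
    · have : oz E x z = -(z - E.c - E.d * x) := by unfold oz; ring
      rw [this, abs_neg]
      exact gZ
    · rw [hU, hY]; rfl
  -- chords
  have hW1 : |X * U + F.b * Y * M| ≤ |X| * |U| + 2.5 * e * (e * t) * |M| := by
    refine (abs_add_le _ _).trans ?_
    rw [abs_mul X U, abs_mul (F.b * Y) M, abs_mul F.b Y]
    have h1 : |F.b| * |Y| ≤ 2.5 * e * (e * t) := by
      calc |F.b| * |Y| ≤ |F.b| * (2.5 * (e * s)) := mul_le_mul_of_nonneg_left hYb (abs_nonneg _)
        _ = 2.5 * e * (|F.b| * s) := by ring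
        _ ≤ 2.5 * e * (e * t) := mul_le_mul_of_nonneg_left fb (by positivity)
    have := mul_le_mul_of_nonneg_right h1 (abs_nonneg M)
    linarith
  have hW2 : |Y * M + E.b * X * U| ≤ |Y| * |M| + 2.5 * e * (e * s) * |U| := by
    refine (abs_add_le _ _).trans ?_
    rw [abs_mul Y M, abs_mul (E.b * X) U, abs_mul E.b X]
    have h1 : |E.b| * |X| ≤ 2.5 * e * (e * s) := by
      calc |E.b| * |X| ≤ |E.b| * (2.5 * (e * t)) := mul_le_mul_of_nonneg_left hXb (abs_nonneg _)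
        _ = 2.5 * e * (|E.b| * t) := by ring
        _ ≤ 2.5 * e * (e * s) := mul_le_mul_of_nonneg_left eb (by positivity)
    have := mul_le_mul_of_nonneg_right h1 (abs_nonneg U)
    linarith
  have k1 : 0 ≤ |X| * |U| + 2.5 * e * (e * t) * |M| := by positivity
  have k2 : 0 ≤ |Y| * |M| + 2.5 * e * (e * s) * |U| := by positivity
  have L1 : MM (Lth xm ym zm x y z) F = M + (X * U + F.b * Y * M) / (1 - E.b * F.b) / (x - xm) := by
    rw [t1_L E F x y z xm ym zm hEm (by intro hh; rw [hh, sub_self] at q1; linarith) hD0, hM, hU,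
      hX, hY]
  have L2 : MM (Lth x y z xp yp zp) F = M + (X * U + F.b * Y * M) / (1 - E.b * F.b) / (x - xp) := by
    rw [t1_Lth_symm x y z xp yp zp (by intro hh; rw [hh, sub_self] at q2; linarith),
      t1_L E F x y z xp yp zp hEp (by intro hh; rw [hh, sub_self] at q2; linarith) hD0, hM, hU,
      hX, hY]
  have K1 : MM E (Lth vm um wm y x z) =
      U - (Y * M + E.b * X * U) / (1 - E.b * F.b) / (y - vm) := by
    rw [t1_K E F x y z um vm wm hFm (by intro hh; rw [hh, sub_self] at q3; linarith) hD0, hM, hU,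
      hX, hY]
  have K2 : MM E (Lth y x z vp up wp) =
      U - (Y * M + E.b * X * U) / (1 - E.b * F.b) / (y - vp) := by
    rw [t1_Lth_symm y x z vp up wp (by intro hh; rw [hh, sub_self] at q4; linarith),
      t1_K E F x y z up vp wp hFp (by intro hh; rw [hh, sub_self] at q4; linarith) hD0, hM, hU,
      hX, hY]
  have cL1 := t4_cor t0 k1 hW1 hD1 (v := x - xm) (by rw [abs_of_pos (by linarith)]; exact q1) rfl
  have cL2 := t4_cor t0 k1 hW1 hD1 (v := x - xp) (by rw [abs_of_neg (by linarith)]; linarith) rfl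
  have cK1 := t4_cor s0 k2 hW2 hD1 (v := y - vm) (by rw [abs_of_pos (by linarith)]; exact q3) rfl
  have cK2 := t4_cor s0 k2 hW2 hD1 (v := y - vp) (by rw [abs_of_neg (by linarith)]; linarith) rfl
  -- sizes of the corrections
  have ee : e * e ≤ e / 10 ^ 12 := by
    have := mul_le_mul_of_nonneg_left he1 he.le
    linarith
  have B1 : 1.05 * (|X| * |U| + 2.5 * e * (e * t) * |M|) / t ≤ 3 * e * (|M| + |U|) := by
    rw [div_le_iff₀ t0]
    have h1 : |X| * |U| ≤ 2.5 * (e * t) * |U| := mul_le_mul_of_nonneg_right hXb (abs_nonneg _)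
    have h2 : 2.5 * e * (e * t) * |M| ≤ 2.5 * (e / 10 ^ 12) * t * |M| := by
      have h3 : 2.5 * e * (e * t) = 2.5 * (e * e) * t := by ring
      rw [h3]
      exact mul_le_mul_of_nonneg_right (mul_le_mul_of_nonneg_right (by linarith) t0.le)
        (abs_nonneg _)
    have h4 : 0 ≤ e * t * |U| := by positivity
    have h5 : 0 ≤ e * t * |M| := by positivity
    linarith
  have B2 : 1.05 * (|Y| * |M| + 2.5 * e * (e * s) * |U|) / s ≤ 3 * e * (|M| + |U|) := by
    rw [div_le_iff₀ s0]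
    have h1 : |Y| * |M| ≤ 2.5 * (e * s) * |M| := mul_le_mul_of_nonneg_right hYb (abs_nonneg _)
    have h2 : 2.5 * e * (e * s) * |U| ≤ 2.5 * (e / 10 ^ 12) * s * |U| := by
      have h3 : 2.5 * e * (e * s) = 2.5 * (e * e) * s := by ring
      rw [h3]
      exact mul_le_mul_of_nonneg_right (mul_le_mul_of_nonneg_right (by linarith) s0.le)
        (abs_nonneg _)
    have h4 : 0 ≤ e * s * |U| := by positivity
    have h5 : 0 ≤ e * s * |M| := by positivity
    linarith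
  have dL1 := abs_le.1 cL1
  have dL2 := abs_le.1 cL2
  have dK1 := abs_le.1 cK1
  have dK2 := abs_le.1 cK2
  have hk : 3 * e ≤ 1 / 1000 := by
    have : (3:ℝ) * (1 / 10 ^ 12) ≤ 1 / 1000 := by norm_num
    linarith
  obtain ⟨al, hal⟩ : ∃ al, al = max (MM (Lth xm ym zm x y z) F) (MM (Lth x y z xp yp zp) F) :=
    ⟨_, rfl⟩
  obtain ⟨be, hbe⟩ : ∃ be, be = max (MM E (Lth vm um wm y x z)) (MM E (Lth y x z vp up wp)) :=
    ⟨_, rfl⟩
  have al0 : 0 ≤ al := by
    rw [hal]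
    rcases hα with h1 | h1
    · exact le_max_of_le_left h1
    · exact le_max_of_le_right h1
  have be0 : 0 ≤ be := by
    rw [hbe]
    rcases hβ with h1 | h1
    · exact le_max_of_le_left h1
    · exact le_max_of_le_right h1
  have al1 : al ≤ M + 3 * e * (|M| + |U|) := by
    rw [hal, L1, L2]
    exact max_le (by linarith [dL1.2]) (by linarith [dL2.2])
  have be1 : be ≤ U + 3 * e * (|M| + |U|) := by
    rw [hbe, K1, K2]
    exact max_le (by linarith [dK1.1]) (by linarith [dK2.1])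
  rw [← hZe] at hZ ⊢
  obtain ⟨r1, r2, r3⟩ := t4_sum (by positivity) hk hZ hsp al0 be0 al1 be1
  have hup : ∀ q, q ≤ M + 1.05 * (|X| * |U| + 2.5 * e * (e * t) * |M|) / t →
      q ≤ M + 1.2 * |X| * Z / t + |M| / 10 ^ 6 := by
    intro q hq
    refine hq.trans ?_
    have h1 : 1.05 * (|X| * |U| + 2.5 * e * (e * t) * |M|) / t ≤
        1.2 * |X| * Z / t + |M| / 10 ^ 6 := by
      rw [div_le_iff₀ t0, add_mul, div_mul_cancel₀ _ t0.ne']
      have h2 : |X| * |U| ≤ |X| * (1.01 * Z) := mul_le_mul_of_nonneg_left r2 (abs_nonneg _)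
      have h3 : 2.5 * e * (e * t) * |M| ≤ 2.5 * (1 / 10 ^ 12 / 10 ^ 12) * t * |M| := by
        have h4 : 2.5 * e * (e * t) = 2.5 * (e * e) * t := by ring
        rw [h4]
        exact mul_le_mul_of_nonneg_right (mul_le_mul_of_nonneg_right (by linarith) t0.le)
          (abs_nonneg _)
      have h5 : 0 ≤ |X| * Z := mul_nonneg (abs_nonneg _) hZ.le
      have h6 : 0 ≤ t * |M| := by positivity
      have h7 : 2.5 * (1 / 10 ^ 12 / 10 ^ 12) * t * |M| ≤ 1 / (2 * 10 ^ 6) * (t * |M|) := by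
        have h8 : (2.5 * (1 / 10 ^ 12 / 10 ^ 12) : ℝ) ≤ 1 / (2 * 10 ^ 6) := by norm_num
        have := mul_le_mul_of_nonneg_right h8 h6
        linarith
      linarith
    linarith
  rw [← hM, ← hU, ← hX]
  refine ⟨?_, r1, r2, ?_, ?_, ?_⟩
  · have h1 := abs_le.1 hMs
    have h2 := abs_le.1 hUs
    have h3 : e * (s * t) = e * (t * s) := by ring
    rw [h3] at h2
    have h4 : 0 < e * (t * s) := by positivity
    linarith [h1.2, h2.2]
  · rw [L1]
    exact hup _ (by linarith [dL1.2])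
  · rw [L2]
    exact hup _ (by linarith [dL2.2])
  · intro h1
    have h2 : Z / 2 < al := by
      rw [hal]
      rcases h1 with h1 | h1
      · exact lt_max_of_lt_left h1
      · exact lt_max_of_lt_right h1
    have h3 : be ≤ 0.51 * Z := by linarith
    exact ⟨(le_max_left _ _).trans (hbe ▸ h3), (le_max_right _ _).trans (hbe ▸ h3)⟩

end Pool.Agent.BIP.TW
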