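import Pool.Agent.BIP.TDefs

/-!
# TWO: row T4 (closeness of the lines `E`, `L`, `L'`)
-/

namespace Pool.Agent.BIP.TW

private theorem close_core {κ e s t : ℝ} {E R : Ln} (hκ : κ = 1 ∨ κ = -1) (he : 0 < e)
    (he1 : e ≤ 1 / 10 ^ 12) (hs : 0 < s) (ht : 0 < t)
    (h1 : |E.a - s| ≤ e * s) (h2 : |E.b| * t ≤ e * s) (h3 : |E.c| ≤ e * (s * t))
    (h4 : |E.d - κ * s| ≤ e * s)
    (g1 : |R.a - E.a| ≤ 4 * e * s) (g2 : |R.b| * t ≤ 4 * e * s)
    (g3 : |R.c - E.c| ≤ 4 * e * (s * t)) (g4 : |R.d - E.d| ≤ 4 * e * s) :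
    |R.a - E.a| ≤ 20 * e * s ∧ |R.pi - E.pi| ≤ 20 * e * s ^ 2 ∧ |R.b| * t ≤ 20 * e * s := by
  have hes : 0 < e * s := by positivity
  refine ⟨by linarith, ?_, by linarith⟩
  have hRa : |R.a| ≤ 1.01 * s := by
    have := abs_le.1 g1
    have := abs_le.1 h1
    rw [abs_le]
    constructor <;> nlinarith
  have hEd : |E.d| ≤ 1.01 * s := by
    have := abs_le.1 h4
    rw [abs_le]
    rcases hκ with rfl | rfl <;> constructor <;> nlinarith
  have hRc : |R.c| ≤ 5 * e * (s * t) := by
    have hh1 := abs_le.1 g3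
    have hh2 := abs_le.1 h3
    rw [abs_le]
    constructor <;> nlinarith
  have e1 : |(R.d - E.d) * R.a| ≤ 4 * e * s * (1.01 * s) := by
    rw [abs_mul]
    exact mul_le_mul g4 hRa (abs_nonneg _) (by positivity)
  have e2 : |E.d * (R.a - E.a)| ≤ 1.01 * s * (4 * e * s) := by
    rw [abs_mul]
    exact mul_le_mul hEd g1 (abs_nonneg _) (by positivity)
  have e3 : |R.c * R.b| ≤ 20 * e ^ 2 * s ^ 2 := by
    rw [abs_mul]
    calc |R.c| * |R.b| ≤ 5 * e * (s * t) * |R.b| :=
          mul_le_mul_of_nonneg_right hRc (abs_nonneg _)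
      _ = 5 * e * s * (|R.b| * t) := by ring
      _ ≤ 5 * e * s * (4 * e * s) := mul_le_mul_of_nonneg_left g2 (by positivity)
      _ = 20 * e ^ 2 * s ^ 2 := by ring
  have e4 : |E.c * E.b| ≤ e ^ 2 * s ^ 2 := by
    rw [abs_mul]
    calc |E.c| * |E.b| ≤ e * (s * t) * |E.b| :=
          mul_le_mul_of_nonneg_right h3 (abs_nonneg _)
      _ = e * s * (|E.b| * t) := by ring
      _ ≤ e * s * (e * s) := mul_le_mul_of_nonneg_left h2 (by positivity)
      _ = e ^ 2 * s ^ 2 := by ring
  have hsmall : e ^ 2 * s ^ 2 ≤ 1 / 10 ^ 3 * (e * s ^ 2) := by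
    have h5 : e ≤ 1 / 10 ^ 3 := by linarith
    have : 0 < e * s ^ 2 := by positivity
    nlinarith
  have hid : R.pi - E.pi =
      (R.d - E.d) * R.a + E.d * (R.a - E.a) - R.c * R.b + E.c * E.b := by
    unfold Ln.pi; ring
  rw [hid]
  have := abs_le.1 e1
  have := abs_le.1 e2
  have := abs_le.1 e3
  have := abs_le.1 e4
  have h6 : 0 < e * s ^ 2 := by positivity
  rw [abs_le]
  constructor <;> nlinarith

/-- `E`, `L`, `L'` are close. -/
theorem t4_close {κ e T t s tm tp sm sp : ℝ} {E F : Ln} {x y z : ℝ}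
    (h : Cell κ e T t s tm tp sm sp E F x y z) (xm ym zm xp yp zp : ℝ) (hEm : On E xm ym zm)
    (hEp : On E xp yp zp) (hxm : |xm - tm| ≤ e * tm) (hxp : |xp - tp| ≤ e * tp) :
    ∀ R, (R = E ∨ R = Lth xm ym zm x y z ∨ R = Lth x y z xp yp zp) →
      |R.a - E.a| ≤ 20 * e * s ∧ |R.pi - E.pi| ≤ 20 * e * s ^ 2 ∧ |R.b| * t ≤ 20 * e * s := by
  obtain ⟨⟨hκ, he, he1, hT⟩, htm, hsm, ht1, ht2, hs1, hs2, ⟨lEa, lEb, lEc, lEd⟩, lF, hx, hy, hz⟩ := h
  have hT0 : (0 : ℝ) < T := by linarith
  have ht : 0 < t := lt_of_lt_of_le (by positivity) ht1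
  have hs : 0 < s := lt_of_lt_of_le (by positivity) hs1
  have htp : 0 < tp := lt_of_lt_of_le (by positivity) ht2
  have htm9 : 10 ^ 9 * tm ≤ t := le_trans (mul_le_mul_of_nonneg_right hT htm.le) ht1
  have htp9 : 10 ^ 9 * t ≤ tp := le_trans (mul_le_mul_of_nonneg_right hT ht.le) ht2
  have hes : 0 < e * s := by positivity
  have hEbt : |E.b| * t ≤ e * s := by
    refine le_trans (mul_le_mul_of_nonneg_left ?_ (abs_nonneg _)) lEb
    nlinarith
  have hEct : |E.c| ≤ e * (s * t) := by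
    refine le_trans lEc (mul_le_mul_of_nonneg_left (mul_le_mul_of_nonneg_left ?_ hs.le) he.le)
    nlinarith
  obtain ⟨hm1, hm2⟩ := hEm
  obtain ⟨hp1, hp2⟩ := hEp
  obtain ⟨x1, x2⟩ := abs_le.1 hx
  obtain ⟨xm1, xm2⟩ := abs_le.1 hxm
  obtain ⟨xp1, xp2⟩ := abs_le.1 hxp
  have het : e * t ≤ 1 / 10 ^ 12 * t := mul_le_mul_of_nonneg_right he1 ht.le
  have hetm : e * tm ≤ 1 / 10 ^ 12 * tm := mul_le_mul_of_nonneg_right he1 htm.le
  have hetp : e * tp ≤ 1 / 10 ^ 12 * tp := mul_le_mul_of_nonneg_right he1 htp.le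
  have hx0 : 0 < x := by linarith
  have hxm0 : 0 < xm := by linarith
  have hxp0 : 0 < xp := by linarith
  have q1 : 0.99 * t ≤ x - xm := by linarith
  have q2 : 0.99 * tp ≤ xp - x := by linarith
  have hxm3 : xm ≤ 1 / 10 ^ 8 * t := by linarith
  have hxt : x ≤ 1.01 * t := by linarith
  have hxpt : xp ≤ 1.01 * tp := by linarith
  -- the offsets of the cell
  have ey : |y - E.a - E.b * x| ≤ 2.1 * (e * s) := by
    have h1 : |E.b * x| ≤ 1.01 * (|E.b| * t) := by
      rw [abs_mul, abs_of_pos hx0]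
      have := mul_le_mul_of_nonneg_left hxt (abs_nonneg E.b)
      linarith
    have h2 : |E.b| * t ≤ 1 / 10 ^ 8 * (e * s) := by
      have h3 : |E.b| * (10 ^ 9 * t) ≤ e * s :=
        le_trans (mul_le_mul_of_nonneg_left htp9 (abs_nonneg _)) lEb
      linarith
    have h3 := abs_le.1 h1
    have h4 := abs_le.1 hy
    have h5 := abs_le.1 lEa
    rw [abs_le]
    constructor <;> linarith
  have hEb8 : |E.b| * t ≤ 1 / 10 ^ 8 * (e * s) := by
    have h3 : |E.b| * (10 ^ 9 * t) ≤ e * s :=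
      le_trans (mul_le_mul_of_nonneg_left htp9 (abs_nonneg _)) lEb
    linarith
  have ez : |z - E.c - E.d * x| ≤ 3.1 * (e * (s * t)) := by
    have h1 : |(κ * s - E.d) * x| ≤ e * s * (1.01 * t) := by
      rw [abs_mul, abs_of_pos hx0, abs_sub_comm]
      exact mul_le_mul lEd hxt hx0.le hes.le
    have h2 : |κ * s * (t - x)| ≤ s * (e * t) := by
      rw [abs_mul, abs_mul, abs_sub_comm]
      have : |κ| = 1 := by rcases hκ with rfl | rfl <;> simp
      rw [this, one_mul, abs_of_pos hs]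
      exact mul_le_mul_of_nonneg_left hx hs.le
    have h3 : |E.c| ≤ 1 / 10 ^ 2 * (e * (s * t)) := by
      refine le_trans lEc ?_
      have : s * tm ≤ 1 / 10 ^ 2 * (s * t) := by nlinarith
      nlinarith
    have h4 := abs_le.1 h1
    have h5 := abs_le.1 h2
    have h6 := abs_le.1 h3
    have h7 := abs_le.1 hz
    have hid : z - E.c - E.d * x = (z - κ * (t * s)) - E.c + κ * s * (t - x) + (κ * s - E.d) * x := by
      ring
    rw [hid, abs_le]
    constructor <;> nlinarith
  rintro R (rfl | rfl | rfl)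
  · -- the line itself
    refine close_core hκ he he1 hs ht lEa hEbt hEct lEd ?_ ?_ ?_ ?_
    · rw [sub_self, abs_zero]; positivity
    · linarith
    · rw [sub_self, abs_zero]; positivity
    · rw [sub_self, abs_zero]; positivity
  · -- `L`
    have hq : 0 < x - xm := by linarith
    set b := (y - ym) / (x - xm) with hb
    set d := (z - zm) / (x - xm) with hd
    have hbE : (b - E.b) * (x - xm) = y - E.a - E.b * x := by
      rw [hb, sub_mul, div_mul_cancel₀ _ hq.ne', hm1]; ring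
    have hdE : (d - E.d) * (x - xm) = z - E.c - E.d * x := by
      rw [hd, sub_mul, div_mul_cancel₀ _ hq.ne', hm2]; ring
    have kb : |b - E.b| * t ≤ 2.2 * (e * s) := by
      have h1 : |b - E.b| * (x - xm) ≤ 2.1 * (e * s) := by
        rw [← abs_of_pos hq, ← abs_mul, hbE]; exact ey
      have h2 : |b - E.b| * (0.99 * t) ≤ |b - E.b| * (x - xm) :=
        mul_le_mul_of_nonneg_left q1 (abs_nonneg _)
      linarith
    have kd : |d - E.d| ≤ 3.2 * (e * s) := by
      have h1 : |d - E.d| * (x - xm) ≤ 3.1 * (e * (s * t)) := by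
        rw [← abs_of_pos hq, ← abs_mul, hdE]; exact ez
      have h2 : |d - E.d| * (0.99 * t) ≤ |d - E.d| * (x - xm) :=
        mul_le_mul_of_nonneg_left q1 (abs_nonneg _)
      have h3 : |d - E.d| * t ≤ 3.2 * (e * s) * t := by nlinarith
      exact le_of_mul_le_mul_right h3 ht
    refine close_core hκ he he1 hs ht lEa hEbt hEct lEd ?_ ?_ ?_ ?_
    · show |ym - (y - ym) / (x - xm) * xm - E.a| ≤ 4 * e * s
      rw [← hb]
      have : ym - b * xm - E.a = -((b - E.b) * xm) := by rw [hm1]; ring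
      rw [this, abs_neg, abs_mul, abs_of_pos hxm0]
      have h1 : |b - E.b| * xm ≤ |b - E.b| * t :=
        mul_le_mul_of_nonneg_left (by linarith) (abs_nonneg _)
      linarith
    · show |(y - ym) / (x - xm)| * t ≤ 4 * e * s
      rw [← hb]
      have h1 : |b| ≤ |b - E.b| + |E.b| := by
        have := abs_add_le (b - E.b) E.b
        simpa using this
      have h2 : |b| * t ≤ (|b - E.b| + |E.b|) * t := mul_le_mul_of_nonneg_right h1 ht.le
      linarith
    · show |zm - (z - zm) / (x - xm) * xm - E.c| ≤ 4 * e * (s * t)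
      rw [← hd]
      have : zm - d * xm - E.c = -((d - E.d) * xm) := by rw [hm2]; ring
      rw [this, abs_neg, abs_mul, abs_of_pos hxm0]
      have h1 : |d - E.d| * xm ≤ 3.2 * (e * s) * t :=
        mul_le_mul kd (by linarith) hxm0.le (by positivity)
      have : 0 < e * (s * t) := by positivity
      linarith
    · show |(z - zm) / (x - xm) - E.d| ≤ 4 * e * s
      rw [← hd]
      linarith
  · -- `L'`
    have hq : 0 < xp - x := by linarith
    set b := (yp - y) / (xp - x) with hb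
    set d := (zp - z) / (xp - x) with hd
    have hbE : (b - E.b) * (xp - x) = -(y - E.a - E.b * x) := by
      rw [hb, sub_mul, div_mul_cancel₀ _ hq.ne', hp1]; ring
    have hdE : (d - E.d) * (xp - x) = -(z - E.c - E.d * x) := by
      rw [hd, sub_mul, div_mul_cancel₀ _ hq.ne', hp2]; ring
    have kb : |b - E.b| * t ≤ 1 / 10 ^ 8 * (e * s) := by
      have h1 : |b - E.b| * (xp - x) ≤ 2.1 * (e * s) := by
        rw [← abs_of_pos hq, ← abs_mul, hbE, abs_neg]; exact ey
      have h2 : |b - E.b| * (0.99 * tp) ≤ |b - E.b| * (xp - x) :=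
        mul_le_mul_of_nonneg_left q2 (abs_nonneg _)
      have h3 : |b - E.b| * (10 ^ 9 * t) ≤ |b - E.b| * tp :=
        mul_le_mul_of_nonneg_left htp9 (abs_nonneg _)
      linarith
    have kd : |d - E.d| ≤ 1 / 10 ^ 8 * (e * s) := by
      have h1 : |d - E.d| * (xp - x) ≤ 3.1 * (e * (s * t)) := by
        rw [← abs_of_pos hq, ← abs_mul, hdE, abs_neg]; exact ez
      have h2 : |d - E.d| * (0.99 * tp) ≤ |d - E.d| * (xp - x) :=
        mul_le_mul_of_nonneg_left q2 (abs_nonneg _)
      have h3 : |d - E.d| * (10 ^ 9 * t) ≤ |d - E.d| * tp :=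
        mul_le_mul_of_nonneg_left htp9 (abs_nonneg _)
      have h4 : |d - E.d| * t ≤ 1 / 10 ^ 8 * (e * s) * t := by nlinarith
      exact le_of_mul_le_mul_right h4 ht
    refine close_core hκ he he1 hs ht lEa hEbt hEct lEd ?_ ?_ ?_ ?_
    · show |y - (yp - y) / (xp - x) * x - E.a| ≤ 4 * e * s
      rw [← hb]
      have : y - b * x - E.a = (y - E.a - E.b * x) - (b - E.b) * x := by ring
      rw [this]
      have h1 : |(b - E.b) * x| ≤ 1.01 * (|b - E.b| * t) := by
        rw [abs_mul, abs_of_pos hx0]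
        have := mul_le_mul_of_nonneg_left hxt (abs_nonneg (b - E.b))
        linarith
      have h2 := abs_le.1 h1
      have h3 := abs_le.1 ey
      rw [abs_le]
      constructor <;> linarith
    · show |(yp - y) / (xp - x)| * t ≤ 4 * e * s
      rw [← hb]
      have h1 : |b| ≤ |b - E.b| + |E.b| := by
        have := abs_add_le (b - E.b) E.b
        simpa using this
      have h2 : |b| * t ≤ (|b - E.b| + |E.b|) * t := mul_le_mul_of_nonneg_right h1 ht.le
      linarith
    · show |z - (zp - z) / (xp - x) * x - E.c| ≤ 4 * e * (s * t)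
      rw [← hd]
      have : z - d * x - E.c = (z - E.c - E.d * x) - (d - E.d) * x := by ring
      rw [this]
      have h1 : |(d - E.d) * x| ≤ 1 / 10 ^ 8 * (e * s) * (1.01 * t) := by
        rw [abs_mul, abs_of_pos hx0]
        exact mul_le_mul kd hxt hx0.le (by positivity)
      have h2 := abs_le.1 h1
      have h3 := abs_le.1 ez
      have h4 : 0 < e * (s * t) := by positivity
      rw [abs_le]
      constructor <;> linarith
    · show |(zp - z) / (xp - x) - E.d| ≤ 4 * e * s
      rw [← hd]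
      linarith

end Pool.Agent.BIP.TW
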