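import Pool.Agent.BIP.TDefs

/-!
# TWO: row t5_nocancel (helper11)
-/

namespace Pool.Agent.BIP.TW

/-- three numbers, the two largest of which differ by a factor 4: no cancellation -/
theorem t5nc_core (a p q f x y : ℝ) (ha : 0 ≤ a) (hp : 0 ≤ p) (hq : 0 ≤ q)
    (hx : |x| ≤ p / 1000) (hy : |y| ≤ q / 1000) (A P Q : ℝ) (hA : |A| = a) (hP : |P| = p)
    (hQ : |Q| = q) (hf : f = A + (P + x) - (Q + y))
    (h1 : ¬ (a ≤ 4 * p ∧ p ≤ 4 * a ∧ 0 < a)) (h2 : ¬ (a ≤ 4 * q ∧ q ≤ 4 * a ∧ 0 < a))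
    (h3 : ¬ (p ≤ 4 * q ∧ q ≤ 4 * p ∧ 0 < p)) : a + p + q ≤ 10 * |f| := by
  have hA1 := abs_le.1 hA.le
  have hP1 := abs_le.1 hP.le
  have hQ1 := abs_le.1 hQ.le
  have hx1 := abs_le.1 hx
  have hy1 := abs_le.1 hy
  have hf1 := le_abs_self f
  have hf2 := neg_abs_le f
  by_cases hmax : p ≤ a ∧ q ≤ a
  · -- a is the largest
    rcases eq_or_lt_of_le ha with h0 | h0
    · have : p = 0 := by linarith [hmax.1]
      have : q = 0 := by linarith [hmax.2]
      have := abs_nonneg f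
      linarith
    · have e1 : 4 * p < a := by
        by_contra hc
        exact h1 ⟨by linarith, by linarith [hmax.1], h0⟩
      have e2 : 4 * q < a := by
        by_contra hc
        exact h2 ⟨by linarith, by linarith [hmax.2], h0⟩
      rcases abs_cases A with ⟨h, _⟩ | ⟨h, _⟩ <;> linarith
  · by_cases hmax' : q ≤ p
    · -- p is the largest
      have hap : a < p := by
        by_contra hc
        push Not at hc
        exact hmax ⟨hc, by linarith⟩
      have h0 : 0 < p := by linarith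
      have e1 : 4 * a < p := by
        by_contra hc
        rcases eq_or_lt_of_le ha with h0' | h0'
        · linarith
        · exact h1 ⟨by linarith, by linarith, h0'⟩
      have e2 : 4 * q < p := by
        by_contra hc
        exact h3 ⟨by linarith, by linarith, h0⟩
      rcases abs_cases P with ⟨h, _⟩ | ⟨h, _⟩ <;> linarith
    · push Not at hmax'
      have haq : a < q := by
        by_contra hc
        push Not at hc
        exact hmax ⟨by linarith, hc⟩
      have e1 : 4 * a < q := by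
        by_contra hc
        rcases eq_or_lt_of_le ha with h0' | h0'
        · linarith
        · exact h2 ⟨by linarith, by linarith, h0'⟩
      have e2 : 4 * p < q := by
        by_contra hc
        rcases eq_or_lt_of_le hp with h0' | h0'
        · linarith
        · exact h3 ⟨by linarith, by linarith, h0'⟩
      rcases abs_cases Q with ⟨h, _⟩ | ⟨h, _⟩ <;> linarith

/-- **(2.1)**: among four lacunary rows one has no cancellation. -/
theorem t5nc_four (A0 A1 A2 : ℝ) (s b c : Fin 4 → ℝ) (G : ℝ) (hG : 1000 ≤ G) (hs0 : ∀ i, 0 < s i)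
    (hs : ∀ i j, i < j → G * s i ≤ s j) (hb : ∀ i, |b i - s i| ≤ s i / 1000)
    (hc : ∀ i, |c i - s i ^ 2| ≤ s i ^ 2 / 1000) :
    ∃ i, |A0| + |A1| * s i + |A2| * s i ^ 2 ≤ 10 * |A0 + A1 * b i - A2 * c i| := by
  by_contra hcon
  push Not at hcon
  -- the bad predicates
  have hbad : ∀ i, (|A0| ≤ 4 * (|A1| * s i) ∧ |A1| * s i ≤ 4 * |A0| ∧ 0 < |A0|) ∨
      (|A0| ≤ 4 * (|A2| * s i ^ 2) ∧ |A2| * s i ^ 2 ≤ 4 * |A0| ∧ 0 < |A0|) ∨
      (|A1| * s i ≤ 4 * (|A2| * s i ^ 2) ∧ |A2| * s i ^ 2 ≤ 4 * (|A1| * s i) ∧ 0 < |A1| * s i) := by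
    intro i
    by_contra hn
    push Not at hn
    have hn' := hn
    obtain ⟨n1, n2, n3⟩ := hn'
    have hsi := hs0 i
    have hsi2 : 0 < s i ^ 2 := by positivity
    refine absurd (t5nc_core |A0| (|A1| * s i) (|A2| * s i ^ 2) (A0 + A1 * b i - A2 * c i)
      (A1 * (b i - s i)) (A2 * (c i - s i ^ 2)) (abs_nonneg _) (by positivity) (by positivity)
      ?_ ?_ A0 (A1 * s i) (A2 * s i ^ 2) rfl ?_ ?_ (by ring) ?_ ?_ ?_) (not_le.2 (hcon i))
    · rw [abs_mul]
      have := mul_le_mul_of_nonneg_left (hb i) (abs_nonneg A1)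
      linarith
    · rw [abs_mul]
      have := mul_le_mul_of_nonneg_left (hc i) (abs_nonneg A2)
      linarith
    · rw [abs_mul, abs_of_pos hsi]
    · rw [abs_mul, abs_of_pos hsi2]
    · rintro ⟨k1, k2, k3⟩
      exact absurd k3 (not_lt.2 (n1 k1 k2))
    · rintro ⟨k1, k2, k3⟩
      exact absurd k3 (not_lt.2 (n2 k1 k2))
    · rintro ⟨k1, k2, k3⟩
      exact absurd k3 (not_lt.2 (n3 k1 k2))
  -- each type at most once
  have u1 : ∀ i j, i < j → ¬ ((|A0| ≤ 4 * (|A1| * s i) ∧ |A1| * s i ≤ 4 * |A0| ∧ 0 < |A0|) ∧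
      (|A0| ≤ 4 * (|A1| * s j) ∧ |A1| * s j ≤ 4 * |A0| ∧ 0 < |A0|)) := by
    rintro i j hij ⟨⟨a1, a2, a3⟩, ⟨b1, b2, b3⟩⟩
    have h1 : 1000 * s i ≤ s j := (mul_le_mul_of_nonneg_right hG (hs0 i).le).trans (hs i j hij)
    have h2 := mul_le_mul_of_nonneg_left h1 (abs_nonneg A1)
    linarith
  have sq : ∀ i j, i < j → 1000 * s i ^ 2 ≤ s j ^ 2 := by
    intro i j hij
    have h1 : 1000 * s i ≤ s j := (mul_le_mul_of_nonneg_right hG (hs0 i).le).trans (hs i j hij)
    have := hs0 i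
    nlinarith
  have u2 : ∀ i j, i < j → ¬ ((|A0| ≤ 4 * (|A2| * s i ^ 2) ∧ |A2| * s i ^ 2 ≤ 4 * |A0| ∧ 0 < |A0|) ∧
      (|A0| ≤ 4 * (|A2| * s j ^ 2) ∧ |A2| * s j ^ 2 ≤ 4 * |A0| ∧ 0 < |A0|)) := by
    rintro i j hij ⟨⟨a1, a2, a3⟩, ⟨b1, b2, b3⟩⟩
    have h2 := mul_le_mul_of_nonneg_left (sq i j hij) (abs_nonneg A2)
    linarith
  have u3 : ∀ i j, i < j → ¬ ((|A1| * s i ≤ 4 * (|A2| * s i ^ 2) ∧
      |A2| * s i ^ 2 ≤ 4 * (|A1| * s i) ∧ 0 < |A1| * s i) ∧
      (|A1| * s j ≤ 4 * (|A2| * s j ^ 2) ∧ |A2| * s j ^ 2 ≤ 4 * (|A1| * s j) ∧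
        0 < |A1| * s j)) := by
    rintro i j hij ⟨⟨a1, a2, a3⟩, ⟨b1, b2, b3⟩⟩
    have h1 : 1000 * s i ≤ s j := (mul_le_mul_of_nonneg_right hG (hs0 i).le).trans (hs i j hij)
    have hi := hs0 i
    have hj := hs0 j
    -- |A1| ≤ 4 |A2| s i, |A2| s j ≤ 4 |A1|
    have k1 : |A1| ≤ 4 * (|A2| * s i) := by
      have : |A1| * s i ≤ 4 * (|A2| * s i) * s i := by nlinarith
      exact le_of_mul_le_mul_right this hi
    have k2 : |A2| * s j ≤ 4 * |A1| := by
      have : (|A2| * s j) * s j ≤ (4 * |A1|) * s j := by nlinarith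
      exact le_of_mul_le_mul_right this hj
    have k3 := mul_le_mul_of_nonneg_left h1 (abs_nonneg A2)
    have k4 : 0 < |A1| := by
      by_contra hc
      have : |A1| = 0 := le_antisymm (not_lt.1 hc) (abs_nonneg _)
      rw [this] at a3
      linarith
    have k5 : 0 < |A2| * s i := by linarith
    linarith
  rcases hbad 0 with p0 | p0 | p0 <;> rcases hbad 1 with p1 | p1 | p1 <;>
    rcases hbad 2 with p2 | p2 | p2 <;> rcases hbad 3 with p3 | p3 | p3 <;>
    first
      | exact u1 0 1 (by decide) ⟨p0, p1⟩ | exact u1 0 2 (by decide) ⟨p0, p2⟩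
      | exact u1 0 3 (by decide) ⟨p0, p3⟩ | exact u1 1 2 (by decide) ⟨p1, p2⟩
      | exact u1 1 3 (by decide) ⟨p1, p3⟩ | exact u1 2 3 (by decide) ⟨p2, p3⟩
      | exact u2 0 1 (by decide) ⟨p0, p1⟩ | exact u2 0 2 (by decide) ⟨p0, p2⟩
      | exact u2 0 3 (by decide) ⟨p0, p3⟩ | exact u2 1 2 (by decide) ⟨p1, p2⟩
      | exact u2 1 3 (by decide) ⟨p1, p3⟩ | exact u2 2 3 (by decide) ⟨p2, p3⟩
      | exact u3 0 1 (by decide) ⟨p0, p1⟩ | exact u3 0 2 (by decide) ⟨p0, p2⟩
      | exact u3 0 3 (by decide) ⟨p0, p3⟩ | exact u3 1 2 (by decide) ⟨p1, p2⟩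
      | exact u3 1 3 (by decide) ⟨p1, p3⟩ | exact u3 2 3 (by decide) ⟨p2, p3⟩

theorem t5_nocancel (κ e T : ℝ) (hc : Cst κ e T) (a0 a1 a2 : ℝ) (E : Fin 4 → Ln) (s : Fin 4 → ℝ)
    (tm tp : ℝ) (htm : 0 < tm) (htp : tm ≤ tp) (hE : ∀ i, LB κ e (s i) tm tp (E i))
    (hs : ∀ i, 0 < s i) (hl : ∀ i j, i < j → T * s i ≤ s j) :
    ∃ i, |a0| + |a1| * (E i).a + |a2| * (E i).a ^ 2 ≤
      10 * |a0 + a1 * (E i).a - a2 * (E i).pi| := by
  have he := hc.he
  have he1 := hc.he1
  have hT := hc.hT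
  have hκ2 : κ * κ = 1 := by rcases hc.hκ with h | h <;> rw [h] <;> norm_num
  have hκa : |κ| = 1 := by rcases hc.hκ with h | h <;> rw [h] <;> norm_num
  have ha1 : ∀ i, (1 - e) * s i ≤ (E i).a := fun i => by
    have := (abs_le.1 (hE i).ha).1
    linarith
  have ha2 : ∀ i, (E i).a ≤ (1 + e) * s i := fun i => by
    have := (abs_le.1 (hE i).ha).2
    linarith
  have hap : ∀ i, 0 < (E i).a := fun i =>
    lt_of_lt_of_le (mul_pos (by norm_num at he1 ⊢; linarith) (hs i)) (ha1 i)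
  have key : ∃ i, |a0| + |a1| * (E i).a + |κ * a2| * (E i).a ^ 2 ≤
      10 * |a0 + a1 * (E i).a - κ * a2 * (κ * (E i).pi)| := by
    refine t5nc_four a0 a1 (κ * a2) (fun i => (E i).a) (fun i => (E i).a)
      (fun i => κ * (E i).pi) 1000 le_rfl hap ?_ ?_ ?_
    · intro i j hij
      have h1 := hl i j hij
      have h2 := ha2 i
      have h3 := ha1 j
      have h4 : (10 ^ 9 : ℝ) * s i ≤ T * s i := mul_le_mul_of_nonneg_right hT (hs i).le
      have h5 := hs i
      have h6 := hs j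
      have h7 : e * s i ≤ 1 / 10 ^ 12 * s i := mul_le_mul_of_nonneg_right he1 (hs i).le
      have h8 : e * s j ≤ 1 / 10 ^ 12 * s j := mul_le_mul_of_nonneg_right he1 (hs j).le
      norm_num at h4 h7 h8
      nlinarith
    · intro i
      simp only [sub_self, abs_zero]
      have := (hap i).le
      positivity
    · intro i
      have hsi := hs i
      have htp0 : 0 < tp := lt_of_lt_of_le htm htp
      -- κ d is close to s
      have h1 : |κ * (E i).d - s i| ≤ e * s i := by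
        have e1 : κ * (E i).d - s i = κ * ((E i).d - κ * s i) := by
          calc κ * (E i).d - s i = κ * (E i).d - 1 * s i := by ring
            _ = κ * (E i).d - (κ * κ) * s i := by rw [hκ2]
            _ = _ := by ring
        rw [e1, abs_mul, hκa, one_mul]
        exact (hE i).hd
      have h2 : |κ * (E i).d - (E i).a| ≤ 2 * (e * s i) := by
        have e1 : κ * (E i).d - (E i).a = (κ * (E i).d - s i) - ((E i).a - s i) := by ring
        rw [e1]
        refine (abs_sub _ _).trans ?_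
        linarith [(hE i).ha]
      have h3 : |(E i).c * (E i).b| ≤ e * e * (s i * s i) := by
        rw [abs_mul]
        have hb : |(E i).b| ≤ e * s i / tp := by
          rw [le_div_iff₀ htp0]
          exact (hE i).hb
        have h4 := mul_le_mul (hE i).hc hb (abs_nonneg _) (by positivity)
        refine h4.trans ?_
        have e2 : e * (s i * tm) * (e * s i / tp) = (e * e * (s i * s i)) * (tm / tp) := by
          field_simp
        rw [e2]
        have h5 : tm / tp ≤ 1 := by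
          rw [div_le_one htp0]
          exact htp
        exact mul_le_of_le_one_right (by positivity) h5
      have e3 : κ * (E i).pi - (E i).a ^ 2 =
          (E i).a * (κ * (E i).d - (E i).a) - κ * ((E i).c * (E i).b) := by
        rw [Ln.pi]
        ring
      rw [e3]
      refine (abs_sub _ _).trans ?_
      rw [abs_mul, abs_of_pos (hap i), abs_mul κ, hκa, one_mul]
      have h6 := mul_le_mul_of_nonneg_left h2 (hap i).le
      have h7 := hap i
      have h8 := ha1 i
      have hs2 : s i ≤ 2 * (E i).a := by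
        have : e * s i ≤ 1 / 10 ^ 12 * s i := mul_le_mul_of_nonneg_right he1 hsi.le
        norm_num at this
        linarith
      -- bounds through a^2
      have h9 : (E i).a * (2 * (e * s i)) ≤ 4 * e * (E i).a ^ 2 := by
        have := mul_le_mul_of_nonneg_left hs2 (mul_nonneg he.le h7.le)
        nlinarith
      have h10 : e * e * (s i * s i) ≤ 4 * e * (E i).a ^ 2 := by
        have k1 : s i * s i ≤ 4 * (E i).a ^ 2 := by nlinarith
        have k2 : e * e ≤ e := by
          have : e ≤ 1 := by norm_num at he1 ⊢; linarith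
          nlinarith
        have k3 : 0 ≤ s i * s i := by positivity
        calc e * e * (s i * s i) ≤ e * (s i * s i) := mul_le_mul_of_nonneg_right k2 k3
          _ ≤ e * (4 * (E i).a ^ 2) := mul_le_mul_of_nonneg_left k1 he.le
          _ = _ := by ring
      have h11 : e * (E i).a ^ 2 ≤ 1 / 10 ^ 12 * (E i).a ^ 2 :=
        mul_le_mul_of_nonneg_right he1 (sq_nonneg _)
      have h12 : 0 ≤ (E i).a ^ 2 := sq_nonneg _
      norm_num at h11
      linarith
  obtain ⟨i, hi⟩ := key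
  refine ⟨i, ?_⟩
  have e1 : |κ * a2| = |a2| := by rw [abs_mul, hκa, one_mul]
  have e2 : κ * a2 * (κ * (E i).pi) = a2 * (E i).pi := by
    calc κ * a2 * (κ * (E i).pi) = (κ * κ) * (a2 * (E i).pi) := by ring
      _ = _ := by rw [hκ2, one_mul]
  simp only [e1, e2] at hi
  exact hi

end Pool.Agent.BIP.TW
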