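import Pool.Agent.BIP.TDefs
import Pool.Agent.BIP.T2_52

/-!
# TWO, row T5: the choice of the column
-/

namespace Pool.Agent.BIP.TW

open P52

theorem pi_bd52 {κ e T σ sm sp : ℝ} {R : Ln} (hc : Cst κ e T) (hσ : 0 < σ) (hsm : 0 < sm)
    (hsp : sm ≤ sp) (h : LB κ e σ sm sp R) : |κ * R.pi - σ ^ 2| ≤ 3 * e * σ ^ 2 := by
  have he := hc.he
  have he1 : e ≤ 1 / 1000 := hc.he1.trans (by norm_num)
  have ha := abs_le.1 h.ha
  have hκ2 : κ * κ = 1 := by rcases hc.hκ with h' | h' <;> rw [h'] <;> norm_num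
  have hκa : |κ| = 1 := by rcases hc.hκ with h' | h' <;> rw [h'] <;> norm_num
  have hd : |κ * R.d - σ| ≤ e * σ := by
    have e1 : κ * R.d - σ = κ * (R.d - κ * σ) := by linear_combination σ * hκ2
    rw [e1, abs_mul, hκa, one_mul]; exact h.hd
  have hbc : |κ * (R.c * R.b)| ≤ e * e * σ ^ 2 := by
    rw [abs_mul, hκa, one_mul, abs_mul]
    have hsp0 : 0 < sp := by linarith
    have h1 : |R.c| * (|R.b| * sp) ≤ (e * (σ * sm)) * (e * σ) :=
      mul_le_mul h.hc h.hb (by positivity) (by positivity)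
    have h2 : (e * (σ * sm)) * (e * σ) ≤ (e * e * σ ^ 2) * sp := by
      have : (e * (σ * sm)) * (e * σ) = (e * e * σ ^ 2) * sm := by ring
      rw [this]
      exact mul_le_mul_of_nonneg_left hsp (by positivity)
    have h3 : |R.c| * |R.b| * sp ≤ (e * e * σ ^ 2) * sp := by
      calc |R.c| * |R.b| * sp = |R.c| * (|R.b| * sp) := by ring
        _ ≤ _ := h1
        _ ≤ _ := h2
    exact le_of_mul_le_mul_right h3 hsp0
  have e1 : κ * R.pi - σ ^ 2 = (κ * R.d - σ) * R.a + σ * (R.a - σ) - κ * (R.c * R.b) := by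
    unfold Ln.pi; ring
  have ha2 : |R.a| ≤ (1 + e) * σ := by
    rw [abs_le]; constructor <;> nlinarith
  have t1 : |(κ * R.d - σ) * R.a| ≤ (e * σ) * ((1 + e) * σ) := by
    rw [abs_mul]
    exact mul_le_mul hd ha2 (abs_nonneg _) (by positivity)
  have t2 : |σ * (R.a - σ)| ≤ σ * (e * σ) := by
    rw [abs_mul, abs_of_pos hσ]
    exact mul_le_mul_of_nonneg_left h.ha hσ.le
  rw [e1]
  have t3 := abs_sub ((κ * R.d - σ) * R.a + σ * (R.a - σ)) (κ * (R.c * R.b))
  have t4 := abs_add_le ((κ * R.d - σ) * R.a) (σ * (R.a - σ))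
  have t5 : e * e * σ ^ 2 ≤ 1 / 1000 * (e * σ ^ 2) := by
    have : e * e * σ ^ 2 = e * (e * σ ^ 2) := by ring
    rw [this]
    exact mul_le_mul_of_nonneg_right he1 (by positivity)
  have t6 : (e * σ) * ((1 + e) * σ) = e * σ ^ 2 + e * e * σ ^ 2 := by ring
  have t7 : σ * (e * σ) = e * σ ^ 2 := by ring
  have t8 : 0 < e * σ ^ 2 := by positivity
  nlinarith

theorem dw_eq52 (κ : ℝ) (F : Fin 4 → Ln) (j : Fin 4) :
    κ * dw F j = dd4 (fun i => (F i).a) (fun i => κ * (F i).pi) j := by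
  fin_cases j <;> simp [dw, dd, dd4, m3] <;> ring

theorem t5_pick (κ e T : ℝ) (hc : Cst κ e T) (F : Fin 4 → Ln) (t : Fin 4 → ℝ) (sm sp : ℝ)
    (hsm : 0 < sm) (hsp : sm ≤ sp) (hF : ∀ j, LB κ e (t j) sm sp (F j)) (ht : ∀ j, 0 < t j)
    (hl : ∀ i j, i < j → T * t i ≤ t j) (Z : Fin 4 → ℝ) (hZ : ∀ j, 0 < Z j) (f : ℝ)
    (hf : ∑ j, dw F j * Z j = - f) :
    (∀ j, dw F j ≠ 0) ∧ ∃ w, 0 ≤ - f / dw F w ∧ - f / dw F w < 2.5 * Z w := by
  have he1 : 3 * e ≤ 1 / 100 := by linarith [hc.he1.trans (by norm_num : (1:ℝ) / 10 ^ 12 ≤ 1 / 300)]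
  have hκ2 : κ * κ = 1 := by rcases hc.hκ with h' | h' <;> rw [h'] <;> norm_num
  have hsg := dd4_sign (κ := 3 * e) (g := fun i => (F i).a) (v := fun i => κ * (F i).pi) (t := t)
    he1 ht (fun i j hij => by
      have h1 := hl i j hij
      have h2 : 100 * t i ≤ T * t i :=
        mul_le_mul_of_nonneg_right (by linarith [hc.hT]) (ht i).le
      linarith)
    (fun j => by
      have h1 := (hF j).ha
      have h2 := ht j
      have h3 := hc.he
      have : e * t j ≤ 3 * e * t j := by nlinarith [mul_pos h3 h2]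
      exact h1.trans this)
    (fun j => pi_bd52 hc (ht j) hsm hsp (hF j))
  rw [← dw_eq52 κ F 0, ← dw_eq52 κ F 1, ← dw_eq52 κ F 2, ← dw_eq52 κ F 3] at hsg
  obtain ⟨h0, h1, h2, h3⟩ := hsg
  have hne : ∀ j, dw F j ≠ 0 := by
    intro j hj
    fin_cases j
    · simp only [Fin.zero_eta] at hj; rw [hj, mul_zero] at h0; exact lt_irrefl _ h0
    · simp only [Fin.mk_one] at hj; rw [hj, mul_zero] at h1; exact lt_irrefl _ h1
    · have hj' : dw F 2 = 0 := hj
      rw [hj', mul_zero] at h2; exact lt_irrefl _ h2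
    · have hj' : dw F 3 = 0 := hj
      rw [hj', mul_zero] at h3; exact lt_irrefl _ h3
  refine ⟨hne, ?_⟩
  by_cases hf0 : f = 0
  · refine ⟨0, ?_, ?_⟩
    · rw [hf0]; simp
    · rw [hf0]; simp only [neg_zero, zero_div]; have := hZ 0; positivity
  have hκ0 : κ ≠ 0 := by
    intro h; rw [h] at hκ2; norm_num at hκ2
  obtain ⟨w, hw1, hw2⟩ := sgn2 (d := fun j => κ * dw F j) (Z := Z) (f := κ * f) (σ := 1) h0 h1 h2 h3
    (Or.inl rfl) (fun j => by rw [one_mul]; exact hZ j)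
    (by
      have : ∑ j, κ * dw F j * Z j = κ * ∑ j, dw F j * Z j := by
        rw [Finset.mul_sum]; exact Finset.sum_congr rfl fun j _ => by ring
      rw [this, hf]; ring)
    (mul_ne_zero hκ0 hf0)
  refine ⟨w, ?_⟩
  have hd : dw F w ≠ 0 := hne w
  have hdk : κ * dw F w ≠ 0 := mul_ne_zero hκ0 hd
  have e1 : - f / dw F w = |κ * f| / |κ * dw F w| := by
    have hneg : κ * dw F w * (κ * f) < 0 := by linarith
    have hprod : dw F w * f < 0 := by
      have : κ * dw F w * (κ * f) = dw F w * f := by linear_combination (dw F w * f) * hκ2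
      linarith
    have hκa : |κ| = 1 := by rcases hc.hκ with h' | h' <;> rw [h'] <;> norm_num
    rw [abs_mul, abs_mul, hκa, one_mul, one_mul]
    rcases lt_or_gt_of_ne hd with hlt | hgt
    · have hfp : 0 < f := by
        by_contra hcon
        push Not at hcon
        nlinarith [mul_nonneg_of_nonpos_of_nonpos hlt.le hcon]
      rw [abs_of_neg hlt, abs_of_pos hfp, neg_div, div_neg]
    · have hfn : f < 0 := by
        by_contra hcon
        push Not at hcon
        nlinarith [mul_nonneg hgt.le hcon]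
      rw [abs_of_pos hgt, abs_of_neg hfn]
  rw [e1]
  have hpos : 0 < |κ * dw F w| := abs_pos.2 hdk
  refine ⟨by positivity, ?_⟩
  rw [div_lt_iff₀ hpos]
  linarith

end Pool.Agent.BIP.TW
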