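import Pool.Agent.BIP.TDefs

/-!
# TWO, T6: the lines `C_τ`
-/

namespace Pool.Agent.BIP.TW

theorem t6_ident (F : Fin 4 → Ln) (w : Fin 4) (τ : ℝ) (R : Ln) :
    MM R (Ct F w τ) - MM R (F w) = τ * (fK F R / dw F w) -
      R.b * ((Ct F w τ).pi - (F w).pi) := by
  simp only [MM, Ct, fK, Ln.pi]
  ring

theorem t6_Ct (κ e T : ℝ) (hc : Cst κ e T) (F : Fin 4 → Ln) (w : Fin 4) (t s tm tp sm sp : ℝ)
    (ht : 0 < t) (hs : 0 < s) (hsm : 0 < sm) (h1 : T * sm ≤ s) (h2 : T * s ≤ sp)
    (hF : LB κ e t sm sp (F w)) (hd : dw F w ≠ 0) (E R : Ln) (_htm : 0 < tm) (_htp : tm ≤ tp)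
    (hE : LB κ e s tm tp E)
    (hnc : |A0 F| + |A1 F| * E.a + |A2 F| * E.a ^ 2 ≤ 10 * |fK F E|)
    (hX : 0 ≤ - fK F E / dw F w) (hX1 : - fK F E / dw F w ≤ 50 * e * (t * s))
    (hR1 : |R.a - E.a| ≤ 20 * e * s) (hR2 : |R.pi - E.pi| ≤ 20 * e * s ^ 2)
    (hR3 : |R.b| * t ≤ 20 * e * s) (τ : ℝ) (hτ : 0 ≤ τ) (hτ1 : τ ≤ 3 / 2) :
    |MM R (Ct F w τ) - MM R (F w) - τ * (fK F E / dw F w)| ≤ (- fK F E / dw F w) / 1000 := by
  have he0 : 0 < e := hc.he
  have he1 : e ≤ 1 / 10 ^ 12 := hc.he1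
  have hT : (10 : ℝ) ^ 9 ≤ T := hc.hT
  obtain ⟨X, hXd⟩ : ∃ X, X = - fK F E / dw F w := ⟨_, rfl⟩
  rw [← hXd] at hX hX1 ⊢
  have hdw : 0 < |dw F w| := abs_pos.mpr hd
  obtain ⟨B₀, hB₀⟩ : ∃ B₀, B₀ = A0 F / dw F w := ⟨_, rfl⟩
  obtain ⟨B₁, hB₁⟩ : ∃ B₁, B₁ = A1 F / dw F w := ⟨_, rfl⟩
  obtain ⟨B₂, hB₂⟩ : ∃ B₂, B₂ = A2 F / dw F w := ⟨_, rfl⟩
  have hB : |B₀| + |B₁| * E.a + |B₂| * E.a ^ 2 ≤ 10 * X := by
    have e1 : |B₀| + |B₁| * E.a + |B₂| * E.a ^ 2 =
        (|A0 F| + |A1 F| * E.a + |A2 F| * E.a ^ 2) / |dw F w| := by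
      rw [hB₀, hB₁, hB₂, abs_div, abs_div, abs_div]
      ring
    have e2 : |fK F E| = X * |dw F w| := by
      have h3 : fK F E = - (X * dw F w) := by
        rw [hXd, div_mul_cancel₀ _ hd, neg_neg]
      rw [h3, abs_neg, abs_mul, abs_of_nonneg hX]
    rw [e1, div_le_iff₀ hdw]
    rw [e2] at hnc
    linarith
  have ha := abs_le.1 hE.ha
  have hes : 0 ≤ e * s := by positivity
  have hes1 : e * s ≤ 1 / 10 ^ 12 * s := mul_le_mul_of_nonneg_right he1 hs.le
  have ha1 : 99 / 100 * s ≤ E.a := by linarith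
  have ha0 : 0 < E.a := by linarith
  have b0 : |B₀| ≤ 10 * X := by
    have h1 : 0 ≤ |B₁| * E.a := by positivity
    have h2 : 0 ≤ |B₂| * E.a ^ 2 := by positivity
    linarith
  have b1 : |B₁| * s ≤ 11 * X := by
    have h1 : 0 ≤ |B₀| := abs_nonneg _
    have h2 : 0 ≤ |B₂| * E.a ^ 2 := by positivity
    have h3 : |B₁| * (99 / 100 * s) ≤ |B₁| * E.a := mul_le_mul_of_nonneg_left ha1 (abs_nonneg _)
    linarith
  have b2 : |B₂| * s ^ 2 ≤ 11 * X := by
    have h1 : 0 ≤ |B₀| := abs_nonneg _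
    have h2 : 0 ≤ |B₁| * E.a := by positivity
    have h4 : (99 / 100 * s) ^ 2 ≤ E.a ^ 2 := by
      apply pow_le_pow_left₀ (by positivity) ha1
    have h3 : |B₂| * (99 / 100 * s) ^ 2 ≤ |B₂| * E.a ^ 2 :=
      mul_le_mul_of_nonneg_left h4 (abs_nonneg _)
    have h5 : |B₂| * (99 / 100 * s) ^ 2 = 9801 / 10000 * (|B₂| * s ^ 2) := by ring
    have h6 : 0 ≤ |B₂| * s ^ 2 := by positivity
    linarith
  have hfR : |fK F R / dw F w + X| ≤ 440 * e * X := by
    have e0 : fK F R / dw F w + X = B₁ * (R.a - E.a) - B₂ * (R.pi - E.pi) := by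
      rw [hXd, hB₁, hB₂]
      simp only [fK]
      ring
    have q1 : |B₁ * (R.a - E.a)| ≤ 220 * e * X := by
      rw [abs_mul]
      calc |B₁| * |R.a - E.a| ≤ |B₁| * (20 * e * s) :=
            mul_le_mul_of_nonneg_left hR1 (abs_nonneg _)
        _ = 20 * e * (|B₁| * s) := by ring
        _ ≤ 20 * e * (11 * X) := mul_le_mul_of_nonneg_left b1 (by positivity)
        _ = _ := by ring
    have q2 : |B₂ * (R.pi - E.pi)| ≤ 220 * e * X := by
      rw [abs_mul]
      calc |B₂| * |R.pi - E.pi| ≤ |B₂| * (20 * e * s ^ 2) :=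
            mul_le_mul_of_nonneg_left hR2 (abs_nonneg _)
        _ = 20 * e * (|B₂| * s ^ 2) := by ring
        _ ≤ 20 * e * (11 * X) := mul_le_mul_of_nonneg_left b2 (by positivity)
        _ = _ := by ring
    rw [e0]
    have h1 := abs_le.1 q1
    have h2 := abs_le.1 q2
    rw [abs_le]
    constructor <;> linarith
  have hsms : sm ≤ s := by
    have h3 : 1 * sm ≤ T * sm := mul_le_mul_of_nonneg_right (by linarith) hsm.le
    linarith
  have hssp : s ≤ sp := by
    have h3 : 1 * s ≤ T * s := mul_le_mul_of_nonneg_right (by linarith) hs.le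
    linarith
  have hpi : |R.b * ((Ct F w τ).pi - (F w).pi)| ≤ 500 * e * X := by
    have e0 : (Ct F w τ).pi - (F w).pi = - (τ * (B₁ * (F w).a)) + τ * (B₂ * (F w).c) +
        τ * (B₀ * (F w).b) - τ ^ 2 * (B₀ * B₂) := by
      rw [hB₀, hB₁, hB₂]
      simp only [Ct, Ln.pi]
      ring
    have hXt : 0 ≤ X * t := by positivity
    have r1 : |B₁ * (F w).a| * s ≤ 12 * (X * t) := by
      have h1 := abs_le.1 hF.ha
      have h3 : e * t ≤ 1 / 10 ^ 12 * t := mul_le_mul_of_nonneg_right he1 ht.le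
      have h4 : 0 ≤ e * t := by positivity
      have h2 : |(F w).a| ≤ 12 / 11 * t := by
        rw [abs_le]
        constructor <;> linarith
      rw [abs_mul]
      calc |B₁| * |(F w).a| * s = |B₁| * s * |(F w).a| := by ring
        _ ≤ 11 * X * (12 / 11 * t) := mul_le_mul b1 h2 (abs_nonneg _) (by positivity)
        _ = _ := by ring
    have hFc : |(F w).c| ≤ e * (t * s) := by
      refine hF.hc.trans ?_
      have : t * sm ≤ t * s := mul_le_mul_of_nonneg_left hsms ht.le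
      exact mul_le_mul_of_nonneg_left this he0.le
    have hFb : |(F w).b| * s ≤ e * t := by
      refine le_trans ?_ hF.hb
      exact mul_le_mul_of_nonneg_left hssp (abs_nonneg _)
    have r2 : |B₂ * (F w).c| * s ≤ X * t / 10 := by
      have h3 : |B₂ * (F w).c| * s * s ≤ X * t / 10 * s := by
        rw [abs_mul]
        calc |B₂| * |(F w).c| * s * s = |B₂| * s ^ 2 * |(F w).c| := by ring
          _ ≤ 11 * X * (e * (t * s)) := mul_le_mul b2 hFc (abs_nonneg _) (by positivity)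
          _ = 11 * e * (X * t * s) := by ring
          _ ≤ 1 / 10 * (X * t * s) := by
              apply mul_le_mul_of_nonneg_right _ (by positivity)
              linarith
          _ = _ := by ring
      exact le_of_mul_le_mul_right h3 hs
    have r3 : |B₀ * (F w).b| * s ≤ X * t / 10 := by
      rw [abs_mul]
      calc |B₀| * |(F w).b| * s = |B₀| * (|(F w).b| * s) := by ring
        _ ≤ 10 * X * (e * t) := mul_le_mul b0 hFb (by positivity) (by positivity)
        _ = 10 * e * (X * t) := by ring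
        _ ≤ 1 / 10 * (X * t) := by
              apply mul_le_mul_of_nonneg_right _ (by positivity)
              linarith
        _ = _ := by ring
    have r4 : |B₀ * B₂| * s ≤ X * t / 10 := by
      have h3 : |B₀ * B₂| * s * s ≤ X * t / 10 * s := by
        rw [abs_mul]
        calc |B₀| * |B₂| * s * s = |B₀| * (|B₂| * s ^ 2) := by ring
          _ ≤ 10 * X * (11 * X) := mul_le_mul b0 b2 (by positivity) (by positivity)
          _ = 110 * X * X := by ring
          _ ≤ 110 * X * (50 * e * (t * s)) := mul_le_mul_of_nonneg_left hX1 (by positivity)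
          _ = 5500 * e * (X * t * s) := by ring
          _ ≤ 1 / 10 * (X * t * s) := by
              apply mul_le_mul_of_nonneg_right _ (by positivity)
              linarith
          _ = _ := by ring
      exact le_of_mul_le_mul_right h3 hs
    have r5 : |(Ct F w τ).pi - (F w).pi| * s ≤ 25 * (X * t) := by
      rw [e0]
      have t1 : |τ * (B₁ * (F w).a)| * s ≤ 18 * (X * t) := by
        rw [abs_mul, abs_of_nonneg hτ]
        have : τ * (|B₁ * (F w).a| * s) ≤ 3 / 2 * (12 * (X * t)) :=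
          mul_le_mul hτ1 r1 (by positivity) (by positivity)
        linarith
      have t2 : |τ * (B₂ * (F w).c)| * s ≤ X * t := by
        rw [abs_mul, abs_of_nonneg hτ]
        have : τ * (|B₂ * (F w).c| * s) ≤ 3 / 2 * (X * t / 10) :=
          mul_le_mul hτ1 r2 (by positivity) (by positivity)
        linarith
      have t3 : |τ * (B₀ * (F w).b)| * s ≤ X * t := by
        rw [abs_mul, abs_of_nonneg hτ]
        have : τ * (|B₀ * (F w).b| * s) ≤ 3 / 2 * (X * t / 10) :=
          mul_le_mul hτ1 r3 (by positivity) (by positivity)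
        linarith
      have t4 : |τ ^ 2 * (B₀ * B₂)| * s ≤ X * t := by
        rw [abs_mul, abs_of_nonneg (by positivity : 0 ≤ τ ^ 2)]
        have h2 : τ ^ 2 ≤ 9 / 4 := by nlinarith
        have : τ ^ 2 * (|B₀ * B₂| * s) ≤ 9 / 4 * (X * t / 10) :=
          mul_le_mul h2 r4 (by positivity) (by positivity)
        linarith
      have t5 : |-(τ * (B₁ * (F w).a)) + τ * (B₂ * (F w).c) + τ * (B₀ * (F w).b) -
          τ ^ 2 * (B₀ * B₂)| ≤ |τ * (B₁ * (F w).a)| + |τ * (B₂ * (F w).c)| +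
            |τ * (B₀ * (F w).b)| + |τ ^ 2 * (B₀ * B₂)| := by
        refine (abs_sub _ _).trans ?_
        refine add_le_add_left ((abs_add_le _ _).trans ?_) _
        refine add_le_add_left ((abs_add_le _ _).trans ?_) _
        rw [abs_neg]
      have t6 := mul_le_mul_of_nonneg_right t5 hs.le
      linarith
    rw [abs_mul]
    have h7 : |R.b| * |(Ct F w τ).pi - (F w).pi| * (s * t) ≤ 500 * e * X * (s * t) := by
      calc |R.b| * |(Ct F w τ).pi - (F w).pi| * (s * t)
          = (|R.b| * t) * (|(Ct F w τ).pi - (F w).pi| * s) := by ring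
        _ ≤ (20 * e * s) * (25 * (X * t)) := mul_le_mul hR3 r5 (by positivity) (by positivity)
        _ = 500 * e * X * (s * t) := by ring
    exact le_of_mul_le_mul_right h7 (by positivity)
  have e2 : MM R (Ct F w τ) - MM R (F w) - τ * (fK F E / dw F w) =
      τ * (fK F R / dw F w + X) - R.b * ((Ct F w τ).pi - (F w).pi) := by
    rw [t6_ident, hXd]
    ring
  rw [e2]
  have h3 : |τ * (fK F R / dw F w + X)| ≤ 3 / 2 * (440 * e * X) := by
    rw [abs_mul, abs_of_nonneg hτ]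
    exact mul_le_mul hτ1 hfR (abs_nonneg _) (by positivity)
  refine (abs_sub _ _).trans ?_
  have h4 : e * X ≤ 1 / 10 ^ 12 * X := mul_le_mul_of_nonneg_right he1 hX
  linarith

end Pool.Agent.BIP.TW
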