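import Pool.Agent.BIP.TDefs

/-!
# T7: the line `R`, crude bounds
-/

namespace Pool.Agent.BIP.TW

theorem t7c_mul {a b A B : ℝ} (ha : |a| ≤ A) (hb : |b| ≤ B) : |a * b| ≤ A * B := by
  rw [abs_mul]
  exact mul_le_mul ha hb (abs_nonneg _) ((abs_nonneg _).trans ha)

/-- One column-like line seen from a point near the node `(t0, s)`. -/
theorem t7c_node {κ e T t0 t s sm sp x y z : ℝ} {G : Ln} (hc : Cst κ e T) (h0 : 0 < t0)
    (ht : T * t0 ≤ t) (h1 : 0 < sm) (h2 : T * sm ≤ s) (h3 : T * s ≤ sp) (hG : LB κ e t sm sp G)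
    (hx : |x| ≤ 2 * t0) (hy : |y - s| ≤ 2 / 10 ^ 4 * s) (hz : |z| ≤ 3 * (t0 * s)) :
    |oX G x y + t| ≤ t / 10 ^ 8 ∧ |oD G y z + κ * (t * s)| ≤ t * s / 10 ^ 3 ∧
      |G.b * oD G y z - oX G x y * G.d - κ * t ^ 2| ≤ t ^ 2 / 10 ^ 7 := by
  obtain ⟨hκ, he, he1, hT⟩ := hc
  have hs : 0 < s := by nlinarith
  have ht0 : t0 ≤ t / 10 ^ 9 := by
    rw [le_div_iff₀ (by norm_num)]
    nlinarith
  have htp : 0 < t := by nlinarith
  have hsm : sm ≤ s / 10 ^ 9 := by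
    rw [le_div_iff₀ (by norm_num)]
    nlinarith
  have hsp : 10 ^ 9 * s ≤ sp := by nlinarith
  have hκa : |κ| = 1 := by
    rcases hκ with h | h <;> rw [h] <;> norm_num
  have hyb : |y| ≤ 2 * s := by
    have := abs_le.1 hy
    rw [abs_le]; constructor <;> linarith
  have hGb : |G.b| * (10 ^ 9 * s) ≤ e * t := (mul_le_mul_of_nonneg_left hsp (abs_nonneg _)).trans hG.hb
  have hGbs : |G.b| * s ≤ e * t / 10 ^ 9 := by
    rw [le_div_iff₀ (by norm_num)]
    linarith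
  have het : e * t ≤ t / 10 ^ 12 := by
    have := mul_le_mul_of_nonneg_right he1 htp.le
    linarith
  have het0 : 0 < e * t := mul_pos he htp
  have hGy : |G.b * y| ≤ t / 10 ^ 12 := by
    rw [abs_mul]
    have h4 : |G.b| * |y| ≤ |G.b| * (2 * s) := mul_le_mul_of_nonneg_left hyb (abs_nonneg _)
    linarith
  have hGd : |G.d| ≤ 2 * t := by
    have h4 := abs_le.1 hG.hd
    have h5 : |κ * t| = t := by rw [abs_mul, hκa, one_mul, abs_of_pos htp]
    have h6 := abs_add_le (G.d - κ * t) (κ * t)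
    rw [sub_add_cancel, h5] at h6
    have := hG.hd
    linarith
  have hX : |oX G x y + t| ≤ t / 10 ^ 8 := by
    have e1 : oX G x y + t = x - (G.a - t) - G.b * y := by unfold oX; ring
    rw [e1]
    have h4 := abs_sub (x - (G.a - t)) (G.b * y)
    have h5 := abs_sub x (G.a - t)
    have := hG.ha
    have h6 : 2 * t0 ≤ 2 * (t / 10 ^ 9) := by linarith
    linarith
  have hD : |oD G y z + κ * (t * s)| ≤ t * s / 10 ^ 3 := by
    have e1 : oD G y z + κ * (t * s) = z - G.c - (G.d - κ * t) * y - κ * t * (y - s) := by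
      unfold oD; ring
    rw [e1]
    have h4 := abs_sub (z - G.c - (G.d - κ * t) * y) (κ * t * (y - s))
    have h5 := abs_sub (z - G.c) ((G.d - κ * t) * y)
    have h6 := abs_sub z G.c
    have h7 := t7c_mul hG.hd hyb
    have h8 : |κ * t * (y - s)| ≤ t * (2 / 10 ^ 4 * s) := by
      apply t7c_mul _ hy
      rw [abs_mul, hκa, one_mul, abs_of_pos htp]
    have h9 : t0 * s ≤ t / 10 ^ 9 * s := mul_le_mul_of_nonneg_right ht0 hs.le
    have h10 : e * t * (2 * s) ≤ t / 10 ^ 12 * (2 * s) :=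
      mul_le_mul_of_nonneg_right het (by positivity)
    have h11 : e * (t * sm) ≤ t / 10 ^ 12 * s := by
      have h12 : e * t * sm ≤ t / 10 ^ 12 * (s / 10 ^ 9) :=
        mul_le_mul het hsm h1.le (by positivity)
      have h13 : 0 < t * s := mul_pos htp hs
      nlinarith
    have := hG.hc
    have h13 : 0 < t * s := mul_pos htp hs
    linarith
  refine ⟨hX, hD, ?_⟩
  have hts : 0 < t * s := mul_pos htp hs
  have hDb : |oD G y z| ≤ 2 * (t * s) := by
    have h5 : |κ * (t * s)| = t * s := by rw [abs_mul, hκa, one_mul, abs_of_pos hts]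
    have h6 := abs_sub (oD G y z + κ * (t * s)) (κ * (t * s))
    rw [add_sub_cancel_right, h5] at h6
    linarith
  have e1 : G.b * oD G y z - oX G x y * G.d - κ * t ^ 2 =
      G.b * oD G y z - (oX G x y + t) * G.d + t * (G.d - κ * t) := by ring
  rw [e1]
  have h4 := abs_add_le (G.b * oD G y z - (oX G x y + t) * G.d) (t * (G.d - κ * t))
  have h5 := abs_sub (G.b * oD G y z) ((oX G x y + t) * G.d)
  have h6 : |G.b * oD G y z| ≤ t ^ 2 / 10 ^ 9 := by
    rw [abs_mul]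
    have h7 : |G.b| * |oD G y z| ≤ |G.b| * (2 * (t * s)) :=
      mul_le_mul_of_nonneg_left hDb (abs_nonneg _)
    have h8 : |G.b| * (2 * (t * s)) = 2 * t * (|G.b| * s) := by ring
    have h9 : 2 * t * (|G.b| * s) ≤ 2 * t * (e * t / 10 ^ 9) :=
      mul_le_mul_of_nonneg_left hGbs (by positivity)
    have h10 : 2 * t * (e * t / 10 ^ 9) ≤ 2 * t * (t / 10 ^ 12 / 10 ^ 9) := by
      apply mul_le_mul_of_nonneg_left _ (by positivity)
      exact div_le_div_of_nonneg_right het (by norm_num)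
    have h11 : 2 * t * (t / 10 ^ 12 / 10 ^ 9) ≤ t ^ 2 / 10 ^ 9 := by
      have : 0 ≤ t ^ 2 := sq_nonneg t
      nlinarith
    linarith
  have h7 := t7c_mul hX hGd
  have h8 : |t * (G.d - κ * t)| ≤ t * (e * t) := t7c_mul (abs_of_pos htp).le hG.hd
  have h9 : t * (e * t) ≤ t * (t / 10 ^ 12) := mul_le_mul_of_nonneg_left het htp.le
  have h10 : 0 ≤ t ^ 2 := sq_nonneg t
  have h11 : t / 10 ^ 8 * (2 * t) = 2 / 10 ^ 8 * t ^ 2 := by ring
  have h12 : t * (t / 10 ^ 12) = t ^ 2 / 10 ^ 12 := by ring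
  linarith

/-- `R` exists, crude bounds, zeros. -/
theorem t7_crude (κ e T : ℝ) (hc : Cst κ e T) (G0 G1 G2 E : Ln) (t0 t1 t2 s tm tp sm sp y0 : ℝ)
    (h0 : 0 < tm) (ha : T * tm ≤ t0) (hb : T * t0 ≤ t1) (hcc : T * t1 ≤ t2) (hd : T * t2 ≤ tp)
    (h1 : 0 < sm) (h2 : T * sm ≤ s) (h3 : T * s ≤ sp) (hE : LB κ e s tm tp E)
    (hG0 : LB κ e t0 sm sp G0) (hG1 : LB κ e t1 sm sp G1) (hG2 : LB κ e t2 sm sp G2)
    (hy0 : |y0| ≤ 1 / 10 ^ 4) :
    MM (Rln E G0 G1 G2 y0) G0 = 0 ∧ MM (Rln E G0 G1 G2 y0) G1 = 0 ∧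
    MM (Rln E G0 G1 G2 y0) G2 = 0 ∧
    On (Rln E G0 G1 G2 y0) (G0.a + G0.b * yq E G0 y0) (yq E G0 y0)
      (G0.c + G0.d * yq E G0 y0) ∧
    |(Rln E G0 G1 G2 y0).b| * t1 ≤ s / 100 ∧ |(Rln E G0 G1 G2 y0).a - s| ≤ s / 100 ∧
    |(Rln E G0 G1 G2 y0).d - κ * s| ≤ s / 100 ∧ |(Rln E G0 G1 G2 y0).c| ≤ s * t0 / 50 := by
  obtain ⟨hκ, he, he1, hT⟩ := hc
  have hs : 0 < s := by nlinarith
  have ht0 : 0 < t0 := by nlinarith
  have ht1 : 0 < t1 := by nlinarith
  have ht2 : 0 < t2 := by nlinarith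
  have htp : 0 < tp := by nlinarith
  have hsp0 : 0 < sp := by nlinarith
  have h01 : t0 ≤ t1 / 10 ^ 9 := by
    rw [le_div_iff₀ (by norm_num)]; nlinarith
  have h12 : t1 ≤ t2 / 10 ^ 9 := by
    rw [le_div_iff₀ (by norm_num)]; nlinarith
  have h2p : t2 ≤ tp / 10 ^ 9 := by
    rw [le_div_iff₀ (by norm_num)]; nlinarith
  have hsm : sm ≤ s / 10 ^ 9 := by
    rw [le_div_iff₀ (by norm_num)]; nlinarith
  have hssp : s ≤ sp / 10 ^ 9 := by
    rw [le_div_iff₀ (by norm_num)]; nlinarith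
  have hκa : |κ| = 1 := by
    rcases hκ with h | h <;> rw [h] <;> norm_num
  have hes : e * s ≤ s / 10 ^ 12 := by
    have := mul_le_mul_of_nonneg_right he1 hs.le
    linarith
  have het0 : e * t0 ≤ t0 / 10 ^ 12 := by
    have := mul_le_mul_of_nonneg_right he1 ht0.le
    linarith
  -- the height `y`
  set y : ℝ := yq E G0 y0 with hydef
  have hGa : |G0.a| ≤ 2 * t0 := by
    have h6 := abs_add_le (G0.a - t0) t0
    rw [sub_add_cancel, abs_of_pos ht0] at h6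
    have := hG0.ha
    linarith
  have hEG : |E.b * G0.a| ≤ s / 10 ^ 12 := by
    rw [abs_mul]
    have h4 : |E.b| * |G0.a| ≤ |E.b| * (2 * t0) := mul_le_mul_of_nonneg_left hGa (abs_nonneg _)
    have h5 : |E.b| * (2 * t0) ≤ |E.b| * tp := by
      apply mul_le_mul_of_nonneg_left _ (abs_nonneg _)
      linarith
    have := hE.hb
    linarith
  have hEb : |E.b * G0.b| ≤ 1 / 10 ^ 12 := by
    rw [abs_mul]
    -- `|E.b| tp ≤ e s`, `|G0.b| sp ≤ e t0`
    have h4 : (|E.b| * tp) * (|G0.b| * sp) ≤ (s / 10 ^ 12) * t0 := by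
      apply mul_le_mul (hE.hb.trans hes) _ (by positivity) (by positivity)
      exact hG0.hb.trans (het0.trans (by linarith))
    have h5 : |E.b| * |G0.b| * (tp * sp) ≤ (1 / 10 ^ 12) * (tp * sp) := by
      have h6 : s / 10 ^ 12 * t0 ≤ (1 / 10 ^ 12) * (tp * sp) := by
        have h7 : s * t0 ≤ sp * tp := mul_le_mul (by linarith) (by linarith) ht0.le hsp0.le
        nlinarith
      nlinarith
    exact le_of_mul_le_mul_right h5 (by positivity)
  have hyq : |y - s| ≤ 2 / 10 ^ 4 * s := by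
    have hden : 1 - 1 / 10 ^ 12 ≤ 1 - E.b * G0.b := by
      have := (abs_le.1 hEb).2
      linarith
    have hden0 : 0 < 1 - E.b * G0.b := by
      have : (0 : ℝ) < 1 - 1 / 10 ^ 12 := by norm_num
      linarith
    have e1 : y - s = ((E.a - s) + E.b * G0.a + s * (E.b * G0.b)) / (1 - E.b * G0.b) + y0 * E.a := by
      rw [hydef]; unfold yq
      field_simp
      ring
    have h4 : |(E.a - s) + E.b * G0.a + s * (E.b * G0.b)| ≤ 3 * (s / 10 ^ 12) := by
      have h5 := abs_add_le ((E.a - s) + E.b * G0.a) (s * (E.b * G0.b))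
      have h6 := abs_add_le (E.a - s) (E.b * G0.a)
      have h7 : |s * (E.b * G0.b)| ≤ s * (1 / 10 ^ 12) := t7c_mul (abs_of_pos hs).le hEb
      have := hE.ha
      linarith
    have h5 : |((E.a - s) + E.b * G0.a + s * (E.b * G0.b)) / (1 - E.b * G0.b)| ≤
        4 * (s / 10 ^ 12) := by
      rw [abs_div, abs_of_pos hden0, div_le_iff₀ hden0]
      have h6 : 4 * (s / 10 ^ 12) * (1 - 1 / 10 ^ 12) ≤ 4 * (s / 10 ^ 12) * (1 - E.b * G0.b) :=
        mul_le_mul_of_nonneg_left hden (by positivity)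
      linarith
    have hEa : |E.a| ≤ 1.5 * s := by
      have h6 := abs_add_le (E.a - s) s
      rw [sub_add_cancel, abs_of_pos hs] at h6
      have := hE.ha
      linarith
    have h6 := t7c_mul hy0 hEa
    rw [e1]
    have h7 := abs_add_le (((E.a - s) + E.b * G0.a + s * (E.b * G0.b)) / (1 - E.b * G0.b))
      (y0 * E.a)
    linarith
  have hyb : |y| ≤ 2 * s := by
    have := abs_le.1 hyq
    rw [abs_le]; constructor <;> linarith
  -- the point
  set x : ℝ := G0.a + G0.b * y with hxdef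
  set z : ℝ := G0.c + G0.d * y with hzdef
  have hx : |x - t0| ≤ t0 / 10 ^ 11 := by
    have e1 : x - t0 = (G0.a - t0) + G0.b * y := by rw [hxdef]; ring
    rw [e1]
    have h4 := abs_add_le (G0.a - t0) (G0.b * y)
    have h5 : |G0.b * y| ≤ t0 / 10 ^ 12 := by
      rw [abs_mul]
      have h6 : |G0.b| * |y| ≤ |G0.b| * (2 * s) := mul_le_mul_of_nonneg_left hyb (abs_nonneg _)
      have h7 : |G0.b| * (2 * s) ≤ |G0.b| * sp := by
        apply mul_le_mul_of_nonneg_left _ (abs_nonneg _)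
        linarith
      have := hG0.hb
      linarith
    have := hG0.ha
    linarith
  have hxb : |x| ≤ 2 * t0 := by
    have := abs_le.1 hx
    rw [abs_le]; constructor <;> linarith
  have hts : 0 < t0 * s := mul_pos ht0 hs
  have hz : |z - κ * (t0 * s)| ≤ t0 * s / 10 ^ 3 := by
    have e1 : z - κ * (t0 * s) = G0.c + (G0.d - κ * t0) * y + κ * t0 * (y - s) := by
      rw [hzdef]; ring
    rw [e1]
    have h4 := abs_add_le (G0.c + (G0.d - κ * t0) * y) (κ * t0 * (y - s))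
    have h5 := abs_add_le G0.c ((G0.d - κ * t0) * y)
    have h7 := t7c_mul hG0.hd hyb
    have h8 : |κ * t0 * (y - s)| ≤ t0 * (2 / 10 ^ 4 * s) := by
      apply t7c_mul _ hyq
      rw [abs_mul, hκa, one_mul, abs_of_pos ht0]
    have h10 : e * t0 * (2 * s) ≤ t0 / 10 ^ 12 * (2 * s) :=
      mul_le_mul_of_nonneg_right het0 (by positivity)
    have h11 : e * (t0 * sm) ≤ t0 / 10 ^ 12 * s := by
      have h12 : e * t0 * sm ≤ t0 / 10 ^ 12 * (s / 10 ^ 9) :=
        mul_le_mul het0 hsm h1.le (by positivity)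
      nlinarith
    have := hG0.hc
    linarith
  have hzb : |z| ≤ 3 * (t0 * s) := by
    have h5 : |κ * (t0 * s)| = t0 * s := by rw [abs_mul, hκa, one_mul, abs_of_pos hts]
    have h6 := abs_add_le (z - κ * (t0 * s)) (κ * (t0 * s))
    rw [sub_add_cancel, h5] at h6
    linarith
  have hcst : Cst κ e T := ⟨hκ, he, he1, hT⟩
  obtain ⟨hX1, hD1, hU1⟩ := t7c_node hcst ht0 hb h1 h2 h3 hG1 hxb hyq hzb
  have hb2 : T * t0 ≤ t2 := hb.trans (by linarith)
  obtain ⟨hX2, hD2, hU2⟩ := t7c_node hcst ht0 hb2 h1 h2 h3 hG2 hxb hyq hzb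
  set X1 : ℝ := oX G1 x y with hX1d
  set D1 : ℝ := oD G1 y z with hD1d
  set X2 : ℝ := oX G2 x y with hX2d
  set D2 : ℝ := oD G2 y z with hD2d
  set U1 : ℝ := G1.b * D1 - X1 * G1.d with hU1d
  set U2 : ℝ := G2.b * D2 - X2 * G2.d with hU2d
  set Δ : ℝ := X1 * U2 - X2 * U1 with hΔ
  have htt : 0 < t1 * t2 ^ 2 := by positivity
  have hX1b : |X1| ≤ 1.01 * t1 := by
    have := abs_le.1 hX1
    rw [abs_le]; constructor <;> linarith
  have hX2b : |X2| ≤ 1.01 * t2 := by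
    have := abs_le.1 hX2
    rw [abs_le]; constructor <;> linarith
  have hbig : ∀ (u t c : ℝ), |u - κ * t ^ 2| ≤ t ^ 2 / 10 ^ 7 → |u| ≤ 1.01 * t ^ 2 := by
    intro u t _ hu
    have h5 : |κ * t ^ 2| = t ^ 2 := by rw [abs_mul, hκa, one_mul, abs_of_nonneg (sq_nonneg t)]
    have h6 := abs_add_le (u - κ * t ^ 2) (κ * t ^ 2)
    rw [sub_add_cancel, h5] at h6
    have := sq_nonneg t
    linarith
  have hU1b : |U1| ≤ 1.01 * t1 ^ 2 := hbig U1 t1 0 hU1
  have hU2b : |U2| ≤ 1.01 * t2 ^ 2 := hbig U2 t2 0 hU2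
  have hDb : ∀ (D t : ℝ), 0 < t → |D + κ * (t * s)| ≤ t * s / 10 ^ 3 → |D| ≤ 1.01 * (t * s) := by
    intro D t ht hD
    have hts' : 0 < t * s := mul_pos ht hs
    have h5 : |κ * (t * s)| = t * s := by rw [abs_mul, hκa, one_mul, abs_of_pos hts']
    have h6 := abs_sub (D + κ * (t * s)) (κ * (t * s))
    rw [add_sub_cancel_right, h5] at h6
    linarith
  have hD1b := hDb D1 t1 ht1 hD1
  have hD2b := hDb D2 t2 ht2 hD2
  have hq : t1 ^ 2 * t2 ≤ t1 * t2 ^ 2 / 10 ^ 9 := by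
    have h4 : t1 * (t1 * t2) ≤ t2 / 10 ^ 9 * (t1 * t2) :=
      mul_le_mul_of_nonneg_right h12 (by positivity)
    nlinarith
  have hΔb : |Δ + κ * (t1 * t2 ^ 2)| ≤ t1 * t2 ^ 2 / 10 ^ 6 := by
    have e1 : Δ + κ * (t1 * t2 ^ 2) = (X1 + t1) * U2 - t1 * (U2 - κ * t2 ^ 2) - X2 * U1 := by
      rw [hΔ]; ring
    rw [e1]
    have h4 := abs_sub ((X1 + t1) * U2 - t1 * (U2 - κ * t2 ^ 2)) (X2 * U1)
    have h5 := abs_sub ((X1 + t1) * U2) (t1 * (U2 - κ * t2 ^ 2))
    have h6 := t7c_mul hX1 hU2b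
    have h7 : |t1 * (U2 - κ * t2 ^ 2)| ≤ t1 * (t2 ^ 2 / 10 ^ 7) := t7c_mul (abs_of_pos ht1).le hU2
    have h8 := t7c_mul hX2b hU1b
    have e2 : t1 / 10 ^ 8 * (1.01 * t2 ^ 2) = 1.01 / 10 ^ 8 * (t1 * t2 ^ 2) := by ring
    have e3 : t1 * (t2 ^ 2 / 10 ^ 7) = 1 / 10 ^ 7 * (t1 * t2 ^ 2) := by ring
    have e4 : 1.01 * t2 * (1.01 * t1 ^ 2) = 1.0201 * (t1 ^ 2 * t2) := by ring
    linarith
  have hΔabs : 0.99 * (t1 * t2 ^ 2) ≤ |Δ| := by
    have h5 : |κ * (t1 * t2 ^ 2)| = t1 * t2 ^ 2 := by rw [abs_mul, hκa, one_mul, abs_of_pos htt]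
    have h6 := abs_sub (Δ + κ * (t1 * t2 ^ 2)) Δ
    have e1 : Δ + κ * (t1 * t2 ^ 2) - Δ = κ * (t1 * t2 ^ 2) := by ring
    rw [e1, h5] at h6
    linarith
  have hΔpos : 0 < |Δ| := lt_of_lt_of_le (by positivity) hΔabs
  have hΔ0 : Δ ≠ 0 := abs_pos.1 hΔpos
  set b : ℝ := (X1 * D2 - X2 * D1) / Δ with hbdef
  set d : ℝ := (D1 * U2 - D2 * U1) / Δ with hddef
  have hR : Rln E G0 G1 G2 y0 = ⟨y - b * x, b, z - d * x, d⟩ := rfl
  have hbΔ : b * Δ = X1 * D2 - X2 * D1 := by rw [hbdef]; field_simp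
  have hdΔ : d * Δ = D1 * U2 - D2 * U1 := by rw [hddef]; field_simp
  have hbb : |b| * t2 ≤ 3 * s := by
    have h4 : |b| * |Δ| ≤ 2.05 * (t1 * t2 * s) := by
      rw [← abs_mul, hbΔ]
      have h5 := abs_sub (X1 * D2) (X2 * D1)
      have h6 := t7c_mul hX1b hD2b
      have h7 := t7c_mul hX2b hD1b
      have e2 : 1.01 * t1 * (1.01 * (t2 * s)) = 1.0201 * (t1 * t2 * s) := by ring
      have e3 : 1.01 * t2 * (1.01 * (t1 * s)) = 1.0201 * (t1 * t2 * s) := by ring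
      have : 0 < t1 * t2 * s := by positivity
      linarith
    have h5 : |b| * (0.99 * (t1 * t2 ^ 2)) ≤ |b| * |Δ| :=
      mul_le_mul_of_nonneg_left hΔabs (abs_nonneg _)
    have h6 : (|b| * t2) * (t1 * t2) ≤ (3 * s) * (t1 * t2) := by
      have e2 : |b| * (0.99 * (t1 * t2 ^ 2)) = 0.99 * ((|b| * t2) * (t1 * t2)) := by ring
      have e3 : 2.05 * (t1 * t2 * s) = 2.05 * (s * (t1 * t2)) := by ring
      have : 0 < s * (t1 * t2) := by positivity
      linarith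
    exact le_of_mul_le_mul_right h6 (by positivity)
  have hdb : |d - κ * s| ≤ s / 500 := by
    have hXD : ∀ (X D t : ℝ), 0 < t → |X + t| ≤ t / 10 ^ 8 → |D + κ * (t * s)| ≤ t * s / 10 ^ 3 →
        |D - κ * s * X| ≤ 1.1 / 10 ^ 3 * (t * s) := by
      intro X D t ht hX hD
      have e1 : D - κ * s * X = (D + κ * (t * s)) - κ * s * (X + t) := by ring
      rw [e1]
      have h4 := abs_sub (D + κ * (t * s)) (κ * s * (X + t))
      have h5 : |κ * s * (X + t)| ≤ s * (t / 10 ^ 8) := by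
        apply t7c_mul _ hX
        rw [abs_mul, hκa, one_mul, abs_of_pos hs]
      have : 0 < t * s := mul_pos ht hs
      have e2 : s * (t / 10 ^ 8) = 1 / 10 ^ 8 * (t * s) := by ring
      linarith
    have h1' := hXD X1 D1 t1 ht1 hX1 hD1
    have h2' := hXD X2 D2 t2 ht2 hX2 hD2
    have e1 : (d - κ * s) * Δ = U2 * (D1 - κ * s * X1) - U1 * (D2 - κ * s * X2) := by
      rw [sub_mul, hdΔ, hΔ]; ring
    have h4 : |d - κ * s| * |Δ| ≤ 1.2 / 10 ^ 3 * (t1 * t2 ^ 2 * s) := by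
      rw [← abs_mul, e1]
      have h5 := abs_sub (U2 * (D1 - κ * s * X1)) (U1 * (D2 - κ * s * X2))
      have h6 := t7c_mul hU2b h1'
      have h7 := t7c_mul hU1b h2'
      have e2 : 1.01 * t2 ^ 2 * (1.1 / 10 ^ 3 * (t1 * s)) = 1.111 / 10 ^ 3 * (t1 * t2 ^ 2 * s) := by
        ring
      have e3 : 1.01 * t1 ^ 2 * (1.1 / 10 ^ 3 * (t2 * s)) = 1.111 / 10 ^ 3 * (t1 ^ 2 * t2 * s) := by
        ring
      have h8 : t1 ^ 2 * t2 * s ≤ t1 * t2 ^ 2 / 10 ^ 9 * s := mul_le_mul_of_nonneg_right hq hs.le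
      have : 0 < t1 * t2 ^ 2 * s := by positivity
      linarith
    have h5 : |d - κ * s| * (0.99 * (t1 * t2 ^ 2)) ≤ |d - κ * s| * |Δ| :=
      mul_le_mul_of_nonneg_left hΔabs (abs_nonneg _)
    have h6 : |d - κ * s| * (t1 * t2 ^ 2) ≤ (s / 500) * (t1 * t2 ^ 2) := by
      have e3 : 1.2 / 10 ^ 3 * (t1 * t2 ^ 2 * s) = 1.2 / 10 ^ 3 * (s * (t1 * t2 ^ 2)) := by ring
      have : 0 < s * (t1 * t2 ^ 2) := by positivity
      linarith
    exact le_of_mul_le_mul_right h6 htt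
  have hbx : |b * x| ≤ s / 10 ^ 6 := by
    rw [abs_mul]
    have h4 : |b| * |x| ≤ |b| * (2 * t0) := mul_le_mul_of_nonneg_left hxb (abs_nonneg _)
    have h5 : |b| * (2 * t0) ≤ |b| * (t2 / 10 ^ 9) := by
      apply mul_le_mul_of_nonneg_left _ (abs_nonneg _)
      linarith
    have e2 : |b| * (t2 / 10 ^ 9) = (|b| * t2) / 10 ^ 9 := by ring
    linarith
  have hU0 : ∀ G : Ln, MM (⟨y - b * x, b, z - d * x, d⟩ : Ln) G =
      oD G y z - oX G x y * d - b * (G.b * oD G y z - oX G x y * G.d) := by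
    intro G
    unfold MM Ln.pi oD oX
    ring
  rw [hR]
  refine ⟨?_, ?_, ?_, ?_, ?_, ?_, ?_, ?_⟩
  · rw [hU0]
    have e1 : oX G0 x y = 0 := by unfold oX; rw [hxdef]; ring
    have e2 : oD G0 y z = 0 := by unfold oD; rw [hzdef]; ring
    rw [e1, e2]; ring
  · rw [hU0]
    show D1 - X1 * d - b * U1 = 0
    have h4 : (D1 - X1 * d - b * U1) * Δ = 0 := by
      have e1 : (D1 - X1 * d - b * U1) * Δ = D1 * Δ - X1 * (d * Δ) - (b * Δ) * U1 := by ring
      rw [e1, hdΔ, hbΔ, hΔ]; ring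
    rcases mul_eq_zero.1 h4 with h | h
    · exact h
    · exact absurd h hΔ0
  · rw [hU0]
    show D2 - X2 * d - b * U2 = 0
    have h4 : (D2 - X2 * d - b * U2) * Δ = 0 := by
      have e1 : (D2 - X2 * d - b * U2) * Δ = D2 * Δ - X2 * (d * Δ) - (b * Δ) * U2 := by ring
      rw [e1, hdΔ, hbΔ, hΔ]; ring
    rcases mul_eq_zero.1 h4 with h | h
    · exact h
    · exact absurd h hΔ0
  · constructor
    · show y = (y - b * x) + b * x
      ring
    · show z = (z - d * x) + d * x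
      ring
  · show |b| * t1 ≤ s / 100
    have h4 : |b| * t1 ≤ |b| * (t2 / 10 ^ 9) := mul_le_mul_of_nonneg_left h12 (abs_nonneg _)
    have e2 : |b| * (t2 / 10 ^ 9) = (|b| * t2) / 10 ^ 9 := by ring
    linarith
  · show |y - b * x - s| ≤ s / 100
    have e1 : y - b * x - s = (y - s) - b * x := by ring
    rw [e1]
    have h4 := abs_sub (y - s) (b * x)
    linarith
  · show |d - κ * s| ≤ s / 100
    linarith
  · show |z - d * x| ≤ s * t0 / 50
    have e1 : z - d * x = (z - κ * (t0 * s)) - (d - κ * s) * x - κ * s * (x - t0) := by ring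
    rw [e1]
    have h4 := abs_sub ((z - κ * (t0 * s)) - (d - κ * s) * x) (κ * s * (x - t0))
    have h5 := abs_sub (z - κ * (t0 * s)) ((d - κ * s) * x)
    have h6 := t7c_mul hdb hxb
    have h7 : |κ * s * (x - t0)| ≤ s * (t0 / 10 ^ 11) := by
      apply t7c_mul _ hx
      rw [abs_mul, hκa, one_mul, abs_of_pos hs]
    have e2 : s / 500 * (2 * t0) = 1 / 250 * (t0 * s) := by ring
    have e3 : s * (t0 / 10 ^ 11) = 1 / 10 ^ 11 * (t0 * s) := by ring
    have e4 : s * t0 / 50 = 1 / 50 * (t0 * s) := by ring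
    linarith

end Pool.Agent.BIP.TW
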