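import Pool.Agent.BIP.T7node
import Pool.Agent.BIP.T7crude
import Pool.Agent.BIP.T1f

/-!
# TWO, T7: the estimates for `R`
-/

namespace Pool.Agent.BIP.TW

theorem t7q_core {κ e T : ℝ} (hc : Cst κ e T) (G0 G1 G2 Fw E : Ln)
    (t0 t1 t2 tw s tm tp sm sp y0 Zm a0 a1 a2 dv : ℝ) (h0 : 0 < tm) (ha : T * tm ≤ t0)
    (hb : T * t0 ≤ t1) (hb' : T * t1 ≤ t2) (hd : T * t2 ≤ tp) (h1 : 0 < sm) (h2 : T * sm ≤ s)
    (h3 : T * s ≤ sp) (hE : LB κ e s tm tp E) (hG0 : LB κ e t0 sm sp G0)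
    (hG1 : LB κ e t1 sm sp G1) (hG2 : LB κ e t2 sm sp G2) (hFw : LB κ e tw sm sp Fw)
    (htw : 0 < tw) (hcase : tw ≤ t2 ∨ (T * t2 ≤ tw ∧ T * tw ≤ tp))
    (hZ0 : 0 ≤ MM E G0) (hZ1 : 0 ≤ MM E G1) (hZ2 : 0 ≤ MM E G2) (hZw : 0 ≤ MM E Fw)
    (hm0 : MM E G0 ≤ Zm * (t0 * s)) (hm1 : MM E G1 ≤ Zm * (t1 * s))
    (hm2 : MM E G2 ≤ Zm * (t2 * s)) (hmw : MM E Fw ≤ Zm * (tw * s)) (hZs : Zm ≤ 30 * e)
    (hy1 : 990 * Zm ≤ |y0|) (hy2 : |y0| ≤ 1010 * Zm) (hdv : dv ≠ 0)
    (hnc : |a0| + |a1| * E.a + |a2| * E.a ^ 2 ≤ 10 * |a0 + a1 * E.a - a2 * E.pi|)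
    (hX : 0 ≤ - (a0 + a1 * E.a - a2 * E.pi) / dv)
    (hX1 : - (a0 + a1 * E.a - a2 * E.pi) / dv ≤ 2.5 * MM E Fw)
    (hkill : ∀ R : Ln, MM R G0 = 0 → MM R G1 = 0 → MM R G2 = 0 →
      dv * MM R Fw = - (a0 + a1 * R.a - a2 * R.pi)) :
    |(Rln E G0 G1 G2 y0).b - E.b| * tw ≤ 10 * Zm * s ∧
    |(Rln E G0 G1 G2 y0).a - E.a - y0 * E.a| ≤ |y0| * s / 10 ∧
    |((Rln E G0 G1 G2 y0).d - Fw.d * (Rln E G0 G1 G2 y0).b) - (E.d - Fw.d * E.b) - κ * y0 * s| ≤
      |y0| * s / 10 ∧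
    |MM (Rln E G0 G1 G2 y0) Fw + (a0 + a1 * E.a - a2 * E.pi) / dv| ≤
      (- (a0 + a1 * E.a - a2 * E.pi) / dv) / 1000 := by
  have he0 : 0 < e := hc.he
  have he1 : e ≤ 1 / 10 ^ 12 := hc.he1
  have hT : (10 : ℝ) ^ 9 ≤ T := hc.hT
  have hκ : |κ| = 1 := by
    rcases hc.hκ with h | h <;> rw [h] <;> norm_num
  have hs : 0 < s := lt_of_lt_of_le (mul_pos (by linarith) h1) h2
  have ht0 : 0 < t0 := lt_of_lt_of_le (mul_pos (by linarith) h0) ha
  have ht1 : 0 < t1 := lt_of_lt_of_le (mul_pos (by linarith) ht0) hb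
  have ht2 : 0 < t2 := lt_of_lt_of_le (mul_pos (by linarith) ht1) hb'
  have q01 : t0 ≤ t1 / 10 ^ 9 := by
    rw [le_div_iff₀ (by norm_num)]
    have : 10 ^ 9 * t0 ≤ T * t0 := mul_le_mul_of_nonneg_right hT ht0.le
    linarith
  have q12 : t1 ≤ t2 / 10 ^ 9 := by
    rw [le_div_iff₀ (by norm_num)]
    have : 10 ^ 9 * t1 ≤ T * t1 := mul_le_mul_of_nonneg_right hT ht1.le
    linarith
  have q2p : t2 ≤ tp / 10 ^ 9 := by
    rw [le_div_iff₀ (by norm_num)]
    have : 10 ^ 9 * t2 ≤ T * t2 := mul_le_mul_of_nonneg_right hT ht2.le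
    linarith
  have htp : 0 < tp := by linarith
  have hssp : s ≤ sp := by
    have : 1 * s ≤ T * s := mul_le_mul_of_nonneg_right (by linarith) hs.le
    linarith
  have hy0 : |y0| ≤ 1 / 10 ^ 4 := by
    have : 1010 * Zm ≤ 1010 * (30 * e) := mul_le_mul_of_nonneg_left hZs (by norm_num)
    linarith
  have hzm : 0 ≤ Zm := by linarith [abs_nonneg y0]
  obtain ⟨c1, c2, c3, c4, c5, c6, -, -⟩ := t7_crude κ e T hc G0 G1 G2 E t0 t1 t2 s tm tp sm sp y0
    h0 ha hb hb' hd h1 h2 h3 hE hG0 hG1 hG2 hy0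
  obtain ⟨R, hRd⟩ : ∃ R, R = Rln E G0 G1 G2 y0 := ⟨_, rfl⟩
  rw [← hRd] at c1 c2 c3 c4 c5 c6 ⊢
  obtain ⟨y, hyd⟩ : ∃ y, y = yq E G0 y0 := ⟨_, rfl⟩
  rw [← hyd] at c4
  obtain ⟨x, hxd⟩ : ∃ x, x = G0.a + G0.b * y := ⟨_, rfl⟩
  obtain ⟨z, hzd⟩ : ∃ z, z = G0.c + G0.d * y := ⟨_, rfl⟩
  rw [← hxd, ← hzd] at c4
  -- small facts
  have a1' := abs_le.1 hE.ha
  have g1' := abs_le.1 hG0.ha
  have hes1 : e * s ≤ 1 / 10 ^ 12 * s := mul_le_mul_of_nonneg_right he1 hs.le
  have hes0 : 0 ≤ e * s := by positivity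
  have het1 : e * t0 ≤ 1 / 10 ^ 12 * t0 := mul_le_mul_of_nonneg_right he1 ht0.le
  have het0 : 0 ≤ e * t0 := by positivity
  have Ea : |E.a| ≤ 101 / 100 * s := by
    rw [abs_le]
    constructor <;> linarith
  have Ea1 : 99 / 100 * s ≤ E.a := by linarith
  have Ga : |G0.a| ≤ 101 / 100 * t0 := by
    rw [abs_le]
    constructor <;> linarith
  have Gb : |G0.b| * s ≤ e * t0 :=
    (mul_le_mul_of_nonneg_left hssp (abs_nonneg _)).trans hG0.hb
  have Eb0 : |E.b| * t0 ≤ e * s :=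
    (mul_le_mul_of_nonneg_left (by linarith) (abs_nonneg _)).trans hE.hb
  have Eb2 : |E.b| * t2 ≤ e * s :=
    (mul_le_mul_of_nonneg_left (by linarith) (abs_nonneg _)).trans hE.hb
  have Ed : |E.d| ≤ 101 / 100 * s := by
    have h : |E.d| ≤ |E.d - κ * s| + |κ * s| := by
      have := abs_add_le (E.d - κ * s) (κ * s)
      simpa using this
    rw [abs_mul κ s, hκ, one_mul, abs_of_pos hs] at h
    linarith [hE.hd]
  have Gd : |G0.d| ≤ 101 / 100 * t0 := by
    have h : |G0.d| ≤ |G0.d - κ * t0| + |κ * t0| := by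
      have := abs_add_le (G0.d - κ * t0) (κ * t0)
      simpa using this
    rw [abs_mul κ t0, hκ, one_mul, abs_of_pos ht0] at h
    linarith [hG0.hd]
  have n1 : |E.b * G0.b| ≤ e := by
    rw [abs_mul]
    have h : |E.b| * |G0.b| * (s * t0) ≤ e * (s * t0) := by
      calc |E.b| * |G0.b| * (s * t0) = (|E.b| * t0) * (|G0.b| * s) := by ring
        _ ≤ (e * s) * (e * t0) := mul_le_mul Eb0 Gb (by positivity) (by positivity)
        _ = e * (e * (s * t0)) := by ring
        _ ≤ 1 * (e * (s * t0)) := mul_le_mul_of_nonneg_right (by linarith) (by positivity)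
        _ = _ := by ring
    exact le_of_mul_le_mul_right h (by positivity)
  have n1a := abs_le.1 n1
  obtain ⟨N, hN⟩ : ∃ N, N = 1 - E.b * G0.b := ⟨_, rfl⟩
  have N1 : |N - 1| ≤ e := by
    rw [hN, abs_le]
    constructor <;> linarith
  have N1a := abs_le.1 N1
  have N0 : 0 < N := by linarith
  have N99 : 99 / 100 ≤ N := by linarith
  -- yq
  have yeq : (y - y0 * E.a) * N = E.a + E.b * G0.a := by
    rw [hyd, yq, ← hN]
    field_simp
    ring
  have EbGa : |E.b * G0.a| ≤ 101 / 100 * (e * s) := by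
    refine t7n_le Eb0 (c := G0.a) (d := 101 / 100) Ga ht0 (by norm_num) (by ring)
  have y0E : |y0 * E.a| ≤ 1 / 10 ^ 3 * s := by
    rw [abs_mul]
    have := mul_le_mul hy0 Ea (abs_nonneg _) (by norm_num)
    linarith
  have yb1 : |y - y0 * E.a| ≤ 105 / 100 * s := by
    have h : |y - y0 * E.a| * N ≤ 102 / 100 * s := by
      rw [← abs_of_pos N0, ← abs_mul, yeq]
      have := abs_add_le E.a (E.b * G0.a)
      linarith
    have h5 : |y - y0 * E.a| * (99 / 100) ≤ |y - y0 * E.a| * N :=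
      mul_le_mul_of_nonneg_left N99 (abs_nonneg _)
    linarith
  have yb : |y| ≤ 11 / 10 * s := by
    have h : |y| ≤ |y - y0 * E.a| + |y0 * E.a| := by
      have := abs_add_le (y - y0 * E.a) (y0 * E.a)
      simpa using this
    linarith
  have Gby : |G0.b * y| ≤ 11 / 10 * (e * t0) := by
    refine t7n_le Gb (c := y) (d := 11 / 10) yb hs (by norm_num) (by ring)
  have xb : |x| ≤ 102 / 100 * t0 := by
    rw [hxd]
    have := abs_add_le G0.a (G0.b * y)
    linarith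
  obtain ⟨dy, hdy⟩ : ∃ dy, dy = y - (E.a + E.b * x) := ⟨_, rfl⟩
  have dyeq : dy = y0 * E.a * N := by
    have : y * N = E.a + E.b * G0.a + y0 * E.a * N := by linarith
    have e2 : dy = y * N - (E.a + E.b * G0.a) := by
      rw [hdy, hxd, hN]
      ring
    rw [e2, this]
    ring
  have dyb : |dy - y0 * s| ≤ 4 * e * |y0| * s := by
    have e2 : dy - y0 * s = y0 * ((E.a - s) * N + s * (N - 1)) := by
      rw [dyeq]
      ring
    rw [e2, abs_mul]
    have h4 : |(E.a - s) * N + s * (N - 1)| ≤ 4 * e * s := by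
      have e3 := abs_add_le ((E.a - s) * N) (s * (N - 1))
      have e4 : |(E.a - s) * N| ≤ (e * s) * 2 := by
        rw [abs_mul]
        refine mul_le_mul hE.ha ?_ (abs_nonneg _) hes0
        rw [abs_of_pos N0]
        linarith
      have e5 : |s * (N - 1)| ≤ s * e := by
        rw [abs_mul, abs_of_pos hs]
        exact mul_le_mul_of_nonneg_left N1 hs.le
      linarith
    calc |y0| * |(E.a - s) * N + s * (N - 1)| ≤ |y0| * (4 * e * s) :=
          mul_le_mul_of_nonneg_left h4 (abs_nonneg _)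
      _ = _ := by ring
  have dyb2 : |dy| ≤ 101 / 100 * (|y0| * s) := by
    have h : |dy| ≤ |dy - y0 * s| + |y0 * s| := by
      have := abs_add_le (dy - y0 * s) (y0 * s)
      simpa using this
    rw [abs_mul y0 s, abs_of_pos hs] at h
    have h5 : 4 * e * |y0| * s = 4 * e * (|y0| * s) := by ring
    have h6 : 4 * e * (|y0| * s) ≤ 1 / 100 * (|y0| * s) :=
      mul_le_mul_of_nonneg_right (by linarith) (by positivity)
    linarith
  obtain ⟨dz, hdz⟩ : ∃ dz, dz = z - (E.c + E.d * x) := ⟨_, rfl⟩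
  have dzeq : N * dz = (G0.d - G0.b * E.d) * dy - MM E G0 := by
    rw [hdz, hdy, hN, hzd, hxd]
    simp only [MM, Ln.pi]
    ring
  have k0 : |G0.d - G0.b * E.d| ≤ 102 / 100 * t0 := by
    have h4 := abs_sub G0.d (G0.b * E.d)
    have h5 : |G0.b * E.d| ≤ 101 / 100 * (e * t0) :=
      t7n_le Gb (c := E.d) (d := 101 / 100) Ed hs (by norm_num) (by ring)
    linarith
  have hys0 : 0 ≤ |y0| * (s * t0) := by positivity
  have dzb : |dz| ≤ 11 / 10 * (|y0| * (s * t0)) := by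
    have h4 : |N * dz| ≤ 102 / 100 * t0 * (101 / 100 * (|y0| * s)) + Zm * (t0 * s) := by
      rw [dzeq]
      refine (abs_sub _ _).trans ?_
      rw [abs_mul, abs_of_nonneg hZ0]
      have := mul_le_mul k0 dyb2 (abs_nonneg _) (by positivity)
      linarith
    rw [abs_mul, abs_of_pos N0] at h4
    have h5 : 99 / 100 * |dz| ≤ N * |dz| := mul_le_mul_of_nonneg_right N99 (abs_nonneg _)
    have h6 : Zm * (t0 * s) ≤ 1 / 990 * |y0| * (t0 * s) :=
      mul_le_mul_of_nonneg_right (by linarith) (by positivity)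
    have h7 : 102 / 100 * t0 * (101 / 100 * (|y0| * s)) =
        10302 / 10000 * (|y0| * (s * t0)) := by ring
    have h8 : 1 / 990 * |y0| * (t0 * s) = 1 / 990 * (|y0| * (s * t0)) := by ring
    rw [h7] at h4
    rw [h8] at h6
    linarith
  -- the nodes
  have hxx : |x| ≤ 2 * t0 := by linarith
  have hyy2 : |y| ≤ 2 * s := by linarith
  have hdz3 : |z - (E.c + E.d * x)| ≤ 3 * |y0| * (s * t0) := by
    rw [← hdz]
    linarith
  have hdy3 : |y - (E.a + E.b * x) - y0 * s| ≤ 4 * e * |y0| * s := by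
    rw [← hdy]
    exact dyb
  have hy100 : |y0| ≤ 1 / 100 := by linarith
  have hpt1 : T * t1 ≤ tp := by
    have h5 : T * t1 ≤ T * t2 := mul_le_mul_of_nonneg_left (by linarith) (by linarith)
    linarith
  have hbt2 : T * t0 ≤ t2 := by linarith
  obtain ⟨p1, hp1, v1⟩ := t7n_node hc ht0 h0 ha hb hpt1 h1 h2 h3 hE hG1 hxx hyy2 hdy3 hdz3 hy2
    hy100 hZ1 hm1 c4
  obtain ⟨p2, hp2, v2⟩ := t7n_node hc ht0 h0 ha hbt2 hd h1 h2 h3 hE hG2 hxx hyy2 hdy3 hdz3 hy2
    hy100 hZ2 hm2 c4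
  rw [c2, abs_zero, zero_add] at v1
  rw [c3, abs_zero, zero_add] at v2
  obtain ⟨δ, hδ⟩ : ∃ δ, δ = R.b - E.b := ⟨_, rfl⟩
  obtain ⟨V, hV⟩ : ∃ V, V = R.d - E.d - κ * (y0 * s) := ⟨_, rfl⟩
  rw [← hδ, ← hV] at v1 v2
  have hZs0 : 0 ≤ Zm * s := by positivity
  have w1 : |V - p1 * δ| ≤ 103 / 100 * (Zm * s) := by
    have h5 : |V - p1 * δ| * t1 ≤ 103 / 100 * (Zm * s) * t1 := by
      refine v1.trans ?_
      have h6 : (1.01 : ℝ) * (1.01 * (Zm * (t1 * s))) = 10201 / 10000 * (Zm * s) * t1 := by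
        norm_num
        ring
      rw [h6]
      apply mul_le_mul_of_nonneg_right _ ht1.le
      linarith
    exact le_of_mul_le_mul_right h5 ht1
  have w2 : |V - p2 * δ| ≤ 103 / 100 * (Zm * s) := by
    have h5 : |V - p2 * δ| * t2 ≤ 103 / 100 * (Zm * s) * t2 := by
      refine v2.trans ?_
      have h6 : (1.01 : ℝ) * (1.01 * (Zm * (t2 * s))) = 10201 / 10000 * (Zm * s) * t2 := by
        norm_num
        ring
      rw [h6]
      apply mul_le_mul_of_nonneg_right _ ht2.le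
      linarith
    exact le_of_mul_le_mul_right h5 ht2
  -- δ t2
  have hp1b : |p1| ≤ 101 / 100 * t1 := by
    have h : |p1| ≤ |p1 - κ * t1| + |κ * t1| := by
      have := abs_add_le (p1 - κ * t1) (κ * t1)
      simpa using this
    rw [abs_mul κ t1, hκ, one_mul, abs_of_pos ht1] at h
    linarith
  have low : ∀ (p t : ℝ), 0 < t → |p - κ * t| ≤ t / 10 ^ 6 → t1 ≤ t / 10 ^ 9 ∨ True →
      99 / 100 * t ≤ |p| := by
    intro p t ht hp _
    have h : |κ * t| ≤ |κ * t - p| + |p| := by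
      have := abs_add_le (κ * t - p) p
      simpa using this
    rw [abs_mul κ t, hκ, one_mul, abs_of_pos ht, abs_sub_comm] at h
    linarith
  have hp2b : 99 / 100 * t2 ≤ |p2| := low p2 t2 ht2 hp2 (Or.inr trivial)
  have d2 : |δ| * t2 ≤ 22 / 10 * (Zm * s) := by
    have h5 : |(p2 - p1) * δ| ≤ 206 / 100 * (Zm * s) := by
      have e1 : (p2 - p1) * δ = (V - p1 * δ) - (V - p2 * δ) := by ring
      rw [e1]
      refine (abs_sub _ _).trans ?_
      linarith
    rw [abs_mul] at h5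
    have h6 : 98 / 100 * t2 ≤ |p2 - p1| := by
      have h : |p2| ≤ |p2 - p1| + |p1| := by
        have := abs_add_le (p2 - p1) p1
        simpa using this
      linarith
    have h7 : 98 / 100 * t2 * |δ| ≤ |p2 - p1| * |δ| :=
      mul_le_mul_of_nonneg_right h6 (abs_nonneg _)
    have h8 : 98 / 100 * t2 * |δ| = 98 / 100 * (|δ| * t2) := by ring
    linarith
  have p1δ : |p1 * δ| ≤ 1 / 100 * (Zm * s) := by
    have h5 : |δ * p1| ≤ 22 / 10 * (Zm * s) * (1 / 10 ^ 3) := by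
      refine t7n_le d2 (c := p1) (d := 1 / 10 ^ 3) ?_ ht2 (by norm_num) rfl
      linarith
    rw [mul_comm] at h5
    linarith
  have Vb : |V| ≤ 105 / 100 * (Zm * s) := by
    have h : |V| ≤ |V - p1 * δ| + |p1 * δ| := by
      have := abs_add_le (V - p1 * δ) (p1 * δ)
      simpa using this
    linarith
  -- differences of the coordinates
  have xδ : |δ * x| ≤ 1 / 10 ^ 6 * (Zm * s) := by
    have h5 : |δ * x| ≤ 22 / 10 * (Zm * s) * (1 / 10 ^ 9) := by
      refine t7n_le d2 (c := x) (d := 1 / 10 ^ 9) ?_ ht2 (by norm_num) rfl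
      linarith
    linarith
  have hRa : R.a - E.a = dy - δ * x := by
    have := c4.1
    rw [hdy, hδ]
    linarith
  have hRc : R.c - E.c = dz - (R.d - E.d) * x := by
    have := c4.2
    rw [hdz]
    linarith
  have hZy : Zm * s ≤ 1 / 990 * (|y0| * s) := by
    have := mul_le_mul_of_nonneg_right hy1 hs.le
    linarith
  have hys : 0 ≤ |y0| * s := by positivity
  have Rab : |R.a - E.a| ≤ 102 / 100 * (|y0| * s) := by
    rw [hRa]
    refine (abs_sub _ _).trans ?_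
    linarith
  have goal2 : |R.a - E.a - y0 * E.a| ≤ |y0| * s / 10 := by
    have e1 : R.a - E.a - y0 * E.a = y0 * (E.a * (N - 1)) - δ * x := by
      rw [hRa, dyeq]
      ring
    rw [e1]
    refine (abs_sub _ _).trans ?_
    have h5 : |y0 * (E.a * (N - 1))| ≤ |y0| * (101 / 100 * s * e) := by
      rw [abs_mul, abs_mul]
      apply mul_le_mul_of_nonneg_left _ (abs_nonneg _)
      exact mul_le_mul Ea N1 (abs_nonneg _) (by positivity)
    have h6 : |y0| * (101 / 100 * s * e) = 101 / 100 * e * (|y0| * s) := by ring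
    have h7 : 101 / 100 * e * (|y0| * s) ≤ 1 / 100 * (|y0| * s) :=
      mul_le_mul_of_nonneg_right (by linarith) hys
    rw [h6] at h5
    linarith
  have Rdb : |R.d - E.d| ≤ 101 / 100 * (|y0| * s) := by
    have e1 : R.d - E.d = V + κ * (y0 * s) := by
      rw [hV]
      ring
    rw [e1]
    refine (abs_add_le _ _).trans ?_
    rw [abs_mul κ, hκ, one_mul, abs_mul y0 s, abs_of_pos hs]
    linarith
  -- pi
  have c6a := abs_le.1 c6
  have Rae : |R.a| ≤ 101 / 100 * s := by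
    rw [abs_le]
    constructor <;> linarith
  have hys2 : 0 ≤ |y0| * s ^ 2 := by positivity
  have pib : |R.pi - E.pi| ≤ 21 / 10 * (|y0| * s ^ 2) := by
    have e1 : R.pi - E.pi = (R.d - E.d) * R.a + E.d * (R.a - E.a) - (R.c - E.c) * R.b -
        E.c * δ := by
      rw [hδ]
      simp only [Ln.pi]
      ring
    have r1 : |(R.d - E.d) * R.a| ≤ 10201 / 10000 * (|y0| * s ^ 2) := by
      rw [abs_mul]
      calc |R.d - E.d| * |R.a| ≤ (101 / 100 * (|y0| * s)) * (101 / 100 * s) :=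
            mul_le_mul Rdb Rae (abs_nonneg _) (by positivity)
        _ = _ := by ring
    have r2 : |E.d * (R.a - E.a)| ≤ 10302 / 10000 * (|y0| * s ^ 2) := by
      rw [abs_mul]
      calc |E.d| * |R.a - E.a| ≤ (101 / 100 * s) * (102 / 100 * (|y0| * s)) :=
            mul_le_mul Ed Rab (abs_nonneg _) (by positivity)
        _ = _ := by ring
    have r3 : |R.c - E.c| ≤ 3 * (|y0| * (s * t0)) := by
      rw [hRc]
      refine (abs_sub _ _).trans ?_
      have h5 : |(R.d - E.d) * x| ≤ (101 / 100 * (|y0| * s)) * (102 / 100 * t0) := by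
        rw [abs_mul]
        exact mul_le_mul Rdb xb (abs_nonneg _) (by positivity)
      have h6 : (101 / 100 * (|y0| * s)) * (102 / 100 * t0) =
          10302 / 10000 * (|y0| * (s * t0)) := by ring
      rw [h6] at h5
      linarith
    have r4 : |(R.c - E.c) * R.b| ≤ 1 / 100 * (|y0| * s ^ 2) := by
      have h5 : |R.b * (R.c - E.c)| ≤ s / 100 * (|y0| * s) := by
        refine t7n_le c5 (c := R.c - E.c) (d := |y0| * s) ?_ ht1 (by positivity) rfl
        refine r3.trans ?_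
        have h7 : t0 ≤ t1 / 3 := by linarith
        have h8 : |y0| * (s * t0) ≤ |y0| * (s * (t1 / 3)) :=
          mul_le_mul_of_nonneg_left (mul_le_mul_of_nonneg_left h7 hs.le) (abs_nonneg _)
        calc 3 * (|y0| * (s * t0)) ≤ 3 * (|y0| * (s * (t1 / 3))) := by linarith
          _ = |y0| * s * t1 := by ring
      rw [mul_comm] at h5
      calc |(R.c - E.c) * R.b| ≤ s / 100 * (|y0| * s) := h5
        _ = _ := by ring
    have r5 : |E.c * δ| ≤ 1 / 1000 * (|y0| * s ^ 2) := by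
      have h5 : |δ * E.c| ≤ 22 / 10 * (Zm * s) * (s / 10) := by
        refine t7n_le d2 (c := E.c) (d := s / 10) ?_ ht2 (by positivity) rfl
        refine hE.hc.trans ?_
        have htm2 : tm ≤ t2 := by
          have : 1 * tm ≤ T * tm := mul_le_mul_of_nonneg_right (by linarith) h0.le
          linarith
        calc e * (s * tm) ≤ e * (s * t2) :=
              mul_le_mul_of_nonneg_left (mul_le_mul_of_nonneg_left htm2 hs.le) he0.le
          _ ≤ 1 / 10 * (s * t2) := mul_le_mul_of_nonneg_right (by linarith) (by positivity)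
          _ = _ := by ring
      rw [mul_comm] at h5
      have h6 : 22 / 10 * (Zm * s) * (s / 10) ≤ 22 / 10 * (1 / 990 * (|y0| * s)) * (s / 10) := by
        apply mul_le_mul_of_nonneg_right _ (by positivity)
        linarith
      have h7 : 22 / 10 * (1 / 990 * (|y0| * s)) * (s / 10) = 22 / 99000 * (|y0| * s ^ 2) := by
        ring
      linarith
    rw [e1]
    refine (abs_sub _ _).trans ?_
    have s1 := abs_sub ((R.d - E.d) * R.a + E.d * (R.a - E.a)) ((R.c - E.c) * R.b)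
    have s2 := abs_add_le ((R.d - E.d) * R.a) (E.d * (R.a - E.a))
    linarith
  -- the value at F_w
  obtain ⟨X, hXd⟩ : ∃ X, X = - (a0 + a1 * E.a - a2 * E.pi) / dv := ⟨_, rfl⟩
  have hdv0 : 0 < |dv| := abs_pos.mpr hdv
  have hfE : a0 + a1 * E.a - a2 * E.pi = - (X * dv) := by
    rw [hXd, div_mul_cancel₀ _ hdv, neg_neg]
  rw [← hXd] at hX hX1
  have hXdiv : (a0 + a1 * E.a - a2 * E.pi) / dv = - X := by
    rw [hfE]
    field_simp
  have hA : |a1| * s + |a2| * s ^ 2 ≤ 103 / 10 * (X * |dv|) := by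
    rw [hfE, abs_neg, abs_mul, abs_of_nonneg hX] at hnc
    have h5 : |a1| * (99 / 100 * s) ≤ |a1| * E.a := mul_le_mul_of_nonneg_left Ea1 (abs_nonneg _)
    have h6 : (99 / 100 * s) ^ 2 ≤ E.a ^ 2 := pow_le_pow_left₀ (by positivity) Ea1 2
    have h7 : |a2| * (99 / 100 * s) ^ 2 ≤ |a2| * E.a ^ 2 :=
      mul_le_mul_of_nonneg_left h6 (abs_nonneg _)
    have h8 : |a2| * (99 / 100 * s) ^ 2 = 9801 / 10000 * (|a2| * s ^ 2) := by ring
    have h9 := abs_nonneg a0
    have h10 : 0 ≤ |a1| * s := by positivity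
    have h11 : 0 ≤ |a2| * s ^ 2 := by positivity
    linarith
  have goal4 : |MM R Fw - X| ≤ X / 1000 := by
    have hk := hkill R c1 c2 c3
    have e1 : dv * (MM R Fw - X) = - (a1 * (R.a - E.a) - a2 * (R.pi - E.pi)) := by
      linear_combination hk - hfE
    have h5 : |dv * (MM R Fw - X)| ≤ 22 / 10 * |y0| * (|a1| * s + |a2| * s ^ 2) := by
      rw [e1, abs_neg]
      refine (abs_sub _ _).trans ?_
      have r1 : |a1 * (R.a - E.a)| ≤ |a1| * (102 / 100 * (|y0| * s)) := by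
        rw [abs_mul]
        exact mul_le_mul_of_nonneg_left Rab (abs_nonneg _)
      have r2 : |a2 * (R.pi - E.pi)| ≤ |a2| * (21 / 10 * (|y0| * s ^ 2)) := by
        rw [abs_mul]
        exact mul_le_mul_of_nonneg_left pib (abs_nonneg _)
      have r3 : |a1| * (102 / 100 * (|y0| * s)) = 102 / 100 * (|y0| * (|a1| * s)) := by ring
      have r4 : |a2| * (21 / 10 * (|y0| * s ^ 2)) = 21 / 10 * (|y0| * (|a2| * s ^ 2)) := by ring
      have r5 : 22 / 10 * |y0| * (|a1| * s + |a2| * s ^ 2) =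
          22 / 10 * (|y0| * (|a1| * s)) + 22 / 10 * (|y0| * (|a2| * s ^ 2)) := by ring
      have r6 : 0 ≤ |y0| * (|a1| * s) := by positivity
      have r7 : 0 ≤ |y0| * (|a2| * s ^ 2) := by positivity
      rw [r5]
      rw [r3] at r1
      rw [r4] at r2
      linarith
    rw [abs_mul] at h5
    have h6 : 22 / 10 * |y0| * (|a1| * s + |a2| * s ^ 2) ≤
        22 / 10 * |y0| * (103 / 10 * (X * |dv|)) := mul_le_mul_of_nonneg_left hA (by positivity)
    have h7 : |MM R Fw - X| * |dv| ≤ X / 1000 * |dv| := by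
      have h9 : |y0| ≤ 1 / 10 ^ 6 := by
        have : 1010 * Zm ≤ 1010 * (30 * e) := mul_le_mul_of_nonneg_left hZs (by norm_num)
        linarith
      have h10 : |y0| * (X * |dv|) ≤ 1 / 10 ^ 6 * (X * |dv|) :=
        mul_le_mul_of_nonneg_right h9 (by positivity)
      have h11 : 22 / 10 * |y0| * (103 / 10 * (X * |dv|)) =
          2266 / 100 * (|y0| * (X * |dv|)) := by ring
      have h12 : 0 ≤ X * |dv| := by positivity
      rw [h11] at h6
      have h13 : |MM R Fw - X| * |dv| = |dv| * |MM R Fw - X| := by ring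
      rw [h13]
      linarith
    exact le_of_mul_le_mul_right h7 hdv0
  -- the bound of δ at t_w
  have goal1 : |δ| * tw ≤ 5 * (Zm * s) := by
    rcases hcase with hcs | ⟨hc1, hc2⟩
    · have h5 : |δ| * tw ≤ |δ| * t2 := mul_le_mul_of_nonneg_left hcs (abs_nonneg _)
      linarith
    · have hbw : T * t0 ≤ tw := by
        have h5 : T * t0 ≤ T * t2 := mul_le_mul_of_nonneg_left (by linarith) (by linarith)
        linarith
      obtain ⟨p3, hp3, v3⟩ := t7n_node hc ht0 h0 ha hbw hc2 h1 h2 h3 hE hFw hxx hyy2 hdy3 hdz3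
        hy2 hy100 hZw hmw c4
      rw [← hδ, ← hV] at v3
      have hM : |MM R Fw| ≤ 251 / 100 * (Zm * (tw * s)) := by
        have h5 := abs_le.1 goal4
        have h6 : (2.5 : ℝ) = 5 / 2 := by norm_num
        rw [h6] at hX1
        rw [abs_le]
        constructor <;> linarith
      have w3 : |V - p3 * δ| ≤ 36 / 10 * (Zm * s) := by
        have h5 : |V - p3 * δ| * tw ≤ 36 / 10 * (Zm * s) * tw := by
          refine v3.trans ?_
          have h6 : (1.01 : ℝ) = 101 / 100 := by norm_num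
          rw [h6]
          have h7 : 0 ≤ Zm * (tw * s) := by positivity
          have h8 : 36 / 10 * (Zm * s) * tw = 36 / 10 * (Zm * (tw * s)) := by ring
          rw [h8]
          linarith
        exact le_of_mul_le_mul_right h5 htw
      have h9 := low p3 tw htw hp3 (Or.inr trivial)
      have h10 : |p3 * δ| ≤ 466 / 100 * (Zm * s) := by
        have h : |p3 * δ| ≤ |V| + |V - p3 * δ| := by
          have := abs_sub V (V - p3 * δ)
          simpa using this
        linarith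
      rw [abs_mul] at h10
      have h11 : 99 / 100 * tw * |δ| ≤ |p3| * |δ| := mul_le_mul_of_nonneg_right h9 (abs_nonneg _)
      have h12 : 99 / 100 * tw * |δ| = 99 / 100 * (|δ| * tw) := by ring
      linarith
  have goal3 : |(R.d - Fw.d * R.b) - (E.d - Fw.d * E.b) - κ * y0 * s| ≤ |y0| * s / 10 := by
    have e1 : (R.d - Fw.d * R.b) - (E.d - Fw.d * E.b) - κ * y0 * s = V - Fw.d * δ := by
      rw [hV, hδ]
      ring
    rw [e1]
    refine (abs_sub _ _).trans ?_
    have Fd : |Fw.d| ≤ 101 / 100 * tw := by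
      have h : |Fw.d| ≤ |Fw.d - κ * tw| + |κ * tw| := by
        have := abs_add_le (Fw.d - κ * tw) (κ * tw)
        simpa using this
      rw [abs_mul κ tw, hκ, one_mul, abs_of_pos htw] at h
      have h5 : e * tw ≤ 1 / 10 ^ 12 * tw := mul_le_mul_of_nonneg_right he1 htw.le
      linarith [hFw.hd]
    have h6 : |δ * Fw.d| ≤ 5 * (Zm * s) * (101 / 100) :=
      t7n_le goal1 (c := Fw.d) (d := 101 / 100) Fd htw (by norm_num) rfl
    rw [mul_comm] at h6
    linarith
  refine ⟨?_, goal2, goal3, ?_⟩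
  · rw [← hδ]
    linarith
  · rw [hXdiv, ← hXd]
    exact goal4

/-- The estimates for `R`. -/
theorem t7_R (κ e T : ℝ) (hc : Cst κ e T) (F : Fin 4 → Ln) (E : Ln) (t : Fin 4 → ℝ)
    (s tm tp sm sp y0 Zm : ℝ) (w : Fin 4)
    (h0 : 0 < tm) (ha : ∀ j, T * tm ≤ t j) (hb : ∀ i j, i < j → T * t i ≤ t j)
    (hd : ∀ j, T * t j ≤ tp) (h1 : 0 < sm) (h2 : T * sm ≤ s) (h3 : T * s ≤ sp)
    (hE : LB κ e s tm tp E) (hF : ∀ j, LB κ e (t j) sm sp (F j)) (hdw : dw F w ≠ 0)
    (hZ : ∀ j, 0 ≤ MM E (F j)) (hZm : ∀ j, MM E (F j) ≤ Zm * (t j * s)) (hZ1 : Zm ≤ 30 * e)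
    (hy1 : 990 * Zm ≤ |y0|) (hy2 : |y0| ≤ 1010 * Zm)
    (hnc : |A0 F| + |A1 F| * E.a + |A2 F| * E.a ^ 2 ≤ 10 * |fK F E|)
    (hX : 0 ≤ - fK F E / dw F w) (hX1 : - fK F E / dw F w ≤ 2.5 * MM E (F w)) :
    let R := Rln E (F (oth w 0)) (F (oth w 1)) (F (oth w 2)) y0
    |R.b - E.b| * t w ≤ 10 * Zm * s ∧ |R.a - E.a - y0 * E.a| ≤ |y0| * s / 10 ∧
    |(R.d - (F w).d * R.b) - (E.d - (F w).d * E.b) - κ * y0 * s| ≤ |y0| * s / 10 ∧
    |MM R (F w) + fK F E / dw F w| ≤ (- fK F E / dw F w) / 1000 := by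
  have hT : (10 : ℝ) ^ 9 ≤ T := hc.hT
  have hpos : ∀ j, 0 < t j := fun j => lt_of_lt_of_le (mul_pos (by linarith) h0) (ha j)
  have hle : ∀ i j, i < j → t i ≤ t j := fun i j hij => by
    have : 1 * t i ≤ T * t i := mul_le_mul_of_nonneg_right (by linarith) (hpos i).le
    linarith [hb i j hij]
  have o1 : oth w 0 < oth w 1 := by fin_cases w <;> decide
  have o2 : oth w 1 < oth w 2 := by fin_cases w <;> decide
  have hcase : t w ≤ t (oth w 2) ∨ (T * t (oth w 2) ≤ t w ∧ T * t w ≤ tp) := by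
    fin_cases w
    · exact Or.inl (hle 0 3 (by decide))
    · exact Or.inl (hle 1 3 (by decide))
    · exact Or.inl (hle 2 3 (by decide))
    · exact Or.inr ⟨hb 2 3 (by decide), hd 3⟩
  have hkill : ∀ R : Ln, MM R (F (oth w 0)) = 0 → MM R (F (oth w 1)) = 0 →
      MM R (F (oth w 2)) = 0 →
      dw F w * MM R (F w) = - (A0 F + A1 F * R.a - A2 F * R.pi) := by
    intro R z0 z1 z2
    have h := t1_kill F R
    rw [Fin.sum_univ_four] at h
    have h' : - (A0 F + A1 F * R.a - A2 F * R.pi) = - fK F R := rfl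
    rw [h', ← h]
    fin_cases w
    · have z0' : MM R (F 1) = 0 := z0
      have z1' : MM R (F 2) = 0 := z1
      have z2' : MM R (F 3) = 0 := z2
      rw [z0', z1', z2']
      simp
    · have z0' : MM R (F 0) = 0 := z0
      have z1' : MM R (F 2) = 0 := z1
      have z2' : MM R (F 3) = 0 := z2
      rw [z0', z1', z2']
      simp
    · have z0' : MM R (F 0) = 0 := z0
      have z1' : MM R (F 1) = 0 := z1
      have z2' : MM R (F 3) = 0 := z2
      rw [z0', z1', z2']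
      simp
    · have z0' : MM R (F 0) = 0 := z0
      have z1' : MM R (F 1) = 0 := z1
      have z2' : MM R (F 2) = 0 := z2
      rw [z0', z1', z2']
      simp
  exact t7q_core hc (F (oth w 0)) (F (oth w 1)) (F (oth w 2)) (F w) E (t (oth w 0)) (t (oth w 1))
    (t (oth w 2)) (t w) s tm tp sm sp y0 Zm (A0 F) (A1 F) (A2 F) (dw F w) h0 (ha _) (hb _ _ o1)
    (hb _ _ o2) (hd _) h1 h2 h3 hE (hF _) (hF _) (hF _) (hF _) (hpos w) hcase (hZ _) (hZ _)
    (hZ _) (hZ _) (hZm _) (hZm _) (hZm _) (hZm _) hZ1 hy1 hy2 hdw hnc hX hX1 hkill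

end Pool.Agent.BIP.TW
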