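import Pool.Agent.BIP.TDefs

/-!
# TWO, T7: one node seen from a point of the smallest of the other columns
-/

namespace Pool.Agent.BIP.TW

theorem t7n_le {a b c d u v : ℝ} (h : |a| * u ≤ b) (h' : |c| ≤ d * u) (hu : 0 < u) (hd : 0 ≤ d)
    (hv : v = b * d) : |a * c| ≤ v := by
  rw [abs_mul, hv]
  have h1 : |a| * |c| ≤ |a| * (d * u) := mul_le_mul_of_nonneg_left h' (abs_nonneg _)
  have h2 : |a| * (d * u) = (|a| * u) * d := by ring
  rw [h2] at h1
  exact h1.trans (mul_le_mul_of_nonneg_right h hd)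

theorem t7n_node {κ e T t s tm tp sm sp t0 x y z y0 Zm : ℝ} (hc : Cst κ e T) {E F R : Ln}
    (ht0 : 0 < t0) (h0 : 0 < tm) (ha : T * tm ≤ t0) (hb : T * t0 ≤ t) (hd : T * t ≤ tp)
    (h1 : 0 < sm) (h2 : T * sm ≤ s) (h3 : T * s ≤ sp) (hE : LB κ e s tm tp E)
    (hF : LB κ e t sm sp F) (hx : |x| ≤ 2 * t0) (hy : |y| ≤ 2 * s)
    (hyy : |y - (E.a + E.b * x) - y0 * s| ≤ 4 * e * |y0| * s)
    (hzz : |z - (E.c + E.d * x)| ≤ 3 * |y0| * (s * t0)) (hy0 : |y0| ≤ 1010 * Zm)
    (hy1 : |y0| ≤ 1 / 100) (hZ : 0 ≤ MM E F) (hZm : MM E F ≤ Zm * (t * s)) (hR : On R x y z) :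
    ∃ ψ, |ψ - κ * t| ≤ t / 10 ^ 6 ∧
      |(R.d - E.d - κ * (y0 * s)) - ψ * (R.b - E.b)| * t ≤
        1.01 * (|MM R F| + 1.01 * (Zm * (t * s))) := by
  have he0 : 0 < e := hc.he
  have he1 : e ≤ 1 / 10 ^ 12 := hc.he1
  have hT : (10 : ℝ) ^ 9 ≤ T := hc.hT
  have hκ : |κ| = 1 := by
    rcases hc.hκ with h | h <;> rw [h] <;> norm_num
  have hs : 0 < s := lt_of_lt_of_le (mul_pos (by linarith) h1) h2
  have ht : 0 < t := lt_of_lt_of_le (mul_pos (by linarith) ht0) hb
  have htt : t0 ≤ t / 10 ^ 9 := by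
    rw [le_div_iff₀ (by norm_num)]
    have : 10 ^ 9 * t0 ≤ T * t0 := mul_le_mul_of_nonneg_right hT ht0.le
    linarith
  have htm : tm ≤ t0 := by
    have : 1 * tm ≤ T * tm := mul_le_mul_of_nonneg_right (by linarith) h0.le
    linarith
  have htp : t ≤ tp := by
    have : 1 * t ≤ T * t := mul_le_mul_of_nonneg_right (by linarith) ht.le
    linarith
  have hsms : sm ≤ s := by
    have : 1 * sm ≤ T * sm := mul_le_mul_of_nonneg_right (by linarith) h1.le
    linarith
  have hssp : s ≤ sp := by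
    have : 1 * s ≤ T * s := mul_le_mul_of_nonneg_right (by linarith) hs.le
    linarith
  have hst : 0 < s * t := by positivity
  have hes1 : e * s ≤ 1 / 10 ^ 12 * s := mul_le_mul_of_nonneg_right he1 hs.le
  have hes0 : 0 ≤ e * s := by positivity
  have het1 : e * t ≤ 1 / 10 ^ 12 * t := mul_le_mul_of_nonneg_right he1 ht.le
  have het0 : 0 ≤ e * t := by positivity
  have a1 := abs_le.1 hE.ha
  have f1 := abs_le.1 hF.ha
  -- the small quantities
  have Fb : |F.b| * s ≤ e * t := (mul_le_mul_of_nonneg_left hssp (abs_nonneg _)).trans hF.hb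
  have Eb : |E.b| * t ≤ e * s := (mul_le_mul_of_nonneg_left htp (abs_nonneg _)).trans hE.hb
  have Fc : |F.c| ≤ s * t / 10 ^ 12 := by
    refine hF.hc.trans ?_
    calc e * (t * sm) ≤ e * (t * s) :=
          mul_le_mul_of_nonneg_left (mul_le_mul_of_nonneg_left hsms ht.le) he0.le
      _ ≤ 1 / 10 ^ 12 * (t * s) := mul_le_mul_of_nonneg_right he1 (by positivity)
      _ = _ := by ring
  have Ec : |E.c| ≤ s * t0 := by
    refine hE.hc.trans ?_
    calc e * (s * tm) ≤ e * (s * t0) :=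
          mul_le_mul_of_nonneg_left (mul_le_mul_of_nonneg_left htm hs.le) he0.le
      _ ≤ 1 * (s * t0) := mul_le_mul_of_nonneg_right (by linarith) (by positivity)
      _ = _ := by ring
  have Ed : |E.d| ≤ 101 / 100 * s := by
    have h : |E.d| ≤ |E.d - κ * s| + |κ * s| := by
      have := abs_add_le (E.d - κ * s) (κ * s)
      simpa using this
    rw [abs_mul κ s, hκ, one_mul, abs_of_pos hs] at h
    linarith [hE.hd]
  have Fd : |F.d| ≤ 101 / 100 * t := by
    have h : |F.d| ≤ |F.d - κ * t| + |κ * t| := by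
      have := abs_add_le (F.d - κ * t) (κ * t)
      simpa using this
    rw [abs_mul κ t, hκ, one_mul, abs_of_pos ht] at h
    linarith [hF.hd]
  have hx' : |x| ≤ 2 / 10 ^ 9 * t := by linarith
  have hxa := abs_le.1 hx'
  have g1 : |F.b * y| ≤ 2 * (e * t) := by
    refine t7n_le Fb (c := y) (d := 2) ?_ hs (by norm_num) (by ring)
    exact hy
  have g1a := abs_le.1 g1
  obtain ⟨X, hX⟩ : ∃ X, X = x - (F.a + F.b * y) := ⟨_, rfl⟩
  have X1 : |X + t| ≤ t / 10 ^ 8 := by
    rw [hX, abs_le]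
    constructor <;> linarith
  have X1a := abs_le.1 X1
  have Xneg : X < 0 := by linarith
  obtain ⟨dz, hdz⟩ : ∃ dz, dz = z - (E.c + E.d * x) := ⟨_, rfl⟩
  rw [← hdz] at hzz
  have hst0 : s * t0 ≤ s * t / 10 ^ 9 := by
    have := mul_le_mul_of_nonneg_left htt hs.le
    linarith
  have hst00 : 0 < s * t0 := by positivity
  have hyst : |y0| * (s * t0) ≤ 1 / 100 * (s * t0) := mul_le_mul_of_nonneg_right hy1 hst00.le
  have zb : |z| ≤ s * t / 10 ^ 8 := by
    have e1 : z = dz + (E.c + E.d * x) := by rw [hdz]; ring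
    have e2 : |E.d * x| ≤ 101 / 100 * s * (2 * t0) := by
      rw [abs_mul]
      exact mul_le_mul Ed hx (abs_nonneg _) (by positivity)
    rw [e1]
    have e3 := abs_add_le dz (E.c + E.d * x)
    have e4 := abs_add_le E.c (E.d * x)
    have e5 : 101 / 100 * s * (2 * t0) = 202 / 100 * (s * t0) := by ring
    rw [e5] at e2
    linarith
  obtain ⟨D, hD⟩ : ∃ D, D = z - (F.c + F.d * y) := ⟨_, rfl⟩
  have D1 : |D| ≤ 21 / 10 * (s * t) := by
    have e1 : |F.d * y| ≤ 101 / 100 * t * (2 * s) := by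
      rw [abs_mul]
      exact mul_le_mul Fd hy (abs_nonneg _) (by positivity)
    have e2 : |D| ≤ |z| + (|F.c| + |F.d * y|) := by
      rw [hD]
      refine (abs_sub _ _).trans ?_
      linarith [abs_add_le F.c (F.d * y)]
    have e5 : 101 / 100 * t * (2 * s) = 202 / 100 * (s * t) := by ring
    rw [e5] at e1
    linarith
  obtain ⟨r, hr⟩ : ∃ r, r = D / X := ⟨_, rfl⟩
  have hDr : D = r * X := by rw [hr, div_mul_cancel₀ _ Xneg.ne]
  have r1 : |r| ≤ 22 / 10 * s := by
    rw [hr, abs_div, abs_of_neg Xneg, div_le_iff₀ (by linarith)]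
    have h1 : 99 / 100 * t ≤ -X := by linarith
    have h2 : 22 / 10 * s * (99 / 100 * t) ≤ 22 / 10 * s * -X :=
      mul_le_mul_of_nonneg_left h1 (by positivity)
    have h3 : 22 / 10 * s * (99 / 100 * t) = 2178 / 1000 * (s * t) := by ring
    linarith
  have r2 : |F.b * r| ≤ 22 / 10 * (e * t) := by
    refine t7n_le Fb (c := r) (d := 22 / 10) ?_ hs (by norm_num) (by ring)
    exact r1
  have r2a := abs_le.1 r2
  have fd := abs_le.1 hF.hd
  refine ⟨F.d - F.b * r, ?_, ?_⟩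
  · rw [abs_le]
    constructor <;> linarith
  -- the identity
  obtain ⟨dy, hdy⟩ : ∃ dy, dy = y - (E.a + E.b * x) := ⟨_, rfl⟩
  rw [← hdy] at hyy
  obtain ⟨k, hk⟩ : ∃ k, k = F.d - F.b * E.d := ⟨_, rfl⟩
  have ident : X * ((R.d - E.d - κ * (y0 * s)) - (F.d - F.b * r) * (R.b - E.b)) =
      MM E F + (1 - F.b * E.b) * dz - MM R F -
        (k * (dy - y0 * s) + (k - κ * t) * (y0 * s) + (X + t) * (κ * (y0 * s))) := by
    obtain ⟨hRa0, hRd0⟩ := hR
    have hRa : R.a = y - R.b * x := by linarith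
    have hRc : R.c = z - R.d * x := by linarith
    have hEa : E.a = y - E.b * x - dy := by linarith
    have hEc : E.c = z - E.d * x - dz := by linarith
    have hFa : F.a = x - X - F.b * y := by linarith
    have hFc : F.c = z - r * X - F.d * y := by linarith
    simp only [MM, Ln.pi]
    rw [hRa, hRc, hEa, hEc, hFa, hFc, hk]
    ring
  have k1 : |F.b * E.d| ≤ 101 / 100 * (e * t) := by
    refine t7n_le Fb (c := E.d) (d := 101 / 100) ?_ hs (by norm_num) (by ring)
    exact Ed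
  have k1a := abs_le.1 k1
  have k2 : |k - κ * t| ≤ 3 * e * t := by
    rw [hk, abs_le]
    constructor <;> linarith
  have k3 : |k| ≤ 102 / 100 * t := by
    have h4 := abs_sub F.d (F.b * E.d)
    rw [← hk] at h4
    linarith
  have hes : 0 ≤ |y0| * (s * t) := by positivity
  have hee : e * (|y0| * (s * t)) ≤ 1 / 10 ^ 12 * (|y0| * (s * t)) :=
    mul_le_mul_of_nonneg_right he1 hes
  have t1 : |k * (dy - y0 * s)| ≤ 5 / 10 ^ 12 * (|y0| * (s * t)) := by
    rw [abs_mul]
    calc |k| * |dy - y0 * s| ≤ (102 / 100 * t) * (4 * e * |y0| * s) :=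
          mul_le_mul k3 hyy (abs_nonneg _) (by positivity)
      _ = 408 / 100 * (e * (|y0| * (s * t))) := by ring
      _ ≤ _ := by linarith
  have t2 : |(k - κ * t) * (y0 * s)| ≤ 3 / 10 ^ 12 * (|y0| * (s * t)) := by
    rw [abs_mul, abs_mul y0 s, abs_of_pos hs]
    calc |k - κ * t| * (|y0| * s) ≤ (3 * e * t) * (|y0| * s) :=
          mul_le_mul_of_nonneg_right k2 (by positivity)
      _ = 3 * (e * (|y0| * (s * t))) := by ring
      _ ≤ _ := by linarith
  have t3 : |(X + t) * (κ * (y0 * s))| ≤ 1 / 10 ^ 8 * (|y0| * (s * t)) := by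
    rw [abs_mul, abs_mul κ, hκ, one_mul, abs_mul y0 s, abs_of_pos hs]
    calc |X + t| * (|y0| * s) ≤ (t / 10 ^ 8) * (|y0| * s) :=
          mul_le_mul_of_nonneg_right X1 (by positivity)
      _ = _ := by ring
  have n1 : |F.b * E.b| ≤ e * e := by
    rw [abs_mul]
    have h : |F.b| * |E.b| * (s * t) ≤ e * e * (s * t) := by
      calc |F.b| * |E.b| * (s * t) = (|F.b| * s) * (|E.b| * t) := by ring
        _ ≤ (e * t) * (e * s) := mul_le_mul Fb Eb (by positivity) (by positivity)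
        _ = _ := by ring
    exact le_of_mul_le_mul_right h hst
  have n2 : |1 - F.b * E.b| ≤ 101 / 100 := by
    have h := abs_le.1 n1
    have h2 : e * e ≤ 1 / 10 ^ 12 * 1 := mul_le_mul he1 (by linarith) he0.le (by norm_num)
    rw [abs_le]
    constructor <;> linarith
  have t5 : |(1 - F.b * E.b) * dz| ≤ 4 / 10 ^ 9 * (|y0| * (s * t)) := by
    rw [abs_mul]
    calc |1 - F.b * E.b| * |dz| ≤ 101 / 100 * (3 * |y0| * (s * t0)) :=
          mul_le_mul n2 hzz (abs_nonneg _) (by norm_num)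
      _ = 303 / 100 * (|y0| * (s * t0)) := by ring
      _ ≤ 303 / 100 * (|y0| * (s * t / 10 ^ 9)) := by
          apply mul_le_mul_of_nonneg_left _ (by norm_num)
          exact mul_le_mul_of_nonneg_left hst0 (abs_nonneg _)
      _ = 303 / 10 ^ 11 * (|y0| * (s * t)) := by ring
      _ ≤ _ := by
          apply mul_le_mul_of_nonneg_right _ hes
          norm_num
  have hzm : 0 ≤ Zm := by linarith [abs_nonneg y0]
  have hzst : 0 ≤ Zm * (t * s) := by positivity
  have t6 : |y0| * (s * t) ≤ 1010 * (Zm * (t * s)) := by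
    have := mul_le_mul_of_nonneg_right hy0 hst.le
    linarith
  have main : |X * ((R.d - E.d - κ * (y0 * s)) - (F.d - F.b * r) * (R.b - E.b))| ≤
      |MM R F| + 1001 / 1000 * (Zm * (t * s)) := by
    rw [ident]
    have q1 := abs_sub (MM E F + (1 - F.b * E.b) * dz - MM R F)
      (k * (dy - y0 * s) + (k - κ * t) * (y0 * s) + (X + t) * (κ * (y0 * s)))
    have q2 := abs_sub (MM E F + (1 - F.b * E.b) * dz) (MM R F)
    have q3 := abs_add_le (MM E F) ((1 - F.b * E.b) * dz)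
    have q5 := abs_add_le (k * (dy - y0 * s) + (k - κ * t) * (y0 * s))
      ((X + t) * (κ * (y0 * s)))
    have q6 := abs_add_le (k * (dy - y0 * s)) ((k - κ * t) * (y0 * s))
    have q4 : |MM E F| ≤ Zm * (t * s) := by rwa [abs_of_nonneg hZ]
    linarith
  rw [abs_mul, abs_of_neg Xneg] at main
  obtain ⟨W, hW⟩ : ∃ W, W = |(R.d - E.d - κ * (y0 * s)) - (F.d - F.b * r) * (R.b - E.b)| :=
    ⟨_, rfl⟩
  rw [← hW] at main ⊢
  have hW0 : 0 ≤ W := by
    rw [hW]
    exact abs_nonneg _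
  have hXt' : 999 / 1000 * t ≤ -X := by linarith
  have m2 : 999 / 1000 * t * W ≤ |MM R F| + 1001 / 1000 * (Zm * (t * s)) :=
    (mul_le_mul_of_nonneg_right hXt' hW0).trans main
  have h4 := abs_nonneg (MM R F)
  have h5 : 999 / 1000 * t * W = 999 / 1000 * (W * t) := by ring
  rw [h5] at m2
  have h6 : (1.01 : ℝ) = 101 / 100 := by norm_num
  rw [h6]
  linarith

end Pool.Agent.BIP.TW
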