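import Pool.Agent.BIP.T1f
import Pool.Agent.BIP.T4cell

namespace Pool.Agent.BIP.TW

/-- pure numbers: the row-like line through the cell is not lower -/
theorem t8_num {M0 MR A c1 c2 al : ℝ} (hA : 0 ≤ A) (h0 : 0 < al)
    (hal : al ≤ M0 + 1.2 * A + |M0| / 10 ^ 6) (hc1 : |c1| ≤ |M0| / 10 ^ 6 + A)
    (hc2 : 890 * A ≤ c2) (hMR : MR = M0 + c1 + c2) : 0.99 * al ≤ MR := by
  have h1 := abs_le.1 hc1
  rcases le_total 0 M0 with h | h
  · rw [abs_of_nonneg h] at hal h1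
    linarith [h1.1]
  · rw [abs_of_nonpos h] at hal h1
    linarith [h1.1]

/-- pure numbers: the two chords of the column are above `R` -/
theorem t8_neg {MK τ m N D v s : ℝ} (hm : 0 < m) (hs : 0 < s) (hτ : τ < -(0.02 * m))
    (hN : |N| ≤ s * m / 10 ^ 6) (hD : 1 / 2 ≤ D) (hv : s / 2 ≤ |v|)
    (hMK : MK = τ - N / D / v) : MK < 0 := by
  have hv0 : v ≠ 0 := by
    intro h
    rw [h, abs_zero] at hv
    linarith
  have h1 : |N / D / v| ≤ m / 10 ^ 5 := by
    rw [abs_div, abs_div, abs_of_pos (by linarith : (0:ℝ) < D), div_div,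
      div_le_iff₀ (mul_pos (by linarith) (abs_pos.mpr hv0))]
    have h2 : s / 4 ≤ D * |v| := by
      have := mul_le_mul hD hv (by linarith) (by linarith)
      linarith
    calc |N| ≤ s * m / 10 ^ 6 := hN
      _ ≤ m / 10 ^ 5 * (s / 4) := by
        have : 0 < s * m := mul_pos hs hm
        linarith
      _ ≤ m / 10 ^ 5 * (D * |v|) := mul_le_mul_of_nonneg_left h2 (by positivity)
  have h2 := (abs_le.1 h1).1
  rw [hMK]
  linarith

theorem t8_nogap {κ e T t s tm tp sm sp : ℝ} {E F : Ln} {x y z : ℝ}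
    (h : Cell κ e T t s tm tp sm sp E F x y z) (xm ym zm xp yp zp : ℝ) (hEm : On E xm ym zm)
    (hEp : On E xp yp zp) (hxm : |xm - tm| ≤ e * tm) (hxp : |xp - tp| ≤ e * tp)
    (um vm wm up vp wp : ℝ) (hFm : On F vm um wm) (hFp : On F vp up wp)
    (hvm : |vm - sm| ≤ e * sm) (hvp : |vp - sp| ≤ e * sp) (hZ : 0 < MM E F)
    (hα : 0 < MM (Lth xm ym zm x y z) F ∨ 0 < MM (Lth x y z xp yp zp) F)
    (hβ : 0 ≤ MM E (Lth vm um wm y x z) ∨ 0 ≤ MM E (Lth y x z vp up wp))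
    (Zm y0 : ℝ) (hZm : MM E F ≤ Zm * (t * s)) (hZ1 : Zm ≤ 30 * e) (hy1 : 990 * Zm ≤ |y0|)
    (hy2 : |y0| ≤ 1010 * Zm) (hsg : 0 ≤ - (κ * oX F x y * y0)) (R : Ln)
    (hR1 : |R.b - E.b| * t ≤ 10 * Zm * s) (hR2 : |R.a - E.a - y0 * E.a| ≤ |y0| * s / 10)
    (hR3 : |(R.d - F.d * R.b) - (E.d - F.d * E.b) - κ * y0 * s| ≤ |y0| * s / 10)
    (hR4 : 0 ≤ MM R F)
    (hmiss : ¬ (0 ≤ MM R F ∧ MM R (Lth vm um wm y x z) < 0 ∧ MM R (Lth y x z vp up wp) < 0)) :
    0.97 * MM (Lth xm ym zm x y z) F ≤ MM R F ∧ 0.97 * MM (Lth x y z xp yp zp) F ≤ MM R F := by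
  obtain ⟨-, -, -, c4, c5, -⟩ := t4_cell h xm ym zm xp yp zp hEm hEp hxm hxp um vm wm up vp wp
    hFm hFp hvm hvp hZ (hα.imp le_of_lt le_of_lt) hβ
  have he := h.cst.he
  have he1 := h.cst.he1
  have hT := h.cst.hT
  have hκ := h.cst.hκ
  have tm0 := h.tm0
  have sm0 := h.sm0
  have ht1 := h.t1
  have ht2 := h.t2
  have hs1 := h.s1
  have hs2 := h.s2
  have hT0 : (0:ℝ) < T := by
    have : (0:ℝ) < 10 ^ 9 := by norm_num
    linarith
  have t0 : 0 < t := lt_of_lt_of_le (mul_pos hT0 tm0) ht1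
  have s0 : 0 < s := lt_of_lt_of_le (mul_pos hT0 sm0) hs1
  have tp0 : 0 < tp := lt_of_lt_of_le (mul_pos hT0 t0) ht2
  have sp0 : 0 < sp := lt_of_lt_of_le (mul_pos hT0 s0) hs2
  have hT4 : (4:ℝ) ≤ T := by
    have : (4:ℝ) ≤ 10 ^ 9 := by norm_num
    linarith
  have tmt : 4 * tm ≤ t := (mul_le_mul_of_nonneg_right hT4 tm0.le).trans ht1
  have ttp : 4 * t ≤ tp := (mul_le_mul_of_nonneg_right hT4 t0.le).trans ht2
  have sms : 4 * sm ≤ s := (mul_le_mul_of_nonneg_right hT4 sm0.le).trans hs1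
  have ssp : 4 * s ≤ sp := (mul_le_mul_of_nonneg_right hT4 s0.le).trans hs2
  have hts : 0 < t * s := mul_pos t0 s0
  have Zm0 : 0 < Zm := by
    by_contra hcon
    push Not at hcon
    have := mul_nonpos_of_nonpos_of_nonneg hcon hts.le
    linarith
  have es : 0 < e * s := mul_pos he s0
  have et : 0 < e * t := mul_pos he t0
  -- small facts
  have hx := abs_le.1 h.hx
  have hy := abs_le.1 h.hy
  have hEa := abs_le.1 h.lE.ha
  have hFa := abs_le.1 h.lF.ha
  have hEd := abs_le.1 h.lE.hd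
  have eb : |E.b| * t ≤ e * s := by
    have h1 := h.lE.hb
    have h2 : |E.b| * t ≤ |E.b| * tp := mul_le_mul_of_nonneg_left (by linarith) (abs_nonneg _)
    linarith
  have fb : |F.b| * s ≤ e * t := by
    have h1 := h.lF.hb
    have h2 : |F.b| * s ≤ |F.b| * sp := mul_le_mul_of_nonneg_left (by linarith) (abs_nonneg _)
    linarith
  have es1 : e * s ≤ s / 10 ^ 12 := by
    have := mul_le_mul_of_nonneg_right he1 s0.le
    linarith
  have et1 : e * t ≤ t / 10 ^ 12 := by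
    have := mul_le_mul_of_nonneg_right he1 t0.le
    linarith
  have y2 : |y| ≤ 2 * s := abs_le.2 ⟨by linarith [hy.1], by linarith [hy.2]⟩
  have x2 : |x| ≤ 2 * t := abs_le.2 ⟨by linarith [hx.1], by linarith [hx.2]⟩
  have fby : |F.b * y| ≤ 2 * (e * t) := by
    rw [abs_mul]
    calc |F.b| * |y| ≤ |F.b| * (2 * s) := mul_le_mul_of_nonneg_left y2 (abs_nonneg _)
      _ = 2 * (|F.b| * s) := by ring
      _ ≤ 2 * (e * t) := by linarith
  have hX : |oX F x y| ≤ 4 * (e * t) := by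
    have h1 := abs_le.1 fby
    rw [abs_le]
    unfold oX
    constructor <;> linarith [h1.1, h1.2, hx.1, hx.2, hFa.1, hFa.2]
  obtain ⟨X, hXe⟩ : ∃ X, X = oX F x y := ⟨_, rfl⟩
  obtain ⟨Dd, hDe⟩ : ∃ Dd, Dd = oD F y z := ⟨_, rfl⟩
  rw [← hXe] at hX hsg c4 c5
  have hXn : 0 ≤ |X| := abs_nonneg X
  -- bound of R.b
  have rb : |R.b| * t ≤ 301 * (e * s) := by
    have h1 : |R.b| ≤ |E.b| + |R.b - E.b| := by
      have := abs_add_le E.b (R.b - E.b)
      rwa [add_sub_cancel] at this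
    have h2 := mul_le_mul_of_nonneg_right h1 t0.le
    have h3 : 10 * Zm * s ≤ 300 * (e * s) := by
      have := mul_le_mul_of_nonneg_right hZ1 s0.le
      linarith
    linarith
  have rf : |R.b * F.b| ≤ 1 / 10 ^ 6 := by
    have h1 : (|R.b| * t) * (|F.b| * s) ≤ (301 * (e * s)) * (e * t) :=
      mul_le_mul rb fb (by positivity) (by positivity)
    have h2 : |R.b * F.b| * (t * s) ≤ (301 * (e * e)) * (t * s) := by
      rw [abs_mul]
      calc |R.b| * |F.b| * (t * s) = (|R.b| * t) * (|F.b| * s) := by ring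
        _ ≤ _ := h1
        _ = _ := by ring
    have h3 := le_of_mul_le_mul_right h2 hts
    have h4 : e * e ≤ 1 / 10 ^ 12 * (1 / 10 ^ 12) := mul_le_mul he1 he1 he.le (by norm_num)
    have h5 : (301 : ℝ) * (1 / 10 ^ 12 * (1 / 10 ^ 12)) ≤ 1 / 10 ^ 6 := by norm_num
    linarith
  have ef : |E.b * F.b| ≤ 1 / 10 ^ 6 := by
    have h1 : (|E.b| * t) * (|F.b| * s) ≤ (e * s) * (e * t) :=
      mul_le_mul eb fb (by positivity) (by positivity)
    have h2 : |E.b * F.b| * (t * s) ≤ (e * e) * (t * s) := by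
      rw [abs_mul]
      calc |E.b| * |F.b| * (t * s) = (|E.b| * t) * (|F.b| * s) := by ring
        _ ≤ _ := h1
        _ = _ := by ring
    have h3 := le_of_mul_le_mul_right h2 hts
    have h4 : e * e ≤ 1 / 10 ^ 12 * (1 / 10 ^ 12) := mul_le_mul he1 he1 he.le (by norm_num)
    have h5 : (1 / 10 ^ 12 * (1 / 10 ^ 12) : ℝ) ≤ 1 / 10 ^ 6 := by norm_num
    linarith
  have rf' := abs_le.1 rf
  have ef' := abs_le.1 ef
  -- bound of D
  have M0e : M0 E F x y z = (1 - E.b * F.b) * Dd - X * (E.d - F.d * E.b) := by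
    rw [hXe, hDe]; rfl
  have M0r : M0 R F x y z = (1 - R.b * F.b) * Dd - X * (R.d - F.d * R.b) := by
    rw [hXe, hDe]; rfl
  have hFd : |F.d| ≤ 2 * t := by
    have h1 := abs_le.1 h.lF.hd
    rcases hκ with hk | hk
    · rw [hk] at h1
      exact abs_le.2 ⟨by linarith [h1.1], by linarith [h1.2]⟩
    · rw [hk] at h1
      exact abs_le.2 ⟨by linarith [h1.1], by linarith [h1.2]⟩
  have hS : |E.d - F.d * E.b| ≤ 2 * s := by
    have h1 : |F.d * E.b| ≤ 2 * (e * s) := by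
      rw [abs_mul]
      calc |F.d| * |E.b| ≤ (2 * t) * |E.b| := mul_le_mul_of_nonneg_right hFd (abs_nonneg _)
        _ = 2 * (|E.b| * t) := by ring
        _ ≤ _ := by linarith
    have h2 := abs_le.1 h1
    rcases hκ with hk | hk
    · rw [hk] at hEd
      exact abs_le.2 ⟨by linarith [hEd.1, h2.2], by linarith [hEd.2, h2.1]⟩
    · rw [hk] at hEd
      exact abs_le.2 ⟨by linarith [hEd.1, h2.2], by linarith [hEd.2, h2.1]⟩
  have hD : |Dd| ≤ 2 * |M0 E F x y z| + 4 * (|X| * s) := by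
    have h1 : (1 - E.b * F.b) * Dd = M0 E F x y z + X * (E.d - F.d * E.b) := by
      rw [M0e]; ring
    have h2 : |(1 - E.b * F.b) * Dd| ≤ |M0 E F x y z| + |X| * (2 * s) := by
      rw [h1]
      refine (abs_add_le _ _).trans ?_
      rw [abs_mul X]
      have := mul_le_mul_of_nonneg_left hS hXn
      linarith
    have h3 : 1 / 2 * |Dd| ≤ |(1 - E.b * F.b) * Dd| := by
      rw [abs_mul]
      refine mul_le_mul_of_nonneg_right ?_ (abs_nonneg _)
      rw [abs_of_pos (by linarith [ef'.2])]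
      linarith [ef'.2]
    linarith
  -- the two corrections
  obtain ⟨c1, hc1e⟩ : ∃ c1, c1 = -((R.b - E.b) * F.b * Dd) := ⟨_, rfl⟩
  obtain ⟨c2, hc2e⟩ : ∃ c2, c2 = -(X * ((R.d - F.d * R.b) - (E.d - F.d * E.b))) := ⟨_, rfl⟩
  have hMR : M0 R F x y z = M0 E F x y z + c1 + c2 := by
    rw [M0r, M0e, hc1e, hc2e]; ring
  obtain ⟨A, hA⟩ : ∃ A, A = |X| * Zm * s := ⟨_, rfl⟩
  have hA0 : 0 ≤ A := by rw [hA]; positivity
  have hc1 : |c1| ≤ |M0 E F x y z| / 10 ^ 6 + A := by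
    have h1 : |(R.b - E.b) * F.b| ≤ 10 * Zm * e := by
      have h2 : (|R.b - E.b| * t) * (|F.b| * s) ≤ (10 * Zm * s) * (e * t) :=
        mul_le_mul hR1 fb (by positivity) (by positivity)
      have h3 : |(R.b - E.b) * F.b| * (t * s) ≤ (10 * Zm * e) * (t * s) := by
        rw [abs_mul]
        calc |R.b - E.b| * |F.b| * (t * s) = (|R.b - E.b| * t) * (|F.b| * s) := by ring
          _ ≤ _ := h2
          _ = _ := by ring
      exact le_of_mul_le_mul_right h3 hts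
    rw [hc1e, abs_neg, abs_mul]
    have hze : Zm * e ≤ 30 * (1 / 10 ^ 12 * (1 / 10 ^ 12)) := by
      have h4 : e * e ≤ 1 / 10 ^ 12 * (1 / 10 ^ 12) := mul_le_mul he1 he1 he.le (by norm_num)
      have h5 := mul_le_mul_of_nonneg_right hZ1 he.le
      linarith
    have h6 : 10 * Zm * e ≤ 1 / (4 * 10 ^ 6) := by
      have : (10 : ℝ) * (30 * (1 / 10 ^ 12 * (1 / 10 ^ 12))) ≤ 1 / (4 * 10 ^ 6) := by norm_num
      linarith
    have h7 : 10 * Zm * e ≤ Zm / 4 := by
      have h8 : 10 * e ≤ 1 / 4 := by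
        have : (10 : ℝ) * (1 / 10 ^ 12) ≤ 1 / 4 := by norm_num
        linarith
      have := mul_le_mul_of_nonneg_left h8 Zm0.le
      linarith
    calc |(R.b - E.b) * F.b| * |Dd| ≤ (10 * Zm * e) * (2 * |M0 E F x y z| + 4 * (|X| * s)) :=
          mul_le_mul h1 hD (abs_nonneg _) (by positivity)
      _ = (10 * Zm * e) * (2 * |M0 E F x y z|) + (10 * Zm * e) * (4 * (|X| * s)) := by ring
      _ ≤ 1 / (4 * 10 ^ 6) * (2 * |M0 E F x y z|) + Zm / 4 * (4 * (|X| * s)) :=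
          add_le_add (mul_le_mul_of_nonneg_right h6 (by positivity))
            (mul_le_mul_of_nonneg_right h7 (by positivity))
      _ ≤ |M0 E F x y z| / 10 ^ 6 + A := by
          rw [hA]
          have := abs_nonneg (M0 E F x y z)
          linarith
  have hc2 : 890 * A ≤ c2 := by
    have h1 : -(κ * X * y0) = |X| * |y0| := by
      rw [← abs_of_nonneg hsg, abs_neg, abs_mul, abs_mul]
      rcases hκ with hk | hk <;> rw [hk] <;> simp
    have h2 := abs_le.1 hR3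
    obtain ⟨δ, hδ⟩ : ∃ δ, δ = (R.d - F.d * R.b) - (E.d - F.d * E.b) - κ * y0 * s := ⟨_, rfl⟩
    rw [← hδ] at hR3
    have h3 : c2 = -(κ * X * y0) * s - X * δ := by
      rw [hc2e, hδ]; ring
    have h4 : |X * δ| ≤ |X| * (|y0| * s / 10) := by
      rw [abs_mul]
      exact mul_le_mul_of_nonneg_left hR3 hXn
    have h5 := (abs_le.1 h4).2
    have h6 : 9 / 10 * (|X| * |y0| * s) ≤ c2 := by
      rw [h3, h1]
      linarith
    have h7 : |X| * s * (990 * Zm) ≤ |X| * s * |y0| :=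
      mul_le_mul_of_nonneg_left hy1 (by positivity)
    rw [hA]
    have h8 : 0 ≤ |X| * Zm * s := by positivity
    linarith
  -- the value al
  obtain ⟨al, hal⟩ : ∃ al, al = max (MM (Lth xm ym zm x y z) F) (MM (Lth x y z xp yp zp) F) :=
    ⟨_, rfl⟩
  have hal0 : 0 < al := by
    rw [hal]
    rcases hα with h1 | h1
    · exact lt_max_of_lt_left h1
    · exact lt_max_of_lt_right h1
  have hZt : 1.2 * |X| * MM E F / t ≤ 1.2 * A := by
    rw [div_le_iff₀ t0, hA]
    have h1 := mul_le_mul_of_nonneg_left hZm (by positivity : 0 ≤ 1.2 * |X|)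
    calc 1.2 * |X| * MM E F ≤ 1.2 * |X| * (Zm * (t * s)) := h1
      _ = _ := by ring
  have hal1 : al ≤ M0 E F x y z + 1.2 * A + |M0 E F x y z| / 10 ^ 6 := by
    rw [hal]
    exact max_le (by linarith) (by linarith)
  have hm : 0.99 * al ≤ M0 R F x y z := t8_num hA0 hal0 hal1 hc1 hc2 hMR
  have hm0 : 0 < M0 R F x y z := by linarith
  obtain ⟨m, hme⟩ : ∃ m, m = M0 R F x y z := ⟨_, rfl⟩
  obtain ⟨τ, hτe⟩ : ∃ τ, τ = T0 R F x y z := ⟨_, rfl⟩
  rw [← hme] at hm hm0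
  have hsplit : MM R F = m + τ := by
    rw [hme, hτe]
    exact t1_split R F x y z
  -- it suffices
  suffices hsuff : 0.97 * al ≤ MM R F by
    constructor
    · have h1 : MM (Lth xm ym zm x y z) F ≤ al := by rw [hal]; exact le_max_left _ _
      linarith
    · have h1 : MM (Lth x y z xp yp zp) F ≤ al := by rw [hal]; exact le_max_right _ _
      linarith
  by_contra hcon
  push Not at hcon
  have hτ1 : τ < -(0.02 * m) := by linarith
  have hτ2 : |τ| ≤ m := abs_le.2 ⟨by linarith, by linarith⟩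
  -- offsets of R
  have y0b : |y0| ≤ 1 / 10 ^ 7 := by
    have h1 : 1010 * Zm ≤ 1010 * (30 * (1 / 10 ^ 12)) := by linarith
    have h2 : (1010 : ℝ) * (30 * (1 / 10 ^ 12)) ≤ 1 / 10 ^ 7 := by norm_num
    linarith
  have hoy : |oy R x y| ≤ s / (4 * 10 ^ 6) := by
    have h1 := abs_le.1 hR2
    have h2 : |y0 * E.a| ≤ 1 / 10 ^ 7 * (2 * s) := by
      rw [abs_mul]
      exact mul_le_mul y0b (abs_le.2 ⟨by linarith [hEa.1], by linarith [hEa.2]⟩) (abs_nonneg _)
        (by norm_num)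
    have h3 : |R.b * x| ≤ 602 * (e * s) := by
      rw [abs_mul]
      calc |R.b| * |x| ≤ |R.b| * (2 * t) := mul_le_mul_of_nonneg_left x2 (abs_nonneg _)
        _ = 2 * (|R.b| * t) := by ring
        _ ≤ _ := by linarith
    have h4 : |y0| * s / 10 ≤ 1 / 10 ^ 7 * s / 10 := by
      have := mul_le_mul_of_nonneg_right y0b s0.le
      linarith
    have h2' := abs_le.1 h2
    have h3' := abs_le.1 h3
    rw [abs_le]
    unfold oy
    constructor <;> linarith [h1.1, h1.2, h2'.1, h2'.2, h3'.1, h3'.2, hEa.1, hEa.2, hy.1, hy.2]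
  obtain ⟨N, hNe⟩ : ∃ N, N = oy R x y * m + R.b * X * τ := ⟨_, rfl⟩
  have hN : |N| ≤ s * m / 10 ^ 6 := by
    have h1 : |oy R x y * m| ≤ s / (4 * 10 ^ 6) * m := by
      rw [abs_mul, abs_of_pos hm0]
      exact mul_le_mul_of_nonneg_right hoy hm0.le
    have h2 : |R.b * X| ≤ s / (4 * 10 ^ 6) := by
      rw [abs_mul]
      have h3 : |R.b| * |X| ≤ |R.b| * (4 * (e * t)) := mul_le_mul_of_nonneg_left hX (abs_nonneg _)
      have h4 : |R.b| * (4 * (e * t)) = 4 * e * (|R.b| * t) := by ring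
      have h5 : 4 * e * (|R.b| * t) ≤ 4 * e * (301 * (e * s)) :=
        mul_le_mul_of_nonneg_left rb (by positivity)
      have h6 : 4 * e * (301 * (e * s)) ≤ 4 * (1 / 10 ^ 12) * (301 * (s / 10 ^ 12)) :=
        mul_le_mul (by linarith) (by linarith) (by positivity) (by norm_num)
      have h7 : 4 * (1 / 10 ^ 12) * (301 * (s / 10 ^ 12)) ≤ s / (4 * 10 ^ 6) := by
        have : (4 * (1 / 10 ^ 12) * (301 * (1 / 10 ^ 12)) : ℝ) ≤ 1 / (4 * 10 ^ 6) := by norm_num
        have := mul_le_mul_of_nonneg_right this s0.le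
        linarith
      linarith
    have h3 : |R.b * X * τ| ≤ s / (4 * 10 ^ 6) * m := by
      rw [abs_mul]
      exact mul_le_mul h2 hτ2 (abs_nonneg _) (by positivity)
    rw [hNe]
    refine (abs_add_le _ _).trans ?_
    have : 0 < s * m := mul_pos s0 hm0
    linarith
  have hvm' := abs_le.1 hvm
  have hvp' := abs_le.1 hvp
  have esm : e * sm ≤ sm / 10 ^ 12 := by
    have := mul_le_mul_of_nonneg_right he1 sm0.le
    linarith
  have esp : e * sp ≤ sp / 10 ^ 12 := by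
    have := mul_le_mul_of_nonneg_right he1 sp0.le
    linarith
  have v1 : s / 2 ≤ y - vm := by linarith [hvm'.2, hy.1]
  have v2 : s / 2 ≤ vp - y := by linarith [hvp'.1, hy.2]
  have hD1 : 1 / 2 ≤ 1 - R.b * F.b := by linarith [rf'.2]
  have hK : MM R (Lth vm um wm y x z) = τ - N / (1 - R.b * F.b) / (y - vm) := by
    rw [t1_K R F x y z um vm wm hFm (by intro hh; rw [hh, sub_self] at v1; linarith)
      (by linarith), hNe, hτe, hme, hXe]
  have hK' : MM R (Lth y x z vp up wp) = τ - N / (1 - R.b * F.b) / (y - vp) := by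
    rw [t1_Lth_symm y x z vp up wp (by intro hh; rw [hh, sub_self] at v2; linarith),
      t1_K R F x y z up vp wp hFp (by intro hh; rw [hh, sub_self] at v2; linarith)
      (by linarith), hNe, hτe, hme, hXe]
  refine hmiss ⟨hR4, ?_, ?_⟩
  · exact t8_neg hm0 s0 hτ1 hN hD1 (by rw [abs_of_pos (by linarith)]; exact v1) hK
  · exact t8_neg hm0 s0 hτ1 hN hD1 (by rw [abs_of_neg (by linarith)]; linarith) hK'

end Pool.Agent.BIP.TW
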