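import Pool.Agent.BIP.TDefs

/-!
# TWO: row t9_end (helper11)
-/

namespace Pool.Agent.BIP.TW

theorem t9_end (X Z α : ℝ) (hZ : 0 < Z) (hα : 0 < α) (h1 : α ≤ 0.51 * Z) (h2 : 0 ≤ X)
    (h3 : X < 2.5 * Z) (h4 : 0.97 * α ≤ 1.001 * X)
    (h : ∀ τ : ℝ, (τ = 3 / 2 ∨ τ = 1 ∨ τ = 4 / 5 ∨ τ = 1 / 2 ∨ τ = 3 / 10) →
      ¬ ((τ + 1 / 1000) * X < Z ∧ α ≤ (τ - 1 / 1000) * X)) : False := by
  have _ := h2
  norm_num at h1 h3 h4
  rcases le_or_gt X (3 / 5 * Z) with k1 | k1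
  · exact h (3 / 2) (Or.inl rfl) ⟨by norm_num; linarith, by norm_num; linarith⟩
  · rcases le_or_gt X (9 / 10 * Z) with k2 | k2
    · exact h 1 (Or.inr (Or.inl rfl)) ⟨by norm_num; linarith, by norm_num; linarith⟩
    · rcases le_or_gt X (11 / 10 * Z) with k3 | k3
      · exact h (4 / 5) (Or.inr (Or.inr (Or.inl rfl))) ⟨by norm_num; linarith, by norm_num; linarith⟩
      · rcases le_or_gt X (9 / 5 * Z) with k4 | k4
        · exact h (1 / 2) (Or.inr (Or.inr (Or.inr (Or.inl rfl))))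
            ⟨by norm_num; linarith, by norm_num; linarith⟩
        · exact h (3 / 10) (Or.inr (Or.inr (Or.inr (Or.inr rfl))))
            ⟨by norm_num; linarith, by norm_num; linarith⟩

end Pool.Agent.BIP.TW
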