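import Pool.Agent.BIP.NDefs

/-!
# TWO: definitions (lines in affine form)

A row-like line is `y = a + b x, z = c + d x`; a column-like line is `x = a + b y, z = c + d y`.
-/

namespace Pool.Agent.BIP.TW

/-- A line, as `s = a + b u`, `z = c + d u`. -/
structure Ln where
  a : ℝ
  b : ℝ
  c : ℝ
  d : ℝ

/-- The coordinate `d a - c b` of a line. -/
def Ln.pi (R : Ln) : ℝ := R.d * R.a - R.c * R.b

/-- The pairing of a row-like and a column-like line. -/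
def MM (R C : Ln) : ℝ :=
  R.c - C.c + R.d * C.a - C.d * R.a + C.b * R.pi - R.b * C.pi

/-- The line through `(u1, s1, z1)` and `(u2, s2, z2)`. -/
noncomputable def Lth (u1 s1 z1 u2 s2 z2 : ℝ) : Ln :=
  ⟨s1 - (s2 - s1) / (u2 - u1) * u1, (s2 - s1) / (u2 - u1),
    z1 - (z2 - z1) / (u2 - u1) * u1, (z2 - z1) / (u2 - u1)⟩

/-- The point with parameter `u` lies on the line. -/
def On (R : Ln) (u s z : ℝ) : Prop := s = R.a + R.b * u ∧ z = R.c + R.d * u

/-- Bounds for a line close to `s = σ`, `z = κ σ u` on `[tm, tp]`. -/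
structure LB (κ e σ tm tp : ℝ) (R : Ln) : Prop where
  ha : |R.a - σ| ≤ e * σ
  hb : |R.b| * tp ≤ e * σ
  hc : |R.c| ≤ e * (σ * tm)
  hd : |R.d - κ * σ| ≤ e * σ

/-- The standing assumptions on the constants. -/
structure Cst (κ e T : ℝ) : Prop where
  hκ : κ = 1 ∨ κ = -1
  he : 0 < e
  he1 : e ≤ 1 / 10 ^ 12
  hT : 10 ^ 9 ≤ T

/-- A cell `p = (x, y, z)` close to `(t, s, κ t s)`, with its row line `E` and its column line
`F`. -/
structure Cell (κ e T t s tm tp sm sp : ℝ) (E F : Ln) (x y z : ℝ) : Prop where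
  cst : Cst κ e T
  tm0 : 0 < tm
  sm0 : 0 < sm
  t1 : T * tm ≤ t
  t2 : T * t ≤ tp
  s1 : T * sm ≤ s
  s2 : T * s ≤ sp
  lE : LB κ e s tm tp E
  lF : LB κ e t sm sp F
  hx : |x - t| ≤ e * t
  hy : |y - s| ≤ e * s
  hz : |z - κ * (t * s)| ≤ e * (t * s)

/-- offsets -/
def oX (F : Ln) (x y : ℝ) : ℝ := x - F.a - F.b * y
def oD (F : Ln) (y z : ℝ) : ℝ := z - F.c - F.d * y
def oy (E : Ln) (x y : ℝ) : ℝ := E.a + E.b * x - y
def oz (E : Ln) (x z : ℝ) : ℝ := E.c + E.d * x - z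

/-- `M(E_p, F)`: the line through `p` parallel to `E` against `F`. -/
def M0 (E F : Ln) (x y z : ℝ) : ℝ :=
  (1 - E.b * F.b) * oD F y z - oX F x y * (E.d - F.d * E.b)

/-- `M(E, F_p)`. -/
def T0 (E F : Ln) (x y z : ℝ) : ℝ :=
  (1 - E.b * F.b) * oz E x z - oy E x y * (F.d - E.d * F.b)

/-- Minors. -/
def dd (F G H : Ln) : ℝ := (G.a - F.a) * (H.pi - F.pi) - (H.a - F.a) * (G.pi - F.pi)

/-- The killing weights of four columns. -/
def dw (F : Fin 4 → Ln) : Fin 4 → ℝ :=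
  ![dd (F 1) (F 2) (F 3), - dd (F 0) (F 2) (F 3), dd (F 0) (F 1) (F 3), - dd (F 0) (F 1) (F 2)]

def A0 (F : Fin 4 → Ln) : ℝ := ∑ j, dw F j * (F j).c
def A1 (F : Fin 4 → Ln) : ℝ := ∑ j, dw F j * (F j).d
def A2 (F : Fin 4 → Ln) : ℝ := ∑ j, dw F j * (F j).b

/-- `f(R) = A0 + A1 b - A2 π`. -/
def fK (F : Fin 4 → Ln) (R : Ln) : ℝ := A0 F + A1 F * R.a - A2 F * R.pi

/-- The lines `C_τ`. -/
noncomputable def Ct (F : Fin 4 → Ln) (w : Fin 4) (τ : ℝ) : Ln :=
  ⟨(F w).a, (F w).b - τ * A2 F / dw F w, (F w).c - τ * A0 F / dw F w,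
    (F w).d - τ * A1 F / dw F w⟩

/-- The point of the column-like line `G` at height `y` : the crossing with `E` shifted by
`y0 * E.a`. -/
noncomputable def yq (E G : Ln) (y0 : ℝ) : ℝ := (E.a + E.b * G.a) / (1 - E.b * G.b) + y0 * E.a

/-- The row-like line through the point `(x, y, z)` meeting the column-like lines `G`, `H`
(Cramer). -/
noncomputable def Rthr (x y z : ℝ) (G H : Ln) : Ln :=
  let X1 := oX G x y
  let D1 := oD G y z
  let U1 := G.b * D1 - X1 * G.d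
  let X2 := oX H x y
  let D2 := oD H y z
  let U2 := H.b * D2 - X2 * H.d
  let Δ := X1 * U2 - X2 * U1
  let b := (X1 * D2 - X2 * D1) / Δ
  let d := (D1 * U2 - D2 * U1) / Δ
  ⟨y - b * x, b, z - d * x, d⟩

/-- The test line `R`: through the point of `G0` at height `yq` meeting `G1`, `G2`. -/
noncomputable def Rln (E G0 G1 G2 : Ln) (y0 : ℝ) : Ln :=
  Rthr (G0.a + G0.b * yq E G0 y0) (yq E G0 y0) (G0.c + G0.d * yq E G0 y0) G1 G2

/-- Forms of a column-like line `x = a + b y, z = c + d y`. -/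
noncomputable def cF (C : Ln) : V4 →ₗ[ℝ] ℝ :=
  LinearMap.proj 1 - C.a • LinearMap.proj 0 - C.b • LinearMap.proj 2
noncomputable def cG (C : Ln) : V4 →ₗ[ℝ] ℝ :=
  LinearMap.proj 3 - C.c • LinearMap.proj 0 - C.d • LinearMap.proj 2

/-- Forms of a row-like line `y = a + b x, z = c + d x`. -/
noncomputable def rF (R : Ln) : V4 →ₗ[ℝ] ℝ :=
  LinearMap.proj 2 - R.a • LinearMap.proj 0 - R.b • LinearMap.proj 1
noncomputable def rG (R : Ln) : V4 →ₗ[ℝ] ℝ :=
  LinearMap.proj 3 - R.c • LinearMap.proj 0 - R.d • LinearMap.proj 1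

/-- The three other columns. -/
def oth : Fin 4 → Fin 3 → Fin 4 := ![![1, 2, 3], ![0, 2, 3], ![0, 1, 3], ![0, 1, 2]]

end Pool.Agent.BIP.TW
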