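import Pool.Agent.BIP.T1f
import Pool.Agent.BIP.T2f
import Pool.Agent.BIP.T3
import Pool.Agent.BIP.T4cell
import Pool.Agent.BIP.T4close
import Pool.Agent.BIP.T5pick
import Pool.Agent.BIP.T5nc
import Pool.Agent.BIP.T6Ct
import Pool.Agent.BIP.T7R10
import Pool.Agent.BIP.T8
import Pool.Agent.BIP.T9
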