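import Pool.Agent.BIP.Defs

/-!
# Assembly of the two halves
-/

namespace Pool.Agent.BIP

theorem D4_generic_transpose {m n : ℕ} (v : Fin m → Fin n → V4) (h : Generic v) :
    Generic (fun j i => v i j) := by
  intro a b c d hab hac had hbc hbd hcd
  refine h (a.2, a.1) (b.2, b.1) (c.2, c.1) (d.2, d.1) ?_ ?_ ?_ ?_ ?_ ?_ <;>
  · intro e
    rw [Prod.mk.injEq] at e
    first
      | exact hab (Prod.ext e.2 e.1) | exact hac (Prod.ext e.2 e.1) | exact had (Prod.ext e.2 e.1)
      | exact hbc (Prod.ext e.2 e.1) | exact hbd (Prod.ext e.2 e.1) | exact hcd (Prod.ext e.2 e.1)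

theorem generic_sub {m n m' n' : ℕ} (v : Fin m → Fin n → V4) (f : Fin m' → Fin m)
    (g : Fin n' → Fin n) (hf : StrictMono f) (hg : StrictMono g) (h : Generic v) :
    Generic (fun i j => v (f i) (g j)) := by
  have hinj : ∀ a b : Fin m' × Fin n', a ≠ b → (f a.1, g a.2) ≠ (f b.1, g b.2) := by
    intro a b hab e
    rw [Prod.mk.injEq] at e
    exact hab (Prod.ext (hf.injective e.1) (hg.injective e.2))
  intro a b c d hab hac had hbc hbd hcd
  exact h (f a.1, g a.2) (f b.1, g b.2) (f c.1, g c.2) (f d.1, g d.2) (hinj _ _ hab)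
    (hinj _ _ hac) (hinj _ _ had) (hinj _ _ hbc) (hinj _ _ hbd) (hinj _ _ hcd)

theorem hitRows_sub {m n m' n' : ℕ} (v : Fin m → Fin n → V4) (f : Fin m' → Fin m)
    (g : Fin n' → Fin n) (hf : Function.Injective f) (hg : Function.Injective g) (N : ℕ)
    (h : HitRows (fun i j => v (f i) (g j)) N) : HitRows v N := by
  classical
  obtain ⟨F, G, hFG, S, hS, hmet⟩ := h
  refine ⟨F, G, hFG, S.image f, by rw [Finset.card_image_of_injective _ hf]; exact hS, ?_⟩
  intro i hi
  obtain ⟨i', hi', rfl⟩ := Finset.mem_image.1 hi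
  obtain ⟨l, hl0, ⟨j0, hj0⟩, h1, h2⟩ := hmet i' hi'
  let l' : Fin n → ℝ := fun j => ∑ j', if g j' = j then l j' else 0
  have hsum : ∑ j, l' j • v (f i') j = ∑ j', l j' • v (f i') (g j') := by
    simp only [l', Finset.sum_smul]
    rw [Finset.sum_comm]
    refine Finset.sum_congr rfl fun j' _ => ?_
    simp
  refine ⟨l', fun j => Finset.sum_nonneg fun j' _ => by split_ifs <;> simp [hl0], ⟨g j0, ?_⟩,
    by rw [hsum]; exact h1, by rw [hsum]; exact h2⟩
  refine lt_of_lt_of_le hj0 ?_
  have := Finset.single_le_sum (f := fun j' => if g j' = g j0 then l j' else 0)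
    (fun j' _ => by split_ifs <;> simp [hl0]) (Finset.mem_univ j0)
  simpa using this

theorem hit_sub {m n m' n' : ℕ} (v : Fin m → Fin n → V4) (f : Fin m' → Fin m)
    (g : Fin n' → Fin n) (hf : Function.Injective f) (hg : Function.Injective g) (N : ℕ)
    (h : Hit (fun i j => v (f i) (g j)) N) : Hit v N := by
  rcases h with h | h
  · exact Or.inl (hitRows_sub v f g hf hg N h)
  · exact Or.inr (hitRows_sub (fun j i => v i j) g f hg hf N h)

/-- The two halves give the theorem for generic arrays. -/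
theorem hit_of_halves (N : ℕ) (hN : 1 ≤ N)
    (hSEG : ∃ (T : ℝ) (M : ℕ), ∀ (v : Fin M → Fin M → V4) (L : Fin 4 → (V4 →ₗ[ℝ] ℝ)),
      LinearIndependent ℝ L → (∀ k i j, 0 < L k (v i j)) →
      Segre T (fun k i j => L k (v i j)) → Generic v → Hit v N)
    (hRED : ∀ (M : ℕ) (T : ℝ), ∃ R, ∀ v : Fin R → Fin R → V4, Generic v →
      Hit v N ∨ ∃ (f g : Fin M → Fin R) (L : Fin 4 → (V4 →ₗ[ℝ] ℝ)), StrictMono f ∧ StrictMono g ∧
        LinearIndependent ℝ L ∧ (∀ k i j, 0 < L k (v (f i) (g j))) ∧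
        (Segre T (fun k i j => L k (v (f i) (g j))) ∨
          Segre T (fun k j i => L k (v (f i) (g j))))) :
    ∃ R : ℕ, 1 ≤ R ∧ ∀ v : Fin R → Fin R → V4, Generic v → Hit v N := by
  obtain ⟨T, M, hseg⟩ := hSEG
  obtain ⟨R, hred⟩ := hRED M T
  have main : ∀ v : Fin R → Fin R → V4, Generic v → Hit v N := by
    intro v hv
    rcases hred v hv with h | ⟨f, g, L, hf, hg, hL, hpos, h | h⟩
    · exact h
    · exact hit_sub v f g hf.injective hg.injective N
        (hseg _ L hL hpos h (generic_sub v f g hf hg hv))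
    · have h1 := hseg (fun j i => v (f i) (g j)) L hL (fun k j i => hpos k i j) h
        (D4_generic_transpose _ (generic_sub v f g hf hg hv))
      have h2 : Hit (fun i j => v (f i) (g j)) N := Or.symm h1
      exact hit_sub v f g hf.injective hg.injective N h2
  refine ⟨R, ?_, main⟩
  by_contra hR
  have hR0 : R = 0 := by omega
  subst hR0
  rcases main (fun i _ => i.elim0) (fun a => a.1.elim0) with ⟨_, _, _, S, hS, _⟩ |
    ⟨_, _, _, S, hS, _⟩
  · have : S.card = 0 := by
      rw [Finset.card_eq_zero]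
      exact Finset.eq_empty_of_forall_notMem fun i => i.elim0
    omega
  · have : S.card = 0 := by
      rw [Finset.card_eq_zero]
      exact Finset.eq_empty_of_forall_notMem fun i => i.elim0
    omega

end Pool.Agent.BIP
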